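import Mathlib

/-!
# NPW: interface between the algebra and the analysis

`Dat`: elements `z c` of a group `G` with levels `w c`, a map `S : ℕ^k → G`, sequences of coordinates.
`Bx`, `BN`: boxes and bounded products. `Ok`: the algebraic facts (A1)-(A4).
`Rep`: unitary representations. `Cc`, `Ph`, `FF`, `Pi`, `AA`: the operators.
-/

set_option autoImplicit false

open Finset
open scoped commutatorElement

namespace Pool.Agent.Lib.Npw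

/-- left differences `F(m)⁻¹ F(m+h)` -/
def ld {κ G : Type} [Group G] (h : κ → ℕ) (F : (κ → ℕ) → G) : (κ → ℕ) → G :=
  fun m => (F m)⁻¹ * F (m + h)

/-- iterated left differences, the first element of the list is applied first -/
def lds {κ G : Type} [Group G] : List (κ → ℕ) → ((κ → ℕ) → G) → (κ → ℕ) → G
  | [], F => F
  | h :: hs, F => lds hs (ld h F)

/-- The data. The level of `z c` is `lv c + 1`; the words have `2 ^ ρ` pairs of factors. -/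
structure Dat (G : Type) [Group G] where
  k : ℕ
  J : ℕ
  D : ℕ
  ρ : ℕ
  C1 : ℕ
  z : Fin D → G
  lv : Fin D → ℕ
  S : (Fin k → ℕ) → G
  co : (c : Fin D) → Fin (lv c) → Fin (2 ^ ρ) × Bool × Fin k
  cl : Fin D → Fin (2 ^ ρ) × Bool × Fin k

namespace Dat

variable {G : Type} [Group G] (A : Dat G)

/-- the coordinates of the words -/
abbrev Co : Type := Fin (2 ^ A.ρ) × Bool × Fin A.k

/-- the level of `z c` -/
def w (c : Fin A.D) : ℕ := A.lv c + 1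

/-- the constant `(J!)^(J - w c)` -/
def K (c : Fin A.D) : ℕ := A.J.factorial ^ (A.J - A.w c)

/-- the constant `(J!)^J` -/
def P0 : ℕ := A.J.factorial ^ A.J

/-- the word `∏_j S(x_{j,false})⁻¹ S(x_{j,true})` -/
def W (x : A.Co → ℕ) : G :=
  (List.ofFn fun j : Fin (2 ^ A.ρ) =>
    (A.S fun l => x (j, false, l))⁻¹ * A.S fun l => x (j, true, l)).prod

/-- the box: `z_c^e` with `c ≥ c0`, `K_c q ∣ e`, `|e| ≤ 2^(x w_c)` -/
def Bx (c0 q x : ℕ) : Set G :=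
  {g | ∃ (c : Fin A.D) (e : ℤ), c0 ≤ (c : ℕ) ∧ ((A.K c * q : ℕ) : ℤ) ∣ e ∧
    |e| ≤ 2 ^ (x * A.w c) ∧ g = A.z c ^ e}

/-- products of at most `N` elements of the box -/
def BN (N c0 q x : ℕ) : Set G :=
  {g | ∃ l : List G, l.length ≤ N ∧ (∀ y ∈ l, y ∈ A.Bx c0 q x) ∧ l.prod = g}

/-- small elements: `z_c^e` with `|e| ≤ 2^(x w_c)`, `S(v)^{±1}` with `v ≤ 2^x` -/
def Sm (x : ℕ) : Set G :=
  {g | (∃ (c : Fin A.D) (e : ℤ), |e| ≤ 2 ^ (x * A.w c) ∧ g = A.z c ^ e) ∨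
    ∃ v : Fin A.k → ℕ, (∀ l, v l ≤ 2 ^ x) ∧ (g = A.S v ∨ g = (A.S v)⁻¹)}

/-- products of at most `N` small elements -/
def SmN (N x : ℕ) : Set G :=
  {g | ∃ l : List G, l.length ≤ N ∧ (∀ y ∈ l, y ∈ A.Sm x) ∧ l.prod = g}

/-- the algebraic facts -/
structure Ok : Prop where
  S0 : A.S 0 = 1
  w_le : ∀ c, A.w c ≤ A.J
  mono : Monotone A.lv
  A1 : ∀ (c c' : Fin A.D) (e e' : ℤ) (q x y m t : ℕ), 0 < q →
    |e| ≤ 2 ^ (x * A.w c) → |e'| ≤ 2 ^ (y * A.w c') →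
    (((A.K c * q : ℕ) : ℤ) ∣ e ∨ ((A.K c' * q : ℕ) : ℤ) ∣ e') →
    A.P0 * q ≤ 2 ^ m → x ≤ m → y ≤ m → (x + A.J * t ≤ m ∨ y + A.J * t ≤ m) →
    ⁅A.z c ^ e, A.z c' ^ e'⁆ ∈ A.BN A.C1 (max (c : ℕ) c' + 1) q (m + A.C1 - t)
  A2 : ∀ (c : Fin A.D) (e : ℤ) (g : G) (v : Fin A.k → ℕ) (q x y m t : ℕ), 0 < q →
    (g = A.S v ∨ g = (A.S v)⁻¹) → (∀ l, v l ≤ 2 ^ y) → |e| ≤ 2 ^ (x * A.w c) →
    ((A.K c * q : ℕ) : ℤ) ∣ e → A.P0 * q ≤ 2 ^ m → x ≤ m → y ≤ m →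
    (x + A.J * t ≤ m ∨ y + A.J * t ≤ m) →
    ⁅g, A.z c ^ e⁆ ∈ A.BN A.C1 ((c : ℕ) + 1) q (m + A.C1 - t)
  A3 : ∀ (v h : Fin A.k → ℕ) (q x m t : ℕ), 0 < q → (∀ l, A.P0 * q ∣ h l) →
    (∀ l, v l ≤ 2 ^ m) → (∀ l, h l ≤ 2 ^ x) → x + A.J * t ≤ m →
    (A.S v)⁻¹ * A.S (v + h) ∈ A.BN A.C1 0 q (m + A.C1 - t)
  A4 : ∀ (c : Fin A.D) (v : A.Co → ℕ) (η : Fin (A.lv c) → ℕ) (h : ℕ) (q x m t : ℕ), 0 < q →
    A.P0 * q ∣ h → (∀ l, v l ≤ 2 ^ m) → (∀ j, η j ≤ 2 ^ m) → h ≤ 2 ^ x → x + A.J * t ≤ m →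
    ∃ y ∈ A.BN A.C1 ((c : ℕ) + 1) q (m + A.C1 - t),
      ld (Pi.single (A.cl c) h) (lds (List.ofFn fun j => Pi.single (A.co c j) (η j)) A.W) v =
        A.z c ^ ((∏ j, η j) * h) * y

end Dat

/-- a unitary representation -/
structure Rep (G H : Type) [Group G] [NormedAddCommGroup H] [InnerProductSpace ℂ H]
    [CompleteSpace H] where
  U : G →* (H →L[ℂ] H)
  star_U : ∀ g, star (U g) = U g⁻¹

variable {G H : Type} [Group G] [NormedAddCommGroup H] [InnerProductSpace ℂ H] [CompleteSpace H]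

/-- the average of the first `n` terms -/
noncomputable def avg (n : ℕ) (f : ℕ → H →L[ℂ] H) : H →L[ℂ] H := (n : ℂ)⁻¹ • ∑ m ∈ range n, f m

namespace Dat

variable (A : Dat G) (R : Rep G H)

/-- the length of the cyclic average -/
def ll (c : Fin A.D) (q n : ℕ) : ℕ := 2 ^ (n * A.w c) / (A.K c * q) + 1

/-- the cyclic average over `z_c^(K_c q m)`, `0 ≤ m < ll c q n` -/
noncomputable def Cc (c : Fin A.D) (q n : ℕ) : H →L[ℂ] H :=
  avg (A.ll c q n) fun m => R.U (A.z c ^ (A.K c * q * m))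

/-- the product of the last `j` cyclic averages, in decreasing order of the indices -/
noncomputable def PhR (q n : ℕ) : ℕ → (H →L[ℂ] H)
  | 0 => 1
  | j + 1 => PhR q n j * if h : A.D - 1 - j < A.D then A.Cc R ⟨A.D - 1 - j, h⟩ q n else 1

/-- `Cc (D-1) * ⋯ * Cc (c0+1) * Cc c0` -/
noncomputable def Ph (c0 q n : ℕ) : H →L[ℂ] H := A.PhR R q n (A.D - c0)

/-- `∑_{d ∣ q} μ(q/d) Ph d` -/
noncomputable def FF (c0 q n : ℕ) : H →L[ℂ] H :=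
  ∑ d ∈ q.divisors, ((ArithmeticFunction.moebius (q / d) : ℤ) : ℂ) • A.Ph R c0 d n

/-- the sum of the `FF q` over a set of moduli -/
noncomputable def Pi (c0 : ℕ) (s : Finset ℕ) (n : ℕ) : H →L[ℂ] H := ∑ q ∈ s, A.FF R c0 q n

/-- the average of `U(S(v))` over the cube `[0,M)^k` -/
noncomputable def AA (M : ℕ) : H →L[ℂ] H :=
  ((M : ℂ) ^ A.k)⁻¹ • ∑ v ∈ Fintype.piFinset (fun _ : Fin A.k => range M), R.U (A.S v)

end Dat

end Pool.Agent.Lib.Npw
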