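import Pool.Agent.Lib.Npw.InvR

/-!
# NPW (B2), (B3): commutation and left invariance

`comm_Sm`: let `g ∈ Sm x`. Downward induction on `c0`: `Ph c0 = Ph (c0+1) * Cc c0`,
`U(g) Ph (c0+1) ≈ Ph (c0+1) U(g)` by induction, and `Ph (c0+1) U(g) Cc c0` is the average of
`Ph (c0+1) U(g) U(u_m) = Ph (c0+1) U(⁅g, u_m⁆) U(u_m) U(g)` with `u_m = z_{c0}^(K q m)`, `|K q m| ≤ 2^(n w)`; by
(A1) (second exponent divisible, first one small) or (A2) `⁅g, u_m⁆ ∈ BN C1 (c0+1) q (n + C1 - t')` if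
`x + J t' ≤ n` (for (A1): the index is `max c' c0 + 1 ≥ c0 + 1`); take `t' = C1 + E' t` (`E'` from
`inv_right`) and use `RI.BN`. Constants as in `InvR` (`E = J (C1 + E') + 1`; `t = 0` is trivial).
`comm_loc`: for a product of `N` small elements move them one after the other; linear combinations.
`inv_left`: for `y ∈ Bx c0 q x`: `U(y) Ph ≈ Ph U(y) ≈ Ph`.
-/

set_option autoImplicit false

open Finset
open scoped commutatorElement

namespace Pool.Agent.Lib.Npw

variable {G H : Type} [Group G] [NormedAddCommGroup H] [InnerProductSpace ℂ H] [CompleteSpace H]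

namespace Dat

private theorem norm_mul_U_le (R : Rep G H) (T : H →L[ℂ] H) (g : G) : ‖T * R.U g‖ ≤ ‖T‖ := by
  refine (norm_mul_le _ _).trans ?_
  calc ‖T‖ * ‖R.U g‖ ≤ ‖T‖ * 1 := mul_le_mul_of_nonneg_left (R.norm_le g) (norm_nonneg _)
    _ = ‖T‖ := mul_one _

private theorem norm_U_mul_le (R : Rep G H) (T : H →L[ℂ] H) (g : G) : ‖R.U g * T‖ ≤ ‖T‖ := by
  refine (norm_mul_le _ _).trans ?_
  calc ‖R.U g‖ * ‖T‖ ≤ 1 * ‖T‖ := mul_le_mul_of_nonneg_right (R.norm_le g) (norm_nonneg _)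
    _ = ‖T‖ := one_mul _

/-- the commutator of a small element with a term of a cyclic average -/
private theorem comm_mem {A : Dat G} (hA : A.Ok) {E' q n x t m : ℕ} {g : G} (hq : 0 < q)
    (hn : A.P0 * q ≤ 2 ^ n) (ht : 0 < t) (hx : x + (A.J * (A.C1 + E') + E') * t ≤ n)
    (hg : g ∈ A.Sm x) (c : Fin A.D) (hm : m < A.ll c q n) :
    ⁅g, A.z c ^ (A.K c * q * m)⁆ ∈ A.BN A.C1 ((c : ℕ) + 1) q (n - E' * t) := by
  have h1 : (A.J * (A.C1 + E') + E') * t = A.J * A.C1 * t + A.J * (E' * t) + E' * t := by ring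
  have h2 : A.J * A.C1 ≤ A.J * A.C1 * t := Nat.le_mul_of_pos_right _ ht
  have h3 : x + A.J * (A.C1 + E' * t) ≤ n := by
    have : A.J * (A.C1 + E' * t) = A.J * A.C1 + A.J * (E' * t) := by ring
    omega
  have h4 : E' * t ≤ n := by omega
  have h5 : n + A.C1 - (A.C1 + E' * t) = n - E' * t := by omega
  have h6 : |((A.K c * q * m : ℕ) : ℤ)| ≤ 2 ^ (n * A.w c) := by
    rw [abs_of_nonneg (Int.natCast_nonneg _)]
    exact_mod_cast Kq_mul_le A hm
  have h7 : ((A.K c * q : ℕ) : ℤ) ∣ ((A.K c * q * m : ℕ) : ℤ) := by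
    rw [Int.natCast_dvd_natCast]
    exact Dvd.intro _ rfl
  rw [← h5]
  rcases hg with ⟨c', e, he, rfl⟩ | ⟨v, hv, hgv⟩
  · have h8 := hA.A1 c' c e ((A.K c * q * m : ℕ) : ℤ) q x n n (A.C1 + E' * t) hq he h6
      (Or.inr h7) hn (by omega) le_rfl (Or.inl h3)
    rw [zpow_natCast] at h8
    exact A.BN_mono le_rfl (Nat.succ_le_succ (le_max_right _ _)) dvd_rfl le_rfl h8
  · have h8 := hA.A2 c ((A.K c * q * m : ℕ) : ℤ) g v q n x n (A.C1 + E' * t) hq hgv hv h6 h7 hn
      le_rfl (by omega) (Or.inr h3)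
    rw [zpow_natCast] at h8
    exact h8

theorem comm_Sm {A : Dat G} (hA : A.Ok) (R : Rep G H) : ∃ C E : ℕ, ∀ (c0 q n x t : ℕ) (g : G),
    0 < q → A.P0 * q ≤ 2 ^ n → x + E * t ≤ n → g ∈ A.Sm x →
    ‖R.U g * A.Ph R c0 q n - A.Ph R c0 q n * R.U g‖ ≤ C * (1 / 2) ^ t := by
  obtain ⟨C', E', hinv⟩ := inv_right hA R
  refine ⟨2 + A.D * (A.C1 * C'), A.J * (A.C1 + E') + E', ?_⟩
  intro c0 q n x t g hq hn hx hg
  rcases Nat.eq_zero_or_pos t with rfl | ht
  · have h1 : ‖R.U g * A.Ph R c0 q n - A.Ph R c0 q n * R.U g‖ ≤ 2 := by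
      refine (norm_sub_le _ _).trans ?_
      have h2 := (norm_U_mul_le R (A.Ph R c0 q n) g).trans (norm_Ph_le A R c0 q n)
      have h3 := (norm_mul_U_le R (A.Ph R c0 q n) g).trans (norm_Ph_le A R c0 q n)
      linarith
    refine h1.trans ?_
    push_cast
    rw [pow_zero, mul_one]
    have : (0 : ℝ) ≤ (A.D : ℝ) * ((A.C1 : ℝ) * (C' : ℝ)) := by positivity
    linarith
  · have key : ∀ j c0 : ℕ, A.D - c0 = j →
        ‖R.U g * A.Ph R c0 q n - A.Ph R c0 q n * R.U g‖ ≤
          j * (A.C1 * (C' * (1 / 2) ^ t)) := by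
      intro j
      induction j with
      | zero =>
        intro c0 hc0
        rw [Ph_top A R (by omega), mul_one, one_mul, sub_self, norm_zero]
        simp
      | succ j ih =>
        intro c0 hc0
        have hlt : c0 < A.D := by omega
        have h1 := ih (c0 + 1) (by omega)
        rw [Ph_succ A R hlt]
        set P := A.Ph R (c0 + 1) q n with hP
        set Q := A.Cc R ⟨c0, hlt⟩ q n with hQ
        have h2 : R.U g * (P * Q) - P * Q * R.U g =
            (R.U g * P - P * R.U g) * Q + (P * R.U g * Q - P * (Q * R.U g)) := by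
          simp only [sub_mul, mul_assoc]
          abel
        have h3 : ‖(R.U g * P - P * R.U g) * Q‖ ≤ j * (A.C1 * (C' * (1 / 2) ^ t)) := by
          refine (norm_mul_le _ _).trans ?_
          calc ‖R.U g * P - P * R.U g‖ * ‖Q‖ ≤ ‖R.U g * P - P * R.U g‖ * 1 :=
                mul_le_mul_of_nonneg_left (norm_Cc_le A R _ _ _) (norm_nonneg _)
            _ ≤ _ := by rw [mul_one]; exact h1
        have hRI := hinv (c0 + 1) q n (n - E' * t) t hq hn (by
          have h1 : (A.J * (A.C1 + E') + E') * t = A.J * (A.C1 + E') * t + E' * t := by ring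
          omega)
        have h4 : ‖P * R.U g * Q - P * (Q * R.U g)‖ ≤ A.C1 * (C' * (1 / 2) ^ t) := by
          rw [hQ]
          unfold Cc
          rw [avg_mul, mul_avg, mul_avg]
          refine norm_avg_sub_le (by positivity) ?_
          intro m hm
          have h5 := comm_mem hA hq hn ht hx hg ⟨c0, hlt⟩ hm
          set u := A.z ⟨c0, hlt⟩ ^ (A.K ⟨c0, hlt⟩ * q * m) with hu
          have h6 := hRI.BN (by positivity) h5
          have h7 : P * R.U g * R.U u - P * (R.U u * R.U g) =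
              (P * R.U ⁅g, u⁆ - P) * R.U (u * g) := by
            rw [sub_mul, mul_assoc P (R.U ⁅g, u⁆), ← map_mul, mul_assoc P, ← map_mul, ← map_mul]
            congr 3
            rw [commutatorElement_def]
            group
          rw [h7]
          exact (norm_mul_U_le R _ _).trans h6
        rw [h2]
        refine (norm_add_le _ _).trans ?_
        push_cast
        linarith
    refine (key (A.D - c0) c0 rfl).trans ?_
    have h1 : ((A.D - c0 : ℕ) : ℝ) ≤ A.D := by exact_mod_cast Nat.sub_le _ _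
    have h2 : (0 : ℝ) ≤ (A.C1 : ℝ) * ((C' : ℝ) * (1 / 2) ^ t) := by positivity
    calc ((A.D - c0 : ℕ) : ℝ) * (A.C1 * (C' * (1 / 2) ^ t))
        ≤ A.D * (A.C1 * (C' * (1 / 2) ^ t)) := mul_le_mul_of_nonneg_right h1 h2
      _ = ((A.D * (A.C1 * C') : ℕ) : ℝ) * (1 / 2) ^ t := by push_cast; ring
      _ ≤ ((2 + A.D * (A.C1 * C') : ℕ) : ℝ) * (1 / 2) ^ t := by
          apply mul_le_mul_of_nonneg_right _ (by positivity)
          exact_mod_cast Nat.le_add_left _ _

theorem comm_loc {A : Dat G} (hA : A.Ok) (R : Rep G H) : ∃ C E : ℕ,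
    ∀ (c0 q n x t N : ℕ) (B : ℝ) (T : H →L[ℂ] H), 0 < q → A.P0 * q ≤ 2 ^ n → x + E * t ≤ n →
    A.Loc R N x B T →
    ‖T * A.Ph R c0 q n - A.Ph R c0 q n * T‖ ≤ C * N * B * (1 / 2) ^ t := by
  obtain ⟨C, E, hC⟩ := comm_Sm hA R
  refine ⟨C, E, ?_⟩
  intro c0 q n x t N B T hq hn hx hT
  set P := A.Ph R c0 q n with hP
  have h0 : (0 : ℝ) ≤ (C : ℝ) * (1 / 2) ^ t := by positivity
  have hlist : ∀ l : List G, (∀ y ∈ l, y ∈ A.Sm x) →
      ‖R.U l.prod * P - P * R.U l.prod‖ ≤ l.length * (C * (1 / 2) ^ t) := by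
    intro l
    induction l with
    | nil =>
      intro _
      simp
    | cons a l ih =>
      intro hl
      have h1 := ih fun y hy => hl y (List.mem_cons_of_mem _ hy)
      have h2 := hC c0 q n x t a hq hn hx (hl a List.mem_cons_self)
      have h3 : R.U (a :: l).prod * P - P * R.U (a :: l).prod =
          R.U a * (R.U l.prod * P - P * R.U l.prod) +
            (R.U a * P - P * R.U a) * R.U l.prod := by
        rw [List.prod_cons, map_mul]
        simp only [sub_mul, mul_sub, mul_assoc]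
        abel
      rw [h3]
      refine (norm_add_le _ _).trans ?_
      have h4 := (norm_U_mul_le R (R.U l.prod * P - P * R.U l.prod) a).trans h1
      have h5 := (norm_mul_U_le R (R.U a * P - P * R.U a) l.prod).trans h2
      rw [List.length_cons]
      push_cast
      linarith
  obtain ⟨k, a, g, hg, hB, rfl⟩ := hT
  have h1 : (∑ i, a i • R.U (g i)) * P - P * (∑ i, a i • R.U (g i)) =
      ∑ i, a i • (R.U (g i) * P - P * R.U (g i)) := by
    rw [Finset.sum_mul, Finset.mul_sum, ← Finset.sum_sub_distrib]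
    refine Finset.sum_congr rfl fun i _ => ?_
    rw [smul_mul_assoc, mul_smul_comm, smul_sub]
  rw [h1]
  refine (norm_sum_le _ _).trans ?_
  have h2 : ∀ i, ‖a i • (R.U (g i) * P - P * R.U (g i))‖ ≤ ‖a i‖ * (N * (C * (1 / 2) ^ t)) := by
    intro i
    rw [norm_smul]
    apply mul_le_mul_of_nonneg_left _ (norm_nonneg _)
    obtain ⟨l, hl1, hl2, hl3⟩ := hg i
    rw [← hl3]
    refine (hlist l hl2).trans ?_
    exact mul_le_mul_of_nonneg_right (by exact_mod_cast hl1) h0
  refine (Finset.sum_le_sum fun i _ => h2 i).trans ?_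
  rw [← Finset.sum_mul]
  have h3 : (0 : ℝ) ≤ (N : ℝ) * (C * (1 / 2) ^ t) := by positivity
  refine (mul_le_mul_of_nonneg_right hB h3).trans (le_of_eq ?_)
  ring

theorem inv_left {A : Dat G} (hA : A.Ok) (R : Rep G H) : ∃ C E : ℕ, ∀ c0 q n x t : ℕ, 0 < q →
    A.P0 * q ≤ 2 ^ n → x + E * t ≤ n → A.LI R c0 q x (C * (1 / 2) ^ t) (A.Ph R c0 q n) := by
  obtain ⟨C, E, hC⟩ := comm_Sm hA R
  obtain ⟨C', E', hinv⟩ := inv_right hA R
  refine ⟨C + C', E + E', ?_⟩
  intro c0 q n x t hq hn hx y hy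
  have hx1 : x + E * t ≤ n := by
    have : (E + E') * t = E * t + E' * t := by ring
    omega
  have hx2 : x + E' * t ≤ n := by
    have : (E + E') * t = E * t + E' * t := by ring
    omega
  have h1 := hC c0 q n x t y hq hn hx1 (A.Bx_sub_Sm _ _ _ hy)
  have h2 := hinv c0 q n x t hq hn hx2 y hy
  have h3 : R.U y * A.Ph R c0 q n - A.Ph R c0 q n =
      (R.U y * A.Ph R c0 q n - A.Ph R c0 q n * R.U y) +
        (A.Ph R c0 q n * R.U y - A.Ph R c0 q n) := by abel
  rw [h3]
  refine (norm_add_le _ _).trans ?_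
  push_cast
  linarith

end Dat

end Pool.Agent.Lib.Npw
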