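import Pool.Agent.Lib.Npw.ApiB

/-!
# NPW: the cyclic identity

Let `a = d / g`, `v = z_c^(K g)`, `L1 = ll c d n`, `L2 = ll c g n'`, `L3 = ll c g n`, so `Cc c d n = avg L1 U(v^(a m))`,
`Cc c g n' = avg L2 U(v^m)`, `Cc c g n = avg L3 U(v^m)`.
1. `L2 ≥ 2^(n' w)/(K g)`. `avg L2 U(v^m)` differs from the average over `a * (L2 / a)` terms by `≤ 2 a / L2 ≤ 2 P0 d (1/2)^n'` (norm), and
   the latter is `avg (L2/a) U(v^(a m)) * avg a U(v^m)` (if `a ≤ L2`; otherwise the bound is trivial: `P0 d (1/2)^n' ≥ ..`).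
2. `avg L1 U(v^(a m)) * U(v^(a m')) ≈ avg L1 U(v^(a m))` with error `2 m' / L1` (`avg_shift`), `m' ≤ L2 / a`, `L2 / (a L1) ≤ `
   `(2^(n' w) + K g) K d / (K g a 2^(n w)) ≤ 2 * (1/2)^(n - n')`.
3. `avg L1 U(v^(a m)) * avg a U(v^m) = avg (a L1) U(v^m)`, and `|a L1 - L3| ≤ a + 1`, so it differs from `avg L3` by
   `≤ 2 (a+1) / max(..) ≤ 4 P0 d (1/2)^n`.
Total `≤ C ((1/2)^t + d (1/2)^n')`.
-/

set_option autoImplicit false

open Finset

namespace Pool.Agent.Lib.Npw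

variable {G H : Type} [Group G] [NormedAddCommGroup H] [InnerProductSpace ℂ H] [CompleteSpace H]

namespace CycAux

theorem avg_len {H : Type} [NormedAddCommGroup H] [InnerProductSpace ℂ H] [CompleteSpace H]
    {f : ℕ → H →L[ℂ] H} (hf : ∀ m, ‖f m‖ ≤ 1) {N M : ℕ} (hN : 0 < N) (h : N ≤ M) :
    ‖avg N f - avg M f‖ ≤ 2 * ((M : ℝ) - N) / M := by
  have hN' : (0 : ℝ) < N := by exact_mod_cast hN
  have hM' : (0 : ℝ) < M := by exact_mod_cast hN.trans_le h
  have hNM : (N : ℝ) ≤ M := by exact_mod_cast h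
  have h1 : ∑ m ∈ range M, f m = ∑ m ∈ range N, f m + ∑ m ∈ Ico N M, f m :=
    (sum_range_add_sum_Ico f h).symm
  have h2 : avg N f - avg M f =
      ((N : ℂ)⁻¹ - (M : ℂ)⁻¹) • ∑ m ∈ range N, f m - (M : ℂ)⁻¹ • ∑ m ∈ Ico N M, f m := by
    unfold avg
    rw [h1, smul_add, sub_smul]
    abel
  have h3 : ‖∑ m ∈ range N, f m‖ ≤ N := by
    have h := norm_sum_le_of_le (range N) (fun m _ => hf m)
    simpa using h
  have h4 : ‖∑ m ∈ Ico N M, f m‖ ≤ (M : ℝ) - N := by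
    have h := norm_sum_le_of_le (Ico N M) (fun m _ => hf m)
    rw [sum_const, Nat.card_Ico, nsmul_eq_mul, mul_one, Nat.cast_sub ‹N ≤ M›] at h
    exact h
  have h5 : (0 : ℝ) ≤ (N : ℝ)⁻¹ - (M : ℝ)⁻¹ := sub_nonneg.2 (inv_anti₀ hN' hNM)
  have h6 : ‖(N : ℂ)⁻¹ - (M : ℂ)⁻¹‖ = (N : ℝ)⁻¹ - (M : ℝ)⁻¹ := by
    have h7 : (N : ℂ)⁻¹ - (M : ℂ)⁻¹ = (((N : ℝ)⁻¹ - (M : ℝ)⁻¹ : ℝ) : ℂ) := by
      push_cast
      rfl
    rw [h7, Complex.norm_real, Real.norm_eq_abs, abs_of_nonneg h5]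
  have h8 : ‖(M : ℂ)⁻¹‖ = (M : ℝ)⁻¹ := by
    rw [norm_inv, Complex.norm_natCast]
  rw [h2]
  refine (norm_sub_le _ _).trans ?_
  rw [norm_smul, norm_smul, h6, h8]
  have h9 : ((N : ℝ)⁻¹ - (M : ℝ)⁻¹) * ‖∑ m ∈ range N, f m‖ ≤ ((N : ℝ)⁻¹ - (M : ℝ)⁻¹) * N :=
    mul_le_mul_of_nonneg_left h3 h5
  have h10 : (M : ℝ)⁻¹ * ‖∑ m ∈ Ico N M, f m‖ ≤ (M : ℝ)⁻¹ * ((M : ℝ) - N) :=
    mul_le_mul_of_nonneg_left h4 (inv_nonneg.2 hM'.le)
  have h11 : ((N : ℝ)⁻¹ - (M : ℝ)⁻¹) * N + (M : ℝ)⁻¹ * ((M : ℝ) - N) =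
      2 * ((M : ℝ) - N) / M := by
    field_simp
    ring
  linarith

theorem sum_block {H : Type} [NormedAddCommGroup H] [InnerProductSpace ℂ H] [CompleteSpace H]
    {f : ℕ → H →L[ℂ] H} (hf : ∀ m m', f m * f m' = f (m + m')) (a L : ℕ) :
    (∑ m ∈ range L, f (a * m)) * ∑ m ∈ range a, f m = ∑ m ∈ range (a * L), f m := by
  induction L with
  | zero => simp
  | succ L ih =>
    rw [sum_range_succ, add_mul, ih, Nat.mul_succ, sum_range_add, mul_sum]
    congr 1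
    exact sum_congr rfl fun i _ => hf _ _

theorem avg_block {H : Type} [NormedAddCommGroup H] [InnerProductSpace ℂ H] [CompleteSpace H]
    {f : ℕ → H →L[ℂ] H} (hf : ∀ m m', f m * f m' = f (m + m')) (a L : ℕ) :
    (avg L fun m => f (a * m)) * avg a f = avg (a * L) f := by
  unfold avg
  rw [smul_mul_assoc, mul_smul_comm, smul_smul, sum_block hf]
  congr 1
  push_cast
  rw [mul_inv, mul_comm]

theorem r1 {x w K g a d L P : ℕ} (hL : 2 ^ (x * w) < K * g * L) (hd : d = g * a) (hK : K ≤ P)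
    (hw : 1 ≤ w) : (a : ℝ) / L ≤ P * d * (1 / 2) ^ x := by
  have hL0 : 0 < L := by
    rcases Nat.eq_zero_or_pos L with h | h
    · subst h
      simp at hL
    · exact h
  have hL1 : (0 : ℝ) < L := by exact_mod_cast hL0
  have h1 : a * 2 ^ x ≤ P * d * L := by
    calc a * 2 ^ x ≤ a * 2 ^ (x * w) :=
          Nat.mul_le_mul_left _ (Nat.pow_le_pow_right (by norm_num) (Nat.le_mul_of_pos_right _ hw))
      _ ≤ a * (K * g * L) := Nat.mul_le_mul_left _ hL.le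
      _ = K * (d * L) := by rw [hd]; ring
      _ ≤ P * (d * L) := Nat.mul_le_mul_right _ hK
      _ = P * d * L := by ring
  have h2 : (a : ℝ) * 2 ^ x ≤ P * d * L := by exact_mod_cast h1
  have h3 : (0 : ℝ) < 2 ^ x := by positivity
  rw [one_div, inv_pow, ← div_eq_mul_inv, div_le_div_iff₀ hL1 h3]
  exact h2

theorem r2 {n n' t w K g a d L1 L2 P : ℕ} (h1 : 2 ^ (n * w) < K * d * L1)
    (h2 : K * g * L2 ≤ 2 ^ (n' * w) + K * g) (hd : d = g * a) (hK : K ≤ P) (hw : 1 ≤ w)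
    (ha : 0 < a) (ht : n' + t ≤ n) :
    (L2 : ℝ) / (a * L1) ≤ (1 / 2) ^ t + P * d * (1 / 2) ^ n' := by
  have hL0 : 0 < L1 := by
    rcases Nat.eq_zero_or_pos L1 with h | h
    · subst h
      simp at h1
    · exact h
  have hL1 : (0 : ℝ) < a * L1 := by exact_mod_cast Nat.mul_pos ha hL0
  have h3 : L2 * 2 ^ (n * w) ≤ (2 ^ (n' * w) + K * g) * (a * L1) := by
    calc L2 * 2 ^ (n * w) ≤ L2 * (K * d * L1) := Nat.mul_le_mul_left _ h1.le
      _ = (K * g * L2) * (a * L1) := by rw [hd]; ring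
      _ ≤ _ := Nat.mul_le_mul_right _ h2
  have h4 : (L2 : ℝ) * 2 ^ (n * w) ≤ (2 ^ (n' * w) + K * g) * (a * L1) := by exact_mod_cast h3
  have h5 : (0 : ℝ) < 2 ^ (n * w) := by positivity
  have h6 : (L2 : ℝ) / (a * L1) ≤ (2 ^ (n' * w) + K * g) / 2 ^ (n * w) := by
    rw [div_le_div_iff₀ hL1 h5]
    exact h4
  refine h6.trans ?_
  rw [add_div]
  refine add_le_add ?_ ?_
  · have h7 : (2 : ℝ) ^ t * 2 ^ (n' * w) ≤ 2 ^ (n * w) := by
      rw [← pow_add]
      refine pow_le_pow_right₀ (by norm_num) ?_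
      calc t + n' * w ≤ t * w + n' * w := Nat.add_le_add_right (Nat.le_mul_of_pos_right _ hw) _
        _ = (n' + t) * w := by ring
        _ ≤ n * w := Nat.mul_le_mul_right _ ht
    have h8 : (0 : ℝ) < 2 ^ t := by positivity
    rw [one_div, inv_pow, ← one_div, div_le_div_iff₀ h5 h8]
    linarith
  · have h9 : K * g * 2 ^ n' ≤ P * d * 2 ^ (n * w) := by
      have h10 : g ≤ d := by
        rw [hd]
        exact Nat.le_mul_of_pos_right _ ha
      have h11 : n' ≤ n * w := ((Nat.le_add_right _ _).trans ht).trans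
        (Nat.le_mul_of_pos_right _ hw)
      exact Nat.mul_le_mul (Nat.mul_le_mul hK h10) (Nat.pow_le_pow_right (by norm_num) h11)
    have h10 : (K : ℝ) * g * 2 ^ n' ≤ P * d * 2 ^ (n * w) := by exact_mod_cast h9
    have h8 : (0 : ℝ) < 2 ^ n' := by positivity
    rw [one_div, inv_pow, ← div_eq_mul_inv, div_le_div_iff₀ h5 h8]
    exact h10

theorem r3 {D a L2 L1 L3 P d t n' : ℝ} (hP : 1 ≤ P) (ht : 0 ≤ t)
    (h1 : a / L2 ≤ P * d * n') (h2 : L2 / (a * L1) ≤ t + P * d * n')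
    (h3 : a / L3 ≤ P * d * n') (hD : D ≤ 2 * (a / L2) + 2 * (L2 / (a * L1)) + 2 * (a / L3)) :
    D ≤ 6 * P * (t + d * n') := by
  have h4 : 0 ≤ (P - 1) * t := mul_nonneg (by linarith) ht
  have h5 : 0 ≤ P * t := mul_nonneg (by linarith) ht
  nlinarith

end CycAux

namespace Dat

theorem cyc (A : Dat G) (R : Rep G H) : ∃ C : ℕ, ∀ (c : Fin A.D) (d g n n' t : ℕ), 0 < g → 0 < d →
    g ∣ d → n' + t ≤ n →
    ‖A.Cc R c d n * A.Cc R c g n' - A.Cc R c g n‖ ≤ C * ((1 / 2) ^ t + d * (1 / 2) ^ n') := by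
  refine ⟨6 * A.P0, ?_⟩
  rintro c d g n n' t hg hd ⟨a, hda⟩ ht
  have ha : 0 < a := by
    rcases Nat.eq_zero_or_pos a with h | h
    · rw [h, mul_zero] at hda
      omega
    · exact h
  have hw : 1 ≤ A.w c := Nat.succ_le_succ (Nat.zero_le _)
  have hK : A.K c ≤ A.P0 := Nat.le_of_dvd A.P0_pos (A.K_dvd_P0 c)
  obtain ⟨v, hv⟩ : ∃ v : G, v = A.z c ^ (A.K c * g) := ⟨_, rfl⟩
  obtain ⟨f, hf⟩ : ∃ f : ℕ → H →L[ℂ] H, f = fun m => R.U (v ^ m) := ⟨_, rfl⟩
  obtain ⟨L1, hL1⟩ : ∃ L1, L1 = A.ll c d n := ⟨_, rfl⟩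
  obtain ⟨L2, hL2⟩ : ∃ L2, L2 = A.ll c g n' := ⟨_, rfl⟩
  obtain ⟨L3, hL3⟩ : ∃ L3, L3 = A.ll c g n := ⟨_, rfl⟩
  have p1 : 0 < L1 := hL1 ▸ A.ll_pos c d n
  have p2 : 0 < L2 := hL2 ▸ A.ll_pos c g n'
  have p3 : 0 < L3 := hL3 ▸ A.ll_pos c g n
  have q1 : 2 ^ (n * A.w c) < A.K c * d * L1 := hL1 ▸ A.lt_mul_ll hd n
  have q2 : 2 ^ (n' * A.w c) < A.K c * g * L2 := hL2 ▸ A.lt_mul_ll hg n'
  have q3 : 2 ^ (n * A.w c) < A.K c * g * L3 := hL3 ▸ A.lt_mul_ll hg n
  have q4 : A.K c * g * L2 ≤ 2 ^ (n' * A.w c) + A.K c * g := by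
    rw [hL2, ll, Nat.mul_succ]
    exact Nat.add_le_add_right (Nat.mul_div_le _ _) _
  -- the operators
  have e1 : A.Cc R c d n = avg L1 fun m => f (a * m) := by
    rw [Cc, ← hL1]
    congr 1
    funext m
    rw [hf, hv]
    show R.U (A.z c ^ (A.K c * d * m)) = R.U ((A.z c ^ (A.K c * g)) ^ (a * m))
    rw [← pow_mul, hda]
    congr 2
    ring
  have e2 : A.Cc R c g n' = avg L2 f := by
    rw [Cc, ← hL2]
    congr 1
    funext m
    rw [hf, hv]
    show R.U (A.z c ^ (A.K c * g * m)) = R.U ((A.z c ^ (A.K c * g)) ^ m)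
    rw [← pow_mul]
  have e3 : A.Cc R c g n = avg L3 f := by
    rw [Cc, ← hL3]
    congr 1
    funext m
    rw [hf, hv]
    show R.U (A.z c ^ (A.K c * g * m)) = R.U ((A.z c ^ (A.K c * g)) ^ m)
    rw [← pow_mul]
  have hfm : ∀ m m', f m * f m' = f (m + m') := by
    intro m m'
    rw [hf]
    show R.U (v ^ m) * R.U (v ^ m') = R.U (v ^ (m + m'))
    rw [← map_mul, ← pow_add]
  have hfn : ∀ m, ‖f m‖ ≤ 1 := by
    intro m
    rw [hf]
    exact R.norm_le _
  have n1 : ‖avg L1 fun m => f (a * m)‖ ≤ 1 := norm_avg_le zero_le_one fun m _ => hfn _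
  have n2 : ∀ L, ‖avg L f‖ ≤ 1 := fun L => norm_avg_le zero_le_one fun m _ => hfn _
  -- first step
  have s1 : ‖(avg L1 fun m => f (a * m)) * avg L2 f - avg (a * L1) f‖ ≤
      2 * ((a : ℝ) / L2) + 2 * ((L2 : ℝ) / (a * L1)) := by
    have hp2 : (0 : ℝ) < L2 := by exact_mod_cast p2
    have hp1 : (0 : ℝ) < L1 := by exact_mod_cast p1
    have hpa : (0 : ℝ) < a := by exact_mod_cast ha
    rcases Nat.lt_or_ge L2 a with hlt | hge
    · have t1 : (1 : ℝ) ≤ (a : ℝ) / L2 := by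
        rw [le_div_iff₀ hp2, one_mul]
        exact_mod_cast hlt.le
      have t2 : 0 ≤ (L2 : ℝ) / (a * L1) := by positivity
      have t3 : ‖(avg L1 fun m => f (a * m)) * avg L2 f‖ ≤ 1 := by
        refine (norm_mul_le _ _).trans ?_
        exact mul_le_one₀ n1 (norm_nonneg _) (n2 _)
      have t4 := norm_sub_le ((avg L1 fun m => f (a * m)) * avg L2 f) (avg (a * L1) f)
      have t5 := n2 (a * L1)
      linarith
    · obtain ⟨i, hi⟩ : ∃ i, i = L2 / a := ⟨_, rfl⟩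
      have i0 : 0 < i := by
        rw [hi]
        exact Nat.div_pos hge ha
      have i1 : a * i ≤ L2 := by
        rw [hi]
        exact Nat.mul_div_le _ _
      have i2 : L2 < a * i + a := by
        rw [hi]
        have := Nat.lt_mul_div_succ L2 ha
        rw [Nat.mul_succ] at this
        exact this
      have t1 : ‖avg (a * i) f - avg L2 f‖ ≤ 2 * ((a : ℝ) / L2) := by
        refine (CycAux.avg_len hfn (Nat.mul_pos ha i0) i1).trans ?_
        rw [mul_div_assoc]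
        refine mul_le_mul_of_nonneg_left ?_ zero_le_two
        refine div_le_div_of_nonneg_right ?_ hp2.le
        have h : (L2 : ℝ) < a * i + a := by exact_mod_cast i2
        push_cast
        linarith
      have t2 : avg (a * i) f = (avg i fun m => f (a * m)) * avg a f := (CycAux.avg_block hfm a i).symm
      have t3 : avg (a * L1) f = (avg L1 fun m => f (a * m)) * avg a f :=
        (CycAux.avg_block hfm a L1).symm
      have t4 : ‖(avg L1 fun m => f (a * m)) * (avg i fun m => f (a * m)) -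
          avg L1 fun m => f (a * m)‖ ≤ 2 * ((L2 : ℝ) / (a * L1)) := by
        have u1 : (avg i fun _ => avg L1 fun m => f (a * m)) = avg L1 fun m => f (a * m) :=
          avg_const i0 _
        have u2 : (0 : ℝ) ≤ 2 * ((L2 : ℝ) / (a * L1)) := by positivity
        rw [mul_avg]
        nth_rewrite 2 [← u1]
        refine norm_avg_sub_le u2 fun j hj => ?_
        have u3 := avg_shift R (v ^ a) p1 (j : ℤ)
        have u4 : (avg L1 fun m => R.U ((v ^ a) ^ m)) = avg L1 fun m => f (a * m) := by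
          congr 1
          funext m
          rw [hf]
          show R.U ((v ^ a) ^ m) = R.U (v ^ (a * m))
          rw [← pow_mul]
        have u5 : R.U ((v ^ a) ^ (j : ℤ)) = f (a * j) := by
          rw [hf, zpow_natCast, ← pow_mul]
        rw [u4, u5] at u3
        refine u3.trans ?_
        have u6 : a * j ≤ L2 := (Nat.mul_le_mul_left _ hj.le).trans i1
        have u7 : (a : ℝ) * j ≤ L2 := by exact_mod_cast u6
        have u8 : |((j : ℤ) : ℝ)| = (j : ℝ) := by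
          rw [Int.cast_natCast, abs_of_nonneg (Nat.cast_nonneg _)]
        rw [u8, mul_div_assoc]
        refine mul_le_mul_of_nonneg_left ?_ zero_le_two
        rw [div_le_div_iff₀ hp1 (mul_pos hpa hp1)]
        nlinarith
      have t5 : (avg L1 fun m => f (a * m)) * avg L2 f - avg (a * L1) f =
          ((avg L1 fun m => f (a * m)) * (avg i fun m => f (a * m)) -
            avg L1 fun m => f (a * m)) * avg a f -
          (avg L1 fun m => f (a * m)) * (avg (a * i) f - avg L2 f) := by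
        rw [t2, t3, sub_mul, mul_sub, mul_assoc]
        abel
      rw [t5]
      refine (norm_sub_le _ _).trans ?_
      have t6 : ‖((avg L1 fun m => f (a * m)) * (avg i fun m => f (a * m)) -
            avg L1 fun m => f (a * m)) * avg a f‖ ≤ 2 * ((L2 : ℝ) / (a * L1)) := by
        refine (norm_mul_le _ _).trans ?_
        have := mul_le_mul t4 (n2 a) (norm_nonneg _) ((norm_nonneg _).trans t4)
        rwa [mul_one] at this
      have t7 : ‖(avg L1 fun m => f (a * m)) * (avg (a * i) f - avg L2 f)‖ ≤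
          2 * ((a : ℝ) / L2) := by
        refine (norm_mul_le _ _).trans ?_
        have := mul_le_mul n1 t1 (norm_nonneg _) zero_le_one
        rwa [one_mul] at this
      linarith
  have s2 : ‖avg (a * L1) f - avg L3 f‖ ≤ 2 * ((a : ℝ) / L3) := by
    obtain ⟨X, hX⟩ : ∃ X, X = 2 ^ (n * A.w c) / (A.K c * g) := ⟨_, rfl⟩
    have x3 : L3 = X + 1 := by rw [hL3, ll, hX]
    have x1 : L1 = X / a + 1 := by
      rw [hL1, ll, hX, hda, ← mul_assoc, Nat.div_div_eq_div_mul]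
    have x4 : L3 ≤ a * L1 := by
      rw [x3, x1]
      exact Nat.lt_mul_div_succ X ha
    have x5 : a * L1 ≤ L3 + a := by
      rw [x3, x1, Nat.mul_succ]
      have := Nat.mul_div_le X a
      omega
    have hp3 : (0 : ℝ) < L3 := by exact_mod_cast p3
    rw [norm_sub_rev]
    refine (CycAux.avg_len hfn p3 x4).trans ?_
    rw [mul_div_assoc]
    refine mul_le_mul_of_nonneg_left ?_ zero_le_two
    have x6 : ((a * L1 : ℕ) : ℝ) - L3 ≤ a := by
      have h : ((a * L1 : ℕ) : ℝ) ≤ L3 + a := by exact_mod_cast x5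
      linarith
    have x7 : (L3 : ℝ) ≤ ((a * L1 : ℕ) : ℝ) := by exact_mod_cast x4
    exact div_le_div₀ (Nat.cast_nonneg _) x6 hp3 x7
  have hD : ‖A.Cc R c d n * A.Cc R c g n' - A.Cc R c g n‖ ≤
      2 * ((a : ℝ) / L2) + 2 * ((L2 : ℝ) / (a * L1)) + 2 * ((a : ℝ) / L3) := by
    rw [e1, e2, e3]
    have h := norm_sub_le_norm_sub_add_norm_sub ((avg L1 fun m => f (a * m)) * avg L2 f)
      (avg (a * L1) f) (avg L3 f)
    linarith
  have r1 := CycAux.r1 q2 hda hK hw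
  have r2 := CycAux.r2 q1 q4 hda hK hw ha ht
  have r3 := CycAux.r1 q3 hda hK hw
  have r4 : (A.P0 : ℝ) * d * (1 / 2) ^ n ≤ A.P0 * d * (1 / 2) ^ n' := by
    refine mul_le_mul_of_nonneg_left ?_ (by positivity)
    exact pow_le_pow_of_le_one (by norm_num) (by norm_num) ((Nat.le_add_right _ _).trans ht)
  have r5 := CycAux.r3 (D := ‖A.Cc R c d n * A.Cc R c g n' - A.Cc R c g n‖)
    (show (1 : ℝ) ≤ A.P0 by exact_mod_cast A.P0_pos) (show (0 : ℝ) ≤ (1 / 2) ^ t by positivity)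
    r1 r2 (r3.trans r4) hD
  push_cast
  exact r5

end Dat

end Pool.Agent.Lib.Npw
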