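import Pool.Agent.Lib.Npw.ResOne

/-!
# NPW (B5): residues, the whole product

Let `g = gcd d d'`. Replace the factors `Cc c d' n'` of `Ph c0 d' n'` by `Cc c g n'` one after the other from the left (indices
`c = D-1, ..., c0`). State for `c0 ≤ j ≤ D`: `‖T * Ph j d' n' - T * Ph j g n'‖ ≤ (D - j) * bound`, downward induction with `Ph_succ`:
`T Ph j d' = T Ph (j+1) d' Cc j d' ≈ T Ph (j+1) g Cc j d' ≈ T Ph (j+1) g Cc j g`, the last step by
`per_one` (twice: both `T' Cc j d'` and `T' Cc j g` are `≈ T' per j d g`, `gcd d g = g`) for the operator `T' = T * Ph (j+1) g n'`, which is `RI c0 d n' ((C1+1)^D δ)` by `RI.mul_loc` (`loc_Ph`, `x = n'`, `N = D`,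
`x' = n' + D C1`). For the adjoints: `star (Ph c0) = star (Cc c0) * star (Ph (c0+1))`; replace from the left again, the operators
`T * star (Cc c0 g) * ⋯ * star (Cc (j-1) g)` are right invariant by `RI.mul_loc` (local with `N ≤ D`): e.g. induction on
`D - c0` for all `T` with `‖T‖ ≤ 1` (hypothesis `RI c0 d (n' + (D - c0) C1) δ T`): `T star(Cc c0 d') star(Ph (c0+1) d')
≈ T star(Cc c0 g) star(Ph (c0+1) d')`, then the induction hypothesis for `T star(Cc c0 g)`, with `RI.mono` to `c0+1`.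
The same induction with the other order of the factors proves the first part.
-/

set_option autoImplicit false

open Finset

namespace Pool.Agent.Lib.Npw

variable {G H : Type} [Group G] [NormedAddCommGroup H] [InnerProductSpace ℂ H] [CompleteSpace H]

namespace Dat

namespace ResAux

theorem star_norm_le (V : H →L[ℂ] H) (hV : ‖V‖ ≤ 1) : ‖star V‖ ≤ 1 := by
  rwa [norm_star]

/-- one factor `Cc c d'` may be replaced by `Cc c (gcd d d')` -/
theorem step (A : Dat G) (R : Rep G H) (c : Fin A.D) (c0 d d' n' : ℕ) (δ : ℝ) (T : H →L[ℂ] H)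
    (hc : c0 ≤ (c : ℕ)) (hd : 0 < d) (hd' : 0 < d') (hT : ‖T‖ ≤ 1) (h : A.RI R c0 d n' δ T) :
    ‖T * A.Cc R c d' n' - T * A.Cc R c (Nat.gcd d d') n'‖ ≤
      2 * δ + 4 * A.P0 * (d * d' * (1 / 2) ^ n') ∧
    ‖T * star (A.Cc R c d' n') - T * star (A.Cc R c (Nat.gcd d d') n')‖ ≤
      2 * δ + 4 * A.P0 * (d * d' * (1 / 2) ^ n') := by
  have hg : 0 < Nat.gcd d d' := Nat.gcd_pos_of_pos_left _ hd
  have hgg : Nat.gcd d (Nat.gcd d d') = Nat.gcd d d' := by
    rw [← Nat.gcd_assoc, Nat.gcd_self]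
  have h1 := A.per_one R c c0 d d' n' δ T hc hd hd' hT h
  have h2 := A.per_one R c c0 d (Nat.gcd d d') n' δ T hc hd hg hT h
  rw [hgg] at h2
  have hgd : ((Nat.gcd d d' : ℕ) : ℝ) ≤ d' := by
    exact_mod_cast Nat.le_of_dvd hd' (Nat.gcd_dvd_right d d')
  have hE : δ + 2 * (A.P0 : ℝ) * d * (Nat.gcd d d' : ℕ) * (1 / 2) ^ n' ≤
      δ + 2 * (A.P0 : ℝ) * d * d' * (1 / 2) ^ n' := by
    have h3 : (2 * (A.P0 : ℝ) * d) * (Nat.gcd d d' : ℕ) ≤ (2 * (A.P0 : ℝ) * d) * d' :=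
      mul_le_mul_of_nonneg_left hgd (by positivity)
    have h4 := mul_le_mul_of_nonneg_right h3 (by positivity : (0 : ℝ) ≤ (1 / 2) ^ n')
    linarith
  constructor
  · have e1 := h1.1
    have e2 := h2.1.trans hE
    have e3 := norm_sub_le_norm_sub_add_norm_sub (T * A.Cc R c d' n')
      (T * A.per R c d (Nat.gcd d d')) (T * A.Cc R c (Nat.gcd d d') n')
    rw [norm_sub_rev (T * A.per R c d (Nat.gcd d d'))] at e3
    linarith
  · have e1 := h1.2
    have e2 := h2.2.trans hE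
    have e3 := norm_sub_le_norm_sub_add_norm_sub (T * star (A.Cc R c d' n'))
      (T * star (A.per R c d (Nat.gcd d d'))) (T * star (A.Cc R c (Nat.gcd d d') n'))
    rw [norm_sub_rev (T * star (A.per R c d (Nat.gcd d d')))] at e3
    linarith

theorem first {A : Dat G} (hA : A.Ok) (R : Rep G H) (c0 d d' n' : ℕ) (δ : ℝ) (T : H →L[ℂ] H)
    (hδ : 0 ≤ δ) (hd : 0 < d) (hd' : 0 < d') (hP : A.P0 * d ≤ 2 ^ n') (hT : ‖T‖ ≤ 1)
    (h : A.RI R c0 d (n' + A.D * A.C1) δ T) : ∀ (i j : ℕ), A.D ≤ j + i → c0 ≤ j →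
    ‖T * A.Ph R j d' n' - T * A.Ph R j (Nat.gcd d d') n'‖ ≤
      i * (2 * (((A.C1 + 1) ^ A.D : ℕ) * δ) + 4 * A.P0 * (d * d' * (1 / 2) ^ n')) := by
  intro i
  induction i with
  | zero =>
    intro j hj _
    rw [Nat.add_zero] at hj
    rw [A.Ph_top R hj, A.Ph_top R hj]
    simp
  | succ i ih =>
    intro j hj hcj
    by_cases hjD : A.D ≤ j
    · rw [A.Ph_top R hjD, A.Ph_top R hjD, sub_self, norm_zero]
      positivity
    · have hjD' : j < A.D := not_le.1 hjD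
      have ih1 := ih (j + 1) (by omega) (by omega)
      have hRI : A.RI R c0 d n' (((A.C1 + 1) ^ A.D : ℕ) * 1 * δ)
          (T * A.Ph R (j + 1) (Nat.gcd d d') n') :=
        RI.mul_loc hA hd h (loc_Ph (j + 1) (Nat.gcd d d') n') hP le_rfl
      rw [mul_one] at hRI
      have hn : ‖T * A.Ph R (j + 1) (Nat.gcd d d') n'‖ ≤ 1 :=
        (norm_mul_le _ _).trans (mul_le_one₀ hT (norm_nonneg _) (A.norm_Ph_le R _ _ _))
      have hs := (step A R ⟨j, hjD'⟩ c0 d d' n' _ _ hcj hd hd' hn hRI).1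
      rw [A.Ph_succ R hjD', A.Ph_succ R hjD']
      have e : T * (A.Ph R (j + 1) d' n' * A.Cc R ⟨j, hjD'⟩ d' n') -
          T * (A.Ph R (j + 1) (Nat.gcd d d') n' * A.Cc R ⟨j, hjD'⟩ (Nat.gcd d d') n') =
          (T * A.Ph R (j + 1) d' n' - T * A.Ph R (j + 1) (Nat.gcd d d') n') *
            A.Cc R ⟨j, hjD'⟩ d' n' +
          (T * A.Ph R (j + 1) (Nat.gcd d d') n' * A.Cc R ⟨j, hjD'⟩ d' n' -
            T * A.Ph R (j + 1) (Nat.gcd d d') n' * A.Cc R ⟨j, hjD'⟩ (Nat.gcd d d') n') := by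
        noncomm_ring
      rw [e]
      refine (norm_add_le _ _).trans ?_
      have h1 : ‖(T * A.Ph R (j + 1) d' n' - T * A.Ph R (j + 1) (Nat.gcd d d') n') *
          A.Cc R ⟨j, hjD'⟩ d' n'‖ ≤
          i * (2 * (((A.C1 + 1) ^ A.D : ℕ) * δ) + 4 * A.P0 * (d * d' * (1 / 2) ^ n')) := by
        refine (norm_mul_le _ _).trans ?_
        exact (mul_le_of_le_one_right (norm_nonneg _) (A.norm_Cc_le R _ _ _)).trans ih1
      refine (add_le_add h1 hs).trans (le_of_eq ?_)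
      push_cast
      ring

theorem second {A : Dat G} (hA : A.Ok) (R : Rep G H) (d d' n' : ℕ)
    (hd : 0 < d) (hd' : 0 < d') (hP : A.P0 * d ≤ 2 ^ n') :
    ∀ (i c0 : ℕ) (δ : ℝ) (T : H →L[ℂ] H), A.D ≤ c0 + i → 0 ≤ δ → ‖T‖ ≤ 1 →
    A.RI R c0 d (n' + i * A.C1) δ T →
    ‖T * star (A.Ph R c0 d' n') - T * star (A.Ph R c0 (Nat.gcd d d') n')‖ ≤
      i * (2 * (((A.C1 + 1) ^ i : ℕ) * δ) + 4 * A.P0 * (d * d' * (1 / 2) ^ n')) := by
  intro i
  induction i with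
  | zero =>
    intro c0 δ T hj _ _ _
    rw [Nat.add_zero] at hj
    rw [A.Ph_top R hj, A.Ph_top R hj]
    simp
  | succ i ih =>
    intro c0 δ T hj hδ hT h
    by_cases hjD : A.D ≤ c0
    · rw [A.Ph_top R hjD, A.Ph_top R hjD, sub_self, norm_zero]
      positivity
    · have hjD' : c0 < A.D := not_le.1 hjD
      have hRIn : A.RI R c0 d n' δ T := h.mono le_rfl (dvd_refl d) (Nat.le_add_right _ _) le_rfl
      have hs := (step A R ⟨c0, hjD'⟩ c0 d d' n' _ _ le_rfl hd hd' hT hRIn).2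
      have hP' : A.P0 * d ≤ 2 ^ (n' + i * A.C1) :=
        hP.trans (Nat.pow_le_pow_right (by norm_num) (Nat.le_add_right _ _))
      have hloc : A.Loc R 1 (n' + i * A.C1) 1
          (star (A.Cc R ⟨c0, hjD'⟩ (Nat.gcd d d') n')) :=
        (loc_Cc (A := A) (R := R) ⟨c0, hjD'⟩ (Nat.gcd d d') n').star.mono le_rfl
          (Nat.le_add_right _ _) le_rfl
      have hRI := RI.mul_loc hA hd h hloc hP' (by
        rw [one_mul, add_mul, one_mul, add_assoc] : n' + i * A.C1 + 1 * A.C1 ≤ n' + (i + 1) * A.C1)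
      rw [mul_one, pow_one] at hRI
      have hRI' := hRI.mono (Nat.le_succ c0) (dvd_refl d) le_rfl le_rfl
      have hn : ‖T * star (A.Cc R ⟨c0, hjD'⟩ (Nat.gcd d d') n')‖ ≤ 1 :=
        (norm_mul_le _ _).trans (mul_le_one₀ hT (norm_nonneg _)
          (star_norm_le _ (A.norm_Cc_le R _ _ _)))
      have ih1 := ih (c0 + 1) _ _ (by omega) (by positivity) hn hRI'
      rw [A.Ph_succ R hjD', A.Ph_succ R hjD', star_mul, star_mul]
      have e : T * (star (A.Cc R ⟨c0, hjD'⟩ d' n') * star (A.Ph R (c0 + 1) d' n')) -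
          T * (star (A.Cc R ⟨c0, hjD'⟩ (Nat.gcd d d') n') *
            star (A.Ph R (c0 + 1) (Nat.gcd d d') n')) =
          (T * star (A.Cc R ⟨c0, hjD'⟩ d' n') - T * star (A.Cc R ⟨c0, hjD'⟩ (Nat.gcd d d') n')) *
            star (A.Ph R (c0 + 1) d' n') +
          (T * star (A.Cc R ⟨c0, hjD'⟩ (Nat.gcd d d') n') * star (A.Ph R (c0 + 1) d' n') -
            T * star (A.Cc R ⟨c0, hjD'⟩ (Nat.gcd d d') n') *
              star (A.Ph R (c0 + 1) (Nat.gcd d d') n')) := by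
        noncomm_ring
      rw [e]
      refine (norm_add_le _ _).trans ?_
      have h1 : ‖(T * star (A.Cc R ⟨c0, hjD'⟩ d' n') -
          T * star (A.Cc R ⟨c0, hjD'⟩ (Nat.gcd d d') n')) * star (A.Ph R (c0 + 1) d' n')‖ ≤
          2 * δ + 4 * A.P0 * (d * d' * (1 / 2) ^ n') := by
        refine (norm_mul_le _ _).trans ?_
        exact (mul_le_of_le_one_right (norm_nonneg _)
          (star_norm_le _ (A.norm_Ph_le R _ _ _))).trans hs
      refine (add_le_add h1 ih1).trans ?_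
      have h5 : δ ≤ ((A.C1 + 1) ^ (i + 1) : ℕ) * δ := by
        have h6 : (1 : ℝ) ≤ (((A.C1 + 1) ^ (i + 1) : ℕ) : ℝ) := by
          exact_mod_cast Nat.one_le_pow _ _ (Nat.succ_pos _)
        exact le_mul_of_one_le_left hδ h6
      have e2 : (((A.C1 + 1) ^ i : ℕ) : ℝ) * (((A.C1 + 1 : ℕ) : ℝ) * δ) =
          (((A.C1 + 1) ^ (i + 1) : ℕ) : ℝ) * δ := by
        push_cast
        ring
      rw [e2]
      push_cast at h5 ⊢
      linarith

end ResAux

theorem res {A : Dat G} (hA : A.Ok) (R : Rep G H) : ∃ C : ℕ,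
    ∀ (c0 d d' n' : ℕ) (δ : ℝ) (T : H →L[ℂ] H), 0 ≤ δ → 0 < d → 0 < d' → A.P0 * d ≤ 2 ^ n' → ‖T‖ ≤ 1 →
    A.RI R c0 d (n' + A.D * A.C1) δ T →
    ‖T * A.Ph R c0 d' n' - T * A.Ph R c0 (Nat.gcd d d') n'‖ ≤
      C * (δ + d * d' * (1 / 2) ^ n') ∧
    ‖T * star (A.Ph R c0 d' n') - T * star (A.Ph R c0 (Nat.gcd d d') n')‖ ≤
      C * (δ + d * d' * (1 / 2) ^ n') := by
  refine ⟨A.D * (2 * (A.C1 + 1) ^ A.D + 4 * A.P0), ?_⟩
  intro c0 d d' n' δ T hδ hd hd' hP hT h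
  have hx : (0 : ℝ) ≤ d * d' * (1 / 2) ^ n' := by positivity
  have hfin : (A.D : ℝ) * (2 * (((A.C1 + 1) ^ A.D : ℕ) * δ) +
      4 * A.P0 * (d * d' * (1 / 2) ^ n')) ≤
      ((A.D * (2 * (A.C1 + 1) ^ A.D + 4 * A.P0) : ℕ) : ℝ) * (δ + d * d' * (1 / 2) ^ n') := by
    have h1 : (0 : ℝ) ≤ A.D * (2 * (((A.C1 + 1) ^ A.D : ℕ) : ℝ)) * (d * d' * (1 / 2) ^ n') := by
      positivity
    have h2 : (0 : ℝ) ≤ A.D * (4 * A.P0) * δ := by positivity
    push_cast at h1 h2 ⊢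
    linarith
  exact ⟨(ResAux.first hA R c0 d d' n' δ T hδ hd hd' hP hT h A.D c0 (Nat.le_add_left _ _)
      le_rfl).trans hfin,
    (ResAux.second hA R d d' n' hd hd' hP A.D c0 δ T (Nat.le_add_left _ _) hδ hT h).trans hfin⟩

end Dat

end Pool.Agent.Lib.Npw
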