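import Pool.Agent.Lib.Npw.AbsD
import Pool.Agent.Lib.Npw.Res

/-!
# NPW (B6*): absorption of an adjoint, `g ∣ d`

Let `d ≤ 2^v`. Choose intermediate scales `m'' < m3 < n' ≤ n` (all gaps `≥ E' (v + t) `-like): `m'' = s`, `m3 = s (1 + ..)` with
`s = E'' (v + t + 1)` such that `P0 d * d ≤ 2^m''`-type inequalities hold, and `n' ≥ m3 + E' t`.
`T = Ph c0 d n`, `V = Ph c0 g n'`, `V' = Ph c0 g m3`.
1. `T star(Ph c0 g n') ≈ T star(Ph c0 g m'')`: by `per_one` (`d' = g`, `gcd d g = g`) both `T' star(Cc c g n')` and `T' star(Cc c g m'')` are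
   `≈ T' star(per c d g)`, errors `δ + 2 P0 d g (1/2)^m''`, for every `T'` with `‖T'‖ ≤ 1` which is right invariant under the `d`-box of scale `n'`.
   Replace the factors one by one as in `Res`.
2. `star(Ph c0 g m'') * V' ≈ V'`: the operator `star(Ph c0 g m'')` is an average of `U(y)`, `y` a product of at most `D` elements of `Bx c0 g m''`
   and `V'` is `LI c0 g m'' (C (1/2)^t)` (`inv_left`); so `T star(Ph c0 g m'') V' ≈ T V' ≈ Ph c0 g n` (`abs_dvd`).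
3. `star(Ph c0 g n') * V' ≈ star(Ph c0 g n')`: `star(Ph c0 g n')` is right invariant under the `g`-box of scale `m3` (`inv_left`, `LI.star`) and
   `V'` is an average of `U(y)`, `y` a product of at most `D` elements of `Bx c0 g m3`.
So `T star(Ph c0 g n') ≈ T star(Ph c0 g n') V' ≈ T star(Ph c0 g m'') V' ≈ T V' ≈ Ph c0 g n`.
(`ri_mul_avg`: if `T` is `RI c0 g m δ` then `‖T * Ph c0 g m - T‖ ≤ D δ`, by `Ph_succ`; `li_mul_avg`: if `V` is `LI c0 g m δ` then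
`‖star (Ph c0 g m) * V - V‖ ≤ D δ` and `‖Ph c0 g m * V - V‖ ≤ D δ`.)
-/

set_option autoImplicit false

open Finset

namespace Pool.Agent.Lib.Npw

variable {G H : Type} [Group G] [NormedAddCommGroup H] [InnerProductSpace ℂ H] [CompleteSpace H]

namespace Dat

namespace AbsSAux

theorem star_Cc_mem {A : Dat G} {c : Fin A.D} {c0 q n m : ℕ} (hc : c0 ≤ (c : ℕ))
    (hm : m < A.ll c q n) : (A.z c ^ (A.K c * q * m))⁻¹ ∈ A.Bx c0 q n :=
  A.Bx_inv (A.mem_Bx_Cc hc hm)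

theorem ri_Cc {A : Dat G} {R : Rep G H} {c0 q m : ℕ} {δ : ℝ} {T : H →L[ℂ] H} (hδ : 0 ≤ δ)
    (h : A.RI R c0 q m δ T) (c : Fin A.D) (hc : c0 ≤ (c : ℕ)) :
    ‖T * A.Cc R c q m - T‖ ≤ δ ∧ ‖T * star (A.Cc R c q m) - T‖ ≤ δ := by
  have h1 := avg_const (H := H) (A.ll_pos c q m) T
  constructor
  · have : T * A.Cc R c q m - T =
        avg (A.ll c q m) (fun j => T * R.U (A.z c ^ (A.K c * q * j)) - T) := by
      conv_lhs => rw [← h1]
      rw [← avg_sub, h1]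
      unfold Cc
      rw [mul_avg]
    rw [this]
    exact norm_avg_le hδ fun j hj => h _ (A.mem_Bx_Cc hc hj)
  · have : T * star (A.Cc R c q m) - T =
        avg (A.ll c q m) (fun j => T * R.U ((A.z c ^ (A.K c * q * j))⁻¹) - T) := by
      conv_lhs => rw [← h1]
      rw [← avg_sub, h1]
      unfold Cc
      rw [star_avg, mul_avg]
      simp only [R.star_U]
    rw [this]
    exact norm_avg_le hδ fun j hj => h _ (star_Cc_mem hc hj)

theorem norm_star_Cc_le (A : Dat G) (R : Rep G H) (c : Fin A.D) (q n : ℕ) :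
    ‖star (A.Cc R c q n)‖ ≤ 1 := by
  rw [norm_star]; exact A.norm_Cc_le R c q n

theorem norm_star_Ph_le (A : Dat G) (R : Rep G H) (c q n : ℕ) : ‖star (A.Ph R c q n)‖ ≤ 1 := by
  rw [norm_star]; exact A.norm_Ph_le R c q n

theorem mul_le_left {X Y : H →L[ℂ] H} {a : ℝ} (hX : ‖X‖ ≤ a) (hY : ‖Y‖ ≤ 1) : ‖X * Y‖ ≤ a := by
  calc ‖X * Y‖ ≤ ‖X‖ * ‖Y‖ := norm_mul_le _ _
    _ ≤ ‖X‖ * 1 := by gcongr
    _ ≤ a := by rw [mul_one]; exact hX

theorem mul_le_right {X Y : H →L[ℂ] H} {a : ℝ} (hX : ‖X‖ ≤ 1) (hY : ‖Y‖ ≤ a) : ‖X * Y‖ ≤ a := by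
  calc ‖X * Y‖ ≤ ‖X‖ * ‖Y‖ := norm_mul_le _ _
    _ ≤ 1 * ‖Y‖ := by gcongr
    _ ≤ a := by rw [one_mul]; exact hY

theorem ri_aux {A : Dat G} {R : Rep G H} {q m : ℕ} {δ : ℝ} {T : H →L[ℂ] H} (hδ : 0 ≤ δ) :
    ∀ (j c0 : ℕ), A.D ≤ c0 + j → A.RI R c0 q m δ T →
      ‖T * A.Ph R c0 q m - T‖ ≤ j * δ ∧ ‖T * star (A.Ph R c0 q m) - T‖ ≤ j * δ
  | 0, c0, hc, _ => by
      rw [A.Ph_top R (by omega)]
      simp
  | j + 1, c0, hc, h => by
      by_cases hD : A.D ≤ c0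
      · rw [A.Ph_top R hD]
        simp only [star_one, mul_one, sub_self, norm_zero, and_self]
        positivity
      · have hD' : c0 < A.D := by omega
        obtain ⟨i1, i2⟩ := ri_aux hδ j (c0 + 1) (by omega)
          (h.mono (Nat.le_succ c0) dvd_rfl le_rfl le_rfl)
        obtain ⟨h1, h2⟩ := ri_Cc hδ h ⟨c0, hD'⟩ le_rfl
        rw [A.Ph_succ R hD']
        push_cast
        constructor
        · have e : T * (A.Ph R (c0 + 1) q m * A.Cc R ⟨c0, hD'⟩ q m) - T =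
              (T * A.Ph R (c0 + 1) q m - T) * A.Cc R ⟨c0, hD'⟩ q m +
                (T * A.Cc R ⟨c0, hD'⟩ q m - T) := by
            noncomm_ring
          rw [e]
          calc _ ≤ _ := norm_add_le _ _
            _ ≤ j * δ + δ := add_le_add (mul_le_left i1 (A.norm_Cc_le R _ q m)) h1
            _ = (j + 1) * δ := by ring
        · have e : T * star (A.Ph R (c0 + 1) q m * A.Cc R ⟨c0, hD'⟩ q m) - T =
              (T * star (A.Cc R ⟨c0, hD'⟩ q m) - T) * star (A.Ph R (c0 + 1) q m) +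
                (T * star (A.Ph R (c0 + 1) q m) - T) := by
            rw [star_mul]
            noncomm_ring
          rw [e]
          calc _ ≤ _ := norm_add_le _ _
            _ ≤ δ + j * δ := add_le_add (mul_le_left h2 (norm_star_Ph_le A R _ q m)) i2
            _ = (j + 1) * δ := by ring

/-- change of the scale in the adjoint, after a right invariant operator -/
theorem scale_aux {A : Dat G} (hA : A.Ok) (R : Rep G H) {d g n' m : ℕ} (hd : 0 < d) (hg : 0 < g)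
    (hgd : g ∣ d) (hm : m ≤ n') (hP : A.P0 * d ≤ 2 ^ n') :
    ∀ (j c0 : ℕ) (δ : ℝ) (T : H →L[ℂ] H), 0 ≤ δ → A.D ≤ c0 + j → ‖T‖ ≤ 1 →
      A.RI R c0 d (n' + j * A.C1) δ T →
      ‖T * star (A.Ph R c0 g n') - T * star (A.Ph R c0 g m)‖ ≤
        j * (2 * (((A.C1 + 1) ^ j : ℕ) : ℝ) * δ + 4 * A.P0 * d * g * (1 / 2) ^ m)
  | 0, c0, δ, T, _, hc, _, _ => by
      rw [A.Ph_top R (by omega), A.Ph_top R (by omega)]
      simp
  | j + 1, c0, δ, T, hδ, hc, hT, h => by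
      have hpos : 0 ≤ (4 * A.P0 * d * g * (1 / 2) ^ m : ℝ) := by positivity
      by_cases hD : A.D ≤ c0
      · rw [A.Ph_top R hD, A.Ph_top R hD]
        simp only [sub_self, norm_zero]
        positivity
      · have hD' : c0 < A.D := by omega
        have hgcd : Nat.gcd d g = g := Nat.gcd_eq_right hgd
        have hRI1 : A.RI R c0 d n' δ T := h.mono le_rfl dvd_rfl (by omega) le_rfl
        have hRI2 : A.RI R c0 d m δ T := h.mono le_rfl dvd_rfl (by omega) le_rfl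
        have p1 := (A.per_one R ⟨c0, hD'⟩ c0 d g n' δ T le_rfl hd hg hT hRI1).2
        have p2 := (A.per_one R ⟨c0, hD'⟩ c0 d g m δ T le_rfl hd hg hT hRI2).2
        rw [hgcd] at p1 p2
        have hle : ((1 / 2 : ℝ)) ^ n' ≤ (1 / 2) ^ m :=
          pow_le_pow_of_le_one (by norm_num) (by norm_num) hm
        have hstep : ‖T * star (A.Cc R ⟨c0, hD'⟩ g n') - T * star (A.Cc R ⟨c0, hD'⟩ g m)‖ ≤
            2 * δ + 4 * A.P0 * d * g * (1 / 2) ^ m := by
          have e : T * star (A.Cc R ⟨c0, hD'⟩ g n') - T * star (A.Cc R ⟨c0, hD'⟩ g m) =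
              (T * star (A.Cc R ⟨c0, hD'⟩ g n') - T * star (A.per R ⟨c0, hD'⟩ d g)) -
              (T * star (A.Cc R ⟨c0, hD'⟩ g m) - T * star (A.per R ⟨c0, hD'⟩ d g)) := by
            noncomm_ring
          rw [e]
          have h5 : 2 * (A.P0 : ℝ) * d * g * (1 / 2) ^ n' ≤ 2 * (A.P0 : ℝ) * d * g * (1 / 2) ^ m := by
            gcongr
          calc _ ≤ _ := norm_sub_le _ _
            _ ≤ _ := add_le_add p1 p2
            _ ≤ _ := by linarith
        have hloc : A.Loc R 1 (n' + j * A.C1) 1 (star (A.Cc R ⟨c0, hD'⟩ g m)) :=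
          (Loc.star (loc_Cc _ _ _)).mono le_rfl (by omega) le_rfl
        have hRI' : A.RI R (c0 + 1) d (n' + j * A.C1) (((A.C1 + 1) ^ 1 : ℕ) * 1 * δ)
            (T * star (A.Cc R ⟨c0, hD'⟩ g m)) := by
          refine (RI.mul_loc hA hd h hloc ?_ ?_).mono (Nat.le_succ c0) dvd_rfl le_rfl le_rfl
          · exact hP.trans (Nat.pow_le_pow_right (by norm_num) (by omega))
          · rw [Nat.add_mul, one_mul]; omega
        have ih := scale_aux hA R hd hg hgd hm hP j (c0 + 1) _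
          (T * star (A.Cc R ⟨c0, hD'⟩ g m)) (by positivity) (by omega)
          (mul_le_left hT (norm_star_Cc_le A R _ g m)) hRI'
        rw [A.Ph_succ R hD', A.Ph_succ R hD', star_mul, star_mul]
        have e : T * (star (A.Cc R ⟨c0, hD'⟩ g n') * star (A.Ph R (c0 + 1) g n')) -
            T * (star (A.Cc R ⟨c0, hD'⟩ g m) * star (A.Ph R (c0 + 1) g m)) =
            (T * star (A.Cc R ⟨c0, hD'⟩ g n') - T * star (A.Cc R ⟨c0, hD'⟩ g m)) *
              star (A.Ph R (c0 + 1) g n') +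
            (T * star (A.Cc R ⟨c0, hD'⟩ g m) * star (A.Ph R (c0 + 1) g n') -
              T * star (A.Cc R ⟨c0, hD'⟩ g m) * star (A.Ph R (c0 + 1) g m)) := by
          noncomm_ring
        rw [e]
        have h6 := mul_le_left hstep (norm_star_Ph_le A R (c0 + 1) g n')
        have h7 : (1 : ℝ) ≤ (((A.C1 + 1) ^ (j + 1) : ℕ) : ℝ) := by
          exact_mod_cast Nat.one_le_pow _ _ (Nat.succ_pos _)
        have h8 : 2 * δ ≤ 2 * (((A.C1 + 1) ^ (j + 1) : ℕ) : ℝ) * δ := by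
          nlinarith
        have h9 : 2 * (((A.C1 + 1) ^ j : ℕ) : ℝ) * (((A.C1 + 1) ^ 1 : ℕ) * 1 * δ) =
            2 * (((A.C1 + 1) ^ (j + 1) : ℕ) : ℝ) * δ := by
          push_cast
          ring
        rw [h9] at ih
        calc _ ≤ _ := norm_add_le _ _
          _ ≤ _ := add_le_add h6 ih
          _ ≤ (2 * (((A.C1 + 1) ^ (j + 1) : ℕ) : ℝ) * δ + 4 * A.P0 * d * g * (1 / 2) ^ m) +
              j * (2 * (((A.C1 + 1) ^ (j + 1) : ℕ) : ℝ) * δ +
                4 * A.P0 * d * g * (1 / 2) ^ m) := by linarith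
          _ = _ := by push_cast; ring

end AbsSAux

theorem ri_mul_Ph (A : Dat G) (R : Rep G H) {c0 q m : ℕ} {δ : ℝ} {T : H →L[ℂ] H} (hδ : 0 ≤ δ)
    (h : A.RI R c0 q m δ T) : ‖T * A.Ph R c0 q m - T‖ ≤ A.D * δ ∧
      ‖T * star (A.Ph R c0 q m) - T‖ ≤ A.D * δ :=
  AbsSAux.ri_aux hδ A.D c0 (Nat.le_add_left _ _) h

theorem li_mul_Ph (A : Dat G) (R : Rep G H) {c0 q m : ℕ} {δ : ℝ} {T : H →L[ℂ] H} (hδ : 0 ≤ δ)
    (h : A.LI R c0 q m δ T) : ‖A.Ph R c0 q m * T - T‖ ≤ A.D * δ ∧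
      ‖star (A.Ph R c0 q m) * T - T‖ ≤ A.D * δ := by
  obtain ⟨h1, h2⟩ := A.ri_mul_Ph R hδ h.star
  constructor
  · have e : A.Ph R c0 q m * T - T = star (star T * star (A.Ph R c0 q m) - star T) := by
      rw [star_sub, star_mul, star_star, star_star]
    rw [e, norm_star]
    exact h2
  · have e : star (A.Ph R c0 q m) * T - T = star (star T * A.Ph R c0 q m - star T) := by
      rw [star_sub, star_mul, star_star]
    rw [e, norm_star]
    exact h1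

theorem abs_star {A : Dat G} (hA : A.Ok) (R : Rep G H) : ∃ C E : ℕ, ∀ c0 d g v n n' t : ℕ, 0 < g →
    0 < d → g ∣ d → d ≤ 2 ^ v → n' + E * (v + t) ≤ n → E * (v + t + 1) ≤ n' →
    ‖A.Ph R c0 d n * star (A.Ph R c0 g n') - A.Ph R c0 g n‖ ≤ C * (1 / 2) ^ t := by
  obtain ⟨Ca, Ea, hinvr⟩ := inv_right hA R
  obtain ⟨Cb, Eb, hinvl⟩ := inv_left hA R
  obtain ⟨Cd, Ed, habs⟩ := abs_dvd hA R
  obtain ⟨p, hp⟩ : ∃ p : ℕ, A.P0 ≤ 2 ^ p := ⟨A.P0, Nat.lt_two_pow_self.le⟩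
  refine ⟨A.D * Cb + A.D * (2 * (A.C1 + 1) ^ A.D * Ca + 4) + A.D * Cb + 2 * Cd + 2,
    3 + 2 * Eb + p + Ea + Ed + A.D * A.C1, ?_⟩
  intro c0 d g v n n' t hg hd hgd hdv hn hn'
  set E := 3 + 2 * Eb + p + Ea + Ed + A.D * A.C1 with hE
  have hPn : ∀ c q m : ℕ, ‖A.Ph R c q m‖ ≤ 1 := fun c q m => A.norm_Ph_le R c q m
  rcases Nat.eq_zero_or_pos t with rfl | ht
  · rw [pow_zero, mul_one]
    have h1 : ‖A.Ph R c0 d n * star (A.Ph R c0 g n') - A.Ph R c0 g n‖ ≤ 1 + 1 :=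
      (norm_sub_le _ _).trans (add_le_add (AbsSAux.mul_le_left (hPn _ _ _)
        (AbsSAux.norm_star_Ph_le A R _ _ _)) (hPn _ _ _))
    refine h1.trans ?_
    push_cast
    have : (0 : ℝ) ≤ A.D * Cb + A.D * (2 * (A.C1 + 1) ^ A.D * Ca + 4) + A.D * Cb + 2 * Cd := by
      positivity
    linarith
  -- parameters
  have hgv : g ≤ 2 ^ v := (Nat.le_of_dvd hd hgd).trans hdv
  set m := 2 * v + t + p with hm
  set m3 := m + Eb * t with hm3
  have e1 : E * (v + t + 1) = E * v + E * t + E := by ring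
  have e2 : E * (v + t) = E * v + E * t := by ring
  have hEv : 3 * v ≤ E * v := Nat.mul_le_mul_right _ (by omega)
  have hEt : (3 + 2 * Eb + Ea + Ed + A.D * A.C1) * t ≤ E * t := Nat.mul_le_mul_right _ (by omega)
  have e3 : (3 + 2 * Eb + Ea + Ed + A.D * A.C1) * t =
      3 * t + 2 * (Eb * t) + Ea * t + Ed * t + A.D * A.C1 * t := by ring
  have hDC : A.D * A.C1 ≤ A.D * A.C1 * t := Nat.le_mul_of_pos_right _ ht
  have hm3n' : m3 + Eb * t ≤ n' := by omega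
  have hn1 : n' + A.D * A.C1 + Ea * t ≤ n := by omega
  have hn2 : m3 + Ed * t ≤ n := by omega
  have hpd : A.P0 * d ≤ 2 ^ (p + v) := by
    rw [pow_add]; exact Nat.mul_le_mul hp hdv
  have hpg : A.P0 * g ≤ 2 ^ (p + v) := by
    rw [pow_add]; exact Nat.mul_le_mul hp hgv
  have hpow : ∀ k, p + v ≤ k → 2 ^ (p + v) ≤ 2 ^ k := fun k hk =>
    Nat.pow_le_pow_right (by norm_num) hk
  set T := A.Ph R c0 d n with hT
  set V := A.Ph R c0 g m3 with hV
  -- the real number (1/2)^t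
  set ε : ℝ := (1 / 2) ^ t with hε
  have hε0 : 0 < ε := by positivity
  -- step 3
  have s3 : ‖star (A.Ph R c0 g n') * V - star (A.Ph R c0 g n')‖ ≤ A.D * (Cb * ε) :=
    (A.ri_mul_Ph R (by positivity) (hinvl c0 g n' m3 t hg (hpg.trans (hpow _ (by omega)))
      hm3n').star).1
  -- step 1
  have hTri : A.RI R c0 d (n' + A.D * A.C1) (Ca * ε) T :=
    hinvr c0 d n (n' + A.D * A.C1) t hd (hpd.trans (hpow _ (by omega))) hn1
  have s1 := AbsSAux.scale_aux hA R hd hg hgd (show m ≤ n' by omega)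
    (hpd.trans (hpow n' (by omega))) A.D c0 (Ca * ε) T (by positivity) (Nat.le_add_left _ _)
    (hPn _ _ _) hTri
  have hsmall : 4 * (A.P0 : ℝ) * d * g * (1 / 2) ^ m ≤ 4 * ε := by
    have h1 : (A.P0 : ℝ) ≤ 2 ^ p := by exact_mod_cast hp
    have h2 : (d : ℝ) ≤ 2 ^ v := by exact_mod_cast hdv
    have h3 : (g : ℝ) ≤ 2 ^ v := by exact_mod_cast hgv
    have h4 : 4 * (A.P0 : ℝ) * d * g * (1 / 2) ^ m ≤
        4 * (2 ^ p : ℝ) * 2 ^ v * 2 ^ v * (1 / 2) ^ m := by gcongr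
    refine h4.trans (le_of_eq ?_)
    rw [hm, pow_add, pow_add, two_mul, pow_add, hε]
    have h5 : ∀ k : ℕ, (2 : ℝ) ^ k * (1 / 2) ^ k = 1 := fun k => by
      rw [← mul_pow]; norm_num
    calc _ = 4 * ((2 : ℝ) ^ p * (1 / 2) ^ p) * ((2 : ℝ) ^ v * (1 / 2) ^ v) *
          ((2 : ℝ) ^ v * (1 / 2) ^ v) * (1 / 2) ^ t := by ring
      _ = _ := by rw [h5, h5]; ring
  -- step 2
  have s2 : ‖star (A.Ph R c0 g m) * V - V‖ ≤ A.D * (Cb * ε) :=
    (A.li_mul_Ph R (by positivity) (hinvl c0 g m3 m t hg (hpg.trans (hpow _ (by omega)))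
      le_rfl)).2
  -- step 4
  have s4 : ‖T * V - A.Ph R c0 g n‖ ≤ Cd * (ε + d * (1 / 2) ^ m3) :=
    habs c0 d g n m3 t hg hd hgd (hpd.trans (hpow _ (by omega))) hn2
  have hsmall2 : (d : ℝ) * (1 / 2) ^ m3 ≤ ε := by
    have h2 : (d : ℝ) ≤ 2 ^ v := by exact_mod_cast hdv
    have h5 : (2 : ℝ) ^ v * (1 / 2) ^ v = 1 := by rw [← mul_pow]; norm_num
    have h6 : ((1 : ℝ) / 2) ^ m3 ≤ (1 / 2) ^ (v + t) :=
      pow_le_pow_of_le_one (by norm_num) (by norm_num) (by omega)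
    calc (d : ℝ) * (1 / 2) ^ m3 ≤ 2 ^ v * (1 / 2) ^ (v + t) := by gcongr
      _ = (2 : ℝ) ^ v * (1 / 2) ^ v * (1 / 2) ^ t := by rw [pow_add]; ring
      _ = ε := by rw [h5, one_mul]
  have e : T * star (A.Ph R c0 g n') - A.Ph R c0 g n =
      -(T * (star (A.Ph R c0 g n') * V - star (A.Ph R c0 g n'))) +
      (T * star (A.Ph R c0 g n') - T * star (A.Ph R c0 g m)) * V +
      T * (star (A.Ph R c0 g m) * V - V) + (T * V - A.Ph R c0 g n) := by
    noncomm_ring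
  rw [e]
  have b1 : ‖-(T * (star (A.Ph R c0 g n') * V - star (A.Ph R c0 g n')))‖ ≤ A.D * (Cb * ε) := by
    rw [norm_neg]; exact AbsSAux.mul_le_right (hPn _ _ _) s3
  have b2 := AbsSAux.mul_le_left s1 (hPn c0 g m3)
  have b3 := AbsSAux.mul_le_right (hPn c0 d n) s2
  calc _ ≤ A.D * (Cb * ε) + A.D * (2 * (((A.C1 + 1) ^ A.D : ℕ) : ℝ) * (Ca * ε) +
        4 * A.P0 * d * g * (1 / 2) ^ m) + A.D * (Cb * ε) + Cd * (ε + d * (1 / 2) ^ m3) := by
        refine (norm_add_le _ _).trans (add_le_add ((norm_add_le _ _).trans (add_le_add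
          ((norm_add_le _ _).trans (add_le_add b1 b2)) b3)) s4)
    _ ≤ A.D * (Cb * ε) + A.D * (2 * (((A.C1 + 1) ^ A.D : ℕ) : ℝ) * (Ca * ε) + 4 * ε) +
        A.D * (Cb * ε) + Cd * (ε + ε) := by gcongr
    _ ≤ _ := by
        push_cast
        nlinarith

end Dat

end Pool.Agent.Lib.Npw
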