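import Mathlib

/-!
# NPW: almost orthogonality and the Schur test

`alm_orth`: let `x` be a unit vector, `y_i = T_i x`. `‖∑ y_i‖² ≤ ∑ ‖y_i‖² + |s|² ε`. Let `Z = ∑ ‖y_i‖² = ⟪∑ star T_i y_i, x⟫ ≤ ‖∑ star T_i y_i‖`
and `‖∑ star T_i y_i‖² = ∑_{i,j} ⟪T_j star T_i y_i, y_j⟫ ≤ B² Z + ε (∑ ‖y_i‖)² ≤ (B² + |s| ε) Z`. Hence `Z ≤ B² + |s| ε`.
`schur_test`: `∑ ‖T_i x‖² = ⟪∑ star T_i T_i x, x⟫`, `‖∑ star T_i y_i‖² = ∑_{i,j} ⟪T_j star T_i y_i, y_j⟫ ≤ ∑_{i,j} a_{ij} ‖y_i‖ ‖y_j‖ ≤ B ∑ ‖y_i‖²`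
(`2 ‖y_i‖ ‖y_j‖ ≤ ‖y_i‖² + ‖y_j‖²`, `a_{ij} = ‖T_i star T_j‖` is symmetric).
-/

set_option autoImplicit false

open Finset

namespace Pool.Agent.Lib.Npw

namespace AlmOrthAux

variable {H : Type} [NormedAddCommGroup H] [InnerProductSpace ℂ H] [CompleteSpace H]

theorem star_inner (T : H →L[ℂ] H) (x y : H) : inner ℂ (star T x) y = inner ℂ x (T y) := by
  rw [ContinuousLinearMap.star_eq_adjoint, ContinuousLinearMap.adjoint_inner_left]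

omit [CompleteSpace H] in
theorem nsq (x : H) : ((‖x‖ ^ 2 : ℝ) : ℂ) = inner ℂ x x := by
  rw [inner_self_eq_norm_sq_to_K]
  push_cast
  rfl

theorem pair_le (S T : H →L[ℂ] H) (y z : H) :
    ‖inner ℂ (star S y) (star T z)‖ ≤ ‖S * star T‖ * ((‖y‖ ^ 2 + ‖z‖ ^ 2) / 2) := by
  rw [star_inner]
  have h1 : S (star T z) = (S * star T) z := rfl
  rw [h1]
  have h2 : ‖inner ℂ y ((S * star T) z)‖ ≤ ‖y‖ * ‖(S * star T) z‖ := norm_inner_le_norm _ _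
  have h3 : ‖(S * star T) z‖ ≤ ‖S * star T‖ * ‖z‖ := ContinuousLinearMap.le_opNorm _ _
  have h4 : ‖y‖ * ‖(S * star T) z‖ ≤ ‖y‖ * (‖S * star T‖ * ‖z‖) :=
    mul_le_mul_of_nonneg_left h3 (norm_nonneg _)
  have h5 : ‖y‖ * ‖z‖ ≤ (‖y‖ ^ 2 + ‖z‖ ^ 2) / 2 := by
    have := sq_nonneg (‖y‖ - ‖z‖)
    nlinarith
  have h6 : ‖S * star T‖ * (‖y‖ * ‖z‖) ≤ ‖S * star T‖ * ((‖y‖ ^ 2 + ‖z‖ ^ 2) / 2) :=
    mul_le_mul_of_nonneg_left h5 (norm_nonneg _)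
  calc ‖inner ℂ y ((S * star T) z)‖ ≤ ‖y‖ * (‖S * star T‖ * ‖z‖) := h2.trans h4
    _ = ‖S * star T‖ * (‖y‖ * ‖z‖) := by ring
    _ ≤ _ := h6

theorem symm_norm (S T : H →L[ℂ] H) : ‖S * star T‖ = ‖T * star S‖ := by
  rw [← norm_star (S * star T), star_mul, star_star]

theorem schur_aux {ι : Type} (s : Finset ι) (T : ι → H →L[ℂ] H) {B : ℝ} (hB : 0 ≤ B)
    (h : ∀ i ∈ s, ∑ j ∈ s, ‖T i * star (T j)‖ ≤ B) (x : H) :
    ∑ i ∈ s, ‖T i x‖ ^ 2 ≤ B * ‖x‖ ^ 2 := by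
  obtain ⟨Z, hZ⟩ : ∃ Z : ℝ, Z = ∑ i ∈ s, ‖T i x‖ ^ 2 := ⟨_, rfl⟩
  have hZ0 : 0 ≤ Z := by
    rw [hZ]
    exact sum_nonneg fun i _ => sq_nonneg _
  obtain ⟨v, hv⟩ : ∃ v : H, v = ∑ i ∈ s, star (T i) (T i x) := ⟨_, rfl⟩
  have h1 : (Z : ℂ) = inner ℂ v x := by
    rw [hv, sum_inner, hZ, Complex.ofReal_sum]
    refine sum_congr rfl fun i _ => ?_
    rw [star_inner, nsq]
  have h2 : Z ≤ ‖v‖ * ‖x‖ := by
    have h := norm_inner_le_norm (𝕜 := ℂ) v x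
    rw [← h1, Complex.norm_real, Real.norm_eq_abs, abs_of_nonneg hZ0] at h
    exact h
  have h3 : ‖v‖ ^ 2 ≤ B * Z := by
    have h4 : ((‖v‖ ^ 2 : ℝ) : ℂ) =
        ∑ i ∈ s, ∑ j ∈ s, inner ℂ (star (T i) (T i x)) (star (T j) (T j x)) := by
      rw [nsq, hv, sum_inner]
      refine sum_congr rfl fun i _ => ?_
      rw [inner_sum]
    have h5 : ‖v‖ ^ 2 ≤ ∑ i ∈ s, ∑ j ∈ s,
        ‖T i * star (T j)‖ * ((‖T i x‖ ^ 2 + ‖T j x‖ ^ 2) / 2) := by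
      have h6 : ‖v‖ ^ 2 = ‖((‖v‖ ^ 2 : ℝ) : ℂ)‖ := by
        rw [Complex.norm_real, Real.norm_eq_abs, abs_of_nonneg (sq_nonneg _)]
      rw [h6, h4]
      refine (norm_sum_le _ _).trans (sum_le_sum fun i _ => ?_)
      exact (norm_sum_le _ _).trans (sum_le_sum fun j _ => pair_le _ _ _ _)
    have h7 : ∑ i ∈ s, ∑ j ∈ s, ‖T i * star (T j)‖ * ((‖T i x‖ ^ 2 + ‖T j x‖ ^ 2) / 2) =
        ∑ i ∈ s, (∑ j ∈ s, ‖T i * star (T j)‖) * ‖T i x‖ ^ 2 := by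
      have h8 : ∑ i ∈ s, ∑ j ∈ s, ‖T i * star (T j)‖ * ((‖T i x‖ ^ 2 + ‖T j x‖ ^ 2) / 2) =
          ∑ i ∈ s, ∑ j ∈ s, ‖T i * star (T j)‖ * (‖T i x‖ ^ 2 / 2) +
          ∑ i ∈ s, ∑ j ∈ s, ‖T i * star (T j)‖ * (‖T j x‖ ^ 2 / 2) := by
        rw [← sum_add_distrib]
        refine sum_congr rfl fun i _ => ?_
        rw [← sum_add_distrib]
        refine sum_congr rfl fun j _ => ?_
        ring
      have h9 : ∑ i ∈ s, ∑ j ∈ s, ‖T i * star (T j)‖ * (‖T j x‖ ^ 2 / 2) =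
          ∑ i ∈ s, ∑ j ∈ s, ‖T i * star (T j)‖ * (‖T i x‖ ^ 2 / 2) := by
        rw [sum_comm]
        refine sum_congr rfl fun i _ => sum_congr rfl fun j _ => ?_
        rw [symm_norm]
      rw [h8, h9, ← sum_add_distrib]
      refine sum_congr rfl fun i _ => ?_
      rw [← sum_add_distrib, sum_mul]
      refine sum_congr rfl fun j _ => ?_
      ring
    rw [h7] at h5
    refine h5.trans ?_
    rw [hZ, mul_sum]
    exact sum_le_sum fun i hi => mul_le_mul_of_nonneg_right (h i hi) (sq_nonneg _)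
  rw [← hZ]
  rcases hZ0.eq_or_lt with h0 | h0
  · rw [← h0]
    positivity
  · have h10 : Z * Z ≤ (B * ‖x‖ ^ 2) * Z := by
      have h11 : Z * Z ≤ (‖v‖ * ‖x‖) * (‖v‖ * ‖x‖) := mul_le_mul h2 h2 hZ0 (by positivity)
      have h12 : ‖v‖ ^ 2 * ‖x‖ ^ 2 ≤ (B * Z) * ‖x‖ ^ 2 :=
        mul_le_mul_of_nonneg_right h3 (sq_nonneg _)
      nlinarith
    exact le_of_mul_le_mul_right h10 h0

theorem off_le {ι : Type} [DecidableEq ι] (s : Finset ι) (a : ι → ℝ) {b ε : ℝ} {i : ι} (hi : i ∈ s)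
    (hε : 0 ≤ ε) (h0 : a i ≤ b) (h : ∀ j ∈ s, i ≠ j → a j ≤ ε) :
    ∑ j ∈ s, a j ≤ b + s.card * ε := by
  rw [← add_sum_erase s a hi]
  refine add_le_add h0 ?_
  have h1 : ∑ j ∈ s.erase i, a j ≤ (s.erase i).card • ε :=
    sum_le_card_nsmul _ _ _ fun j hj => h j (mem_of_mem_erase hj) (ne_of_mem_erase hj).symm
  rw [nsmul_eq_mul] at h1
  refine h1.trans (mul_le_mul_of_nonneg_right ?_ hε)
  exact_mod_cast card_le_card (erase_subset _ _)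

theorem card_arith (n : ℕ) {B ε X : ℝ} (hε : 0 ≤ ε) (hX : 0 ≤ X) :
    (B ^ 2 + n * ε) * X + n * (n * (ε * X)) ≤ (B ^ 2 + 2 * (n : ℝ) ^ 2 * ε) * X := by
  have h1 : (n : ℝ) ≤ (n : ℝ) ^ 2 := by
    rcases Nat.eq_zero_or_pos n with h | h
    · subst h
      norm_num
    · have : (1 : ℝ) ≤ n := by exact_mod_cast h
      nlinarith
  have h2 : 0 ≤ ε * X := mul_nonneg hε hX
  have h3 := mul_le_mul_of_nonneg_right h1 h2
  nlinarith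

end AlmOrthAux

variable {H : Type} [NormedAddCommGroup H] [InnerProductSpace ℂ H] [CompleteSpace H]

theorem alm_orth {ι : Type} [DecidableEq ι] (s : Finset ι) (T : ι → H →L[ℂ] H) {B ε : ℝ}
    (hB : 0 ≤ B) (hε : 0 ≤ ε) (h1 : ∀ i ∈ s, ‖T i‖ ≤ B)
    (h2 : ∀ i ∈ s, ∀ j ∈ s, i ≠ j → ‖star (T i) * T j‖ ≤ ε)
    (h3 : ∀ i ∈ s, ∀ j ∈ s, i ≠ j → ‖T i * star (T j)‖ ≤ ε) :
    ‖∑ i ∈ s, T i‖ ^ 2 ≤ B ^ 2 + 2 * (s.card : ℝ) ^ 2 * ε := by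
  have h4 : ∀ i ∈ s, ∑ j ∈ s, ‖T i * star (T j)‖ ≤ B ^ 2 + s.card * ε := by
    intro i hi
    refine AlmOrthAux.off_le s (fun j => ‖T i * star (T j)‖) hi hε ?_ fun j hj hij => h3 i hi j hj hij
    have h5 : ‖T i * star (T i)‖ ≤ ‖T i‖ * ‖star (T i)‖ := norm_mul_le _ _
    rw [norm_star] at h5
    have h6 := h1 i hi
    have h7 := norm_nonneg (T i)
    show ‖T i * star (T i)‖ ≤ B ^ 2
    nlinarith
  have hn0 : (0 : ℝ) ≤ B ^ 2 + s.card * ε := by positivity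
  have hn1 : (0 : ℝ) ≤ B ^ 2 + 2 * (s.card : ℝ) ^ 2 * ε := by positivity
  have h8 : ∀ x : H, ‖(∑ i ∈ s, T i) x‖ ^ 2 ≤
      (B ^ 2 + 2 * (s.card : ℝ) ^ 2 * ε) * ‖x‖ ^ 2 := by
    intro x
    have h9 := AlmOrthAux.schur_aux s T hn0 h4 x
    have h10 : (((‖(∑ i ∈ s, T i) x‖ ^ 2 : ℝ)) : ℂ) =
        ∑ i ∈ s, ∑ j ∈ s, inner ℂ (T i x) (T j x) := by
      rw [AlmOrthAux.nsq, _root_.sum_apply, sum_inner]
      refine sum_congr rfl fun i _ => ?_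
      rw [inner_sum]
    have h11 : ‖(∑ i ∈ s, T i) x‖ ^ 2 ≤ ∑ i ∈ s, (‖T i x‖ ^ 2 + s.card * (ε * ‖x‖ ^ 2)) := by
      have h12 : ‖(∑ i ∈ s, T i) x‖ ^ 2 = ‖(((‖(∑ i ∈ s, T i) x‖ ^ 2 : ℝ)) : ℂ)‖ := by
        rw [Complex.norm_real, Real.norm_eq_abs, abs_of_nonneg (sq_nonneg _)]
      rw [h12, h10]
      refine (norm_sum_le _ _).trans (sum_le_sum fun i hi => ?_)
      refine (norm_sum_le _ _).trans ?_
      refine AlmOrthAux.off_le s (fun j => ‖inner ℂ (T i x) (T j x)‖) hi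
        (mul_nonneg hε (sq_nonneg _)) ?_ fun j hj hij => ?_
      · show ‖inner ℂ (T i x) (T i x)‖ ≤ ‖T i x‖ ^ 2
        rw [← AlmOrthAux.nsq, Complex.norm_real, Real.norm_eq_abs, abs_of_nonneg (sq_nonneg _)]
      · show ‖inner ℂ (T i x) (T j x)‖ ≤ ε * ‖x‖ ^ 2
        have h13 : inner ℂ (T i x) (T j x) = inner ℂ x ((star (T i) * T j) x) := by
          have h14 : (star (T i) * T j) x = star (T i) (T j x) := rfl
          have h20 := AlmOrthAux.star_inner (star (T i)) x (T j x)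
          rw [star_star] at h20
          rw [h14, h20]
        rw [h13]
        refine (norm_inner_le_norm _ _).trans ?_
        have h15 : ‖(star (T i) * T j) x‖ ≤ ε * ‖x‖ :=
          (ContinuousLinearMap.le_opNorm _ _).trans
            (mul_le_mul_of_nonneg_right (h2 i hi j hj hij) (norm_nonneg _))
        have h16 := mul_le_mul_of_nonneg_left h15 (norm_nonneg x)
        calc ‖x‖ * ‖(star (T i) * T j) x‖ ≤ ‖x‖ * (ε * ‖x‖) := h16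
          _ = ε * ‖x‖ ^ 2 := by ring
    rw [sum_add_distrib, sum_const, nsmul_eq_mul] at h11
    have h17 := AlmOrthAux.card_arith s.card (B := B) hε (sq_nonneg ‖x‖)
    linarith
  have h18 : ‖∑ i ∈ s, T i‖ ≤ Real.sqrt (B ^ 2 + 2 * (s.card : ℝ) ^ 2 * ε) := by
    refine ContinuousLinearMap.opNorm_le_bound _ (Real.sqrt_nonneg _) fun x => ?_
    have h19 := Real.sqrt_le_sqrt (h8 x)
    rw [Real.sqrt_sq (norm_nonneg _), Real.sqrt_mul hn1, Real.sqrt_sq (norm_nonneg _)] at h19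
    exact h19
  calc ‖∑ i ∈ s, T i‖ ^ 2 ≤ Real.sqrt (B ^ 2 + 2 * (s.card : ℝ) ^ 2 * ε) ^ 2 :=
        pow_le_pow_left₀ (norm_nonneg _) h18 2
    _ = _ := Real.sq_sqrt hn1

theorem schur_test {ι : Type} (s : Finset ι) (T : ι → H →L[ℂ] H) {B : ℝ} (hB : 0 ≤ B)
    (h : ∀ i ∈ s, ∑ j ∈ s, ‖T i * star (T j)‖ ≤ B) (x : H) :
    ∑ i ∈ s, ‖T i x‖ ^ 2 ≤ B * ‖x‖ ^ 2 :=
  AlmOrthAux.schur_aux s T hB h x

end Pool.Agent.Lib.Npw
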