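import Pool.Agent.Lib.Npw.Pi4
import Pool.Agent.Lib.Npw.AlmOrth
import Pool.Agent.Lib.P5632c9.DivBound

/-!
# NPW (NB): the norm of `Pi`

`‖FF q n‖ ≤ q.divisors.card ≤ C_η q^η ≤ C_η 2^(a u η) ≤ C_η 2^u` with `η = 1 / (a + 1)` (`card_divisors_le`, `norm_FF_le`).
For `q ≠ q'` in `s ⊆ [1, 2^v]`, `v = a u`: choose `n2 < n1 < n`, `n2 = E' (v + t + 1)`, `n1 = n2 + E' (v + t)`, `n ≥ n1 + E' (v + t)` (`E'`, `C'` from
`pi4`, applied to one-element sets, `Pi {q} n = FF q n`). `FF q n ≈ FF q n1 * FF q n` and `FF q' n ≈ FF q' n2 * FF q' n` (second part), hence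
`star (FF q n) * FF q' n ≈ star (FF q n) * (star (FF q n1) * FF q' n2) * FF q' n`, and `star (FF q n1) * FF q' n2 = star (star (FF q' n2) * FF q n1) ≈ 0`
(fourth part, `{q'} ∩ {q} = ∅`). Norms of the outer factors `≤ 2^v` (or use that all norms are `≤ 2^v`, so each replacement costs
`2^(2v) C' (1/2)^t`). `FF q n * star (FF q' n)`: `FF q n ≈ FF q n * FF q n1`, `FF q' n ≈ FF q' n * FF q' n2` (first part) and
`FF q n1 * star (FF q' n2) ≈ 0` (third part). So the error `ε ≤ C 2^(3v) (1/2)^t`; take `t = 5 v` and use `alm_orth` (`|s| ≤ 2^v`):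
`‖Pi s n‖² ≤ C_η² 4^u + 2 * 2^(2v) ε ≤ C 4^u`.
-/

set_option autoImplicit false

open Finset

namespace Pool.Agent.Lib.Npw

variable {G H : Type} [Group G] [NormedAddCommGroup H] [InnerProductSpace ℂ H] [CompleteSpace H]

namespace Dat

namespace NormPiAux

theorem pi_single (A : Dat G) (R : Rep G H) (c0 q n : ℕ) :
    A.Pi R c0 {q} n = A.FF R c0 q n := by
  simp [Dat.Pi]

theorem piEmpty (A : Dat G) (R : Rep G H) (c0 n : ℕ) :
    A.Pi R c0 ∅ n = 0 := by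
  simp [Dat.Pi]

/-- three term estimate -/
theorem three {X1 X Y Y2 : H →L[ℂ] H} {B δ : ℝ} (hB : 1 ≤ B) (hδ : 0 ≤ δ)
    (hX : ‖X‖ ≤ B) (hX1 : ‖X1‖ ≤ B) (hY : ‖Y‖ ≤ B)
    (h1 : ‖X * X1 - X‖ ≤ δ) (h2 : ‖Y2 * Y - Y‖ ≤ δ) (h3 : ‖X1 * Y2‖ ≤ δ) :
    ‖X * Y‖ ≤ 3 * B ^ 2 * δ := by
  have e : X * Y = -((X * X1 - X) * Y) - X * X1 * (Y2 * Y - Y) + X * (X1 * Y2) * Y := by
    noncomm_ring
  rw [e]
  have hB0 : 0 ≤ B := by linarith
  have a1 : ‖(X * X1 - X) * Y‖ ≤ δ * B :=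
    (norm_mul_le _ _).trans (mul_le_mul h1 hY (norm_nonneg _) hδ)
  have a2 : ‖X * X1 * (Y2 * Y - Y)‖ ≤ B * B * δ := by
    refine (norm_mul_le _ _).trans (mul_le_mul ?_ h2 (norm_nonneg _) (by positivity))
    exact (norm_mul_le _ _).trans (mul_le_mul hX hX1 (norm_nonneg _) hB0)
  have a3 : ‖X * (X1 * Y2) * Y‖ ≤ B * δ * B := by
    refine (norm_mul_le _ _).trans (mul_le_mul ?_ hY (norm_nonneg _) (by positivity))
    exact (norm_mul_le _ _).trans (mul_le_mul hX h3 (norm_nonneg _) hB0)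
  have a4 : ‖-((X * X1 - X) * Y) - X * X1 * (Y2 * Y - Y) + X * (X1 * Y2) * Y‖ ≤
      ‖(X * X1 - X) * Y‖ + ‖X * X1 * (Y2 * Y - Y)‖ + ‖X * (X1 * Y2) * Y‖ := by
    refine (norm_add_le _ _).trans (add_le_add_left ?_ _)
    refine (norm_sub_le _ _).trans ?_
    rw [norm_neg]
  have a5 : δ * B ≤ δ * B ^ 2 := by
    apply mul_le_mul_of_nonneg_left _ hδ
    nlinarith
  calc _ ≤ _ := a4
    _ ≤ δ * B + B * B * δ + B * δ * B := by linarith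
    _ ≤ 3 * B ^ 2 * δ := by nlinarith

theorem card_le {a u q : ℕ} {Cη : ℝ}
    (h : ∀ n : ℕ, n ≠ 0 → (n.divisors.card : ℝ) ≤ Cη * (n : ℝ) ^ ((1 : ℝ) / (a + 1)))
    (hC : 1 ≤ Cη) (hq : q ∈ Icc 1 (2 ^ (a * u))) :
    (q.divisors.card : ℝ) ≤ Cη * 2 ^ u := by
  rw [mem_Icc] at hq
  obtain ⟨h1, h2⟩ := hq
  refine (h q (by omega)).trans ?_
  apply mul_le_mul_of_nonneg_left _ (by linarith)
  have h3 : (q : ℝ) ≤ (2 : ℝ) ^ ((a * u : ℕ) : ℝ) := by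
    rw [Real.rpow_natCast]
    exact_mod_cast h2
  have ha : (0 : ℝ) < a + 1 := by positivity
  calc (q : ℝ) ^ ((1 : ℝ) / (a + 1)) ≤ ((2 : ℝ) ^ ((a * u : ℕ) : ℝ)) ^ ((1 : ℝ) / (a + 1)) :=
        Real.rpow_le_rpow (by positivity) h3 (by positivity)
    _ = (2 : ℝ) ^ (((a * u : ℕ) : ℝ) * (1 / (a + 1))) := by
        rw [← Real.rpow_mul (by norm_num)]
    _ ≤ (2 : ℝ) ^ (u : ℝ) := by
        apply Real.rpow_le_rpow_of_exponent_le (by norm_num)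
        push_cast
        rw [mul_one_div, div_le_iff₀ ha]
        nlinarith [show (0 : ℝ) ≤ u from by positivity]
    _ = 2 ^ u := by rw [Real.rpow_natCast]

theorem ff_le (A : Dat G) (R : Rep G H) {v q : ℕ} (c0 n : ℕ) (hq : q ∈ Icc 1 (2 ^ v)) :
    ‖A.FF R c0 q n‖ ≤ 2 ^ v := by
  rw [mem_Icc] at hq
  refine (A.norm_FF_le R c0 q n).trans ?_
  have h1 : q.divisors.card ≤ q := Nat.card_divisors_le_self q
  exact_mod_cast h1.trans hq.2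

end NormPiAux

open NormPiAux in
theorem norm_pi {A : Dat G} (hA : A.Ok) (R : Rep G H) (a : ℕ) : ∃ C E : ℕ,
    ∀ (c0 u n : ℕ) (s : Finset ℕ), s ⊆ Icc 1 (2 ^ (a * u)) → E * (u + 1) ≤ n →
    ‖A.Pi R c0 s n‖ ≤ C * 2 ^ u := by
  obtain ⟨C', E', h4⟩ := pi4 hA R
  obtain ⟨Cη, hC1, hdiv⟩ := Pool.Agent.Lib.P5632c9.card_divisors_le ((1 : ℝ) / (a + 1))
    (by positivity)
  refine ⟨⌈Cη⌉₊ + 6 * C', E' * (18 * a + 1), ?_⟩
  intro c0 u n s hs hn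
  set v : ℕ := a * u with hv
  set n2 : ℕ := E' * (v + 5 * v + 1) with hn2
  set n1 : ℕ := n2 + E' * (v + 5 * v) with hn1
  have hn' : n1 + E' * (v + 5 * v) ≤ n := by
    refine le_trans ?_ hn
    rw [hn1, hn2, hv]
    have : E' * (a * u + 5 * (a * u) + 1) + E' * (a * u + 5 * (a * u)) +
        E' * (a * u + 5 * (a * u)) = E' * (18 * (a * u) + 1) := by ring
    rw [this, mul_assoc]
    apply Nat.mul_le_mul_left
    nlinarith [Nat.zero_le a, Nat.zero_le u]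
  have hsing : ∀ q ∈ s, ({q} : Finset ℕ) ⊆ Icc 1 (2 ^ v) := by
    intro q hq
    rw [singleton_subset_iff]
    exact hs hq
  set δ : ℝ := C' * (1 / 2) ^ (5 * v) with hδ
  have hδ0 : 0 ≤ δ := by positivity
  have hB1 : (1 : ℝ) ≤ 2 ^ v := one_le_pow₀ (by norm_num)
  -- the pairs
  have key : ∀ q ∈ s, ∀ q' ∈ s, q ≠ q' →
      ‖star (A.FF R c0 q n) * A.FF R c0 q' n‖ ≤ 3 * ((2 : ℝ) ^ v) ^ 2 * δ ∧
      ‖A.FF R c0 q n * star (A.FF R c0 q' n)‖ ≤ 3 * ((2 : ℝ) ^ v) ^ 2 * δ := by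
    intro q hq q' hq' hne
    obtain ⟨p1, p2, -, -⟩ := h4 c0 v n n1 (5 * v) {q} {q} (hsing q hq) (hsing q hq) hn'
      (by rw [hn1, hn2]; omega)
    obtain ⟨r1, r2, -, -⟩ := h4 c0 v n n2 (5 * v) {q'} {q'} (hsing q' hq') (hsing q' hq')
      (by omega) (le_of_eq hn2.symm)
    obtain ⟨-, -, s3, s4⟩ := h4 c0 v n1 n2 (5 * v) {q} {q'} (hsing q hq) (hsing q' hq')
      (le_of_eq hn1.symm) (le_of_eq hn2.symm)
    rw [inter_self, pi_single, pi_single] at p1 p2 r1 r2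
    have hemp : ({q} : Finset ℕ) ∩ {q'} = ∅ := by
      rw [← disjoint_iff_inter_eq_empty, disjoint_singleton]
      exact hne
    rw [hemp, pi_single, pi_single, piEmpty, sub_zero] at s3 s4
    have bX : ‖A.FF R c0 q n‖ ≤ 2 ^ v := ff_le A R c0 n (hs hq)
    have bX1 : ‖A.FF R c0 q n1‖ ≤ 2 ^ v := ff_le A R c0 n1 (hs hq)
    have bY : ‖A.FF R c0 q' n‖ ≤ 2 ^ v := ff_le A R c0 n (hs hq')
    constructor
    · refine three (X1 := star (A.FF R c0 q n1)) (Y2 := A.FF R c0 q' n2) hB1 hδ0 ?_ ?_ bY ?_ ?_ ?_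
      · rwa [norm_star]
      · rwa [norm_star]
      · rw [← star_mul, ← star_sub, norm_star]
        exact p2
      · exact r2
      · rw [← norm_star, star_mul, star_star]
        exact s4
    · refine three (X1 := A.FF R c0 q n1) (Y2 := star (A.FF R c0 q' n2)) hB1 hδ0 bX bX1 ?_ p1 ?_ ?_
      · rwa [norm_star]
      · rw [← star_mul, ← star_sub, norm_star]
        exact r1
      · exact s3
  have hor := alm_orth s (fun q => A.FF R c0 q n) (B := Cη * 2 ^ u)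
    (ε := 3 * ((2 : ℝ) ^ v) ^ 2 * δ) (by positivity) (by positivity)
    (fun q hq => (A.norm_FF_le R c0 q n).trans (card_le hdiv hC1 (hs hq)))
    (fun q hq q' hq' hne => (key q hq q' hq' hne).1)
    (fun q hq q' hq' hne => (key q hq q' hq' hne).2)
  have hcard : (s.card : ℝ) ≤ 2 ^ v := by
    have := card_le_card hs
    rw [Nat.card_Icc] at this
    have h2 : s.card ≤ 2 ^ v := by rwa [Nat.add_sub_cancel] at this
    exact_mod_cast h2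
  have hsmall : 2 * (s.card : ℝ) ^ 2 * (3 * ((2 : ℝ) ^ v) ^ 2 * δ) ≤ 6 * C' := by
    have h1 : (s.card : ℝ) ^ 2 ≤ ((2 : ℝ) ^ v) ^ 2 :=
      pow_le_pow_left₀ (by positivity) hcard 2
    have h2 : ((2 : ℝ) ^ v) ^ 2 * ((2 : ℝ) ^ v) ^ 2 * (1 / 2) ^ (5 * v) ≤ 1 := by
      have : ((2 : ℝ) ^ v) ^ 2 * ((2 : ℝ) ^ v) ^ 2 * (1 / 2) ^ (5 * v) = (1 / 2) ^ v := by
        rw [← pow_mul, ← pow_add, one_div, inv_pow, inv_pow, ← div_eq_mul_inv, ← one_div,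
          div_eq_div_iff (by positivity) (by positivity), ← pow_add, one_mul]
        congr 1
        omega
      rw [this]
      exact pow_le_one₀ (by norm_num) (by norm_num)
    calc 2 * (s.card : ℝ) ^ 2 * (3 * ((2 : ℝ) ^ v) ^ 2 * δ)
        ≤ 2 * ((2 : ℝ) ^ v) ^ 2 * (3 * ((2 : ℝ) ^ v) ^ 2 * δ) := by
          apply mul_le_mul_of_nonneg_right _ (by positivity)
          linarith
      _ = 6 * C' * (((2 : ℝ) ^ v) ^ 2 * ((2 : ℝ) ^ v) ^ 2 * (1 / 2) ^ (5 * v)) := by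
          rw [hδ]; ring
      _ ≤ 6 * C' * 1 := by
          apply mul_le_mul_of_nonneg_left h2 (by positivity)
      _ = 6 * C' := by ring
  have hfin : ‖A.Pi R c0 s n‖ ^ 2 ≤ (((⌈Cη⌉₊ + 6 * C' : ℕ) : ℝ) * 2 ^ u) ^ 2 := by
    have e1 : A.Pi R c0 s n = ∑ q ∈ s, A.FF R c0 q n := rfl
    rw [e1]
    refine hor.trans ?_
    have h1 : Cη ≤ (⌈Cη⌉₊ : ℝ) := Nat.le_ceil _
    have h2 : (1 : ℝ) ≤ (2 ^ u) ^ 2 := by
      apply one_le_pow₀
      exact one_le_pow₀ (by norm_num)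
    have h3 : (6 * C' : ℝ) ≤ (6 * C') ^ 2 := by
      rcases Nat.eq_zero_or_pos C' with h | h
      · simp [h]
      · have : (1 : ℝ) ≤ C' := by exact_mod_cast h
        nlinarith
    have h4 : Cη ^ 2 ≤ (⌈Cη⌉₊ : ℝ) ^ 2 := pow_le_pow_left₀ (by linarith) h1 2
    have h5 : (0 : ℝ) ≤ (⌈Cη⌉₊ : ℝ) := by positivity
    have h6 : (0 : ℝ) ≤ C' := by positivity
    push_cast
    calc (Cη * 2 ^ u) ^ 2 + 2 * (s.card : ℝ) ^ 2 * (3 * ((2 : ℝ) ^ v) ^ 2 * δ)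
        ≤ Cη ^ 2 * (2 ^ u) ^ 2 + 6 * C' := by
          rw [mul_pow]; linarith
      _ ≤ (⌈Cη⌉₊ : ℝ) ^ 2 * (2 ^ u) ^ 2 + (6 * C') ^ 2 * (2 ^ u) ^ 2 := by
          have := mul_le_mul_of_nonneg_right h4 (by positivity : (0 : ℝ) ≤ (2 ^ u) ^ 2)
          have h7 : (6 * C' : ℝ) ≤ (6 * C') ^ 2 * (2 ^ u) ^ 2 := by
            nlinarith [sq_nonneg (6 * C' : ℝ)]
          linarith
      _ ≤ (((⌈Cη⌉₊ : ℝ) + 6 * C') * 2 ^ u) ^ 2 := by
          have h8 : (0 : ℝ) ≤ (2 ^ u) ^ 2 := by positivity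
          have h9 : (0 : ℝ) ≤ (⌈Cη⌉₊ : ℝ) * (6 * C') := by positivity
          nlinarith [mul_nonneg h9 h8]
  exact le_of_sq_le_sq hfin (by positivity)

end Dat

end Pool.Agent.Lib.Npw
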