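import Pool.Agent.Lib.Npw.ApiB

/-!
# NPW (Part IV, step 2): splitting the cube into blocks

`A_M` and the average over `v0 ∈ [0,M)^k` of `S(v0 + P v)` differ, for each fixed `v ∈ [0,L)^k`, by the shift of the cube `[0,M)^k` by `P v`: the symmetric difference of
`[0,M)^k` and `P v + [0,M)^k` has at most `2 k M^(k-1) P L` elements, so the norm of the difference is `≤ 2 k P L / M`. (Case `P L ≥ M` trivial: everything `≤ 2`.)
So `A_M ≈ M^(-k) ∑_{v0} L^(-k) ∑_v U(S(v0 + P v)) = M^(-k) ∑_{v0} U(S v0) (L^(-k) ∑_v U((S v0)⁻¹ S(v0 + P v)))`.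
-/

set_option autoImplicit false

open Finset

namespace Pool.Agent.Lib.Npw

variable {G H : Type} [Group G] [NormedAddCommGroup H] [InnerProductSpace ℂ H] [CompleteSpace H]

namespace BlocksAux

/-- the cube -/
def cube (k M : ℕ) : Finset (Fin k → ℕ) := Fintype.piFinset (fun _ : Fin k => range M)

lemma mem_cube {k M : ℕ} {w : Fin k → ℕ} : w ∈ cube k M ↔ ∀ l, w l < M := by
  unfold cube
  rw [Fintype.mem_piFinset]
  simp only [mem_range]

lemma card_cube (k M : ℕ) : (cube k M).card = M ^ k := by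
  unfold cube
  rw [Fintype.card_piFinset]
  simp

lemma card_slab (k M a : ℕ) (l : Fin k) :
    ((cube k M).filter (fun w => w l < a)).card ≤ a * M ^ (k - 1) := by
  classical
  have h1 : (cube k M).filter (fun w => w l < a) ⊆
      Fintype.piFinset (fun i => Function.update (fun _ : Fin k => range M) l (range a) i) := by
    intro w hw
    rw [mem_filter, mem_cube] at hw
    rw [Fintype.mem_piFinset]
    intro i
    rcases eq_or_ne i l with h | h
    · subst h
      rw [Function.update_self, mem_range]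
      exact hw.2
    · rw [Function.update_of_ne h, mem_range]
      exact hw.1 i
  refine (card_le_card h1).trans (le_of_eq ?_)
  rw [Fintype.card_piFinset]
  have h2 : ∀ i, (Function.update (fun _ : Fin k => range M) l (range a) i).card =
      Function.update (fun _ : Fin k => M) l a i := by
    intro i
    rcases eq_or_ne i l with h | h
    · subst h
      rw [Function.update_self, Function.update_self, card_range]
    · rw [Function.update_of_ne h, Function.update_of_ne h, card_range]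
  simp only [h2]
  rw [Finset.prod_update_of_mem (mem_univ l), prod_const]
  congr 2
  rw [card_sdiff_of_subset (by simp)]
  simp

lemma card_diff {k M L P : ℕ} {v : Fin k → ℕ} (hv : ∀ l, v l < L) :
    (cube k M \ (cube k M).image (fun w => w + P • v)).card ≤ k * (P * L) * M ^ (k - 1) := by
  classical
  have h1 : cube k M \ (cube k M).image (fun w => w + P • v) ⊆
      univ.biUnion fun l : Fin k => (cube k M).filter (fun w => w l < P * v l) := by
    intro w hw
    rw [mem_sdiff, mem_cube] at hw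
    rw [mem_biUnion]
    by_contra hcon
    push Not at hcon
    have h2 : ∀ l, P * v l ≤ w l := by
      intro l
      have h3 := hcon l (mem_univ l)
      rw [mem_filter, mem_cube] at h3
      by_contra h4
      exact h3 ⟨hw.1, by omega⟩
    apply hw.2
    rw [mem_image]
    refine ⟨fun l => w l - P * v l, ?_, ?_⟩
    · rw [mem_cube]
      intro l
      have := hw.1 l
      omega
    · funext l
      have := h2 l
      simp only [Pi.add_apply, Pi.smul_apply, smul_eq_mul]
      omega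
  refine (card_le_card h1).trans (card_biUnion_le.trans ?_)
  calc ∑ l : Fin k, ((cube k M).filter (fun w => w l < P * v l)).card
      ≤ ∑ _l : Fin k, P * L * M ^ (k - 1) := by
        refine sum_le_sum fun l _ => (card_slab k M _ l).trans ?_
        exact Nat.mul_le_mul_right _ (Nat.mul_le_mul_left _ (hv l).le)
    _ = k * (P * L) * M ^ (k - 1) := by
        rw [sum_const, card_univ, Fintype.card_fin, smul_eq_mul]
        ring

lemma shift_le {H : Type} [NormedAddCommGroup H] {k M L P : ℕ} {v : Fin k → ℕ}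
    (hv : ∀ l, v l < L) (f : (Fin k → ℕ) → H) {b : ℝ} (hf : ∀ w, ‖f w‖ ≤ b) :
    ‖∑ w ∈ cube k M, f w - ∑ w ∈ cube k M, f (w + P • v)‖ ≤
      2 * (k * (P * L) * M ^ (k - 1)) * b := by
  classical
  have hb : 0 ≤ b := (norm_nonneg _).trans (hf 0)
  have hinj : Function.Injective (fun w : Fin k → ℕ => w + P • v) := fun _ _ h =>
    add_right_cancel h
  have h1 : ∑ w ∈ cube k M, f (w + P • v) =
      ∑ w ∈ (cube k M).image (fun w => w + P • v), f w :=
    (sum_image fun _ _ _ _ h => hinj h).symm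
  have hc : ((cube k M).image (fun w => w + P • v)).card = (cube k M).card :=
    card_image_of_injective _ hinj
  rw [h1, ← sum_sdiff_sub_sum_sdiff]
  have h2 : ∀ s : Finset (Fin k → ℕ), ‖∑ w ∈ s, f w‖ ≤ s.card * b := by
    intro s
    refine (norm_sum_le _ _).trans ((sum_le_sum fun w _ => hf w).trans (le_of_eq ?_))
    rw [sum_const, nsmul_eq_mul]
  have h3 : ((cube k M).image (fun w => w + P • v) \ cube k M).card =
      (cube k M \ (cube k M).image (fun w => w + P • v)).card :=
    card_sdiff_comm hc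
  have h4 : ((cube k M \ (cube k M).image (fun w => w + P • v)).card : ℝ) ≤
      k * (P * L) * M ^ (k - 1) := by
    exact_mod_cast card_diff (M := M) (P := P) hv
  refine (norm_sub_le _ _).trans ((add_le_add (h2 _) (h2 _)).trans ?_)
  rw [h3]
  have h5 := mul_le_mul_of_nonneg_right h4 hb
  linarith

end BlocksAux

open BlocksAux

namespace Dat

theorem blocks (A : Dat G) (R : Rep G H) {M L P : ℕ} (hM : 0 < M) (hL : 0 < L) (u : H) {B : ℝ}
    (hB : ∀ v0 : Fin A.k → ℕ, (∀ l, v0 l < M) →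
      ‖(((L : ℂ) ^ A.k)⁻¹ • ∑ v ∈ Fintype.piFinset (fun _ : Fin A.k => range L),
        R.U ((A.S v0)⁻¹ * A.S (v0 + P • v))) u‖ ≤ B) :
    ‖A.AA R M u‖ ≤ B + 2 * A.k * P * L / M * ‖u‖ := by
  set f : (Fin A.k → ℕ) → H := fun w => R.U (A.S w) u with hf
  have hfn : ∀ w, ‖f w‖ ≤ ‖u‖ := fun w => (R.norm_apply _ _).le
  have hM0 : (0 : ℝ) < M := by exact_mod_cast hM
  have hL0 : (0 : ℝ) < L := by exact_mod_cast hL
  have hMc : ((M : ℂ) ^ A.k) ≠ 0 := pow_ne_zero _ (by exact_mod_cast hM.ne')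
  have hLc : ((L : ℂ) ^ A.k) ≠ 0 := pow_ne_zero _ (by exact_mod_cast hL.ne')
  have hB0 : 0 ≤ B := (norm_nonneg _).trans (hB 0 fun _ => hM)
  have hAA : A.AA R M u = ((M : ℂ) ^ A.k)⁻¹ • ∑ w ∈ cube A.k M, f w := by
    unfold AA cube
    rw [smul_apply, _root_.sum_apply]
  -- the main part
  have hmain : ‖∑ v ∈ cube A.k L, ∑ w ∈ cube A.k M, f (w + P • v)‖ ≤
      (L : ℝ) ^ A.k * ((M : ℝ) ^ A.k * B) := by
    rw [sum_comm]
    have h1 : ∀ w ∈ cube A.k M, ‖∑ v ∈ cube A.k L, f (w + P • v)‖ ≤ (L : ℝ) ^ A.k * B := by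
      intro w hw
      have h2 := hB w (mem_cube.1 hw)
      have h3 : ∑ v ∈ cube A.k L, f (w + P • v) = (L : ℂ) ^ A.k • R.U (A.S w)
          ((((L : ℂ) ^ A.k)⁻¹ • ∑ v ∈ Fintype.piFinset (fun _ : Fin A.k => range L),
            R.U ((A.S w)⁻¹ * A.S (w + P • v))) u) := by
        rw [smul_apply, map_smul, smul_smul, mul_inv_cancel₀ hLc, one_smul,
          _root_.sum_apply, map_sum]
        refine sum_congr rfl fun v _ => ?_
        rw [← mul_apply_eq_comp, ← map_mul, mul_inv_cancel_left]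
      rw [h3, norm_smul, R.norm_apply, norm_pow, Complex.norm_natCast]
      exact mul_le_mul_of_nonneg_left h2 (by positivity)
    refine (norm_sum_le _ _).trans ((sum_le_sum h1).trans (le_of_eq ?_))
    rw [sum_const, nsmul_eq_mul, card_cube]
    push_cast
    ring
  -- the error
  have herr : ‖∑ v ∈ cube A.k L, (∑ w ∈ cube A.k M, f w - ∑ w ∈ cube A.k M, f (w + P • v))‖ ≤
      (L : ℝ) ^ A.k * (2 * (A.k * (P * L) * M ^ (A.k - 1)) * ‖u‖) := by
    refine (norm_sum_le _ _).trans ((sum_le_sum fun v hv =>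
      shift_le (mem_cube.1 hv) f hfn).trans (le_of_eq ?_))
    rw [sum_const, nsmul_eq_mul, card_cube]
    push_cast
    ring
  have hsplit : (L : ℂ) ^ A.k • ∑ w ∈ cube A.k M, f w =
      ∑ v ∈ cube A.k L, ∑ w ∈ cube A.k M, f (w + P • v) +
        ∑ v ∈ cube A.k L, (∑ w ∈ cube A.k M, f w - ∑ w ∈ cube A.k M, f (w + P • v)) := by
    rw [← sum_add_distrib]
    simp only [add_sub_cancel]
    rw [sum_const, card_cube, ← Nat.cast_smul_eq_nsmul ℂ]
    push_cast
    rfl
  have hn : (L : ℝ) ^ A.k * ‖∑ w ∈ cube A.k M, f w‖ ≤ (L : ℝ) ^ A.k * ((M : ℝ) ^ A.k * B) +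
      (L : ℝ) ^ A.k * (2 * (A.k * (P * L) * M ^ (A.k - 1)) * ‖u‖) := by
    have h1 : ‖(L : ℂ) ^ A.k • ∑ w ∈ cube A.k M, f w‖ =
        (L : ℝ) ^ A.k * ‖∑ w ∈ cube A.k M, f w‖ := by
      rw [norm_smul, norm_pow, Complex.norm_natCast]
    rw [← h1, hsplit]
    exact (norm_add_le _ _).trans (add_le_add hmain herr)
  have hn2 : ‖∑ w ∈ cube A.k M, f w‖ ≤ (M : ℝ) ^ A.k * B +
      2 * (A.k * (P * L) * M ^ (A.k - 1)) * ‖u‖ := by
    rw [← mul_add] at hn
    exact le_of_mul_le_mul_left hn (by positivity)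
  rw [hAA, norm_smul, norm_inv, norm_pow, Complex.norm_natCast]
  rw [inv_mul_le_iff₀ (by positivity)]
  refine hn2.trans (le_of_eq ?_)
  have hk : (A.k : ℝ) * M ^ (A.k - 1) * M = A.k * M ^ A.k := by
    rcases Nat.eq_zero_or_pos A.k with h | h
    · rw [h]
      simp
    · rw [mul_assoc, ← pow_succ, Nat.sub_add_cancel h]
  have hk2 : (A.k : ℝ) * M ^ (A.k - 1) = A.k * M ^ A.k / M := by
    rw [eq_div_iff hM0.ne']
    exact hk
  calc (M : ℝ) ^ A.k * B + 2 * (A.k * (P * L) * M ^ (A.k - 1)) * ‖u‖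
      = (M : ℝ) ^ A.k * B + 2 * (P * L) * (A.k * M ^ (A.k - 1)) * ‖u‖ := by ring
    _ = (M : ℝ) ^ A.k * (B + 2 * A.k * P * L / M * ‖u‖) := by
        rw [hk2]
        ring

end Dat

end Pool.Agent.Lib.Npw
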