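import Pool.Agent.Lib.Npw.Circ

/-!
# NPW (N4): polynomials of one unitary operator

`V = U(g)` is unitary (`star_U`), hence normal with spectrum in the unit circle. Let `a = ∑_i star (p_i(V)) * p_i(V)`; `a = cfc F V` for the continuous function
`F z = ∑ ‖p_i(z)‖²` on the spectrum (`cfc_eval_X`, `cfc_aeval`-type lemmas, `cfc_star`, `cfc_mul`, `cfc_sum`), `F ≤ B` on the circle (every `z` with `‖z‖ = 1` is some `ee θ`,
`exists_ee`), so `‖a‖ ≤ B` (`norm_cfc_le`) and `∑ ‖p_i(V) x‖² = re ⟪a x, x⟫ ≤ B ‖x‖²`.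
(Alternative without the functional calculus: transference. For `N → ∞`, `‖p(V) x‖² = ‖p(V) V^n x‖²`; average over `n < N` and use Plancherel on `ℤ/(N + deg)` for
`H`-valued sequences.)
-/

set_option autoImplicit false

open Finset Polynomial

namespace Pool.Agent.Lib.Npw

variable {G H : Type} [Group G] [NormedAddCommGroup H] [InnerProductSpace ℂ H] [CompleteSpace H]

namespace PolSumAux

theorem mem_unitary (R : Rep G H) (g : G) : R.U g ∈ unitary (H →L[ℂ] H) := by
  rw [Unitary.mem_iff, R.star_U]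
  constructor
  · rw [← map_mul, inv_mul_cancel, map_one]
  · rw [← map_mul, mul_inv_cancel, map_one]

theorem normal (R : Rep G H) (g : G) : IsStarNormal (R.U g) := by
  constructor
  rw [R.star_U]
  change R.U g⁻¹ * R.U g = R.U g * R.U g⁻¹
  rw [← map_mul, ← map_mul, inv_mul_cancel, mul_inv_cancel]

theorem sum_eq_cfc {V : H →L[ℂ] H} (hV : IsStarNormal V) {ι : Type} (s : Finset ι)
    (p : ι → ℂ[X]) :
    ∑ i ∈ s, star (aeval V (p i)) * aeval V (p i)
      = cfc (fun z : ℂ => ∑ i ∈ s, star ((p i).eval z) * (p i).eval z) V := by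
  have hc : ∀ i, Continuous fun z : ℂ => (p i).eval z := fun i => (p i).continuous
  have h1 := cfc_sum (fun i (z : ℂ) => star ((p i).eval z) * (p i).eval z) V s
    (fun i _ => ((hc i).star.mul (hc i)).continuousOn)
  have h2 : (∑ i ∈ s, fun (z : ℂ) => star ((p i).eval z) * (p i).eval z)
      = fun z : ℂ => ∑ i ∈ s, star ((p i).eval z) * (p i).eval z := by
    funext z
    simp
  rw [h2] at h1
  rw [h1]
  refine Finset.sum_congr rfl fun i _ => ?_
  rw [cfc_mul (fun z : ℂ => star ((p i).eval z)) (fun z : ℂ => (p i).eval z) V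
    (hc i).star.continuousOn (hc i).continuousOn, cfc_star, cfc_polynomial (p i) V hV]

end PolSumAux

theorem poly_sum (R : Rep G H) (g : G) {ι : Type} (s : Finset ι) (p : ι → ℂ[X]) {B : ℝ}
    (h : ∀ θ : ℝ, ∑ i ∈ s, ‖(p i).eval (ee θ)‖ ^ 2 ≤ B) (x : H) :
    ∑ i ∈ s, ‖aeval (R.U g) (p i) x‖ ^ 2 ≤ B * ‖x‖ ^ 2 := by
  have hB : 0 ≤ B := le_trans (Finset.sum_nonneg fun i _ => sq_nonneg _) (h 0)
  set V := R.U g with hVdef
  have hu := PolSumAux.mem_unitary R g
  have hV := PolSumAux.normal R g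
  rw [← hVdef] at hu hV
  set a := ∑ i ∈ s, star (aeval V (p i)) * aeval V (p i) with ha
  have hna : ‖a‖ ≤ B := by
    rw [ha, PolSumAux.sum_eq_cfc hV s p]
    refine norm_cfc_le hB fun z hz => ?_
    have hz1 : ‖z‖ = 1 := spectrum.norm_eq_one_of_unitary hu hz
    obtain ⟨θ, hθ⟩ := exists_ee hz1
    have h1 : ∑ i ∈ s, star ((p i).eval z) * (p i).eval z
        = ((∑ i ∈ s, ‖(p i).eval z‖ ^ 2 : ℝ) : ℂ) := by
      push_cast
      refine Finset.sum_congr rfl fun i _ => ?_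
      exact Complex.conj_mul' _
    rw [h1, Complex.norm_real, Real.norm_of_nonneg (Finset.sum_nonneg fun i _ => sq_nonneg _),
      ← hθ]
    exact h θ
  have h2 : ((∑ i ∈ s, ‖aeval V (p i) x‖ ^ 2 : ℝ) : ℂ) = inner ℂ (a x) x := by
    rw [ha, _root_.sum_apply, sum_inner]
    push_cast
    refine Finset.sum_congr rfl fun i _ => ?_
    change _ = inner ℂ ((star (aeval V (p i))) (aeval V (p i) x)) x
    rw [ContinuousLinearMap.star_eq_adjoint,
      ContinuousLinearMap.adjoint_inner_left, inner_self_eq_norm_sq_to_K]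
    rfl
  have h3 : (∑ i ∈ s, ‖aeval V (p i) x‖ ^ 2 : ℝ) = ‖inner ℂ (a x) x‖ := by
    rw [← h2, Complex.norm_real,
      Real.norm_of_nonneg (Finset.sum_nonneg fun i _ => sq_nonneg _)]
  rw [h3]
  calc ‖inner ℂ (a x) x‖ ≤ ‖a x‖ * ‖x‖ := norm_inner_le_norm _ _
    _ ≤ (‖a‖ * ‖x‖) * ‖x‖ := by gcongr; exact a.le_opNorm x
    _ ≤ (B * ‖x‖) * ‖x‖ := by gcongr
    _ = B * ‖x‖ ^ 2 := by ring

end Pool.Agent.Lib.Npw
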