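import Pool.Agent.Lib.Npw.ApiB
import Pool.Agent.Lib.Npw.PolSum

/-!
# NPW (N4): the operators `fo`

Explicit polynomial: `fo c Q n = aeval (U(z_c)) fP`, `fP = ∑_q ∑_d C (μ (q/d) * (ll)⁻¹) * ∑_m X^(K_c d m)` (`U(z^e) = U(z)^e`, `map_pow`), and `fP.eval (ee θ) = fs c Q n θ` (`ee_nat_mul`).
`fo_norm`: `poly_sum` with one polynomial (and `B²`; `0 ≤ B` since `‖fs‖ ≥ 0`), `ContinuousLinearMap.opNorm_le_bound`.
`fo_sum`: `poly_sum` with `p_i = (∑_{y<ℓ i} X^(lam e_i y)) * (1 - fP)`.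
-/

set_option autoImplicit false

open Finset Polynomial

namespace Pool.Agent.Lib.Npw

variable {G H : Type} [Group G] [NormedAddCommGroup H] [InnerProductSpace ℂ H] [CompleteSpace H]

namespace FoPolAux

/-- the polynomial of `fo` -/
noncomputable def fP (A : Dat G) (c : Fin A.D) (Q n : ℕ) : ℂ[X] :=
  ∑ q ∈ Icc 1 Q, ∑ d ∈ q.divisors,
    Polynomial.C (((ArithmeticFunction.moebius (q / d) : ℤ) : ℂ) * (A.ll c d n : ℂ)⁻¹) *
      ∑ m ∈ range (A.ll c d n), Polynomial.X ^ (A.K c * d * m)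

theorem aeval_fP (A : Dat G) (R : Rep G H) (c : Fin A.D) (Q n : ℕ) :
    aeval (R.U (A.z c)) (fP A c Q n) = A.fo R c Q n := by
  unfold fP Dat.fo
  rw [map_sum]
  refine Finset.sum_congr rfl fun q _ => ?_
  rw [map_sum]
  refine Finset.sum_congr rfl fun d _ => ?_
  rw [map_mul, aeval_C, map_sum, ← Algebra.smul_def, mul_smul]
  congr 1
  unfold Dat.Cc avg
  congr 1
  refine Finset.sum_congr rfl fun m _ => ?_
  rw [map_pow, aeval_X]
  exact (map_pow R.U _ _).symm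

theorem eval_fP (A : Dat G) (c : Fin A.D) (Q n : ℕ) (θ : ℝ) :
    (fP A c Q n).eval (ee θ) = A.fs c Q n θ := by
  unfold fP Dat.fs
  rw [Polynomial.eval_finsetSum]
  refine Finset.sum_congr rfl fun q _ => ?_
  rw [Polynomial.eval_finsetSum]
  refine Finset.sum_congr rfl fun d _ => ?_
  rw [Polynomial.eval_mul, Polynomial.eval_C, Polynomial.eval_finsetSum, mul_assoc]
  congr 2
  refine Finset.sum_congr rfl fun m _ => ?_
  rw [Polynomial.eval_pow, Polynomial.eval_X, ee_nat_mul]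

end FoPolAux

open FoPolAux

namespace Dat

theorem fo_norm (A : Dat G) (R : Rep G H) (c : Fin A.D) (Q n : ℕ) {B : ℝ}
    (h : ∀ θ : ℝ, ‖A.fs c Q n θ‖ ≤ B) : ‖A.fo R c Q n‖ ≤ B := by
  have hB : 0 ≤ B := (norm_nonneg _).trans (h 0)
  refine ContinuousLinearMap.opNorm_le_bound _ hB fun x => ?_
  have h1 := poly_sum R (A.z c) ({()} : Finset Unit) (fun _ => fP A c Q n) (B := B ^ 2)
    (fun θ => by
      rw [Finset.sum_singleton, eval_fP]
      exact pow_le_pow_left₀ (norm_nonneg _) (h θ) 2) x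
  rw [Finset.sum_singleton, aeval_fP, ← mul_pow] at h1
  exact (pow_le_pow_iff_left₀ (norm_nonneg _) (mul_nonneg hB (norm_nonneg _)) two_ne_zero).1 h1

theorem fo_sum (A : Dat G) (R : Rep G H) (c : Fin A.D) (Q n lam : ℕ) {ι : Type} (s : Finset ι)
    (e ℓ : ι → ℕ) {B : ℝ}
    (h : ∀ θ : ℝ, (∑ i ∈ s, ‖∑ x ∈ range (ℓ i), ee ((lam * e i * x : ℕ) * θ)‖ ^ 2) *
      ‖1 - A.fs c Q n θ‖ ^ 2 ≤ B) (x : H) :
    ∑ i ∈ s, ‖∑ y ∈ range (ℓ i), R.U (A.z c ^ (lam * e i * y)) ((1 - A.fo R c Q n) x)‖ ^ 2 ≤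
      B * ‖x‖ ^ 2 := by
  have h1 := poly_sum R (A.z c) s
    (fun i => (∑ y ∈ range (ℓ i), Polynomial.X ^ (lam * e i * y)) * (1 - fP A c Q n)) (B := B)
    (fun θ => by
      refine le_trans (le_of_eq ?_) (h θ)
      rw [Finset.sum_mul]
      refine Finset.sum_congr rfl fun i _ => ?_
      rw [Polynomial.eval_mul, Polynomial.eval_sub, Polynomial.eval_one, eval_fP, norm_mul, mul_pow,
        Polynomial.eval_finsetSum]
      have e1 : ∑ y ∈ range (ℓ i), Polynomial.eval (ee θ) (Polynomial.X ^ (lam * e i * y)) =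
          ∑ y ∈ range (ℓ i), ee ((lam * e i * y : ℕ) * θ) := by
        refine Finset.sum_congr rfl fun y _ => ?_
        rw [Polynomial.eval_pow, Polynomial.eval_X, ee_nat_mul]
      rw [e1]) x
  refine le_trans (le_of_eq ?_) h1
  refine Finset.sum_congr rfl fun i _ => ?_
  congr 2
  rw [map_mul, map_sub, map_one, aeval_fP, map_sum]
  simp only [map_pow, aeval_X]
  rw [mul_apply_eq_comp, _root_.sum_apply]

end Dat

end Pool.Agent.Lib.Npw
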