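import Pool.Agent.Lib.Npw.Com

/-!
# NPW (Part IV, step 1): the vector `(1 - fo) Ph x` is almost invariant

`v = Ph (c+1) q n1 x`, `‖x‖ ≤ 1`. `fo c Q n'` is a combination (mass `≤ 4^v'`, `Q ≤ 2^v'`) of `U(g)`, `g = z_c^e ∈ Sm n'` (`loc_fo`; here `N = 1`). For `y ∈ BN N (c+1) q X`:
`U(y) U(g) v = U(g) U(g⁻¹ y g) v`, `g⁻¹ y g ∈ BN (N (C1+1)) (c+1) q (X + C1)` by `Ok.conj_BN` (`v := g⁻¹ ∈ Sm n' ⊆ Sm X`, `P0 q ≤ 2^X`), and
`‖U(y') v - v‖ ≤ N (C1+1) C (1/2)^t` by `inv_left` and `LI.BN` if `X + C1 + E t ≤ n1`.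
-/

set_option autoImplicit false

open Finset

namespace Pool.Agent.Lib.Npw

variable {G H : Type} [Group G] [NormedAddCommGroup H] [InnerProductSpace ℂ H] [CompleteSpace H]

namespace Dat

namespace UInvAux

/-- a local operator applied to an almost invariant vector -/
theorem loc_inv {A : Dat G} (hA : A.Ok) (R : Rep G H) {B δ : ℝ} {M c0 q X : ℕ}
    {T : H →L[ℂ] H} {v : H} {y : G} (hq : 0 < q) (hX : A.P0 * q ≤ 2 ^ X) (hT : A.Loc R 1 X B T)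
    (hy : y ∈ A.BN M c0 q X) (hδ : 0 ≤ δ)
    (hv : ∀ y' ∈ A.BN (M * (A.C1 + 1) ^ 1) c0 q (X + 1 * A.C1), ‖R.U y' v - v‖ ≤ δ) :
    ‖R.U y (T v) - T v‖ ≤ B * δ := by
  obtain ⟨n, a, g, hg, ha, rfl⟩ := hT
  have key : ∀ i, ‖R.U y (R.U (g i) v) - R.U (g i) v‖ ≤ δ := by
    intro i
    have h1 : R.U y (R.U (g i) v) = R.U (g i) (R.U ((g i)⁻¹ * y * (g i)) v) := by
      rw [← ContinuousLinearMap.mul_apply, ← ContinuousLinearMap.mul_apply, ← map_mul, ← map_mul]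
      congr 2
      group
    rw [h1, ← map_sub, Rep.norm_apply]
    apply hv
    have h2 := hA.conj_BN_SmN hq hX (A.SmN_inv (hg i)) hy
    rwa [inv_inv] at h2
  have e : R.U y ((∑ i, a i • R.U (g i)) v) - (∑ i, a i • R.U (g i)) v =
      ∑ i, a i • (R.U y (R.U (g i) v) - R.U (g i) v) := by
    simp only [ContinuousLinearMap.sum_apply, ContinuousLinearMap.smul_apply, map_sum, map_smul,
      smul_sub, Finset.sum_sub_distrib]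
  rw [e]
  calc ‖∑ i, a i • (R.U y (R.U (g i) v) - R.U (g i) v)‖
      ≤ ∑ i, ‖a i • (R.U y (R.U (g i) v) - R.U (g i) v)‖ := norm_sum_le _ _
    _ ≤ ∑ i, ‖a i‖ * δ := by
        apply Finset.sum_le_sum
        intro i _
        rw [norm_smul]
        exact mul_le_mul_of_nonneg_left (key i) (norm_nonneg _)
    _ = (∑ i, ‖a i‖) * δ := by rw [Finset.sum_mul]
    _ ≤ B * δ := mul_le_mul_of_nonneg_right ha hδ

end UInvAux

theorem u_inv {A : Dat G} (hA : A.Ok) (R : Rep G H) : ∃ C E : ℕ,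
    ∀ (c : Fin A.D) (q n1 n' X t v' Q : ℕ) (y : G) (x : H), 0 < q → ‖x‖ ≤ 1 → Q ≤ 2 ^ v' →
    n' ≤ X → A.P0 * q ≤ 2 ^ X → X + E * (t + 1) ≤ n1 → y ∈ A.BN A.C1 ((c : ℕ) + 1) q X →
    ‖R.U y ((1 - A.fo R c Q n') (A.Ph R ((c : ℕ) + 1) q n1 x)) -
      (1 - A.fo R c Q n') (A.Ph R ((c : ℕ) + 1) q n1 x)‖ ≤ C * 4 ^ v' * (1 / 2) ^ t := by
  obtain ⟨C0, E0, h0⟩ := inv_left hA R
  refine ⟨2 * (A.C1 * (A.C1 + 1) ^ 1) * C0, E0 + A.C1, ?_⟩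
  intro c q n1 n' X t v' Q y x hq hx hQ hn' hX hn1 hy
  have hXn : X ≤ n1 := le_trans (Nat.le_add_right _ _) hn1
  have hP : A.P0 * q ≤ 2 ^ n1 := hX.trans (Nat.pow_le_pow_right (by norm_num) hXn)
  have hLI : A.LI R ((c : ℕ) + 1) q (X + 1 * A.C1) (C0 * (1 / 2) ^ t)
      (A.Ph R ((c : ℕ) + 1) q n1) := by
    apply h0 _ _ _ _ _ hq hP
    have : (E0 + A.C1) * (t + 1) = E0 * t + A.C1 * t + E0 + A.C1 := by ring
    have h3 : 0 ≤ A.C1 * t := Nat.zero_le _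
    omega
  have hloc : A.Loc R 1 X (1 + ‖(-1 : ℂ)‖ * 4 ^ v') (1 - A.fo R c Q n') := by
    have h1 : A.Loc R 1 n' 1 (1 : H →L[ℂ] H) := loc_one 1 n'
    have h2 : A.Loc R 1 n' (4 ^ v') (A.fo R c Q n') := loc_fo c hQ n'
    have h3 := h1.add (h2.smul (-1))
    have e : (1 : H →L[ℂ] H) - A.fo R c Q n' = 1 + (-1 : ℂ) • A.fo R c Q n' := by
      rw [neg_smul, one_smul, sub_eq_add_neg]
    rw [e]
    exact h3.mono le_rfl hn' le_rfl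
  have hδ : (0 : ℝ) ≤ ((A.C1 * (A.C1 + 1) ^ 1 : ℕ) : ℝ) * (C0 * (1 / 2) ^ t) := by positivity
  have hmain := UInvAux.loc_inv hA R (v := A.Ph R ((c : ℕ) + 1) q n1 x) hq hX hloc hy hδ
    (by
      intro y' hy'
      have h1 := hLI.BN (by positivity) hy'
      have e : R.U y' (A.Ph R ((c : ℕ) + 1) q n1 x) - A.Ph R ((c : ℕ) + 1) q n1 x =
          (R.U y' * A.Ph R ((c : ℕ) + 1) q n1 - A.Ph R ((c : ℕ) + 1) q n1) x := by
        rw [ContinuousLinearMap.sub_apply, ContinuousLinearMap.mul_apply]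
      rw [e]
      calc _ ≤ ‖R.U y' * A.Ph R ((c : ℕ) + 1) q n1 - A.Ph R ((c : ℕ) + 1) q n1‖ * ‖x‖ :=
            ContinuousLinearMap.le_opNorm _ _
        _ ≤ ‖R.U y' * A.Ph R ((c : ℕ) + 1) q n1 - A.Ph R ((c : ℕ) + 1) q n1‖ * 1 :=
            mul_le_mul_of_nonneg_left hx (norm_nonneg _)
        _ ≤ _ := by rw [mul_one]; exact h1)
  refine hmain.trans ?_
  have h4 : (1 : ℝ) ≤ 4 ^ v' := one_le_pow₀ (by norm_num)
  have h5 : (1 : ℝ) + ‖(-1 : ℂ)‖ * 4 ^ v' ≤ 2 * 4 ^ v' := by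
    rw [norm_neg, norm_one, one_mul]
    linarith
  calc (1 + ‖(-1 : ℂ)‖ * 4 ^ v') * (((A.C1 * (A.C1 + 1) ^ 1 : ℕ) : ℝ) * (C0 * (1 / 2) ^ t))
      ≤ (2 * 4 ^ v') * (((A.C1 * (A.C1 + 1) ^ 1 : ℕ) : ℝ) * (C0 * (1 / 2) ^ t)) :=
        mul_le_mul_of_nonneg_right h5 hδ
    _ = _ := by push_cast; ring

end Dat

end Pool.Agent.Lib.Npw
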