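import Pool.Agent.Lib.Npw.ApiB

/-!
# NPW (Part IV, step 3): expansion into words

`star T * T = L^(-2k) ∑_{a,b} U((f a)⁻¹ * f b)`; the power `r` is a sum over `Fin r → (cube × cube)`, reindex by `x (j, false, l)`, `x (j, true, l)`.
(For instance prove by induction on `r` that `(star T * T)^r = (L^(2 r k))⁻¹ ∑_{x ∈ piFinset over Fin r × Bool × Fin k} U((List.ofFn ..).prod)` using an equivalence
`(Fin (r+1) × Bool × Fin k → ℕ) ≃ (Bool × Fin k → ℕ) × (Fin r × Bool × Fin k → ℕ)`; `List.ofFn_succ`, `pow_succ'`, `map_mul`, `Finset.sum_bij'` or `Fintype.piFinset` membership.)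
-/

set_option autoImplicit false

open Finset

namespace Pool.Agent.Lib.Npw

variable {G H : Type} [Group G] [NormedAddCommGroup H] [InnerProductSpace ℂ H] [CompleteSpace H]

namespace ExpandAux

/-- the word of length `r` -/
noncomputable def wd {k r : ℕ} (f : (Fin k → ℕ) → G) (x : Fin r × Bool × Fin k → ℕ) : G :=
  (List.ofFn fun j : Fin r => (f fun l => x (j, false, l))⁻¹ * f fun l => x (j, true, l)).prod

/-- joining a point for the first pair and a point for the others -/
def glue {k r : ℕ} (p : ((Fin k → ℕ) × (Fin k → ℕ)) × (Fin r × Bool × Fin k → ℕ)) :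
    Fin (r + 1) × Bool × Fin k → ℕ :=
  fun c => Fin.cases (motive := fun _ => ℕ) (cond c.2.1 (p.1.2 c.2.2) (p.1.1 c.2.2))
    (fun j => p.2 (j, c.2.1, c.2.2)) c.1

lemma wd_glue {k r : ℕ} (f : (Fin k → ℕ) → G) (a b : Fin k → ℕ)
    (x : Fin r × Bool × Fin k → ℕ) :
    wd f (glue ((a, b), x)) = (f a)⁻¹ * f b * wd f x := by
  unfold wd
  rw [List.ofFn_succ, List.prod_cons]
  rfl

lemma sum_glue {M : Type} [AddCommMonoid M] {k r L : ℕ}
    (g : (Fin (r + 1) × Bool × Fin k → ℕ) → M) :
    ∑ x ∈ Fintype.piFinset (fun _ : Fin (r + 1) × Bool × Fin k => range L), g x =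
      ∑ a ∈ Fintype.piFinset (fun _ : Fin k => range L),
        ∑ b ∈ Fintype.piFinset (fun _ : Fin k => range L),
          ∑ x ∈ Fintype.piFinset (fun _ : Fin r × Bool × Fin k => range L),
            g (glue ((a, b), x)) := by
  rw [← Finset.sum_product' (s := Fintype.piFinset (fun _ : Fin k => range L))
    (t := Fintype.piFinset (fun _ : Fin k => range L))
    (f := fun a b => ∑ x ∈ Fintype.piFinset (fun _ : Fin r × Bool × Fin k => range L),
            g (glue ((a, b), x)))]
  rw [← Finset.sum_product' (f := fun (p : (Fin k → ℕ) × (Fin k → ℕ)) x =>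
    g (glue ((p.1, p.2), x)))]
  refine Finset.sum_bij'
    (fun x _ => (((fun l => x (0, false, l)), (fun l => x (0, true, l))),
      (fun c => x (c.1.succ, c.2.1, c.2.2))))
    (fun p _ => glue p) ?_ ?_ ?_ ?_ ?_
  · intro x hx
    rw [Fintype.mem_piFinset] at hx
    simp only [Finset.mem_product, Fintype.mem_piFinset]
    exact ⟨⟨fun l => hx _, fun l => hx _⟩, fun c => hx _⟩
  · intro p hp
    simp only [Finset.mem_product, Fintype.mem_piFinset] at hp
    rw [Fintype.mem_piFinset]
    rintro ⟨j, b, l⟩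
    refine Fin.cases ?_ (fun j' => ?_) j
    · cases b
      · exact hp.1.1 l
      · exact hp.1.2 l
    · exact hp.2 (j', b, l)
  · intro x _
    funext c
    obtain ⟨j, b, l⟩ := c
    refine Fin.cases ?_ (fun j' => ?_) j
    · cases b <;> rfl
    · rfl
  · intro p _
    rfl
  · intro x _
    congr 1
    funext c
    obtain ⟨j, b, l⟩ := c
    refine Fin.cases ?_ (fun j' => ?_) j
    · cases b <;> rfl
    · rfl

end ExpandAux

open ExpandAux in
theorem expand (R : Rep G H) {L k : ℕ} (hL : 0 < L) (f : (Fin k → ℕ) → G) (r : ℕ) :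
    (star (((L : ℂ) ^ k)⁻¹ • ∑ v ∈ Fintype.piFinset (fun _ : Fin k => range L), R.U (f v)) *
      (((L : ℂ) ^ k)⁻¹ • ∑ v ∈ Fintype.piFinset (fun _ : Fin k => range L), R.U (f v))) ^ r =
    ((L : ℂ) ^ (2 * r * k))⁻¹ •
      ∑ x ∈ Fintype.piFinset (fun _ : Fin r × Bool × Fin k => range L),
        R.U (List.ofFn fun j : Fin r =>
          (f fun l => x (j, false, l))⁻¹ * f fun l => x (j, true, l)).prod := by
  have h0 : star (((L : ℂ) ^ k)⁻¹ •
        ∑ v ∈ Fintype.piFinset (fun _ : Fin k => range L), R.U (f v)) *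
      (((L : ℂ) ^ k)⁻¹ • ∑ v ∈ Fintype.piFinset (fun _ : Fin k => range L), R.U (f v)) =
      ((L : ℂ) ^ (2 * k))⁻¹ • ∑ a ∈ Fintype.piFinset (fun _ : Fin k => range L),
        ∑ b ∈ Fintype.piFinset (fun _ : Fin k => range L), R.U ((f a)⁻¹ * f b) := by
    have h1 : star (((L : ℂ) ^ k)⁻¹) = ((L : ℂ) ^ k)⁻¹ := by
      simp
    rw [star_smul, h1, star_sum, smul_mul_smul_comm, Finset.sum_mul_sum]
    congr 1
    · rw [two_mul, pow_add, mul_inv]
    · refine Finset.sum_congr rfl fun a _ => Finset.sum_congr rfl fun b _ => ?_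
      rw [R.star_U, map_mul]
  rw [h0]
  change _ = ((L : ℂ) ^ (2 * r * k))⁻¹ •
    ∑ x ∈ Fintype.piFinset (fun _ : Fin r × Bool × Fin k => range L), R.U (wd f x)
  induction r with
  | zero =>
    have h2 : ∀ x : Fin 0 × Bool × Fin k → ℕ, wd f x = 1 := fun x => by simp [wd]
    simp [h2]
  | succ r ih =>
    rw [pow_succ', ih, smul_mul_smul_comm, sum_glue]
    congr 1
    · rw [← mul_inv, ← pow_add]
      congr 2
      ring
    · rw [Finset.sum_mul]
      refine Finset.sum_congr rfl fun a _ => ?_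
      rw [Finset.sum_mul]
      refine Finset.sum_congr rfl fun b _ => ?_
      rw [Finset.mul_sum]
      refine Finset.sum_congr rfl fun x _ => ?_
      rw [wd_glue, map_mul R.U ((f a)⁻¹ * f b)]

end Pool.Agent.Lib.Npw
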