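import Pool.Agent.Lib.Npw.Defs

/-!
# NPW: sums over boxes (definitions)
-/

set_option autoImplicit false

open Finset

namespace Pool.Agent.Lib.Npw

variable {G H : Type} [Group G] [NormedAddCommGroup H] [InnerProductSpace ℂ H] [CompleteSpace H]
  {κ : Type} [Fintype κ] [DecidableEq κ]

/-- the sum over a box -/
noncomputable def sv (R : Rep G H) (F : (κ → ℕ) → G) (ℓ : κ → ℕ) (u : H) : ℂ :=
  ∑ x ∈ Fintype.piFinset (fun c => range (ℓ c)), inner ℂ (R.U (F x) u) u

/-- the lengths after the differences -/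
def shrink {j : ℕ} (co : Fin j → κ) (η : Fin j → ℕ) (ℓ : κ → ℕ) : κ → ℕ :=
  fun c => ℓ c - ∑ i with co i = c, η i

end Pool.Agent.Lib.Npw
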