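import Pool.Agent.Lib.Npw.ApiB
import Pool.Agent.Lib.Npw.SvDefs

/-!
# NPW (Part IV, step 5): the last coordinate

`F' x = F' (update x c 0) * ld (Pi.single c (x c)) F' (update x c 0)` (definition of `ld`; `update x c 0 + Pi.single c (x c) = x`), so with `t = x c`, `x0 = update x c 0`:
`⟪U(F' x) u, u⟫ = ⟪U(g t) U(y) u, U((F' x0)⁻¹) u⟫` and `‖U(g t) U(y) u - U(g t) u‖ ≤ δ`; sum over `t < ℓ c` (`F' x0` does not depend on `t`), then over the at most
`L^(card κ - 1)` values of the other coordinates.
-/

set_option autoImplicit false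

open Finset

namespace Pool.Agent.Lib.Npw

variable {G H : Type} [Group G] [NormedAddCommGroup H] [InnerProductSpace ℂ H] [CompleteSpace H]
  {κ : Type} [Fintype κ] [DecidableEq κ]

namespace LastStepAux

theorem sum_split {M : Type} [AddCommMonoid M] (ℓ : κ → ℕ) (c : κ) (f : (κ → ℕ) → M) :
    ∑ x ∈ Fintype.piFinset (fun c => range (ℓ c)), f x =
      ∑ x ∈ Fintype.piFinset (Function.update (fun c => range (ℓ c)) c {0}),
        ∑ t ∈ range (ℓ c), f (Function.update x c t) := by
  rw [← Finset.sum_product']
  symm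
  refine Finset.sum_bij' (fun p _ => Function.update p.1 c p.2)
    (fun x _ => (Function.update x c 0, x c)) ?_ ?_ ?_ ?_ ?_
  · rintro ⟨x, t⟩ hp
    simp only [Finset.mem_product, Fintype.mem_piFinset, mem_range] at hp
    simp only [Fintype.mem_piFinset, mem_range]
    intro c'
    by_cases hc : c' = c
    · subst hc
      simpa using hp.2
    · have := hp.1 c'
      rw [Function.update_of_ne hc] at this
      rw [Function.update_of_ne hc]
      simpa using this
  · intro x hx
    simp only [Fintype.mem_piFinset, mem_range] at hx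
    simp only [Finset.mem_product, Fintype.mem_piFinset, mem_range]
    refine ⟨fun c' => ?_, hx c⟩
    by_cases hc : c' = c
    · subst hc
      simp
    · rw [Function.update_of_ne hc, Function.update_of_ne hc]
      simpa using hx c'
  · rintro ⟨x, t⟩ hp
    simp only [Finset.mem_product, Fintype.mem_piFinset, mem_range] at hp
    have h0 : x c = 0 := by
      have := hp.1 c
      simpa using this
    simp only [Function.update_idem, Function.update_self, Prod.mk.injEq, and_true]
    rw [← h0, Function.update_eq_self]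
  · intro x _
    simp only [Function.update_idem, Function.update_eq_self]
  · intro p _
    rfl

theorem card_le (ℓ : κ → ℕ) {L : ℕ} (hL : 0 < L) (hℓ : ∀ c, ℓ c ≤ L) (c : κ) :
    (Fintype.piFinset (Function.update (fun c => range (ℓ c)) c {0})).card ≤
      L ^ (Fintype.card κ - 1) := by
  rw [Fintype.card_piFinset, ← Finset.mul_prod_erase Finset.univ _ (Finset.mem_univ c)]
  rw [Function.update_self, Finset.card_singleton, one_mul]
  calc ∏ x ∈ Finset.univ.erase c, (Function.update (fun c => range (ℓ c)) c {0} x).card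
      ≤ ∏ _x ∈ Finset.univ.erase c, L := by
        refine Finset.prod_le_prod' fun x hx => ?_
        rw [Function.update_of_ne (Finset.ne_of_mem_erase hx), card_range]
        exact hℓ x
    _ = L ^ (Fintype.card κ - 1) := by
        rw [Finset.prod_const, Finset.card_erase_of_mem (Finset.mem_univ c), Finset.card_univ]

end LastStepAux

theorem last_step (R : Rep G H) (F' : (κ → ℕ) → G) (ℓ : κ → ℕ) {L : ℕ} (hL : 0 < L)
    (hℓ : ∀ c, ℓ c ≤ L) (u : H) (c : κ) (g : ℕ → G) {δ : ℝ} (hδ : 0 ≤ δ)
    (h : ∀ x : κ → ℕ, (∀ c', x c' < L) → ∀ t < ℓ c, ∃ y, ‖R.U y u - u‖ ≤ δ ∧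
      ld (Pi.single c t) F' (Function.update x c 0) = g t * y) :
    ‖sv R F' ℓ u‖ / (L : ℝ) ^ Fintype.card κ ≤
      ‖u‖ * ((L : ℝ)⁻¹ * ‖∑ t ∈ range (ℓ c), R.U (g t) u‖ + δ) := by
  have hLr : (0 : ℝ) < L := by exact_mod_cast hL
  have hcard : 0 < Fintype.card κ := Fintype.card_pos_iff.2 ⟨c⟩
  set S : ℝ := ‖∑ t ∈ range (ℓ c), R.U (g t) u‖ with hS
  have hS0 : 0 ≤ S := norm_nonneg _
  have inner_bound : ∀ x ∈ Fintype.piFinset (Function.update (fun c => range (ℓ c)) c {0}),
      ‖∑ t ∈ range (ℓ c), inner ℂ (R.U (F' (Function.update x c t)) u) u‖ ≤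
        (S + L * δ) * ‖u‖ := by
    intro x hx
    rw [Fintype.mem_piFinset] at hx
    have h0 : x c = 0 := by
      have := hx c
      simpa using this
    have hxL : ∀ c', x c' < L := by
      intro c'
      by_cases hc : c' = c
      · subst hc
        rw [h0]
        exact hL
      · have := hx c'
        rw [Function.update_of_ne hc, mem_range] at this
        exact lt_of_lt_of_le this (hℓ c')
    have hup : Function.update x c 0 = x := by
      rw [← h0, Function.update_eq_self]
    choose! y hy1 hy2 using h x hxL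
    have hF : ∀ t < ℓ c, F' (Function.update x c t) = F' x * (g t * y t) := by
      intro t ht
      have h2 := hy2 t ht
      rw [hup] at h2
      unfold ld at h2
      have h3 : x + Pi.single c t = Function.update x c t := by
        funext c'
        by_cases hc : c' = c
        · subst hc
          simp [h0]
        · simp [hc]
      rw [h3] at h2
      rw [← h2, mul_inv_cancel_left]
    have hin : ∀ t ∈ range (ℓ c), inner ℂ (R.U (F' (Function.update x c t)) u) u =
        inner ℂ (R.U (g t) (R.U (y t) u)) (R.U (F' x)⁻¹ u) := by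
      intro t ht
      rw [mem_range] at ht
      rw [R.inner_apply, inv_inv, hF t ht, map_mul, map_mul, map_mul]
      rfl
    rw [Finset.sum_congr rfl hin, ← sum_inner]
    refine (norm_inner_le_norm _ _).trans ?_
    rw [R.norm_apply]
    refine mul_le_mul_of_nonneg_right ?_ (norm_nonneg _)
    have e : ∑ t ∈ range (ℓ c), R.U (g t) (R.U (y t) u) =
        ∑ t ∈ range (ℓ c), R.U (g t) u + ∑ t ∈ range (ℓ c), R.U (g t) (R.U (y t) u - u) := by
      rw [← Finset.sum_add_distrib]
      refine Finset.sum_congr rfl fun t _ => ?_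
      rw [map_sub]
      abel
    rw [e]
    refine (norm_add_le _ _).trans (add_le_add le_rfl ?_)
    refine (norm_sum_le _ _).trans ?_
    calc ∑ t ∈ range (ℓ c), ‖R.U (g t) (R.U (y t) u - u)‖
        ≤ ∑ _t ∈ range (ℓ c), δ := by
          refine Finset.sum_le_sum fun t ht => ?_
          rw [R.norm_apply]
          exact hy1 t (mem_range.1 ht)
      _ = ℓ c * δ := by rw [Finset.sum_const, card_range, nsmul_eq_mul]
      _ ≤ L * δ := mul_le_mul_of_nonneg_right (by exact_mod_cast hℓ c) hδ
  have total : ‖sv R F' ℓ u‖ ≤ (L : ℝ) ^ (Fintype.card κ - 1) * ((S + L * δ) * ‖u‖) := by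
    unfold sv
    rw [LastStepAux.sum_split ℓ c]
    refine (norm_sum_le _ _).trans ((Finset.sum_le_sum inner_bound).trans ?_)
    rw [Finset.sum_const, nsmul_eq_mul]
    refine mul_le_mul_of_nonneg_right ?_ (by positivity)
    exact_mod_cast LastStepAux.card_le ℓ hL hℓ c
  rw [div_le_iff₀ (by positivity)]
  refine total.trans (le_of_eq ?_)
  have e : (L : ℝ) ^ Fintype.card κ = (L : ℝ) ^ (Fintype.card κ - 1) * L := by
    rw [← pow_succ, Nat.sub_add_cancel hcard]
  rw [e]
  field_simp

end Pool.Agent.Lib.Npw
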