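import Pool.Agent.Lib.Npw.VdcStep

/-!
# NPW (Part IV, step 4): iteration

Induction on `j` (first coordinate first: `List.ofFn` of `Fin (j+1)` is a cons; `lds (h :: hs) F = lds hs (ld h F)`):
with `s = ‖sv‖ / L^card`, `s^(2^(j+1)) = (s²)^(2^j) ≤ (2 ‖u‖² L⁻¹ ∑_h s_h)^(2^j) ≤ (2‖u‖²)^(2^j) L⁻¹ ∑_h s_h^(2^j)` (`vdc_step`, `card κ ≥ 1` since `κ` contains the coordinate; power mean
`inner_le..`/`inv_mul_sum..`: e.g. `Finset.inner_mul_le_norm..` or `Real.inner_le_Lp..` or `inner_mul..`; `pow_arith_mean_le_arith_mean_pow`), then the induction hypothesis for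
`ld (Pi.single (co 0) h) F`, `update ℓ (co 0) (ℓ (co 0) - h)`, `co ∘ succ`; `shrink co (cons h η) ℓ = shrink (co ∘ succ) η (update ..)`
(`a - h - s = a - (h + s)`); the sum over `Fin (j+1) → ℕ` splits as a sum over `h` and `η` (`Fin.consEquiv`, `Fintype.piFinset`).
-/

set_option autoImplicit false

open Finset

namespace Pool.Agent.Lib.Npw

variable {G H : Type} [Group G] [NormedAddCommGroup H] [InnerProductSpace ℂ H] [CompleteSpace H]
  {κ : Type} [Fintype κ] [DecidableEq κ]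

namespace VdcIterAux

lemma sum_piFinset_succ {M : Type} [AddCommMonoid M] {j L : ℕ} (g : (Fin (j + 1) → ℕ) → M) :
    ∑ η ∈ Fintype.piFinset (fun _ : Fin (j + 1) => range L), g η =
      ∑ h ∈ range L, ∑ η ∈ Fintype.piFinset (fun _ : Fin j => range L),
        g (Fin.cons h η : Fin (j + 1) → ℕ) := by
  rw [← Finset.sum_product']
  refine Finset.sum_bij' (fun η _ => (η 0, Fin.tail η))
    (fun p _ => (Fin.cons p.1 p.2 : Fin (j + 1) → ℕ)) ?_ ?_ ?_ ?_ ?_
  · intro η hη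
    rw [Fintype.mem_piFinset] at hη
    rw [Finset.mem_product, Fintype.mem_piFinset]
    exact ⟨hη 0, fun i => hη i.succ⟩
  · intro p hp
    rw [Finset.mem_product, Fintype.mem_piFinset] at hp
    rw [Fintype.mem_piFinset]
    intro i
    refine Fin.cases ?_ ?_ i
    · simpa using hp.1
    · intro i'
      simpa using hp.2 i'
  · intro η _
    simp
  · intro p _
    simp
  · intro η _
    simp

omit [Fintype κ] in
lemma shrink_cons {j : ℕ} (co : Fin (j + 1) → κ) (h : ℕ) (η : Fin j → ℕ) (ℓ : κ → ℕ) :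
    shrink co (Fin.cons h η : Fin (j + 1) → ℕ) ℓ =
      shrink (fun i => co i.succ) η (Function.update ℓ (co 0) (ℓ (co 0) - h)) := by
  ext c
  unfold shrink
  rw [Finset.sum_filter, Finset.sum_filter, Fin.sum_univ_succ]
  by_cases hc : c = co 0
  · subst hc
    simp [Nat.sub_sub]
  · have hc' : ¬ co 0 = c := fun h => hc h.symm
    simp [Function.update_of_ne hc, hc']

omit [Fintype κ] in
lemma ofFn_cons {j : ℕ} (co : Fin (j + 1) → κ) (h : ℕ) (η : Fin j → ℕ) :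
    (List.ofFn fun i => (Pi.single (co i) ((Fin.cons h η : Fin (j + 1) → ℕ) i) : κ → ℕ)) =
      Pi.single (co 0) h :: List.ofFn fun i : Fin j => Pi.single (co i.succ) (η i) := by
  rw [List.ofFn_succ]
  simp

end VdcIterAux

open VdcIterAux in
theorem vdc_iter (R : Rep G H) {j : ℕ} (co : Fin j → κ) (F : (κ → ℕ) → G) (ℓ : κ → ℕ) {L : ℕ}
    (hL : 0 < L) (hℓ : ∀ c, ℓ c ≤ L) (u : H) :
    (‖sv R F ℓ u‖ / (L : ℝ) ^ Fintype.card κ) ^ (2 ^ j) ≤ (2 * ‖u‖ ^ 2) ^ (2 ^ j - 1) *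
      (((L : ℝ) ^ j)⁻¹ * ∑ η ∈ Fintype.piFinset (fun _ : Fin j => range L),
        ‖sv R (lds (List.ofFn fun i => Pi.single (co i) (η i)) F) (shrink co η ℓ) u‖ /
          (L : ℝ) ^ Fintype.card κ) := by
  induction j generalizing F ℓ with
  | zero =>
    have h1 : ∀ η : Fin 0 → ℕ, shrink co η ℓ = ℓ := by
      intro η
      ext c
      simp [shrink]
    simp [h1, lds]
  | succ j ih =>
    have hLr : (0 : ℝ) < L := by exact_mod_cast hL
    have hcard : 0 < Fintype.card κ := Fintype.card_pos_iff.mpr ⟨co 0⟩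
    set N := Fintype.card κ with hN
    set s : ℝ := ‖sv R F ℓ u‖ / (L : ℝ) ^ N with hs
    set t : ℕ → ℝ := fun h =>
      ‖sv R (ld (Pi.single (co 0) h) F) (Function.update ℓ (co 0) (ℓ (co 0) - h)) u‖ /
        (L : ℝ) ^ N with ht
    have ht0 : ∀ h, 0 ≤ t h := fun h => by rw [ht]; positivity
    have hs0 : 0 ≤ s := by rw [hs]; positivity
    have h1 : s ^ 2 ≤ 2 * ‖u‖ ^ 2 * ∑ h ∈ range L, (L : ℝ)⁻¹ * t h := by
      have h2 := vdc_step R F ℓ hL hℓ u (co 0)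
      have h3 : s ^ 2 = ‖sv R F ℓ u‖ ^ 2 / ((L : ℝ) ^ N) ^ 2 := by rw [hs, div_pow]
      rw [h3, div_le_iff₀ (by positivity)]
      refine h2.trans (le_of_eq ?_)
      have h4 : (L : ℝ) ^ N = (L : ℝ) ^ (N - 1) * L := by
        rw [← pow_succ]
        congr 1
        omega
      have h5 : ∑ h ∈ range L, (L : ℝ)⁻¹ * t h = (L : ℝ)⁻¹ * (((L : ℝ) ^ N)⁻¹ *
          ∑ h ∈ range L, ‖sv R (ld (Pi.single (co 0) h) F)
            (Function.update ℓ (co 0) (ℓ (co 0) - h)) u‖) := by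
        rw [← Finset.mul_sum]
        congr 1
        rw [Finset.mul_sum]
        refine Finset.sum_congr rfl fun h _ => ?_
        rw [ht]
        simp only
        rw [div_eq_inv_mul]
      rw [h5]
      have h6 : (L : ℝ) ^ N ≠ 0 := by positivity
      have h7 : (L : ℝ)⁻¹ * (((L : ℝ) ^ N)⁻¹) * ((L : ℝ) ^ N) ^ 2 = (L : ℝ) ^ (N - 1) := by
        rw [h4]
        have : (L : ℝ) ≠ 0 := hLr.ne'
        field_simp
      calc _ = ‖u‖ ^ 2 * ((L : ℝ)⁻¹ * (((L : ℝ) ^ N)⁻¹) * ((L : ℝ) ^ N) ^ 2) * (2 *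
            ∑ h ∈ range L, ‖sv R (ld (Pi.single (co 0) h) F)
              (Function.update ℓ (co 0) (ℓ (co 0) - h)) u‖) := by rw [h7]
        _ = _ := by ring
    have hw : ∑ _h ∈ range L, (L : ℝ)⁻¹ = 1 := by
      rw [Finset.sum_const, card_range, nsmul_eq_mul]
      exact mul_inv_cancel₀ hLr.ne'
    have h8 : (∑ h ∈ range L, (L : ℝ)⁻¹ * t h) ^ (2 ^ j) ≤
        ∑ h ∈ range L, (L : ℝ)⁻¹ * t h ^ (2 ^ j) :=
      Real.pow_arith_mean_le_arith_mean_pow _ _ _ (fun _ _ => by positivity) hw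
        (fun h _ => ht0 h) _
    have hu0 : (0 : ℝ) ≤ 2 * ‖u‖ ^ 2 := by positivity
    have h9 : s ^ (2 ^ (j + 1)) ≤ (2 * ‖u‖ ^ 2) ^ (2 ^ j) *
        ∑ h ∈ range L, (L : ℝ)⁻¹ * t h ^ (2 ^ j) := by
      calc s ^ (2 ^ (j + 1)) = (s ^ 2) ^ (2 ^ j) := by
            rw [← pow_mul]
            congr 1
            rw [pow_succ]
            ring
        _ ≤ (2 * ‖u‖ ^ 2 * ∑ h ∈ range L, (L : ℝ)⁻¹ * t h) ^ (2 ^ j) :=
            pow_le_pow_left₀ (by positivity) h1 _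
        _ = (2 * ‖u‖ ^ 2) ^ (2 ^ j) * (∑ h ∈ range L, (L : ℝ)⁻¹ * t h) ^ (2 ^ j) :=
            mul_pow _ _ _
        _ ≤ _ := mul_le_mul_of_nonneg_left h8 (pow_nonneg hu0 _)
    have h10 : ∀ h, t h ^ (2 ^ j) ≤ (2 * ‖u‖ ^ 2) ^ (2 ^ j - 1) *
        (((L : ℝ) ^ j)⁻¹ * ∑ η ∈ Fintype.piFinset (fun _ : Fin j => range L),
          ‖sv R (lds (List.ofFn fun i => Pi.single (co i)
            ((Fin.cons h η : Fin (j + 1) → ℕ) i)) F)
            (shrink co (Fin.cons h η : Fin (j + 1) → ℕ) ℓ) u‖ / (L : ℝ) ^ N) := by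
      intro h
      have h11 := ih (fun i => co i.succ) (ld (Pi.single (co 0) h) F)
        (Function.update ℓ (co 0) (ℓ (co 0) - h)) (fun c => by
          by_cases hc : c = co 0
          · subst hc
            rw [Function.update_self]
            exact (Nat.sub_le _ _).trans (hℓ _)
          · rw [Function.update_of_ne hc]
            exact hℓ c)
      refine h11.trans (le_of_eq ?_)
      congr 2
      refine Finset.sum_congr rfl fun η _ => ?_
      rw [ofFn_cons, shrink_cons]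
      rfl
    refine h9.trans ?_
    have h12 : ∑ h ∈ range L, (L : ℝ)⁻¹ * t h ^ (2 ^ j) ≤
        ∑ h ∈ range L, (L : ℝ)⁻¹ * ((2 * ‖u‖ ^ 2) ^ (2 ^ j - 1) *
        (((L : ℝ) ^ j)⁻¹ * ∑ η ∈ Fintype.piFinset (fun _ : Fin j => range L),
          ‖sv R (lds (List.ofFn fun i => Pi.single (co i)
            ((Fin.cons h η : Fin (j + 1) → ℕ) i)) F)
            (shrink co (Fin.cons h η : Fin (j + 1) → ℕ) ℓ) u‖ / (L : ℝ) ^ N)) :=
      Finset.sum_le_sum fun h _ => mul_le_mul_of_nonneg_left (h10 h) (by positivity)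
    refine (mul_le_mul_of_nonneg_left h12 (pow_nonneg hu0 _)).trans (le_of_eq ?_)
    rw [sum_piFinset_succ]
    have h13 : 2 ^ (j + 1) - 1 = 2 ^ j + (2 ^ j - 1) := by
      have : 1 ≤ 2 ^ j := Nat.one_le_two_pow
      rw [pow_succ]
      omega
    rw [h13, pow_add, pow_succ (L : ℝ) j, mul_inv]
    simp only [Finset.mul_sum]
    refine Finset.sum_congr rfl fun h _ => Finset.sum_congr rfl fun η _ => ?_
    ring

end Pool.Agent.Lib.Npw
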