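import Pool.Agent.Lib.Npw.PowIneq
import Pool.Agent.Lib.Npw.Expand
import Pool.Agent.Lib.Npw.VdcIter
import Pool.Agent.Lib.Npw.LastStep

/-!
# NPW (Part IV, steps 3-5): one block

`P = P0 q`, `f v = (S v0)⁻¹ S(v0 + P v)`, `T` the average of `U(f v)` over `[0,L)^k`. By `pow_ineq` and `expand` (`r = 2^ρ`)
`‖T u‖^(2·2^ρ) ≤ ‖u‖^(..) ‖sv F (fun _ => L) u‖ / L^(card Co)` with `F x = ∏_j (f x_{j,false})⁻¹ f x_{j,true} = A.W (v0' + P x)`, `v0' (j,b,l) = v0 l` (the factors `S v0` cancel;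
`card Co = 2^ρ * (2 * k)`). By `vdc_iter` with `co c`, `j = lv c`, raise to the power `2^(lv c)`. The differences:
`lds [single(co i)(η i)] F x = lds [single (co i) (P η i)] W (v0' + P x)` and the same with one more `ld (single (cl c) t)` (lemma: for `ψ x = v0' + P x`, `ld h (W ∘ ψ) = (ld (P h) W) ∘ ψ`,
`P • Pi.single c t = Pi.single c (P t)`). (A4) with `η := P η`, `h := P t`, size `n` (all of `v0 + P x`, `P η ≤ P L ≤ 2^x ≤ 2^n`; `A.P0 * q ∣ P t`): the value is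
`z c ^ ((∏ P η_i) * (P t)) * y = z c ^ (P^(lv c + 1) * (∏ η) * t) * y` with `y ∈ BN C1 (c+1) q (n + C1 - t')`. Then `last_step` with `g t = z c ^ (P^(lv c+1) * (∏ η) * t)`.
All `‖u‖ ≤ 3`, so the constants are `≤ 3^(..)`; the average over `η` of `(L⁻¹ ‖∑‖ + δ)`.
-/

set_option autoImplicit false

open Finset

namespace Pool.Agent.Lib.Npw

variable {G H : Type} [Group G] [NormedAddCommGroup H] [InnerProductSpace ℂ H] [CompleteSpace H]

namespace WBlockAux

lemma ld_comp {κ : Type} (P : ℕ) (a : κ → ℕ) (h : κ → ℕ) (W : (κ → ℕ) → G) :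
    ld h (fun x => W (a + P • x)) = fun x => ld (P • h) W (a + P • x) := by
  funext x
  show (W (a + P • x))⁻¹ * W (a + P • (x + h)) = (W (a + P • x))⁻¹ * W (a + P • x + P • h)
  rw [smul_add, add_assoc]

lemma lds_comp {κ : Type} (P : ℕ) (a : κ → ℕ) : ∀ (hs : List (κ → ℕ)) (W : (κ → ℕ) → G),
    lds hs (fun x => W (a + P • x)) = fun x => lds (hs.map fun h => P • h) W (a + P • x)
  | [], W => rfl
  | h :: hs, W => by
    show lds hs (ld h (fun x => W (a + P • x))) = _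
    rw [ld_comp, lds_comp P a hs (ld (P • h) W)]
    rfl

lemma smul_single {κ : Type} [DecidableEq κ] (P : ℕ) (c : κ) (t : ℕ) :
    P • (Pi.single c t : κ → ℕ) = Pi.single c (P * t) := by
  funext x
  by_cases h : x = c
  · subst h
    simp
  · simp [h]

lemma avg_bound {ι : Type} (w L : ℕ) (hL : 0 < L) (s : Finset ι) (hs : s.card = L ^ w)
    (X Y : ι → ℝ) (δ : ℝ) (h : ∀ i ∈ s, X i ≤ 3 * ((L : ℝ)⁻¹ * Y i + δ)) :
    ((L : ℝ) ^ w)⁻¹ * ∑ i ∈ s, X i ≤ 3 * (((L : ℝ) ^ (w + 1))⁻¹ * ∑ i ∈ s, Y i + δ) := by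
  have hLr : (0 : ℝ) < L := by exact_mod_cast hL
  have hLp : (0 : ℝ) < (L : ℝ) ^ w := by positivity
  have h1 := Finset.sum_le_sum h
  refine (mul_le_mul_of_nonneg_left h1 (inv_nonneg.2 hLp.le)).trans (le_of_eq ?_)
  rw [← Finset.mul_sum, Finset.sum_add_distrib, ← Finset.mul_sum, Finset.sum_const, hs,
    nsmul_eq_mul, pow_succ, mul_inv]
  push_cast
  have hne : (L : ℝ) ^ w ≠ 0 := hLp.ne'
  have e1 : ((L : ℝ) ^ w)⁻¹ * ((L : ℝ) ^ w * δ) = δ := by
    rw [← mul_assoc, inv_mul_cancel₀ hne, one_mul]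
  linear_combination 3 * e1

lemma combine (a u X Y Z : ℝ) (m r : ℕ) (ha : 0 ≤ a) (hu0 : 0 ≤ u) (hu : u ≤ 3) (hX : 0 ≤ X)
    (hZ : 0 ≤ Z) (h1 : a ^ m ≤ u ^ (m - 2) * X) (h2 : X ^ r ≤ (2 * u ^ 2) ^ (r - 1) * Y)
    (h3 : Y ≤ 3 * Z) :
    a ^ (m * r) ≤ (((3 ^ (m - 2)) ^ r * (18 ^ (r - 1) * 3) : ℕ) : ℝ) * Z := by
  have h4 : X ^ r ≤ 18 ^ (r - 1) * (3 * Z) := by
    have e1 : (2 * u ^ 2) ^ (r - 1) ≤ 18 ^ (r - 1) := by
      refine pow_le_pow_left₀ (by positivity) ?_ _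
      nlinarith
    calc X ^ r ≤ (2 * u ^ 2) ^ (r - 1) * Y := h2
      _ ≤ (2 * u ^ 2) ^ (r - 1) * (3 * Z) := mul_le_mul_of_nonneg_left h3 (by positivity)
      _ ≤ 18 ^ (r - 1) * (3 * Z) := mul_le_mul_of_nonneg_right e1 (by positivity)
  calc a ^ (m * r) = (a ^ m) ^ r := pow_mul _ _ _
    _ ≤ (u ^ (m - 2) * X) ^ r := pow_le_pow_left₀ (by positivity) h1 _
    _ ≤ (3 ^ (m - 2) * X) ^ r := by
        refine pow_le_pow_left₀ (by positivity) ?_ _
        exact mul_le_mul_of_nonneg_right (pow_le_pow_left₀ hu0 hu _) hX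
    _ = (3 ^ (m - 2)) ^ r * X ^ r := mul_pow _ _ _
    _ ≤ (3 ^ (m - 2)) ^ r * (18 ^ (r - 1) * (3 * Z)) :=
        mul_le_mul_of_nonneg_left h4 (by positivity)
    _ = _ := by
        push_cast
        ring

end WBlockAux

open WBlockAux

namespace Dat

theorem wblock {A : Dat G} (hA : A.Ok) (R : Rep G H) (c : Fin A.D) : ∃ C : ℕ,
    ∀ (q L n x t : ℕ) (v0 : Fin A.k → ℕ) (u : H) (δ : ℝ), 0 < q → 0 < L →
    (∀ l, v0 l + A.P0 * q * L ≤ 2 ^ n) → A.P0 * q * L ≤ 2 ^ x → x + A.J * t ≤ n → ‖u‖ ≤ 3 →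
    0 ≤ δ → (∀ y ∈ A.BN A.C1 ((c : ℕ) + 1) q (n + A.C1 - t), ‖R.U y u - u‖ ≤ δ) →
    ‖(((L : ℂ) ^ A.k)⁻¹ • ∑ v ∈ Fintype.piFinset (fun _ : Fin A.k => range L),
      R.U ((A.S v0)⁻¹ * A.S (v0 + (A.P0 * q) • v))) u‖ ^ (2 * 2 ^ A.ρ * 2 ^ A.lv c) ≤
    C * (((L : ℝ) ^ (A.lv c + 1))⁻¹ *
      ∑ η ∈ Fintype.piFinset (fun _ : Fin (A.lv c) => range L),
        ‖∑ y ∈ range (L - ∑ i with A.co c i = A.cl c, η i),
          R.U (A.z c ^ ((A.P0 * q) ^ (A.lv c + 1) * (∏ i, η i) * y)) u‖ + δ) := by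
  refine ⟨(3 ^ (2 * 2 ^ A.ρ - 2)) ^ (2 ^ A.lv c) * (18 ^ (2 ^ A.lv c - 1) * 3), ?_⟩
  intro q L n x t v0 u δ hq hL hv0 hPL hxt hu hδ hinv
  set P : ℕ := A.P0 * q with hP
  have hLr : (0 : ℝ) < L := by exact_mod_cast hL
  have hxn : x ≤ n := le_trans (Nat.le_add_right _ _) hxt
  have h2 : (2 : ℕ) ^ x ≤ 2 ^ n := Nat.pow_le_pow_right (by norm_num) hxn
  set f : (Fin A.k → ℕ) → G := fun v => (A.S v0)⁻¹ * A.S (v0 + P • v) with hf
  set T : H →L[ℂ] H := ((L : ℂ) ^ A.k)⁻¹ • ∑ v ∈ Fintype.piFinset (fun _ : Fin A.k => range L),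
    R.U (f v) with hT
  set a : A.Co → ℕ := fun p => v0 p.2.2 with ha
  set F : (A.Co → ℕ) → G := fun y => A.W (a + P • y) with hF
  -- the words
  have hword : ∀ y : A.Co → ℕ, (List.ofFn fun j : Fin (2 ^ A.ρ) =>
      (f fun l => y (j, false, l))⁻¹ * f fun l => y (j, true, l)).prod = F y := by
    intro y
    simp only [hF, W]
    congr 2
    funext j
    simp only [hf, mul_inv_rev, inv_inv]
    have e1 : ((A.S (v0 + P • fun l => y (j, false, l)))⁻¹ * A.S v0) *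
        ((A.S v0)⁻¹ * A.S (v0 + P • fun l => y (j, true, l))) =
        (A.S (v0 + P • fun l => y (j, false, l)))⁻¹ * A.S (v0 + P • fun l => y (j, true, l)) := by
      group
    rw [e1]
    rfl
  have hcard : Fintype.card A.Co = 2 * 2 ^ A.ρ * A.k := by
    simp only [Fintype.card_prod, Fintype.card_fin, Fintype.card_bool]
    ring
  -- step 1, 2
  have h1 := pow_ineq T u A.ρ
  have h3 : ‖inner ℂ (((star T * T) ^ (2 ^ A.ρ)) u) u‖ =
      ‖sv R F (fun _ => L) u‖ / (L : ℝ) ^ Fintype.card A.Co := by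
    rw [hT, expand R hL f (2 ^ A.ρ)]
    have e1 : (((L : ℂ) ^ (2 * 2 ^ A.ρ * A.k))⁻¹ •
        ∑ x ∈ Fintype.piFinset (fun _ : Fin (2 ^ A.ρ) × Bool × Fin A.k => range L),
        R.U (List.ofFn fun j : Fin (2 ^ A.ρ) =>
          (f fun l => x (j, false, l))⁻¹ * f fun l => x (j, true, l)).prod) u =
        ((L : ℂ) ^ (2 * 2 ^ A.ρ * A.k))⁻¹ •
          ∑ x ∈ Fintype.piFinset (fun _ : A.Co => range L), R.U (F x) u := by
      rw [_root_.smul_apply, _root_.sum_apply]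
      congr 1
      refine Finset.sum_congr rfl fun x _ => ?_
      rw [hword x]
    rw [e1, inner_smul_left, sum_inner, norm_mul, hcard]
    have e2 : ‖(starRingEnd ℂ) ((L : ℂ) ^ (2 * 2 ^ A.ρ * A.k))⁻¹‖ =
        ((L : ℝ) ^ (2 * 2 ^ A.ρ * A.k))⁻¹ := by
      rw [RCLike.norm_conj, norm_inv, norm_pow, Complex.norm_natCast]
    rw [e2, div_eq_inv_mul]
    rfl
  rw [h3] at h1
  -- step 3
  have h4 := vdc_iter R (A.co c) F (fun _ => L) hL (fun _ => le_rfl) u
  -- step 4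
  have h5 : ∀ η ∈ Fintype.piFinset (fun _ : Fin (A.lv c) => range L),
      ‖sv R (lds (List.ofFn fun i => Pi.single (A.co c i) (η i)) F)
        (shrink (A.co c) η (fun _ => L)) u‖ / (L : ℝ) ^ Fintype.card A.Co ≤
      3 * ((L : ℝ)⁻¹ * ‖∑ y ∈ range (L - ∑ i with A.co c i = A.cl c, η i),
          R.U (A.z c ^ (P ^ (A.lv c + 1) * (∏ i, η i) * y)) u‖ + δ) := by
    intro η hη
    rw [Fintype.mem_piFinset] at hη
    have h6 := last_step R (lds (List.ofFn fun i => Pi.single (A.co c i) (η i)) F)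
      (shrink (A.co c) η (fun _ => L)) hL (fun c' => Nat.sub_le _ _) u (A.cl c)
      (fun s => A.z c ^ (P ^ (A.lv c + 1) * (∏ i, η i) * s)) hδ ?_
    · refine h6.trans ?_
      have h7 : (shrink (A.co c) η fun _ => L) (A.cl c) =
          L - ∑ i with A.co c i = A.cl c, η i := rfl
      rw [h7]
      refine mul_le_mul_of_nonneg_right hu ?_
      positivity
    · intro y hy s hs
      have hsL : s < L := lt_of_lt_of_le hs (Nat.sub_le _ _)
      have hb : ∀ p, (a + P • Function.update y (A.cl c) 0) p ≤ 2 ^ n := by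
        intro p
        have h8 : Function.update y (A.cl c) 0 p ≤ L := by
          by_cases hp : p = A.cl c
          · subst hp
            simp
          · rw [Function.update_of_ne hp]
            exact (hy p).le
        calc (a + P • Function.update y (A.cl c) 0) p
            = v0 p.2.2 + P * Function.update y (A.cl c) 0 p := rfl
          _ ≤ v0 p.2.2 + P * L := by gcongr
          _ ≤ 2 ^ n := hv0 _
      obtain ⟨y', hy', h9⟩ := hA.A4 c (a + P • Function.update y (A.cl c) 0)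
        (fun i => P * η i) (P * s) q x n t hq (Dvd.intro _ rfl) hb
        (fun j => (Nat.mul_le_mul_left P (Finset.mem_range.1 (hη j)).le).trans (hPL.trans h2))
        ((Nat.mul_le_mul_left P hsL.le).trans hPL) hxt
      refine ⟨y', hinv y' hy', ?_⟩
      have h10 : lds (List.ofFn fun i => Pi.single (A.co c i) (η i)) F =
          fun x => lds (List.ofFn fun i => Pi.single (A.co c i) (P * η i)) A.W (a + P • x) := by
        rw [hF, lds_comp]
        funext x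
        congr 1
        rw [List.map_ofFn]
        congr 1
        funext i
        exact smul_single P _ _
      rw [h10, ld_comp, smul_single]
      refine h9.trans ?_
      congr 2
      rw [Finset.prod_mul_distrib, Finset.prod_const, Finset.card_univ, Fintype.card_fin]
      ring
  -- combine
  have h11 := avg_bound (A.lv c) L hL (Fintype.piFinset (fun _ : Fin (A.lv c) => range L))
    (by rw [Fintype.card_piFinset]; simp) _ _ δ h5
  exact combine ‖T u‖ ‖u‖ _ _ _ (2 * 2 ^ A.ρ) (2 ^ A.lv c) (norm_nonneg _) (norm_nonneg _) hu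
    (by positivity) (by positivity) h1 h4 h11

end Dat

end Pool.Agent.Lib.Npw
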