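import Pool.Agent.Lib.Npw.CircA
import Pool.Agent.Lib.Npw.FoPol
import Pool.Agent.Lib.Npw.WBlock
import Pool.Agent.Lib.Npw.Blocks
import Pool.Agent.Lib.Npw.UInv

/-!
# NPW (W): the Weyl step

Fix `c`, `B`. `m0 = 2 · 2^ρ · 2^(lv c)` (the exponent in `wblock`), `B' = 2 (B + 1) m0`. `a'` from `circ c B'`. Choose `κ` large (below), then `b0` large, `b' ≥ b0`. `u = 0`: trivial
(`‖fo c 1 n‖ ≤ 1`, constant 2 — for `u = 0`, `Q = 1` and `fo = Cc`). Let `u ≥ 1`, `x0` with `‖x0‖ ≤ 1`, `v = Ph (c+1) q n1 x0`, `u0 = (1 - fo c (2^(a'u)) (n - b'u)) v`, `‖u0‖ ≤ 3` (`fs_bound`, `fo_norm`).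
Let `p0` with `P0 ≤ 2^p0`, `L = 2^(n - κ u)`, `x = n - κ u + B u + p0` (so `P0 q L ≤ 2^x`), `N = n + 2` (so `v0 + P0 q L ≤ 2^N` for `v0 < M < 2^(n+1)`), `t = ((κ - B - p0) u) / J`, so
`x + J t ≤ N`; `X = N + C1 - t`.
* `δ = C 4^(a' u) (1/2)^t1` from `u_inv` with `X + E (t1 + 1) ≤ n1` (`n1 ≥ n - B u`), `t1 ≥ (B' + 2 a' + 1) u`: true if `κ` is large with respect to `a'`, `B`, `J`, `E`, `C1`; `n' = n - b' u ≤ X` if
  `b'` is large with respect to `κ`; `P0 q ≤ 2^X` as `X ≥ n - t ≥ ..` (`t ≤ κ u`, `n ≥ 2 b' u`). So `δ ≤ C (1/2)^(B' u)`.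
* `wblock` for each `v0`: `‖T u0‖^m0 ≤ C (L^(-(lv c+1)) ∑_η ‖∑_y U(..) u0‖ + δ)`; Cauchy-Schwarz over the `L^(lv c)` values `η`: `L^(-(j+1)) ∑_η ‖·‖ ≤ (L^(-(j+2)) ∑_η ‖·‖²)^(1/2)`, and by
  `circ` (bound `C (1/2)^(B' u) L^(j+2)`) and `fo_sum` (`e = ∏ η`, `lam = (P0 q)^(j+1)`) `∑_η ‖·‖² ≤ C (1/2)^(B' u) L^(j+2)`. So `‖T u0‖^m0 ≤ C (1/2)^(B' u / 2)`, hence
  `‖T u0‖ ≤ C (1/2)^((B+1) u)`.
* `blocks` (`P = P0 q`): `‖A_M u0‖ ≤ C (1/2)^((B+1)u) + 6 k P0 q L / M`, `q L / M ≤ 2^(B u - κ u)`.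
Finally `‖A_M (1 - fo) Ph‖ = sup` over unit vectors `x0` (`ContinuousLinearMap.opNorm_le_bound`).
-/

set_option autoImplicit false

open Finset

namespace Pool.Agent.Lib.Npw

variable {G H : Type} [Group G] [NormedAddCommGroup H] [InnerProductSpace ℂ H] [CompleteSpace H]

namespace Dat

namespace WeylAux

omit [CompleteSpace H] in
lemma opNorm_le {T : H →L[ℂ] H} {K : ℝ} (hK : 0 ≤ K) (h : ∀ x, ‖x‖ ≤ 1 → ‖T x‖ ≤ K) :
    ‖T‖ ≤ K := by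
  apply ContinuousLinearMap.opNorm_le_bound _ hK
  intro x
  by_cases hx : x = 0
  · subst hx
    simp
  · have hx0 : 0 < ‖x‖ := norm_pos_iff.2 hx
    have h1 := h ((‖x‖⁻¹ : ℂ) • x) (by
      rw [norm_smul, norm_inv, Complex.norm_real, norm_norm, inv_mul_cancel₀ hx0.ne'])
    rw [map_smul, norm_smul, norm_inv, Complex.norm_real, norm_norm, inv_mul_le_iff₀ hx0] at h1
    rw [mul_comm]
    exact h1

lemma fo_one (A : Dat G) (R : Rep G H) (c : Fin A.D) (n : ℕ) : A.fo R c 1 n = A.Cc R c 1 n := by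
  unfold fo
  simp

/-- the average over the `η` -/
lemma cs {j : ℕ} {L : ℝ} (hL : 0 < L) {ι : Type} (s : Finset ι) (a : ι → ℝ)
    (ha : ∀ i ∈ s, 0 ≤ a i) (hs : (s.card : ℝ) ≤ L ^ j) {Cc : ℕ} {ρ : ℝ} (hρ : 0 ≤ ρ)
    (h : ∑ i ∈ s, a i ^ 2 ≤ Cc * ρ ^ 2 * L ^ (j + 2)) :
    (L ^ (j + 1))⁻¹ * ∑ i ∈ s, a i ≤ (Cc + 1) * ρ := by
  have h0 : 0 ≤ ∑ i ∈ s, a i := sum_nonneg ha
  have h1 : (∑ i ∈ s, a i) ^ 2 ≤ L ^ j * (Cc * ρ ^ 2 * L ^ (j + 2)) := by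
    refine sq_sum_le_card_mul_sum_sq.trans ?_
    exact mul_le_mul hs h (sum_nonneg fun i _ => sq_nonneg _) (by positivity)
  have h2 : ((L ^ (j + 1))⁻¹ * ∑ i ∈ s, a i) ^ 2 ≤ ((Cc + 1) * ρ) ^ 2 := by
    calc ((L ^ (j + 1))⁻¹ * ∑ i ∈ s, a i) ^ 2
        = ((L ^ (j + 1))⁻¹) ^ 2 * (∑ i ∈ s, a i) ^ 2 := by ring
      _ ≤ ((L ^ (j + 1))⁻¹) ^ 2 * (L ^ j * (Cc * ρ ^ 2 * L ^ (j + 2))) := by gcongr
      _ = Cc * ρ ^ 2 := by
          field_simp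
          ring
      _ ≤ ((Cc : ℝ) + 1) ^ 2 * ρ ^ 2 := by
          apply mul_le_mul_of_nonneg_right _ (sq_nonneg _)
          have : (0 : ℝ) ≤ Cc := Nat.cast_nonneg _
          nlinarith
      _ = ((Cc + 1) * ρ) ^ 2 := by ring
  exact (pow_le_pow_iff_left₀ (by positivity) (by positivity) two_ne_zero).1 h2

end WeylAux

open WeylAux

theorem weyl {A : Dat G} (hA : A.Ok) (R : Rep G H) (c : Fin A.D) (B : ℕ) : ∃ a' b0 : ℕ,
    ∀ b' : ℕ, b0 ≤ b' → ∃ C : ℕ, ∀ u n M q n1 : ℕ, 2 * b' * u ≤ n → 2 ^ n ≤ M → M < 2 ^ (n + 1) →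
    0 < q → q ≤ 2 ^ (B * u) → n ≤ n1 + B * u → n1 ≤ n →
    ‖A.AA R M * (1 - A.fo R c (2 ^ (a' * u)) (n - b' * u)) * A.Ph R ((c : ℕ) + 1) q n1‖ ≤
      C * (1 / 2) ^ (B * u) ∧ ‖A.fo R c (2 ^ (a' * u)) (n - b' * u)‖ ≤ 2 := by
  obtain ⟨m0, hm0⟩ : ∃ m0, m0 = 2 * 2 ^ A.ρ * 2 ^ A.lv c := ⟨_, rfl⟩
  have hm0pos : 0 < m0 := by rw [hm0]; positivity
  obtain ⟨B', hB'⟩ : ∃ B', B' = 2 * ((B + 1) * m0) := ⟨_, rfl⟩
  obtain ⟨a', hcirc⟩ := circ A c B'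
  obtain ⟨E1, hfs⟩ := fs_bound A
  obtain ⟨Cw, hw⟩ := wblock hA R c
  obtain ⟨Cu, Eu, hu⟩ := u_inv hA R
  obtain ⟨p0, hp0⟩ : ∃ p0, A.P0 ≤ 2 ^ p0 := ⟨A.P0, Nat.lt_two_pow_self.le⟩
  obtain ⟨τ, hτ⟩ : ∃ τ, τ = 2 + A.C1 + Eu * (B' + 2 * a' + 1) + B := ⟨_, rfl⟩
  have hJ : 1 ≤ A.J := (Nat.succ_pos _).trans_le (hA.w_le c)
  obtain ⟨κ, hκ⟩ : ∃ κ, κ = B + p0 + A.J * τ := ⟨_, rfl⟩
  have hJτ : τ ≤ A.J * τ := Nat.le_mul_of_pos_left _ hJ
  obtain ⟨b1, hcirc⟩ := hcirc κ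
  refine ⟨a', b1 + E1 * (a' + 1) + κ + (p0 + B + τ), fun b' hb' => ?_⟩
  obtain ⟨Cc, hcirc⟩ := hcirc b' (by omega)
  obtain ⟨K1, hK1⟩ : ∃ K1 : ℕ, K1 = Cw * (Cc + 1 + Cu) + 1 := ⟨_, rfl⟩
  refine ⟨K1 + 6 * A.k * A.P0 + 2, fun u n M q n1 hn hM1 hM2 hq hqB hn1 hn2 => ?_⟩
  rcases Nat.eq_zero_or_pos u with hu0 | hu0
  · subst hu0
    simp only [mul_zero, pow_zero, Nat.sub_zero, mul_one]
    rw [fo_one]
    have h1 := A.norm_Cc_le R c 1 n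
    refine ⟨?_, h1.trans (by norm_num)⟩
    have h2 : ‖(1 : H →L[ℂ] H) - A.Cc R c 1 n‖ ≤ 2 :=
      (norm_sub_le _ _).trans (by linarith [norm_one_le (H := H)])
    have h3 : ‖A.AA R M * (1 - A.Cc R c 1 n) * A.Ph R ((c : ℕ) + 1) q n1‖ ≤ 1 * 2 * 1 := by
      refine (norm_mul_le _ _).trans (mul_le_mul ?_ (A.norm_Ph_le R _ _ _) (norm_nonneg _)
        (by norm_num))
      exact (norm_mul_le _ _).trans (mul_le_mul (A.norm_AA_le R M) h2 (norm_nonneg _) (by norm_num))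
    refine h3.trans ?_
    push_cast
    have h4 : (0 : ℝ) ≤ K1 := Nat.cast_nonneg _
    have h5 : (0 : ℝ) ≤ 6 * A.k * A.P0 := by positivity
    linarith
  -- the main case
  have hb'u : b' ≤ b' * u := Nat.le_mul_of_pos_right _ hu0
  have hfo : ‖A.fo R c (2 ^ (a' * u)) (n - b' * u)‖ ≤ 2 := by
    apply fo_norm
    intro θ
    apply hfs c (a' * u) _ _ θ le_rfl
    have h1 : E1 * (a' * u + 1) ≤ E1 * (a' + 1) * u := by
      rw [mul_assoc]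
      apply Nat.mul_le_mul_left
      nlinarith
    have h2 : E1 * (a' + 1) * u ≤ b' * u := Nat.mul_le_mul_right _ (by omega)
    have h3 : 2 * b' * u = b' * u + b' * u := by ring
    omega
  refine ⟨?_, hfo⟩
  apply opNorm_le (by positivity)
  intro x0 hx0
  obtain ⟨w0, hw0⟩ : ∃ w0, w0 = (1 - A.fo R c (2 ^ (a' * u)) (n - b' * u))
      (A.Ph R ((c : ℕ) + 1) q n1 x0) := ⟨_, rfl⟩
  have hgoal : (A.AA R M * (1 - A.fo R c (2 ^ (a' * u)) (n - b' * u)) *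
      A.Ph R ((c : ℕ) + 1) q n1) x0 = A.AA R M w0 := by
    rw [hw0]
    rfl
  rw [hgoal]
  have hPhx : ‖A.Ph R ((c : ℕ) + 1) q n1 x0‖ ≤ 1 := by
    refine (ContinuousLinearMap.le_opNorm _ _).trans ?_
    calc _ ≤ (1 : ℝ) * 1 := mul_le_mul (A.norm_Ph_le R _ _ _) hx0 (norm_nonneg _) (by norm_num)
      _ = 1 := one_mul 1
  have hw03 : ‖w0‖ ≤ 3 := by
    rw [hw0]
    refine (ContinuousLinearMap.le_opNorm _ _).trans ?_
    have h1 : ‖(1 : H →L[ℂ] H) - A.fo R c (2 ^ (a' * u)) (n - b' * u)‖ ≤ 3 :=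
      (norm_sub_le _ _).trans (by linarith [norm_one_le (H := H)])
    calc _ ≤ (3 : ℝ) * 1 := mul_le_mul h1 hPhx (norm_nonneg _) (by norm_num)
      _ = 3 := mul_one 3
  -- natural number facts
  have e1 : κ * u = B * u + p0 * u + A.J * (τ * u) := by rw [hκ]; ring
  have e2 : τ * u = 2 * u + A.C1 * u + Eu * ((B' + 2 * a' + 1) * u) + B * u := by rw [hτ]; ring
  have e3 : κ * u ≤ b' * u := Nat.mul_le_mul_right _ (by omega)
  have e4 : (p0 + B + τ) * u ≤ b' * u := Nat.mul_le_mul_right _ (by omega)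
  have e5 : (p0 + B + τ) * u = p0 * u + B * u + τ * u := by ring
  have e6 : 2 * b' * u = b' * u + b' * u := by ring
  have e7 : p0 ≤ p0 * u := Nat.le_mul_of_pos_right _ hu0
  have e8 : A.C1 ≤ A.C1 * u := Nat.le_mul_of_pos_right _ hu0
  have e9 : (B' + 2 * a') * u + 1 ≤ (B' + 2 * a' + 1) * u := by nlinarith
  have e10 : Eu * ((B' + 2 * a') * u + 1) ≤ Eu * ((B' + 2 * a' + 1) * u) :=
    Nat.mul_le_mul_left _ e9
  have e11 : τ * u ≤ A.J * (τ * u) := Nat.le_mul_of_pos_left _ hJ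
  -- the parameters
  have hP : A.P0 * q * 2 ^ (n - κ * u) ≤ 2 ^ (n - κ * u + B * u + p0) := by
    calc A.P0 * q * 2 ^ (n - κ * u) ≤ 2 ^ p0 * 2 ^ (B * u) * 2 ^ (n - κ * u) := by gcongr
      _ = 2 ^ (n - κ * u + B * u + p0) := by rw [← pow_add, ← pow_add]; congr 1; ring
  have hδ : ∀ y ∈ A.BN A.C1 ((c : ℕ) + 1) q (n + 2 + A.C1 - τ * u),
      ‖R.U y w0 - w0‖ ≤ Cu * (1 / 2) ^ (B' * u) := by
    intro y hy
    have h1 := hu c q n1 (n - b' * u) (n + 2 + A.C1 - τ * u) ((B' + 2 * a') * u) (a' * u)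
      (2 ^ (a' * u)) y x0 hq hx0 le_rfl (by omega) (by
        calc A.P0 * q ≤ 2 ^ p0 * 2 ^ (B * u) := Nat.mul_le_mul hp0 hqB
          _ = 2 ^ (p0 + B * u) := by rw [pow_add]
          _ ≤ 2 ^ (n + 2 + A.C1 - τ * u) := Nat.pow_le_pow_right (by norm_num) (by omega))
      (by omega) hy
    rw [← hw0] at h1
    refine h1.trans (le_of_eq ?_)
    have h2 : (4 : ℝ) ^ (a' * u) * (1 / 2) ^ ((B' + 2 * a') * u) = (1 / 2) ^ (B' * u) := by
      have h3 : (4 : ℝ) = 2 ^ 2 := by norm_num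
      rw [h3, ← pow_mul, show (B' + 2 * a') * u = B' * u + 2 * (a' * u) by ring, pow_add,
        mul_left_comm, ← mul_pow]
      norm_num
    rw [mul_assoc, h2]
  obtain ⟨r, hr⟩ : ∃ r : ℝ, r = (1 / 2) ^ ((B + 1) * m0 * u) := ⟨_, rfl⟩
  have hr0 : 0 < r := by rw [hr]; positivity
  have hr1 : r ≤ 1 := by rw [hr]; exact pow_le_one₀ (by norm_num) (by norm_num)
  have hrB : (1 / 2 : ℝ) ^ (B' * u) = r ^ 2 := by
    rw [hr, ← pow_mul, hB']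
    congr 1
    ring
  obtain ⟨L, hL⟩ : ∃ L : ℕ, L = 2 ^ (n - κ * u) := ⟨_, rfl⟩
  have hLr : (L : ℝ) = 2 ^ (n - κ * u) := by rw [hL]; push_cast; rfl
  have hL1 : 0 < L := by rw [hL]; positivity
  have hL0 : (0 : ℝ) < L := by exact_mod_cast hL1
  rw [← hL] at hP
  have hMpos : 0 < M := lt_of_lt_of_le (by positivity) hM1
  -- one block
  have hblock : ∀ v0 : Fin A.k → ℕ, (∀ l, v0 l < M) →
      ‖(((L : ℂ) ^ A.k)⁻¹ • ∑ v ∈ Fintype.piFinset (fun _ : Fin A.k => range L),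
        R.U ((A.S v0)⁻¹ * A.S (v0 + (A.P0 * q) • v))) w0‖ ≤ K1 * (1 / 2) ^ (B * u) := by
    intro v0 hv0
    have h1 := hw q L (n + 2) (n - κ * u + B * u + p0) (τ * u) v0 w0 (Cu * (1 / 2) ^ (B' * u)) hq
      hL1 (by
        intro l
        have h2 := hv0 l
        have h3 : A.P0 * q * L ≤ 2 ^ n :=
          hP.trans (Nat.pow_le_pow_right (by norm_num) (by omega))
        have h4 : 2 ^ (n + 2) = 2 ^ (n + 1) + 2 ^ n + 2 ^ n := by rw [pow_add, pow_add]; ring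
        omega) hP (by omega) hw03 (by positivity) hδ
    rw [← hm0] at h1
    -- the sum over `η`
    have h5 : ∑ η ∈ Fintype.piFinset (fun _ : Fin (A.lv c) => range L),
        ‖∑ y ∈ range (L - ∑ i with A.co c i = A.cl c, η i),
          R.U (A.z c ^ ((A.P0 * q) ^ (A.lv c + 1) * (∏ i, η i) * y)) w0‖ ^ 2 ≤
        Cc * r ^ 2 * (L : ℝ) ^ (A.lv c + 2) := by
      have h6 := fo_sum A R c (2 ^ (a' * u)) (n - b' * u) ((A.P0 * q) ^ (A.lv c + 1))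
        (Fintype.piFinset (fun _ : Fin (A.lv c) => range L)) (fun η => ∏ i, η i)
        (fun η => L - ∑ i with A.co c i = A.cl c, η i)
        (B := Cc * (1 / 2) ^ (B' * u) * (L : ℝ) ^ (A.lv c + 2)) (by
          intro θ
          have h7 := hcirc u n q (fun η => L - ∑ i with A.co c i = A.cl c, η i) θ hn hq
            (hqB.trans (Nat.pow_le_pow_right (by norm_num) (Nat.mul_le_mul_right _ (by
              rw [hB']
              nlinarith)))) (by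
              intro η
              rw [← hL]
              exact Nat.sub_le _ _)
          rw [← hL, ← hLr] at h7
          exact h7) (A.Ph R ((c : ℕ) + 1) q n1 x0)
      rw [← hw0, hrB] at h6
      refine h6.trans ?_
      have h8 : ‖A.Ph R ((c : ℕ) + 1) q n1 x0‖ ^ 2 ≤ 1 := pow_le_one₀ (norm_nonneg _) hPhx
      have h9 : 0 ≤ Cc * r ^ 2 * (L : ℝ) ^ (A.lv c + 2) := by positivity
      nlinarith
    have h10 := cs (j := A.lv c) hL0 (Fintype.piFinset (fun _ : Fin (A.lv c) => range L))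
      (fun η => ‖∑ y ∈ range (L - ∑ i with A.co c i = A.cl c, η i),
          R.U (A.z c ^ ((A.P0 * q) ^ (A.lv c + 1) * (∏ i, η i) * y)) w0‖)
      (fun _ _ => norm_nonneg _) (by
        rw [Fintype.card_piFinset_const, card_range]
        push_cast
        rfl) hr0.le h5
    have h11 : ‖(((L : ℂ) ^ A.k)⁻¹ • ∑ v ∈ Fintype.piFinset (fun _ : Fin A.k => range L),
        R.U ((A.S v0)⁻¹ * A.S (v0 + (A.P0 * q) • v))) w0‖ ^ m0 ≤
        (K1 * (1 / 2) ^ ((B + 1) * u)) ^ m0 := by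
      refine h1.trans ?_
      calc _ ≤ (Cw : ℝ) * ((Cc + 1) * r + Cu * (1 / 2) ^ (B' * u)) := by gcongr
        _ = Cw * ((Cc + 1) * r + Cu * r ^ 2) := by rw [hrB]
        _ ≤ Cw * ((Cc + 1) * r + Cu * r) := by
            gcongr
            nlinarith
        _ = Cw * (Cc + 1 + Cu) * r := by ring
        _ ≤ K1 * r := by
            apply mul_le_mul_of_nonneg_right _ hr0.le
            rw [hK1]
            push_cast
            linarith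
        _ ≤ K1 ^ m0 * r := by
            apply mul_le_mul_of_nonneg_right _ hr0.le
            have h12 : (1 : ℝ) ≤ K1 := by
              rw [hK1]
              push_cast
              have : (0 : ℝ) ≤ Cw * (Cc + 1 + Cu) := by positivity
              linarith
            exact le_self_pow₀ h12 hm0pos.ne'
        _ = (K1 * (1 / 2) ^ ((B + 1) * u)) ^ m0 := by
            rw [mul_pow, ← pow_mul, hr]
            congr 2
            ring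
    have h13 := (pow_le_pow_iff_left₀ (norm_nonneg _) (by positivity) hm0pos.ne').1 h11
    refine h13.trans ?_
    apply mul_le_mul_of_nonneg_left _ (Nat.cast_nonneg _)
    apply pow_le_pow_of_le_one (by norm_num) (by norm_num)
    exact Nat.mul_le_mul_right _ (by omega)
  have hfin := blocks A R hMpos hL1 w0 hblock
  refine hfin.trans ?_
  have h20 : ((A.P0 * q : ℕ) : ℝ) * L / M ≤ A.P0 * (1 / 2) ^ (B * u) := by
    rw [div_le_iff₀ (by exact_mod_cast hMpos)]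
    have h21 : (2 : ℝ) ^ n ≤ M := by exact_mod_cast hM1
    have h22 : (q : ℝ) ≤ 2 ^ (B * u) := by exact_mod_cast hqB
    have h23 : (2 : ℝ) ^ (B * u) * 2 ^ (n - κ * u) ≤ (1 / 2) ^ (B * u) * 2 ^ n := by
      have h24 : (2 : ℝ) ^ (B * u + (n - κ * u)) * 2 ^ (B * u) ≤ 2 ^ n := by
        rw [← pow_add]
        apply pow_le_pow_right₀ (by norm_num)
        omega
      rw [← pow_add, one_div, inv_pow, inv_mul_eq_div, le_div_iff₀ (by positivity)]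
      exact h24
    calc ((A.P0 * q : ℕ) : ℝ) * L = A.P0 * (q * L) := by push_cast; ring
      _ ≤ A.P0 * (2 ^ (B * u) * 2 ^ (n - κ * u)) := by
          rw [hLr]
          gcongr
      _ ≤ A.P0 * ((1 / 2) ^ (B * u) * 2 ^ n) := by gcongr
      _ ≤ A.P0 * ((1 / 2) ^ (B * u) * M) := by gcongr
      _ = A.P0 * (1 / 2) ^ (B * u) * M := by ring
  have h30 : 2 * (A.k : ℝ) * ((A.P0 * q : ℕ) : ℝ) * L / M * ‖w0‖ ≤
      6 * A.k * A.P0 * (1 / 2) ^ (B * u) := by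
    calc 2 * (A.k : ℝ) * ((A.P0 * q : ℕ) : ℝ) * L / M * ‖w0‖
        = 2 * A.k * (((A.P0 * q : ℕ) : ℝ) * L / M) * ‖w0‖ := by ring
      _ ≤ 2 * A.k * (A.P0 * (1 / 2) ^ (B * u)) * 3 := by gcongr
      _ = 6 * A.k * A.P0 * (1 / 2) ^ (B * u) := by ring
  push_cast at h30 ⊢
  have h31 : (0 : ℝ) ≤ (1 / 2) ^ (B * u) := by positivity
  nlinarith

end Dat

end Pool.Agent.Lib.Npw
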