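import Pool.Agent.Lib.Npw.Pi4

/-!
# NPW (Part V): the operator `Y`

`Y = Ph (c+1) d n1 * Cc c d1 n2` (`0 < d, d1`, `d d1 ≤ 2^v`, gaps `n2 + E (v+t+1) ≤ n1`, `n3 + E (v+t+1) ≤ n2`, `E (v+t+1) ≤ n3`).
1. `Y` is `RI c (d d1) x (C (1/2)^t)` if `P0 d d1 ≤ 2^x`, `x + E' t + E' ≤ n2`: let `y = z_c'^e ∈ Bx c (d d1) x`.
   * `c' = c`, `K_c (d d1) ∣ e`: `avg_shift` for `z_c^(K_c d1)`: error `≤ 2 |e| / (K_c d1 ll) ≤ 2 · 2^(x w - n2 w)` (`lt_mul_ll`).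
   * `c' > c`: `Cc c d1 n2 * U(y)` is the average of `U(⁅g,y⁆) U(y) U(g)`, `g = z_c^(K_c d1 m)` of scale `n2`; `⁅g,y⁆ ∈ BN C1 (c'+1) (d d1) (n2 + C1)` by (A1) (second exponent divisible by
     `K_c' (d d1)`; `m = n2`, `t = 0`), and `Ph (c+1) d n1` is right invariant under the `d`-box of scale `n2 + C1` (`inv_right`, `d ∣ d d1`, gap `n1 - n2 - C1 ≥ E'' t`).
2. With `n3'`, `n3 + E'' (v + t') ≤ n3'`, `n3' + E' (t' + 1) ≤ n2` (`t' = t + 2 v + 1`; e.g. `n3' = n3 + E'' (v + t')`): `Y * Ph c (d d1) n3' ≈ Y` (`ri_mul_Ph`).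
3. `Ph c (d d1) n3' * (1 - Pi c [1,2^v] n3) ≈ 0` (`ph_pi` with `t'`; all divisors of `d d1` are in `[1, 2^v]`).
4. `Y (1 - Pi) = (Y - Y Ph) (1 - Pi) + Y (Ph (1 - Pi))`, `‖1 - Pi‖ ≤ 1 + 4^v` (`norm_Pi_le`), `‖Y‖ ≤ 1`.
-/

set_option autoImplicit false

open Finset
open scoped commutatorElement

namespace Pool.Agent.Lib.Npw

variable {G H : Type} [Group G] [NormedAddCommGroup H] [InnerProductSpace ℂ H] [CompleteSpace H]

namespace Dat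

namespace YAbsAux

/-- right invariance for the powers of `z c` itself -/
theorem ri_same (A : Dat G) (R : Rep G H) (c : Fin A.D) (d d1 n2 x t : ℕ) (hd1 : 0 < d1)
    (hx : x + t ≤ n2) (e : ℤ) (he : ((A.K c * (d * d1) : ℕ) : ℤ) ∣ e)
    (hee : |e| ≤ 2 ^ (x * A.w c)) :
    ‖A.Cc R c d1 n2 * R.U (A.z c ^ e) - A.Cc R c d1 n2‖ ≤ 2 * (1 / 2) ^ t := by
  obtain ⟨j, rfl⟩ := he
  have hll := A.ll_pos c d1 n2
  have h1 := avg_shift R (A.z c ^ (A.K c * d1)) hll ((d : ℤ) * j)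
  have h2 : (A.z c ^ (A.K c * d1)) ^ ((d : ℤ) * j) = A.z c ^ (((A.K c * (d * d1) : ℕ) : ℤ) * j) := by
    rw [← zpow_natCast, ← zpow_mul]
    congr 1
    push_cast
    ring
  have h3 : A.Cc R c d1 n2 = avg (A.ll c d1 n2) fun m => R.U ((A.z c ^ (A.K c * d1)) ^ m) := by
    unfold Cc
    congr 1
    funext m
    rw [← pow_mul]
  rw [← h2, h3]
  refine h1.trans ?_
  have hK := A.K_pos c
  have hw : 0 < A.w c := Nat.succ_pos _
  have h4 : (2 : ℝ) ^ (n2 * A.w c) < A.K c * d1 * A.ll c d1 n2 := by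
    have := lt_mul_ll A (c := c) hd1 n2
    exact_mod_cast this
  have h5 : ((A.K c : ℝ) * d1) * |(((d : ℤ) * j : ℤ) : ℝ)| ≤ 2 ^ (x * A.w c) := by
    have h6 : (|(((A.K c * (d * d1) : ℕ) : ℤ) * j : ℤ)| : ℤ) ≤ 2 ^ (x * A.w c) := hee
    have h7 : (|((((A.K c * (d * d1) : ℕ) : ℤ) * j : ℤ) : ℝ)|) ≤ 2 ^ (x * A.w c) := by
      exact_mod_cast h6
    have h8 : ((((A.K c * (d * d1) : ℕ) : ℤ) * j : ℤ) : ℝ) =
        ((A.K c : ℝ) * d1) * (((d : ℤ) * j : ℤ) : ℝ) := by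
      push_cast
      ring
    rw [h8, abs_mul, abs_of_nonneg (by positivity)] at h7
    exact h7
  have hKd : (0 : ℝ) < (A.K c : ℝ) * d1 := by positivity
  have hllr : (0 : ℝ) < (A.ll c d1 n2 : ℝ) := by exact_mod_cast hll
  rw [div_le_iff₀ hllr]
  have h9 : (2 : ℝ) ^ (x * A.w c) ≤ (1 / 2) ^ t * 2 ^ (n2 * A.w c) := by
    have h10 : x * A.w c + t ≤ n2 * A.w c := by
      calc x * A.w c + t ≤ x * A.w c + t * A.w c := by
            exact Nat.add_le_add_left (Nat.le_mul_of_pos_right _ hw) _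
        _ = (x + t) * A.w c := by ring
        _ ≤ n2 * A.w c := Nat.mul_le_mul_right _ hx
    have h11 : (2 : ℝ) ^ (x * A.w c + t) ≤ 2 ^ (n2 * A.w c) :=
      pow_le_pow_right₀ (by norm_num) h10
    rw [pow_add] at h11
    rw [one_div, inv_pow, ← div_eq_inv_mul, le_div_iff₀ (by positivity)]
    exact h11
  have h12 : ((A.K c : ℝ) * d1) * (2 * |(((d : ℤ) * j : ℤ) : ℝ)|) ≤
      ((A.K c : ℝ) * d1) * (2 * (1 / 2) ^ t * (A.ll c d1 n2 : ℝ)) := by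
    calc ((A.K c : ℝ) * d1) * (2 * |(((d : ℤ) * j : ℤ) : ℝ)|)
        = 2 * (((A.K c : ℝ) * d1) * |(((d : ℤ) * j : ℤ) : ℝ)|) := by ring
      _ ≤ 2 * 2 ^ (x * A.w c) := by linarith
      _ ≤ 2 * ((1 / 2) ^ t * 2 ^ (n2 * A.w c)) := by linarith
      _ ≤ 2 * ((1 / 2) ^ t * (A.K c * d1 * A.ll c d1 n2)) := by
          have : (0 : ℝ) < (1 / 2) ^ t := by positivity
          nlinarith [mul_lt_mul_of_pos_left h4 this]
      _ = ((A.K c : ℝ) * d1) * (2 * (1 / 2) ^ t * (A.ll c d1 n2 : ℝ)) := by ring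
  exact le_of_mul_le_mul_left h12 hKd

/-- right invariance of `Y` -/
theorem ri_Y {A : Dat G} (hA : A.Ok) (R : Rep G H) : ∃ C E : ℕ,
    ∀ (c : Fin A.D) (d d1 n1 n2 x t : ℕ), 0 < d → 0 < d1 → A.P0 * (d * d1) ≤ 2 ^ n2 →
    x + E * (t + 1) ≤ n2 → n2 + E * (t + 1) ≤ n1 →
    A.RI R c (d * d1) x (C * (1 / 2) ^ t) (A.Ph R ((c : ℕ) + 1) d n1 * A.Cc R c d1 n2) := by
  obtain ⟨C', E', h⟩ := inv_right hA R
  refine ⟨2 + (A.C1 + 1) * C', 1 + A.C1 + E', ?_⟩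
  intro c d d1 n1 n2 x t hd hd1 hP hx hn y hy
  have hq : 0 < d * d1 := Nat.mul_pos hd hd1
  have hE1 : t ≤ (1 + A.C1 + E') * (t + 1) := by nlinarith [Nat.zero_le ((A.C1 + E') * (t + 1))]
  have hE2 : A.C1 + E' * t ≤ (1 + A.C1 + E') * (t + 1) := by
    nlinarith [Nat.zero_le (A.C1 * t), Nat.zero_le E', Nat.zero_le t]
  have hxn : x ≤ n2 := (Nat.le_add_right _ _).trans hx
  have hpos : (0 : ℝ) < (1 / 2) ^ t := by positivity
  obtain ⟨c', e, hc, he, hee, rfl⟩ := hy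
  set P := A.Ph R ((c : ℕ) + 1) d n1 with hPdef
  have hPn : ‖P‖ ≤ 1 := norm_Ph_le A R _ _ _
  rcases Nat.eq_or_lt_of_le hc with hcc | hcc
  · have hcc' : c' = c := Fin.ext hcc.symm
    subst hcc'
    have h1 := ri_same A R c' d d1 n2 x t hd1 (by omega) e he hee
    have h2 : P * A.Cc R c' d1 n2 * R.U (A.z c' ^ e) - P * A.Cc R c' d1 n2 =
        P * (A.Cc R c' d1 n2 * R.U (A.z c' ^ e) - A.Cc R c' d1 n2) := by
      rw [mul_sub, mul_assoc]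
    rw [h2]
    calc ‖P * (A.Cc R c' d1 n2 * R.U (A.z c' ^ e) - A.Cc R c' d1 n2)‖
        ≤ ‖P‖ * ‖A.Cc R c' d1 n2 * R.U (A.z c' ^ e) - A.Cc R c' d1 n2‖ := norm_mul_le _ _
      _ ≤ 1 * (2 * (1 / 2) ^ t) := by
          exact mul_le_mul hPn h1 (norm_nonneg _) (by norm_num)
      _ ≤ ((2 + (A.C1 + 1) * C' : ℕ) : ℝ) * (1 / 2) ^ t := by
          push_cast
          have : (0 : ℝ) ≤ ((A.C1 : ℝ) + 1) * C' * (1 / 2) ^ t := by positivity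
          nlinarith
  · have hRI : A.RI R ((c : ℕ) + 1) d (n2 + A.C1) (C' * (1 / 2) ^ t) P := by
      refine h ((c : ℕ) + 1) d n1 (n2 + A.C1) t hd ?_ (by omega)
      calc A.P0 * d ≤ A.P0 * (d * d1) := Nat.mul_le_mul_left _ (Nat.le_mul_of_pos_right _ hd1)
        _ ≤ 2 ^ n2 := hP
        _ ≤ 2 ^ n1 := Nat.pow_le_pow_right (by norm_num) (by omega)
    have hY : P * A.Cc R c d1 n2 * R.U (A.z c' ^ e) - P * A.Cc R c d1 n2 =
        avg (A.ll c d1 n2) (fun m => P * (R.U (A.z c ^ (A.K c * d1 * m)) * R.U (A.z c' ^ e))) -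
          avg (A.ll c d1 n2) (fun m => P * R.U (A.z c ^ (A.K c * d1 * m))) := by
      unfold Cc
      rw [mul_assoc, avg_mul, mul_avg, mul_avg]
    rw [hY]
    refine norm_avg_sub_le (by positivity) ?_
    intro m hm
    set g := A.z c ^ (A.K c * d1 * m) with hg
    set y := A.z c' ^ e with hy
    have hgy : g * y = ⁅g, y⁆ * y * g := by
      rw [commutatorElement_def]
      group
    have hbr : ⁅g, y⁆ ∈ A.BN A.C1 (max (c : ℕ) c' + 1) (d * d1) (n2 + A.C1 - 0) := by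
      have h3 := hA.A1 c c' ((A.K c * d1 * m : ℕ) : ℤ) e (d * d1) n2 x n2 0 hq
        (by
          rw [abs_of_nonneg (by positivity)]
          have := Kq_mul_le A hm
          exact_mod_cast this) hee (Or.inr he) hP le_rfl hxn (Or.inl (by simp))
      rwa [zpow_natCast] at h3
    have hbr' : ⁅g, y⁆ * y ∈ A.BN (A.C1 + 1) ((c : ℕ) + 1) d (n2 + A.C1) := by
      refine A.BN_mul (A.BN_mono le_rfl (Nat.succ_le_succ (le_max_left _ _)) (Dvd.intro _ rfl)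
        (by simp) hbr) (A.mem_BN_one ⟨c', e, hcc, ?_, ?_, hy⟩)
      · exact (Int.natCast_dvd_natCast.2 (Nat.mul_dvd_mul_left _ (Dvd.intro _ rfl))).trans he
      · exact hee.trans (pow_le_pow_right₀ (by norm_num) (Nat.mul_le_mul_right _ (by omega)))
    have h4 := hRI.BN (by positivity) hbr'
    have h5 : P * (R.U g * R.U y) - P * R.U g = (P * R.U (⁅g, y⁆ * y) - P) * R.U g := by
      rw [← map_mul, hgy, map_mul R.U (⁅g, y⁆ * y) g, sub_mul, mul_assoc]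
    rw [h5]
    calc ‖(P * R.U (⁅g, y⁆ * y) - P) * R.U g‖
        ≤ ‖P * R.U (⁅g, y⁆ * y) - P‖ * ‖R.U g‖ := norm_mul_le _ _
      _ ≤ (((A.C1 + 1 : ℕ) : ℝ) * (C' * (1 / 2) ^ t)) * 1 :=
          mul_le_mul h4 (R.norm_le g) (norm_nonneg _) (by positivity)
      _ ≤ ((2 + (A.C1 + 1) * C' : ℕ) : ℝ) * (1 / 2) ^ t := by
          push_cast
          nlinarith

end YAbsAux

theorem y_abs {A : Dat G} (hA : A.Ok) (R : Rep G H) : ∃ C E : ℕ,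
    ∀ (c : Fin A.D) (d d1 v n1 n2 n3 t : ℕ), 0 < d → 0 < d1 → d * d1 ≤ 2 ^ v →
    n2 + E * (v + t + 1) ≤ n1 → n3 + E * (v + t + 1) ≤ n2 → E * (v + t + 1) ≤ n3 →
    ‖A.Ph R ((c : ℕ) + 1) d n1 * A.Cc R c d1 n2 *
      (1 - A.Pi R c (Icc 1 (2 ^ v)) n3)‖ ≤ C * (1 / 2) ^ t := by
  obtain ⟨C2, E2, h2⟩ := ph_pi hA R
  obtain ⟨C3, E3, h3⟩ := YAbsAux.ri_Y hA R
  refine ⟨A.D * C3 + C2, 3 * E2 + 4 * E3 + A.P0 + 1, ?_⟩
  intro c d d1 v n1 n2 n3 t hd hd1 hdv hn1 hn2 hn3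
  have hq : 0 < d * d1 := Nat.mul_pos hd hd1
  set t' := t + 2 * v + 1 with ht'
  set n3' := n3 + E2 * (v + t') with hn3'
  set E := 3 * E2 + 4 * E3 + A.P0 + 1 with hE
  set Q := v + t + 1 with hQ
  have e1 : E2 * (v + t' + 1) ≤ 3 * E2 * Q := by
    rw [ht', hQ]
    nlinarith [Nat.zero_le (E2 * v), Nat.zero_le (E2 * t), Nat.zero_le E2]
  have e2 : E2 * (v + t') ≤ 3 * E2 * Q := by
    refine (Nat.mul_le_mul_left _ (Nat.le_succ _)).trans e1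
  have e3 : E3 * (t' + 1) ≤ 4 * E3 * Q := by
    rw [ht', hQ]
    nlinarith [Nat.zero_le (E3 * v), Nat.zero_le (E3 * t), Nat.zero_le E3]
  have e4 : E * Q = 3 * E2 * Q + 4 * E3 * Q + A.P0 * Q + Q := by
    rw [hE]
    ring
  have e5 : A.P0 ≤ A.P0 * Q := Nat.le_mul_of_pos_right _ (by omega)
  have hP : A.P0 * (d * d1) ≤ 2 ^ n2 := by
    calc A.P0 * (d * d1) ≤ 2 ^ A.P0 * 2 ^ v :=
          Nat.mul_le_mul (Nat.lt_two_pow_self).le hdv
      _ = 2 ^ (A.P0 + v) := (pow_add _ _ _).symm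
      _ ≤ 2 ^ n2 := Nat.pow_le_pow_right (by norm_num) (by omega)
  have hphpi := (h2 c v n3' n3 t' (d * d1) (Icc 1 (2 ^ v)) subset_rfl hq hdv
    (by
      intro k hk
      rw [mem_Icc]
      have := Nat.divisor_le hk
      exact ⟨Nat.pos_of_mem_divisors hk, this.trans hdv⟩) (by omega) (by omega)).1
  have hri := h3 c d d1 n1 n2 n3' t' hd hd1 hP (by omega) (by omega)
  have hYP := (ri_mul_Ph A R (by positivity) hri).1
  set Y := A.Ph R ((c : ℕ) + 1) d n1 * A.Cc R c d1 n2 with hY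
  set F := A.Ph R c (d * d1) n3' with hF
  set S := A.Pi R c (Icc 1 (2 ^ v)) n3 with hS
  have hYn : ‖Y‖ ≤ 1 := by
    refine (norm_mul_le _ _).trans ?_
    have a1 := norm_Ph_le A R ((c : ℕ) + 1) d n1
    have a2 := norm_Cc_le A R c d1 n2
    calc ‖A.Ph R ((c : ℕ) + 1) d n1‖ * ‖A.Cc R c d1 n2‖ ≤ 1 * 1 :=
          mul_le_mul a1 a2 (norm_nonneg _) zero_le_one
      _ = 1 := one_mul 1
  have hSn : ‖(1 : H →L[ℂ] H) - S‖ ≤ 1 + 4 ^ v := by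
    refine (norm_sub_le _ _).trans ?_
    exact add_le_add norm_one_le (norm_Pi_le A R c subset_rfl n3)
  have hdec : Y * (1 - S) = -((Y * F - Y) * (1 - S)) - Y * (F * S - F) := by
    noncomm_ring
  have h4v : (1 : ℝ) ≤ 4 ^ v := one_le_pow₀ (by norm_num)
  have hpow : (1 / 2 : ℝ) ^ t' * (2 * 4 ^ v) = (1 / 2) ^ t := by
    rw [ht', pow_succ, pow_add, pow_mul]
    have : (1 / 2 : ℝ) ^ 2 = 1 / 4 := by norm_num
    rw [this]
    have h5 : (1 / 4 : ℝ) ^ v * 4 ^ v = 1 := by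
      rw [← mul_pow]
      norm_num
    calc (1 / 2 : ℝ) ^ t * (1 / 4) ^ v * (1 / 2) * (2 * 4 ^ v)
        = (1 / 2 : ℝ) ^ t * ((1 / 4) ^ v * 4 ^ v) := by ring
      _ = (1 / 2) ^ t := by rw [h5, mul_one]
  have hpos : (0 : ℝ) < (1 / 2) ^ t' := by positivity
  have hle : (1 / 2 : ℝ) ^ t' ≤ (1 / 2) ^ t :=
    pow_le_pow_of_le_one (by norm_num) (by norm_num) (by omega)
  rw [hdec]
  calc ‖-((Y * F - Y) * (1 - S)) - Y * (F * S - F)‖
      ≤ ‖-((Y * F - Y) * (1 - S))‖ + ‖Y * (F * S - F)‖ := norm_sub_le _ _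
    _ ≤ ‖Y * F - Y‖ * ‖(1 : H →L[ℂ] H) - S‖ + ‖Y‖ * ‖F * S - F‖ := by
        rw [norm_neg]
        exact add_le_add (norm_mul_le _ _) (norm_mul_le _ _)
    _ ≤ (A.D * (C3 * (1 / 2) ^ t')) * (1 + 4 ^ v) + 1 * (C2 * (1 / 2) ^ t') := by
        refine add_le_add (mul_le_mul hYP hSn (norm_nonneg _) (by positivity)) ?_
        exact mul_le_mul hYn hphpi (norm_nonneg _) zero_le_one
    _ ≤ (A.D * (C3 * (1 / 2) ^ t')) * (2 * 4 ^ v) + 1 * (C2 * (1 / 2) ^ t) := by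
        refine add_le_add (mul_le_mul_of_nonneg_left (by linarith) (by positivity)) ?_
        exact mul_le_mul_of_nonneg_left (mul_le_mul_of_nonneg_left hle (by positivity)) zero_le_one
    _ = A.D * C3 * ((1 / 2) ^ t' * (2 * 4 ^ v)) + C2 * (1 / 2) ^ t := by ring
    _ = ((A.D * C3 + C2 : ℕ) : ℝ) * (1 / 2) ^ t := by
        rw [hpow]
        push_cast
        ring

end Dat

end Pool.Agent.Lib.Npw
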