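import Pool.Agent.Lib.Npw.CpDef
import Pool.Agent.Lib.Npw.YAbs
import Pool.Agent.Lib.Npw.Weyl
import Pool.Agent.Lib.Npw.NormPi

/-!
# NPW (Part V): the induction step for the core proposition

`cp_top` (`c0 ≥ D`): `Ph = 1`, `FF q = [q = 1]` (`moeb_sum`, or `∑_{d ∣ q} μ(q/d) = [q = 1]`), so `Pi [1,2^(a u)] = 1`; `a = 0`, `b0 = 0`.

`cp_step`: constants `a, b0` of `CP (c+1)`, fix `b = b0`; `B = 4 a + 4 b + 8`; `a', b0'` from `weyl c B`; `b'` large; `a* = 2 a + a'`, `b*` ANY sufficiently large number. `u = 0` is trivial (`‖1 - Ph‖ ≤ 2`).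
Let `u ≥ 1`, `2 b* u ≤ n`, `X = Pi c [1,2^(a* u)] (n - b* u)`, `‖1 - X‖ ≤ C 2^u` (`norm_pi` for `a*`), `Z = Pi (c+1) [1,2^(2 a u)] (n - 2 b u)`:
`A_M (1 - X) = A_M (1 - Z) (1 - X) + A_M Z (1 - X)`; the first is `≤ C (1/2)^(2u) 2^u` (`CP (c+1)` for `2u`). `Z = ∑_{q ≤ 2^(2au)} ∑_{d ∣ q} μ Ph (c+1) d (n - 2 b u)`, at most `2^(4 a u)` terms.
For each `d ≤ 2^(2 a u) ≤ 2^(B u)`: with `F = fo c (2^(a' u)) (n - b' u)`, `P = Ph (c+1) d (n - 2 b u)`: `A_M P = A_M (1 - F) P + A_M (F P - P F) + A_M P F`;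
`‖A_M (1-F) P‖ ≤ C (1/2)^(B u)` (`weyl`; `n ≤ (n - 2 b u) + B u`), `‖F P - P F‖ ≤ C 4^(a' u) (1/2)^t` (`comm_loc`, `loc_fo`, `(n - b' u) + E t ≤ n - 2 b u`, `t = (2 a' + B) u`, `b'` large), and
`P F (1 - X) = ∑_{q1 ≤ 2^(a' u)} ∑_{d1 ∣ q1} μ (P * Cc c d1 (n - b' u)) (1 - X)`, each `≤ C (1/2)^t` by `y_abs` (`v = a* u`, `d d1 ≤ 2^(2 a u + a' u)`, `n3 = n - b* u`, `t = (B + 2 a') u`). Sum:
`2^(4 a u) (C (1/2)^(B u) C 2^u + C (1/2)^(B u) C 2^u + C (1/2)^(B u)) ≤ C (1/2)^u`. `cp_all`: downward induction on `c0`.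
-/

set_option autoImplicit false

open Finset

namespace Pool.Agent.Lib.Npw

variable {G H : Type} [Group G] [NormedAddCommGroup H] [InnerProductSpace ℂ H] [CompleteSpace H]

namespace CpStepAux

theorem moeb_le (m : ℕ) : ‖((ArithmeticFunction.moebius m : ℤ) : ℂ)‖ ≤ 1 := by
  rw [Complex.norm_intCast]
  exact_mod_cast ArithmeticFunction.abs_moebius_le_one

theorem norm_dsum (f : ℕ → H →L[ℂ] H) (T W : H →L[ℂ] H) (Q : ℕ) {β : ℝ} (hβ : 0 ≤ β)
    (h : ∀ d, 0 < d → d ≤ Q → ‖T * f d * W‖ ≤ β) :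
    ‖T * (∑ q ∈ Icc 1 Q, ∑ d ∈ q.divisors,
      ((ArithmeticFunction.moebius (q / d) : ℤ) : ℂ) • f d) * W‖ ≤ (Q : ℝ) ^ 2 * β := by
  have h1 : T * (∑ q ∈ Icc 1 Q, ∑ d ∈ q.divisors,
      ((ArithmeticFunction.moebius (q / d) : ℤ) : ℂ) • f d) * W =
      ∑ q ∈ Icc 1 Q, ∑ d ∈ q.divisors,
        ((ArithmeticFunction.moebius (q / d) : ℤ) : ℂ) • (T * f d * W) := by
    rw [Finset.mul_sum, Finset.sum_mul]
    refine Finset.sum_congr rfl fun q _ => ?_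
    rw [Finset.mul_sum, Finset.sum_mul]
    refine Finset.sum_congr rfl fun d _ => ?_
    rw [mul_smul_comm, smul_mul_assoc]
  rw [h1]
  have h2 : ∀ q ∈ Icc 1 Q, ‖∑ d ∈ q.divisors,
      ((ArithmeticFunction.moebius (q / d) : ℤ) : ℂ) • (T * f d * W)‖ ≤ (Q : ℝ) * β := by
    intro q hq
    rw [mem_Icc] at hq
    calc ‖∑ d ∈ q.divisors,
          ((ArithmeticFunction.moebius (q / d) : ℤ) : ℂ) • (T * f d * W)‖
        ≤ ∑ d ∈ q.divisors, ‖((ArithmeticFunction.moebius (q / d) : ℤ) : ℂ) • (T * f d * W)‖ :=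
          norm_sum_le _ _
      _ ≤ ∑ d ∈ q.divisors, β := by
          refine Finset.sum_le_sum fun d hd => ?_
          rw [norm_smul]
          have h3 : d ≤ q := Nat.divisor_le hd
          have h4 : 0 < d := Nat.pos_of_mem_divisors hd
          calc ‖((ArithmeticFunction.moebius (q / d) : ℤ) : ℂ)‖ * ‖T * f d * W‖
              ≤ 1 * β := mul_le_mul (moeb_le _) (h d h4 (h3.trans hq.2)) (norm_nonneg _)
                zero_le_one
            _ = β := one_mul _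
      _ = (q.divisors.card : ℝ) * β := by rw [Finset.sum_const, nsmul_eq_mul]
      _ ≤ (Q : ℝ) * β := by
          apply mul_le_mul_of_nonneg_right _ hβ
          have : q.divisors.card ≤ q := Nat.card_divisors_le_self q
          exact_mod_cast this.trans hq.2
  calc ‖∑ q ∈ Icc 1 Q, ∑ d ∈ q.divisors,
        ((ArithmeticFunction.moebius (q / d) : ℤ) : ℂ) • (T * f d * W)‖
      ≤ ∑ q ∈ Icc 1 Q, ‖∑ d ∈ q.divisors,
        ((ArithmeticFunction.moebius (q / d) : ℤ) : ℂ) • (T * f d * W)‖ := norm_sum_le _ _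
    _ ≤ ∑ q ∈ Icc 1 Q, (Q : ℝ) * β := Finset.sum_le_sum h2
    _ = (Q : ℝ) ^ 2 * β := by
        rw [Finset.sum_const, nsmul_eq_mul, Nat.card_Icc, Nat.add_sub_cancel]
        ring

theorem mul3_le {a b c : H →L[ℂ] H} {x y z : ℝ} (ha : ‖a‖ ≤ x) (hb : ‖b‖ ≤ y) (hc : ‖c‖ ≤ z)
    (hx : 0 ≤ x) (hy : 0 ≤ y) : ‖a * b * c‖ ≤ x * y * z := by
  calc ‖a * b * c‖ ≤ ‖a * b‖ * ‖c‖ := norm_mul_le _ _
    _ ≤ (x * y) * z := by
        apply mul_le_mul _ hc (norm_nonneg _) (mul_nonneg hx hy)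
        exact (norm_mul_le _ _).trans (mul_le_mul ha hb (norm_nonneg _) hx)

theorem half_two (m : ℕ) : (2 : ℝ) ^ m * (1 / 2) ^ m = 1 := by
  rw [← mul_pow]
  norm_num

theorem half_four (m : ℕ) : (4 : ℝ) ^ m * (1 / 2) ^ (2 * m) = 1 := by
  rw [pow_mul, ← mul_pow]
  norm_num

end CpStepAux

open CpStepAux

namespace Dat

theorem cp_top (A : Dat G) (R : Rep G H) {c0 : ℕ} (h : A.D ≤ c0) : A.CP R c0 := by
  refine ⟨0, 0, fun b _ => ⟨0, fun u n M _ _ _ => ?_⟩⟩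
  have h1 : A.Pi R c0 (Icc 1 (2 ^ (0 * u))) (n - b * u) = 1 := by
    unfold Pi
    rw [zero_mul, pow_zero, Icc_self, Finset.sum_singleton]
    unfold FF
    rw [Nat.divisors_one, Finset.sum_singleton, A.Ph_top R h]
    simp
  rw [h1, sub_self, mul_zero, norm_zero]
  simp

theorem cp_step {A : Dat G} (hA : A.Ok) (R : Rep G H) (c : Fin A.D)
    (h : A.CP R ((c : ℕ) + 1)) : A.CP R c := by
  obtain ⟨a, b, h0⟩ := h
  obtain ⟨Ch, hC⟩ := h0 b le_rfl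
  obtain ⟨B, hB⟩ : ∃ B, B = 4 * a + 4 * b + 8 := ⟨_, rfl⟩
  obtain ⟨a', b0', hw⟩ := weyl hA R c B
  obtain ⟨Co', Ec, hcomm⟩ := comm_loc hA R
  obtain ⟨Cy, Ey, hy⟩ := y_abs hA R
  obtain ⟨as, has⟩ : ∃ as, as = 2 * a + a' := ⟨_, rfl⟩
  obtain ⟨CN, EN, hN⟩ := norm_pi hA R as
  obtain ⟨p0, hp0⟩ : ∃ p0, A.P0 ≤ 2 ^ p0 := ⟨A.P0, Nat.lt_two_pow_self.le⟩
  obtain ⟨b', hb'⟩ : ∃ b', b' = b0' + Ec * (2 * a' + B) + 2 * b + Ey * (as + B + 2 * a' + 1) :=
    ⟨_, rfl⟩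
  refine ⟨as, 2 * b + b' + Ey * (as + B + 2 * a' + 1) + 2 * EN + p0 + 2 * a + 2 * b,
    fun bs hbs => ?_⟩
  obtain ⟨Cw, hW⟩ := hw b' (by omega)
  refine ⟨Ch * (1 + CN) + ((Cw + Co') * (1 + CN) + Cy) + 2, fun u n M hn hM1 hM2 => ?_⟩
  rcases Nat.eq_zero_or_pos u with rfl | hu
  · -- the case `u = 0`
    have h1 : ‖A.Pi R c (Icc 1 (2 ^ (as * 0))) (n - bs * 0)‖ ≤ 4 ^ 0 := by
      apply A.norm_Pi_le R
      rw [mul_zero]
    have h2 : ‖A.AA R M * (1 - A.Pi R c (Icc 1 (2 ^ (as * 0))) (n - bs * 0))‖ ≤ 1 * (1 + 1) := by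
      refine (norm_mul_le _ _).trans ?_
      apply mul_le_mul (A.norm_AA_le R M) _ (norm_nonneg _) zero_le_one
      refine (norm_sub_le _ _).trans (add_le_add norm_one_le ?_)
      simpa using h1
    refine h2.trans ?_
    rw [pow_zero, mul_one]
    push_cast
    have : (0 : ℝ) ≤ Ch * (1 + CN) + ((Cw + Co') * (1 + CN) + Cy) := by positivity
    linarith
  -- arithmetic
  have e1 : (2 * b + b' + Ey * (as + B + 2 * a' + 1) + 2 * EN + p0 + 2 * a + 2 * b) * u ≤ bs * u :=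
    Nat.mul_le_mul_right u hbs
  have e2 : Ey * (as * u + (B + 2 * a') * u + 1) ≤ Ey * (as + B + 2 * a' + 1) * u := by
    rw [mul_assoc]
    apply Nat.mul_le_mul_left
    have : (as + B + 2 * a' + 1) * u = as * u + (B + 2 * a') * u + u := by ring
    omega
  have e3 : b' * u = b0' * u + Ec * ((2 * a' + B) * u) + 2 * (b * u) +
      Ey * (as + B + 2 * a' + 1) * u := by
    rw [hb']
    ring
  have e4 : (2 * b + b' + Ey * (as + B + 2 * a' + 1) + 2 * EN + p0 + 2 * a + 2 * b) * u =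
      2 * (b * u) + b' * u + Ey * (as + B + 2 * a' + 1) * u + 2 * (EN * u) + p0 * u +
        2 * (a * u) + 2 * (b * u) := by ring
  have e5 : p0 ≤ p0 * u := Nat.le_mul_of_pos_right _ hu
  have e6 : EN * (u + 1) ≤ 2 * (EN * u) := by
    have : EN ≤ EN * u := Nat.le_mul_of_pos_right _ hu
    have : EN * (u + 1) = EN * u + EN := by ring
    omega
  have e7 : 2 * bs * u = 2 * (bs * u) := by ring
  have e8 : 2 * b' * u = 2 * (b' * u) := by ring
  have e9 : 2 * b * (2 * u) = 4 * (b * u) := by ring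
  have e10 : b * (2 * u) = 2 * (b * u) := by ring
  have e11 : a * (2 * u) = 2 * (a * u) := by ring
  have e12 : B * u = 4 * (a * u) + 4 * (b * u) + 8 * u := by
    rw [hB]
    ring
  have e13 : as * u = 2 * (a * u) + a' * u := by
    rw [has]
    ring
  rw [e7] at hn
  rw [e4] at e1
  set W : H →L[ℂ] H := 1 - A.Pi R c (Icc 1 (2 ^ (as * u))) (n - bs * u) with hWdef
  set P1 : ℕ := n - b * (2 * u) with hP1
  set F : H →L[ℂ] H := A.fo R c (2 ^ (a' * u)) (n - b' * u) with hF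
  set Z : H →L[ℂ] H := A.Pi R ((c : ℕ) + 1) (Icc 1 (2 ^ (a * (2 * u)))) P1 with hZ
  have hu2 : (1 : ℝ) ≤ 2 ^ u := one_le_pow₀ (by norm_num)
  have hWn : ‖W‖ ≤ (1 + CN) * 2 ^ u := by
    have h1 := hN c u (n - bs * u) (Icc 1 (2 ^ (as * u))) (Finset.Subset.refl _) (by omega)
    calc ‖W‖ ≤ ‖(1 : H →L[ℂ] H)‖ + ‖A.Pi R c (Icc 1 (2 ^ (as * u))) (n - bs * u)‖ :=
          norm_sub_le _ _
      _ ≤ 1 + CN * 2 ^ u := add_le_add norm_one_le h1
      _ ≤ (1 + CN) * 2 ^ u := by linarith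
  have hCN : (0 : ℝ) ≤ (1 + CN) * 2 ^ u := by positivity
  have hAn := A.norm_AA_le R M
  -- the first part
  have hfirst : ‖A.AA R M * (1 - Z) * W‖ ≤ (Ch * (1 + CN)) * (1 / 2) ^ u := by
    have h1 : ‖A.AA R M * (1 - Z)‖ ≤ Ch * (1 / 2) ^ (2 * u) := by
      rw [hZ, hP1]
      exact hC (2 * u) n M (by omega) hM1 hM2
    calc ‖A.AA R M * (1 - Z) * W‖ ≤ ‖A.AA R M * (1 - Z)‖ * ‖W‖ := norm_mul_le _ _
      _ ≤ (Ch * (1 / 2) ^ (2 * u)) * ((1 + CN) * 2 ^ u) :=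
          mul_le_mul h1 hWn (norm_nonneg _) (by positivity)
      _ = (Ch * (1 + CN)) * ((1 / 2) ^ u * (2 ^ u * (1 / 2) ^ u)) := by ring
      _ = (Ch * (1 + CN)) * (1 / 2) ^ u := by rw [half_two, mul_one]
  -- one modulus
  have hone : ∀ d, 0 < d → d ≤ 2 ^ (a * (2 * u)) →
      ‖A.AA R M * A.Ph R ((c : ℕ) + 1) d P1 * W‖ ≤
        ((Cw + Co') * (1 + CN) + Cy) * (2 ^ u * (1 / 2) ^ (B * u)) := by
    intro d hd hdQ
    obtain ⟨P, hP⟩ : ∃ P : H →L[ℂ] H, P = A.Ph R ((c : ℕ) + 1) d P1 := ⟨_, rfl⟩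
    rw [← hP]
    have hdec : A.AA R M * P * W = A.AA R M * (1 - F) * P * W + A.AA R M * (F * P - P * F) * W +
        A.AA R M * (P * F * W) := by
      noncomm_ring
    have g1 : ‖A.AA R M * (1 - F) * P‖ ≤ Cw * (1 / 2) ^ (B * u) := by
      rw [hP, hF]
      refine (hW u n M d P1 (by omega) hM1 hM2 hd ?_ (by omega) (by omega)).1
      refine hdQ.trans (Nat.pow_le_pow_right (by norm_num) ?_)
      omega
    have g2 : ‖F * P - P * F‖ ≤ Co' * (1 / 2) ^ (B * u) := by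
      have k1 : A.Loc R 1 (n - b' * u) (4 ^ (a' * u)) F := loc_fo c le_rfl _
      have k2 : A.P0 * d ≤ 2 ^ P1 := by
        calc A.P0 * d ≤ 2 ^ p0 * 2 ^ (a * (2 * u)) := Nat.mul_le_mul hp0 hdQ
          _ = 2 ^ (p0 + a * (2 * u)) := (pow_add _ _ _).symm
          _ ≤ 2 ^ P1 := Nat.pow_le_pow_right (by norm_num) (by omega)
      have k3 := hcomm ((c : ℕ) + 1) d P1 (n - b' * u) ((2 * a' + B) * u) 1 (4 ^ (a' * u)) F hd k2
        (by omega) k1
      rw [← hP] at k3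
      refine k3.trans (le_of_eq ?_)
      have k4 : (2 * a' + B) * u = 2 * (a' * u) + B * u := by ring
      rw [k4, pow_add]
      have k5 := half_four (a' * u)
      push_cast
      calc (Co' : ℝ) * 1 * 4 ^ (a' * u) * ((1 / 2) ^ (2 * (a' * u)) * (1 / 2) ^ (B * u))
          = Co' * (4 ^ (a' * u) * (1 / 2) ^ (2 * (a' * u))) * (1 / 2) ^ (B * u) := by ring
        _ = Co' * (1 / 2) ^ (B * u) := by rw [k5, mul_one]
    have g3 : ‖P * F * W‖ ≤ Cy * (1 / 2) ^ (B * u) := by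
      have k1 : ‖P * F * W‖ ≤ ((2 ^ (a' * u) : ℕ) : ℝ) ^ 2 *
          (Cy * (1 / 2) ^ ((B + 2 * a') * u)) := by
        rw [hF]
        unfold fo
        apply norm_dsum (fun d1 => A.Cc R c d1 (n - b' * u)) P W (2 ^ (a' * u)) (by positivity)
        intro d1 hd1 hd1Q
        rw [hP, hWdef]
        refine hy c d d1 (as * u) P1 (n - b' * u) (n - bs * u) ((B + 2 * a') * u) hd hd1 ?_
          (by omega) (by omega) (by omega)
        calc d * d1 ≤ 2 ^ (a * (2 * u)) * 2 ^ (a' * u) := Nat.mul_le_mul hdQ hd1Q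
          _ = 2 ^ (as * u) := by rw [← pow_add, e11, e13]
      refine k1.trans (le_of_eq ?_)
      have k4 : (B + 2 * a') * u = 2 * (a' * u) + B * u := by ring
      rw [k4, pow_add]
      push_cast
      have k5 := half_two (2 * (a' * u))
      have k6 : ((2 : ℝ) ^ (a' * u)) ^ 2 = 2 ^ (2 * (a' * u)) := by
        rw [← pow_mul]
        congr 1
        ring
      rw [k6]
      calc (2 : ℝ) ^ (2 * (a' * u)) * (Cy * ((1 / 2) ^ (2 * (a' * u)) * (1 / 2) ^ (B * u)))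
          = Cy * (2 ^ (2 * (a' * u)) * (1 / 2) ^ (2 * (a' * u))) * (1 / 2) ^ (B * u) := by ring
        _ = Cy * (1 / 2) ^ (B * u) := by rw [k5, mul_one]
    have hq : (0 : ℝ) ≤ (1 / 2) ^ (B * u) := by positivity
    calc ‖A.AA R M * P * W‖
        = ‖A.AA R M * (1 - F) * P * W + A.AA R M * (F * P - P * F) * W +
          A.AA R M * (P * F * W)‖ := by rw [hdec]
      _ ≤ ‖A.AA R M * (1 - F) * P * W‖ + ‖A.AA R M * (F * P - P * F) * W‖ +
          ‖A.AA R M * (P * F * W)‖ := norm_add₃_le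
      _ ≤ (Cw * (1 / 2) ^ (B * u)) * ((1 + CN) * 2 ^ u) +
          1 * (Co' * (1 / 2) ^ (B * u)) * ((1 + CN) * 2 ^ u) +
          1 * (Cy * (1 / 2) ^ (B * u)) := by
          apply add_le_add (add_le_add _ _) _
          · exact (norm_mul_le _ _).trans (mul_le_mul g1 hWn (norm_nonneg _) (by positivity))
          · exact mul3_le hAn g2 hWn zero_le_one (by positivity)
          · exact (norm_mul_le _ _).trans (mul_le_mul hAn g3 (norm_nonneg _) zero_le_one)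
      _ ≤ ((Cw + Co') * (1 + CN) + Cy) * (2 ^ u * (1 / 2) ^ (B * u)) := by
          have k7 : (Cy : ℝ) * (1 / 2) ^ (B * u) ≤ Cy * (2 ^ u * (1 / 2) ^ (B * u)) := by
            apply mul_le_mul_of_nonneg_left _ (Nat.cast_nonneg _)
            nlinarith
          linarith
  -- the second part
  have hsecond : ‖A.AA R M * Z * W‖ ≤ ((Cw + Co') * (1 + CN) + Cy) * (1 / 2) ^ u := by
    have k1 : ‖A.AA R M * Z * W‖ ≤ ((2 ^ (a * (2 * u)) : ℕ) : ℝ) ^ 2 *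
        (((Cw + Co') * (1 + CN) + Cy) * (2 ^ u * (1 / 2) ^ (B * u))) := by
      rw [hZ]
      unfold Pi FF
      exact norm_dsum (fun d => A.Ph R ((c : ℕ) + 1) d P1) (A.AA R M) W (2 ^ (a * (2 * u)))
        (by positivity) hone
    refine k1.trans ?_
    have k2 : (((2 ^ (a * (2 * u)) : ℕ) : ℝ) ^ 2) = 2 ^ (4 * (a * u)) := by
      push_cast
      rw [← pow_mul]
      congr 1
      ring
    have k3 : ((1 : ℝ) / 2) ^ (B * u) = (1 / 2) ^ (4 * (a * u)) * ((1 / 2) ^ u *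
        (1 / 2) ^ (4 * (b * u) + 7 * u)) := by
      rw [← pow_add, ← pow_add]
      congr 1
      omega
    have k4 : ((1 : ℝ) / 2) ^ (4 * (b * u) + 7 * u) ≤ (1 / 2) ^ u :=
      pow_le_pow_of_le_one (by norm_num) (by norm_num) (by omega)
    rw [k2, k3]
    have k5 := half_two (4 * (a * u))
    have k6 := half_two u
    calc (2 : ℝ) ^ (4 * (a * u)) * (((Cw + Co') * (1 + CN) + Cy) *
          (2 ^ u * ((1 / 2) ^ (4 * (a * u)) * ((1 / 2) ^ u * (1 / 2) ^ (4 * (b * u) + 7 * u)))))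
        = ((Cw + Co') * (1 + CN) + Cy) * (2 ^ (4 * (a * u)) * (1 / 2) ^ (4 * (a * u))) *
          (2 ^ u * (1 / 2) ^ u) * (1 / 2) ^ (4 * (b * u) + 7 * u) := by ring
      _ = ((Cw + Co') * (1 + CN) + Cy) * (1 / 2) ^ (4 * (b * u) + 7 * u) := by
          rw [k5, k6, mul_one, mul_one]
      _ ≤ ((Cw + Co') * (1 + CN) + Cy) * (1 / 2) ^ u :=
          mul_le_mul_of_nonneg_left k4 (by positivity)
  have hdec : A.AA R M * W = A.AA R M * (1 - Z) * W + A.AA R M * Z * W := by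
    noncomm_ring
  calc ‖A.AA R M * W‖ = ‖A.AA R M * (1 - Z) * W + A.AA R M * Z * W‖ := by rw [hdec]
    _ ≤ ‖A.AA R M * (1 - Z) * W‖ + ‖A.AA R M * Z * W‖ := norm_add_le _ _
    _ ≤ (Ch * (1 + CN)) * (1 / 2) ^ u + ((Cw + Co') * (1 + CN) + Cy) * (1 / 2) ^ u :=
        add_le_add hfirst hsecond
    _ ≤ ((Ch * (1 + CN) + ((Cw + Co') * (1 + CN) + Cy) + 2 : ℕ) : ℝ) * (1 / 2) ^ u := by
        push_cast
        have : (0 : ℝ) ≤ (1 / 2) ^ u := by positivity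
        linarith

theorem cp_all {A : Dat G} (hA : A.Ok) (R : Rep G H) (c0 : ℕ) : A.CP R c0 := by
  have key : ∀ j : ℕ, ∀ c0 : ℕ, A.D ≤ c0 + j → A.CP R c0 := by
    intro j
    induction j with
    | zero => exact fun c0 h => cp_top A R (by omega)
    | succ j ih =>
      intro c0 h
      by_cases hc : c0 < A.D
      · exact cp_step hA R ⟨c0, hc⟩ (ih (c0 + 1) (by omega))
      · exact cp_top A R (by omega)
  exact key A.D c0 (by omega)

end Dat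

end Pool.Agent.Lib.Npw
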