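import Pool.Agent.Lib.Npw.AbsS

/-!
# NPW (B4): absorption for arbitrary moduli, four forms

`g = gcd d d'`, `d, d' ≤ 2^v`, gaps `E (v + t)`. With `T = Ph c0 d n` (`‖T‖ ≤ 1`, `RI c0 d (n' + D C1) (C (1/2)^t)` by `inv_right`):
1. `T * Ph c0 d' n' ≈ T * Ph c0 g n'` (`res`; `d d' (1/2)^n' ≤ 2^(2v) (1/2)^n' ≤ (1/2)^t`) `≈ Ph c0 g n` (`abs_dvd`).
3. `T * star (Ph c0 d' n') ≈ T * star (Ph c0 g n') ≈ Ph c0 g n` (`res`, `abs_star`).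
2., 4. `Ph c0 d' n'` and its adjoint are local (`loc_Ph`, `Loc.star`) of scale `n'` and commute with `Ph c0 d n` up to `C D (1/2)^t` (`comm_loc`).
-/

set_option autoImplicit false

open Finset

namespace Pool.Agent.Lib.Npw

variable {G H : Type} [Group G] [NormedAddCommGroup H] [InnerProductSpace ℂ H] [CompleteSpace H]

namespace Dat

theorem abs4 {A : Dat G} (hA : A.Ok) (R : Rep G H) : ∃ C E : ℕ, ∀ c0 d d' v n n' t : ℕ, 0 < d →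
    0 < d' → d ≤ 2 ^ v → d' ≤ 2 ^ v → n' + E * (v + t) ≤ n → E * (v + t + 1) ≤ n' →
    ‖A.Ph R c0 d n * A.Ph R c0 d' n' - A.Ph R c0 (Nat.gcd d d') n‖ ≤ C * (1 / 2) ^ t ∧
    ‖A.Ph R c0 d' n' * A.Ph R c0 d n - A.Ph R c0 (Nat.gcd d d') n‖ ≤ C * (1 / 2) ^ t ∧
    ‖A.Ph R c0 d n * star (A.Ph R c0 d' n') - A.Ph R c0 (Nat.gcd d d') n‖ ≤ C * (1 / 2) ^ t ∧
    ‖star (A.Ph R c0 d' n') * A.Ph R c0 d n - A.Ph R c0 (Nat.gcd d d') n‖ ≤ C * (1 / 2) ^ t := by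
  obtain ⟨Ca, Ea, hinv⟩ := inv_right hA R
  obtain ⟨Cb, Eb, hcom⟩ := comm_loc hA R
  obtain ⟨Cc', hres⟩ := res hA R
  obtain ⟨Cd, Ed, hdvd⟩ := abs_dvd hA R
  obtain ⟨Ce, Ee, hstar⟩ := abs_star hA R
  refine ⟨2 + Cc' * (Ca + 1) + 2 * Cd + Ce + Cb * A.D,
    A.P0 + 2 + A.D * A.C1 + Ea + Eb + Ed + Ee, ?_⟩
  intro c0 d d' v n n' t hd hd' hdv hdv' h1 h2
  set E := A.P0 + 2 + A.D * A.C1 + Ea + Eb + Ed + Ee with hE
  set g := Nat.gcd d d' with hg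
  have hg0 : 0 < g := Nat.gcd_pos_of_pos_left _ hd
  have hgd : g ∣ d := Nat.gcd_dvd_left _ _
  have nP : ∀ q m, ‖A.Ph R c0 q m‖ ≤ 1 := fun q m => A.norm_Ph_le R c0 q m
  have nS : ∀ q m, ‖star (A.Ph R c0 q m)‖ ≤ 1 := fun q m => by rw [norm_star]; exact nP q m
  have triv : ∀ X Y Z : H →L[ℂ] H, ‖X‖ ≤ 1 → ‖Y‖ ≤ 1 → ‖Z‖ ≤ 1 → ‖X * Y - Z‖ ≤ 2 := by
    intro X Y Z hX hY hZ
    calc ‖X * Y - Z‖ ≤ ‖X * Y‖ + ‖Z‖ := norm_sub_le _ _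
      _ ≤ ‖X‖ * ‖Y‖ + ‖Z‖ := by gcongr; exact norm_mul_le _ _
      _ ≤ 1 * 1 + 1 := by gcongr
      _ = 2 := by norm_num
  rcases Nat.eq_zero_or_pos t with ht | ht
  · subst ht
    have hC : (2 : ℝ) ≤ ((2 + Cc' * (Ca + 1) + 2 * Cd + Ce + Cb * A.D : ℕ) : ℝ) * (1 / 2) ^ 0 := by
      have : (2 : ℕ) ≤ 2 + Cc' * (Ca + 1) + 2 * Cd + Ce + Cb * A.D := by
        have := Nat.zero_le (Cc' * (Ca + 1))
        have := Nat.zero_le (Cb * A.D)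
        omega
      have h' : (2 : ℝ) ≤ ((2 + Cc' * (Ca + 1) + 2 * Cd + Ce + Cb * A.D : ℕ) : ℝ) := by
        exact_mod_cast this
      simpa using h'
    exact ⟨(triv _ _ _ (nP _ _) (nP _ _) (nP _ _)).trans hC,
      (triv _ _ _ (nP _ _) (nP _ _) (nP _ _)).trans hC,
      (triv _ _ _ (nP _ _) (nS _ _) (nP _ _)).trans hC,
      (triv _ _ _ (nS _ _) (nP _ _) (nP _ _)).trans hC⟩
  · -- numerical facts
    have hEt : E * (v + t) = (A.P0 + 2) * (v + t) + A.D * A.C1 * (v + t) + Ea * (v + t)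
        + Eb * (v + t) + Ed * (v + t) + Ee * (v + t) := by rw [hE]; ring
    have hEt1 : E * (v + t + 1) = (A.P0 + 2) * (v + t + 1) + A.D * A.C1 * (v + t + 1)
        + Ea * (v + t + 1) + Eb * (v + t + 1) + Ed * (v + t + 1) + Ee * (v + t + 1) := by
      rw [hE]; ring
    have m1 : ∀ a : ℕ, a * t ≤ a * (v + t) := fun a => Nat.mul_le_mul_left _ (by omega)
    have m2 : A.D * A.C1 ≤ A.D * A.C1 * (v + t) := Nat.le_mul_of_pos_right _ (by omega)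
    have m3 : A.P0 + 2 ≤ (A.P0 + 2) * (v + t + 1) := Nat.le_mul_of_pos_right _ (by omega)
    have m4 : (A.P0 + 2) * (v + t + 1) = A.P0 * (v + t) + 2 * (v + t) + (A.P0 + 2) := by ring
    have hn1 : (n' + A.D * A.C1) + Ea * t ≤ n := by
      have := m1 Ea
      omega
    have hn2 : n' + Eb * t ≤ n := by
      have := m1 Eb
      omega
    have hn3 : n' + Ed * t ≤ n := by
      have := m1 Ed
      omega
    have hn4 : n' + Ee * (v + t) ≤ n := by omega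
    have hn5 : Ee * (v + t + 1) ≤ n' := by omega
    have hn6 : A.P0 + v ≤ n' := by omega
    have hn7 : 2 * v + t ≤ n' := by omega
    have hnn : n' ≤ n := by omega
    have hP0 : A.P0 * d ≤ 2 ^ n' := by
      calc A.P0 * d ≤ 2 ^ A.P0 * 2 ^ v := Nat.mul_le_mul (Nat.lt_two_pow_self).le hdv
        _ = 2 ^ (A.P0 + v) := (pow_add _ _ _).symm
        _ ≤ 2 ^ n' := Nat.pow_le_pow_right (by norm_num) hn6
    have hP0n : A.P0 * d ≤ 2 ^ n := hP0.trans (Nat.pow_le_pow_right (by norm_num) hnn)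
    have hx0 : (0 : ℝ) ≤ (1 / 2) ^ t := by positivity
    have hpw : (2 : ℝ) ^ (2 * v) * (1 / 2) ^ n' ≤ (1 / 2) ^ t := by
      obtain ⟨s, hs⟩ := Nat.exists_eq_add_of_le hn7
      have e1 : (2 : ℝ) ^ (2 * v) * (1 / 2) ^ (2 * v) = 1 := by
        rw [← mul_pow]; norm_num
      calc (2 : ℝ) ^ (2 * v) * (1 / 2) ^ n'
          = ((2 : ℝ) ^ (2 * v) * (1 / 2) ^ (2 * v)) * ((1 / 2) ^ t * (1 / 2) ^ s) := by
            rw [hs, pow_add, pow_add]; ring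
        _ = (1 / 2) ^ t * (1 / 2) ^ s := by rw [e1, one_mul]
        _ ≤ (1 / 2) ^ t * 1 := by
            apply mul_le_mul_of_nonneg_left _ hx0
            exact pow_le_one₀ (by norm_num) (by norm_num)
        _ = (1 / 2) ^ t := mul_one _
    have hdR : (d : ℝ) ≤ 2 ^ v := by exact_mod_cast hdv
    have hdR' : (d' : ℝ) ≤ 2 ^ v := by exact_mod_cast hdv'
    have hdd : (d : ℝ) * d' * (1 / 2) ^ n' ≤ (1 / 2) ^ t := by
      calc (d : ℝ) * d' * (1 / 2) ^ n' ≤ 2 ^ v * 2 ^ v * (1 / 2) ^ n' := by gcongr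
        _ = 2 ^ (2 * v) * (1 / 2) ^ n' := by rw [two_mul, pow_add]
        _ ≤ (1 / 2) ^ t := hpw
    have hd1 : (d : ℝ) * (1 / 2) ^ n' ≤ (1 / 2) ^ t := by
      calc (d : ℝ) * (1 / 2) ^ n' ≤ 2 ^ (2 * v) * (1 / 2) ^ n' := by
            gcongr
            calc (d : ℝ) ≤ 2 ^ v := hdR
              _ ≤ 2 ^ (2 * v) := pow_le_pow_right₀ (by norm_num) (by omega)
        _ ≤ (1 / 2) ^ t := hpw
    -- the steps
    have hRI := hinv c0 d n (n' + A.D * A.C1) t hd hP0n hn1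
    obtain ⟨r1, r2⟩ := hres c0 d d' n' _ (A.Ph R c0 d n) (by positivity) hd hd' hP0 (nP _ _) hRI
    have hCc : (0 : ℝ) ≤ Cc' := Nat.cast_nonneg _
    have hCd : (0 : ℝ) ≤ Cd := Nat.cast_nonneg _
    have hCe : (0 : ℝ) ≤ Ce := Nat.cast_nonneg _
    have hCbD : (0 : ℝ) ≤ (Cb : ℝ) * A.D := by positivity
    have hCa : (0 : ℝ) ≤ (Cc' : ℝ) * (Ca + 1) := by positivity
    have rb : (Cc' : ℝ) * (Ca * (1 / 2) ^ t + d * d' * (1 / 2) ^ n') ≤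
        Cc' * (Ca + 1) * (1 / 2) ^ t := by
      calc (Cc' : ℝ) * (Ca * (1 / 2) ^ t + d * d' * (1 / 2) ^ n')
          ≤ Cc' * (Ca * (1 / 2) ^ t + (1 / 2) ^ t) := by gcongr
        _ = Cc' * (Ca + 1) * (1 / 2) ^ t := by ring
    have q1 := hdvd c0 d g n n' t hg0 hd hgd hP0 hn3
    have q1' : ‖A.Ph R c0 d n * A.Ph R c0 g n' - A.Ph R c0 g n‖ ≤ 2 * Cd * (1 / 2) ^ t := by
      calc _ ≤ (Cd : ℝ) * ((1 / 2) ^ t + d * (1 / 2) ^ n') := q1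
        _ ≤ Cd * ((1 / 2) ^ t + (1 / 2) ^ t) := by gcongr
        _ = 2 * Cd * (1 / 2) ^ t := by ring
    have q3 := hstar c0 d g v n n' t hg0 hd hgd hdv hn4 hn5
    have tri : ∀ X Y Z : H →L[ℂ] H, ∀ a b : ℝ, ‖X - Y‖ ≤ a → ‖Y - Z‖ ≤ b → ‖X - Z‖ ≤ a + b := by
      intro X Y Z a b h h'
      calc ‖X - Z‖ = ‖(X - Y) + (Y - Z)‖ := by rw [sub_add_sub_cancel]
        _ ≤ ‖X - Y‖ + ‖Y - Z‖ := norm_add_le _ _
        _ ≤ a + b := add_le_add h h'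
    have p1 := tri _ _ _ _ _ (r1.trans rb) q1'
    have p3 := tri _ _ _ _ _ (r2.trans rb) q3
    have c1 := hcom c0 d n n' t A.D 1 (A.Ph R c0 d' n') hd hP0n hn2 (loc_Ph c0 d' n')
    have c2 := hcom c0 d n n' t A.D 1 (star (A.Ph R c0 d' n')) hd hP0n hn2 (loc_Ph c0 d' n').star
    have p2 := tri _ _ _ _ _ c1 p1
    have p4 := tri _ _ _ _ _ c2 p3
    have hsum : ((2 + Cc' * (Ca + 1) + 2 * Cd + Ce + Cb * A.D : ℕ) : ℝ) * (1 / 2) ^ t =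
        2 * (1 / 2) ^ t + Cc' * (Ca + 1) * (1 / 2) ^ t + 2 * Cd * (1 / 2) ^ t + Ce * (1 / 2) ^ t +
          Cb * A.D * (1 / 2) ^ t := by
      push_cast
      ring
    have n1 : (0 : ℝ) ≤ Cc' * (Ca + 1) * (1 / 2) ^ t := by positivity
    have n2 : (0 : ℝ) ≤ 2 * Cd * (1 / 2) ^ t := by positivity
    have n3 : (0 : ℝ) ≤ Ce * (1 / 2) ^ t := by positivity
    have n4 : (0 : ℝ) ≤ Cb * A.D * (1 / 2) ^ t := by positivity
    have e4 : (Cb : ℝ) * A.D * 1 * (1 / 2) ^ t = Cb * A.D * (1 / 2) ^ t := by ring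
    rw [hsum]
    refine ⟨?_, ?_, ?_, ?_⟩ <;> linarith

end Dat

end Pool.Agent.Lib.Npw
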