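import Pool.Agent.Lib.Npw.Com
import Pool.Agent.Lib.Npw.Cyc

/-!
# NPW (B6): absorption, `g ∣ d`

`swap`: for `c < D`, `P0 d ≤ 2^n'`, `n' + E t ≤ n`: `‖Ph (c+1) d n * (Cc c d n * Ph (c+1) g n' - Ph (c+1) g n' * Cc c d n)‖ ≤ C (1/2)^t`.
Proof: move `U(u)`, `u = z_c^(K d m)` (`|K d m| ≤ 2^(n w)`), through the factors `Cc j g n'`, `j = D-1, ..., c+1`, of `Ph (c+1) g n'`: with
`T_j = Ph (c+1) d n * (product of the previous factors)` we have for `v = z_j^(K g m')`, `|K g m'| ≤ 2^(n' w)`: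
`T_j U(u) U(v) = T_j U(⁅u, v⁆) U(v) U(u)`, and by (A1) (first exponent divisible by `K d`, second one small; `m = n`, sizes `n`, `n'`,
`n' + J t' ≤ n`) `⁅u,v⁆ ∈ BN C1 (c+1) d (n + C1 - t')`. `T_j` is right invariant: `Ph (c+1) d n` is
`RI (c+1) d (n - E' t) (C' (1/2)^t)` (`inv_right`), and the previous factors are local of scale `n'` with `N ≤ D`; use
`RI.mul_loc` with `x := n + C1 - t'` (`≥ n'`, so `P0 d ≤ 2^x`) and `x' := n - E' t ≥ x + D C1`, i.e. `t' = C1 + D C1 + E' t`.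
(E.g. state it for `j` from `c+1` to `D`: `‖T Ph' ...‖` with the product `PhR`-style, or generalise over `T`: if `T` is `RI (c+1) d ..`
then `‖T U(u) Ph j g n' - T Ph j g n' U(u)‖` small for all `j ≥ c+1`, induction on `D - j` using
`Ph j = Ph (j+1) Cc j` and `T := T * Ph (j+1) g n'`.)
`abs_dvd`: downward induction on `c0`: `Ph c d n * Ph c g n' = Ph (c+1) d n Cc c d n Ph (c+1) g n' Cc c g n'
≈ Ph (c+1) d n Ph (c+1) g n' Cc c d n Cc c g n' ≈ Ph (c+1) g n Cc c g n` (induction and `cyc`).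
-/

set_option autoImplicit false

open Finset
open scoped commutatorElement

namespace Pool.Agent.Lib.Npw

variable {G H : Type} [Group G] [NormedAddCommGroup H] [InnerProductSpace ℂ H] [CompleteSpace H]

namespace Dat

namespace AbsDAux

theorem norm_mul_U_le (R : Rep G H) (T : H →L[ℂ] H) (g : G) : ‖T * R.U g‖ ≤ ‖T‖ := by
  refine (norm_mul_le _ _).trans ?_
  calc ‖T‖ * ‖R.U g‖ ≤ ‖T‖ * 1 := mul_le_mul_of_nonneg_left (R.norm_le g) (norm_nonneg _)
    _ = ‖T‖ := mul_one _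

/-- moving a large cyclic element through the factors of `Ph j g n'` -/
theorem swapU {A : Dat G} (hA : A.Ok) (R : Rep G H) {c d g n n' t' x' : ℕ} {δ : ℝ}
    {T : H →L[ℂ] H} (h : c < A.D) (hd : 0 < d) (hδ : 0 ≤ δ)
    (hT : A.RI R (c + 1) d x' δ T) (hn' : A.P0 * d ≤ 2 ^ n') (hnn : n' + A.J * t' ≤ n)
    (hx : n + A.C1 - t' + A.D * A.C1 ≤ x') (hx2 : n' ≤ n + A.C1 - t') {m : ℕ}
    (hm : m < A.ll ⟨c, h⟩ d n) :
    ∀ i j : ℕ, A.D - j = i → c + 1 ≤ j →
      ‖T * R.U (A.z ⟨c, h⟩ ^ (A.K ⟨c, h⟩ * d * m)) * A.Ph R j g n' -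
        T * A.Ph R j g n' * R.U (A.z ⟨c, h⟩ ^ (A.K ⟨c, h⟩ * d * m))‖ ≤
        i * (A.C1 * (((A.C1 + 1) ^ A.D : ℕ) * δ)) := by
  intro i
  induction i with
  | zero =>
    intro j hj _
    rw [Ph_top A R (by omega), mul_one, mul_one, sub_self, norm_zero]
    simp
  | succ i ih =>
    intro j hj hcj
    have hlt : j < A.D := by omega
    have h1 := ih (j + 1) (by omega) (by omega)
    rw [Ph_succ A R hlt]
    set u := A.z ⟨c, h⟩ ^ (A.K ⟨c, h⟩ * d * m) with hu
    set P := A.Ph R (j + 1) g n' with hP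
    set Q := A.Cc R ⟨j, hlt⟩ g n' with hQ
    have hnn' : n' ≤ n := by omega
    have hdn : A.P0 * d ≤ 2 ^ n := hn'.trans (Nat.pow_le_pow_right (by norm_num) hnn')
    have hdx : A.P0 * d ≤ 2 ^ (n + A.C1 - t') := hn'.trans (Nat.pow_le_pow_right (by norm_num) hx2)
    have hloc : A.Loc R A.D (n + A.C1 - t') 1 P :=
      (loc_Ph (A := A) (R := R) (j + 1) g n').mono le_rfl hx2 le_rfl
    have hRI := hT.mul_loc hA hd hloc hdx hx
    rw [mul_one] at hRI
    have h2 : T * R.U u * (P * Q) - T * (P * Q) * R.U u =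
        (T * R.U u * P - T * P * R.U u) * Q + (T * P * R.U u * Q - T * P * (Q * R.U u)) := by
      simp only [sub_mul, mul_assoc]
      abel
    have h3 : ‖(T * R.U u * P - T * P * R.U u) * Q‖ ≤
        i * (A.C1 * (((A.C1 + 1) ^ A.D : ℕ) * δ)) := by
      refine (norm_mul_le _ _).trans ?_
      calc ‖T * R.U u * P - T * P * R.U u‖ * ‖Q‖ ≤ ‖T * R.U u * P - T * P * R.U u‖ * 1 :=
            mul_le_mul_of_nonneg_left (norm_Cc_le A R _ _ _) (norm_nonneg _)
        _ ≤ _ := by rw [mul_one]; exact h1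
    have h4 : ‖T * P * R.U u * Q - T * P * (Q * R.U u)‖ ≤
        A.C1 * (((A.C1 + 1) ^ A.D : ℕ) * δ) := by
      rw [hQ]
      unfold Cc
      rw [avg_mul, mul_avg, mul_avg]
      refine norm_avg_sub_le (by positivity) ?_
      intro m' hm'
      set v := A.z ⟨j, hlt⟩ ^ (A.K ⟨j, hlt⟩ * g * m') with hv
      have hmem : ⁅u, v⁆ ∈ A.BN A.C1 (c + 1) d (n + A.C1 - t') := by
        have a1 : |((A.K ⟨c, h⟩ * d * m : ℕ) : ℤ)| ≤ 2 ^ (n * A.w ⟨c, h⟩) := by
          rw [abs_of_nonneg (Int.natCast_nonneg _)]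
          exact_mod_cast Kq_mul_le A hm
        have a2 : |((A.K ⟨j, hlt⟩ * g * m' : ℕ) : ℤ)| ≤ 2 ^ (n' * A.w ⟨j, hlt⟩) := by
          rw [abs_of_nonneg (Int.natCast_nonneg _)]
          exact_mod_cast Kq_mul_le A hm'
        have a3 : ((A.K ⟨c, h⟩ * d : ℕ) : ℤ) ∣ ((A.K ⟨c, h⟩ * d * m : ℕ) : ℤ) := by
          rw [Int.natCast_dvd_natCast]
          exact Dvd.intro _ rfl
        have a4 := hA.A1 ⟨c, h⟩ ⟨j, hlt⟩ ((A.K ⟨c, h⟩ * d * m : ℕ) : ℤ)
          ((A.K ⟨j, hlt⟩ * g * m' : ℕ) : ℤ) d n n' n t' hd a1 a2 (Or.inl a3) hdn le_rfl hnn'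
          (Or.inr hnn)
        rw [zpow_natCast, zpow_natCast] at a4
        exact A.BN_mono le_rfl (Nat.succ_le_succ (le_max_left _ _)) dvd_rfl le_rfl a4
      have h6 := hRI.BN (by positivity) hmem
      have h7 : T * P * R.U u * R.U v - T * P * (R.U v * R.U u) =
          (T * P * R.U ⁅u, v⁆ - T * P) * R.U (v * u) := by
        rw [sub_mul, mul_assoc (T * P) (R.U ⁅u, v⁆), ← map_mul, mul_assoc (T * P) (R.U u),
          ← map_mul, ← map_mul]
        congr 3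
        rw [commutatorElement_def]
        group
      rw [h7]
      exact (norm_mul_U_le R _ _).trans h6
    rw [h2]
    refine (norm_add_le _ _).trans ?_
    push_cast at h3 h4 ⊢
    linarith

end AbsDAux

open AbsDAux

theorem abs_dvd {A : Dat G} (hA : A.Ok) (R : Rep G H) : ∃ C E : ℕ, ∀ c0 d g n n' t : ℕ, 0 < g →
    0 < d → g ∣ d → A.P0 * d ≤ 2 ^ n' → n' + E * t ≤ n →
    ‖A.Ph R c0 d n * A.Ph R c0 g n' - A.Ph R c0 g n‖ ≤ C * ((1 / 2) ^ t + d * (1 / 2) ^ n') := by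
  obtain ⟨C', E', hinv⟩ := inv_right hA R
  obtain ⟨C2, hcyc⟩ := cyc A R
  refine ⟨2 + A.D * (A.D * (A.C1 * ((A.C1 + 1) ^ A.D * C')) + C2),
    A.J * (A.C1 + A.D * A.C1 + E') + A.D * A.C1 + E' + 1, ?_⟩
  intro c0 d g n n' t hg hd hgd hn' hn
  have hd0 : (0 : ℝ) ≤ (d : ℝ) * (1 / 2) ^ n' := by positivity
  rcases Nat.eq_zero_or_pos t with rfl | ht
  · have h1 : ‖A.Ph R c0 d n * A.Ph R c0 g n' - A.Ph R c0 g n‖ ≤ 2 := by
      refine (norm_sub_le _ _).trans ?_
      have h2 : ‖A.Ph R c0 d n * A.Ph R c0 g n'‖ ≤ 1 := by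
        refine (norm_mul_le _ _).trans ?_
        have a1 := norm_Ph_le A R c0 d n
        have a2 := norm_Ph_le A R c0 g n'
        calc ‖A.Ph R c0 d n‖ * ‖A.Ph R c0 g n'‖ ≤ 1 * 1 :=
              mul_le_mul a1 a2 (norm_nonneg _) zero_le_one
          _ = 1 := one_mul _
      have h3 := norm_Ph_le A R c0 g n
      linarith
    refine h1.trans ?_
    rw [pow_zero]
    have h2 : (2 : ℝ) ≤ ((2 + A.D * (A.D * (A.C1 * ((A.C1 + 1) ^ A.D * C')) + C2) : ℕ) : ℝ) := by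
      exact_mod_cast Nat.le_add_right _ _
    nlinarith
  · have e1 : (A.J * (A.C1 + A.D * A.C1 + E') + A.D * A.C1 + E' + 1) * t =
        A.J * (A.C1 + A.D * A.C1) * t + A.J * (E' * t) + A.D * A.C1 * t + E' * t + t := by ring
    have e2 : A.J * (A.C1 + A.D * A.C1) ≤ A.J * (A.C1 + A.D * A.C1) * t :=
      Nat.le_mul_of_pos_right _ ht
    have e3 : A.D * A.C1 ≤ A.D * A.C1 * t := Nat.le_mul_of_pos_right _ ht
    have e4 : A.J * (A.C1 + A.D * A.C1 + E' * t) =
        A.J * (A.C1 + A.D * A.C1) + A.J * (E' * t) := by ring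
    have hnn : n' + A.J * (A.C1 + A.D * A.C1 + E' * t) ≤ n := by omega
    have key : ∀ j c0 : ℕ, A.D - c0 = j →
        ‖A.Ph R c0 d n * A.Ph R c0 g n' - A.Ph R c0 g n‖ ≤
          j * ((A.D * (A.C1 * (((A.C1 + 1) ^ A.D : ℕ) * C')) + C2) *
            ((1 / 2) ^ t + d * (1 / 2) ^ n')) := by
      intro j
      induction j with
      | zero =>
        intro c0 hc0
        rw [Ph_top A R (by omega), Ph_top A R (by omega), Ph_top A R (by omega), mul_one, sub_self,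
          norm_zero]
        simp
      | succ j ih =>
        intro c0 hc0
        have hlt : c0 < A.D := by omega
        have h1 := ih (c0 + 1) (by omega)
        rw [Ph_succ A R hlt d n, Ph_succ A R hlt g n', Ph_succ A R hlt g n]
        have hRI := hinv (c0 + 1) d n (n - E' * t) t hd
          (hn'.trans (Nat.pow_le_pow_right (by norm_num) (by omega))) (by omega)
        have hsw : ‖A.Ph R (c0 + 1) d n * A.Cc R ⟨c0, hlt⟩ d n * A.Ph R (c0 + 1) g n' -
            A.Ph R (c0 + 1) d n * A.Ph R (c0 + 1) g n' * A.Cc R ⟨c0, hlt⟩ d n‖ ≤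
            A.D * (A.C1 * (((A.C1 + 1) ^ A.D : ℕ) * (C' * (1 / 2) ^ t))) := by
          unfold Cc
          rw [mul_avg, avg_mul, mul_avg]
          refine norm_avg_sub_le (by positivity) ?_
          intro m hm
          have h2 := swapU hA R (g := g) (t' := A.C1 + A.D * A.C1 + E' * t) hlt hd
            (by positivity) hRI hn' hnn (by omega) (by omega) hm (A.D - (c0 + 1)) (c0 + 1) rfl
            le_rfl
          refine h2.trans ?_
          apply mul_le_mul_of_nonneg_right _ (by positivity)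
          exact_mod_cast Nat.sub_le _ _
        have hcy := hcyc ⟨c0, hlt⟩ d g n n' t hg hd hgd (by omega)
        set P := A.Ph R (c0 + 1) d n with hP
        set Q := A.Cc R ⟨c0, hlt⟩ d n with hQ
        set P' := A.Ph R (c0 + 1) g n' with hP'
        set Q' := A.Cc R ⟨c0, hlt⟩ g n' with hQ'
        set P2 := A.Ph R (c0 + 1) g n with hP2
        set Q2 := A.Cc R ⟨c0, hlt⟩ g n with hQ2
        have h3 : P * Q * (P' * Q') - P2 * Q2 =
            (P * Q * P' - P * P' * Q) * Q' + ((P * P' - P2) * (Q * Q') + P2 * (Q * Q' - Q2)) := by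
          simp only [sub_mul, mul_sub, mul_assoc]
          abel
        rw [h3]
        have hQn : ‖Q‖ ≤ 1 := norm_Cc_le A R _ _ _
        have hQn' : ‖Q'‖ ≤ 1 := norm_Cc_le A R _ _ _
        have hP2n : ‖P2‖ ≤ 1 := norm_Ph_le A R _ _ _
        have hQQ : ‖Q * Q'‖ ≤ 1 := by
          refine (norm_mul_le _ _).trans ?_
          calc ‖Q‖ * ‖Q'‖ ≤ 1 * 1 := mul_le_mul hQn hQn' (norm_nonneg _) zero_le_one
            _ = 1 := one_mul _
        have h4 : ‖(P * Q * P' - P * P' * Q) * Q'‖ ≤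
            A.D * (A.C1 * (((A.C1 + 1) ^ A.D : ℕ) * (C' * (1 / 2) ^ t))) := by
          refine (norm_mul_le _ _).trans ?_
          calc ‖P * Q * P' - P * P' * Q‖ * ‖Q'‖ ≤ ‖P * Q * P' - P * P' * Q‖ * 1 :=
                mul_le_mul_of_nonneg_left hQn' (norm_nonneg _)
            _ ≤ _ := by rw [mul_one]; exact hsw
        have h5 : ‖(P * P' - P2) * (Q * Q')‖ ≤
            j * ((A.D * (A.C1 * (((A.C1 + 1) ^ A.D : ℕ) * C')) + C2) *
            ((1 / 2) ^ t + d * (1 / 2) ^ n')) := by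
          refine (norm_mul_le _ _).trans ?_
          calc ‖P * P' - P2‖ * ‖Q * Q'‖ ≤ ‖P * P' - P2‖ * 1 :=
                mul_le_mul_of_nonneg_left hQQ (norm_nonneg _)
            _ ≤ _ := by rw [mul_one]; exact h1
        have h6 : ‖P2 * (Q * Q' - Q2)‖ ≤ C2 * ((1 / 2) ^ t + d * (1 / 2) ^ n') := by
          refine (norm_mul_le _ _).trans ?_
          calc ‖P2‖ * ‖Q * Q' - Q2‖ ≤ 1 * ‖Q * Q' - Q2‖ :=
                mul_le_mul_of_nonneg_right hP2n (norm_nonneg _)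
            _ ≤ _ := by rw [one_mul]; exact hcy
        have h7 : (A.D : ℝ) * (A.C1 * (((A.C1 + 1) ^ A.D : ℕ) * (C' * (1 / 2) ^ t))) ≤
            A.D * (A.C1 * (((A.C1 + 1) ^ A.D : ℕ) * C')) * ((1 / 2) ^ t + d * (1 / 2) ^ n') := by
          have h8 : (0 : ℝ) ≤ A.D * (A.C1 * (((A.C1 + 1) ^ A.D : ℕ) * C')) := by positivity
          nlinarith
        refine (norm_add_le _ _).trans ((add_le_add h4 (norm_add_le _ _)).trans ?_)
        push_cast at h5 h6 h7 ⊢
        nlinarith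
    refine (key (A.D - c0) c0 rfl).trans ?_
    have h1 : ((A.D - c0 : ℕ) : ℝ) ≤ A.D := by exact_mod_cast Nat.sub_le _ _
    have h2 : (0 : ℝ) ≤ (A.D * (A.C1 * (((A.C1 + 1) ^ A.D : ℕ) * C')) + C2) *
            ((1 / 2) ^ t + d * (1 / 2) ^ n') := by positivity
    have h3 : (0 : ℝ) ≤ (1 / 2) ^ t + (d : ℝ) * (1 / 2) ^ n' := by positivity
    refine (mul_le_mul_of_nonneg_right h1 h2).trans ?_
    push_cast
    nlinarith

end Dat

end Pool.Agent.Lib.Npw
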