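import Pool.Agent.Lib.Npw.Defs

/-!
# NPW: the sets `Bx`, `BN`, `Sm`, `SmN`

All proofs are direct. `conj_BN`: for a single `y = z_c^e ∈ Bx c0 q x` and `v ∈ Sm x` one has
`v y v⁻¹ = ⁅v, y⁆ y` and `⁅v, y⁆ ∈ BN C1 (..) q (x + C1)` by (A1) (if `v` is a power of some `z_c'`; here
`m = x`, `t = 0`, the divisibility is that of the SECOND exponent) or by (A2); the index
`max c' c + 1` (resp. `c + 1`) is `≥ c0`. For products of `y`s multiply the conjugates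
(`v (∏ y_i) v⁻¹ = ∏ v y_i v⁻¹`). `conj_BN_SmN`: induction on the number of factors of `v`
(at each step the exponent grows by `C1`; use `Sm_mono`, `BN_mono` and `2^x ≤ 2^(x + ..)`).
-/

set_option autoImplicit false

open Finset
open scoped commutatorElement

namespace Pool.Agent.Lib.Npw

namespace Dat

variable {G : Type} [Group G] (A : Dat G)

theorem K_pos (c : Fin A.D) : 0 < A.K c := pow_pos (Nat.factorial_pos _) _

theorem P0_pos : 0 < A.P0 := pow_pos (Nat.factorial_pos _) _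

theorem K_dvd_P0 (c : Fin A.D) : A.K c ∣ A.P0 := pow_dvd_pow _ (Nat.sub_le _ _)

theorem K_mul_le (c : Fin A.D) (q : ℕ) : A.K c * q ≤ A.P0 * q :=
  Nat.mul_le_mul_right q (Nat.le_of_dvd A.P0_pos (A.K_dvd_P0 c))

theorem Bx_mono {c0 c0' q q' x x' : ℕ} (hc : c0' ≤ c0) (hq : q' ∣ q) (hx : x ≤ x') :
    A.Bx c0 q x ⊆ A.Bx c0' q' x' := by
  rintro g ⟨c, e, h1, h2, h3, h4⟩
  refine ⟨c, e, hc.trans h1, ?_, ?_, h4⟩
  · exact (Int.natCast_dvd_natCast.2 (Nat.mul_dvd_mul_left _ hq)).trans h2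
  · exact h3.trans (pow_le_pow_right₀ (by norm_num) (Nat.mul_le_mul_right _ hx))

theorem Bx_inv {c0 q x : ℕ} {g : G} (h : g ∈ A.Bx c0 q x) : g⁻¹ ∈ A.Bx c0 q x := by
  obtain ⟨c, e, h1, h2, h3, h4⟩ := h
  refine ⟨c, -e, h1, (dvd_neg).2 h2, by rwa [abs_neg], ?_⟩
  rw [h4, zpow_neg]

theorem Bx_top {c0 q x : ℕ} (h : A.D ≤ c0) : A.Bx c0 q x = ∅ := by
  rw [Set.eq_empty_iff_forall_notMem]
  rintro g ⟨c, e, h1, -⟩
  have := c.isLt
  omega

theorem Bx_sub_Sm (c0 q x : ℕ) : A.Bx c0 q x ⊆ A.Sm x := by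
  rintro g ⟨c, e, -, -, h3, h4⟩
  exact Or.inl ⟨c, e, h3, h4⟩

theorem Sm_mono {x x' : ℕ} (hx : x ≤ x') : A.Sm x ⊆ A.Sm x' := by
  rintro g (⟨c, e, h3, h4⟩ | ⟨v, hv, hg⟩)
  · exact Or.inl ⟨c, e, h3.trans (pow_le_pow_right₀ (by norm_num) (Nat.mul_le_mul_right _ hx)), h4⟩
  · exact Or.inr ⟨v, fun l => (hv l).trans (pow_le_pow_right₀ (by norm_num) hx), hg⟩

theorem Sm_inv {x : ℕ} {g : G} (h : g ∈ A.Sm x) : g⁻¹ ∈ A.Sm x := by
  rcases h with ⟨c, e, h3, h4⟩ | ⟨v, hv, hg⟩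
  · exact Or.inl ⟨c, -e, by rwa [abs_neg], by rw [h4, zpow_neg]⟩
  · refine Or.inr ⟨v, hv, ?_⟩
    rcases hg with hg | hg
    · exact Or.inr (by rw [hg])
    · exact Or.inl (by rw [hg, inv_inv])

theorem BN_mono {N N' c0 c0' q q' x x' : ℕ} (hN : N ≤ N') (hc : c0' ≤ c0) (hq : q' ∣ q)
    (hx : x ≤ x') : A.BN N c0 q x ⊆ A.BN N' c0' q' x' := by
  rintro g ⟨l, h1, h2, h3⟩
  exact ⟨l, h1.trans hN, fun y hy => A.Bx_mono hc hq hx (h2 y hy), h3⟩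

theorem one_mem_BN (N c0 q x : ℕ) : (1 : G) ∈ A.BN N c0 q x :=
  ⟨[], by simp, by simp, by simp⟩

theorem mem_BN_one {c0 q x : ℕ} {g : G} (h : g ∈ A.Bx c0 q x) : g ∈ A.BN 1 c0 q x :=
  ⟨[g], by simp, by simpa using h, by simp⟩

theorem BN_mul {N N' c0 q x : ℕ} {g g' : G} (h : g ∈ A.BN N c0 q x) (h' : g' ∈ A.BN N' c0 q x) :
    g * g' ∈ A.BN (N + N') c0 q x := by
  obtain ⟨l, h1, h2, h3⟩ := h
  obtain ⟨l', h1', h2', h3'⟩ := h'
  refine ⟨l ++ l', ?_, ?_, ?_⟩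
  · rw [List.length_append]
    exact Nat.add_le_add h1 h1'
  · intro y hy
    rcases List.mem_append.1 hy with hy | hy
    · exact h2 y hy
    · exact h2' y hy
  · rw [List.prod_append, h3, h3']

theorem BN_inv {N c0 q x : ℕ} {g : G} (h : g ∈ A.BN N c0 q x) : g⁻¹ ∈ A.BN N c0 q x := by
  obtain ⟨l, h1, h2, h3⟩ := h
  refine ⟨(l.map fun y => y⁻¹).reverse, ?_, ?_, ?_⟩
  · rw [List.length_reverse, List.length_map]
    exact h1
  · intro y hy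
    rw [List.mem_reverse, List.mem_map] at hy
    obtain ⟨z, hz, rfl⟩ := hy
    exact A.Bx_inv (h2 z hz)
  · rw [← h3, List.prod_inv_reverse]

theorem SmN_mono {N N' x x' : ℕ} (hN : N ≤ N') (hx : x ≤ x') : A.SmN N x ⊆ A.SmN N' x' := by
  rintro g ⟨l, h1, h2, h3⟩
  exact ⟨l, h1.trans hN, fun y hy => A.Sm_mono hx (h2 y hy), h3⟩

theorem one_mem_SmN (N x : ℕ) : (1 : G) ∈ A.SmN N x :=
  ⟨[], by simp, by simp, by simp⟩

theorem mem_SmN_one {x : ℕ} {g : G} (h : g ∈ A.Sm x) : g ∈ A.SmN 1 x :=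
  ⟨[g], by simp, by simpa using h, by simp⟩

theorem SmN_mul {N N' x : ℕ} {g g' : G} (h : g ∈ A.SmN N x) (h' : g' ∈ A.SmN N' x) :
    g * g' ∈ A.SmN (N + N') x := by
  obtain ⟨l, h1, h2, h3⟩ := h
  obtain ⟨l', h1', h2', h3'⟩ := h'
  refine ⟨l ++ l', ?_, ?_, ?_⟩
  · rw [List.length_append]
    exact Nat.add_le_add h1 h1'
  · intro y hy
    rcases List.mem_append.1 hy with hy | hy
    · exact h2 y hy
    · exact h2' y hy
  · rw [List.prod_append, h3, h3']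

theorem SmN_inv {N x : ℕ} {g : G} (h : g ∈ A.SmN N x) : g⁻¹ ∈ A.SmN N x := by
  obtain ⟨l, h1, h2, h3⟩ := h
  refine ⟨(l.map fun y => y⁻¹).reverse, ?_, ?_, ?_⟩
  · rw [List.length_reverse, List.length_map]
    exact h1
  · intro y hy
    rw [List.mem_reverse, List.mem_map] at hy
    obtain ⟨z, hz, rfl⟩ := hy
    exact A.Sm_inv (h2 z hz)
  · rw [← h3, List.prod_inv_reverse]

theorem BN_sub_SmN (N c0 q x : ℕ) : A.BN N c0 q x ⊆ A.SmN N x := by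
  rintro g ⟨l, h1, h2, h3⟩
  exact ⟨l, h1, fun y hy => A.Bx_sub_Sm c0 q x (h2 y hy), h3⟩

variable {A}

private theorem Ok.conj_Bx (hA : A.Ok) {c0 q x : ℕ} (hq : 0 < q) (hx : A.P0 * q ≤ 2 ^ x) {v y : G}
    (hv : v ∈ A.Sm x) (hy : y ∈ A.Bx c0 q x) :
    v * y * v⁻¹ ∈ A.BN (A.C1 + 1) c0 q (x + A.C1) := by
  have h1 : v * y * v⁻¹ = ⁅v, y⁆ * y := by
    rw [commutatorElement_def]
    group
  have h2 : y ∈ A.BN 1 c0 q (x + A.C1) :=
    A.mem_BN_one (A.Bx_mono le_rfl dvd_rfl (Nat.le_add_right _ _) hy)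
  have h3 : ⁅v, y⁆ ∈ A.BN A.C1 c0 q (x + A.C1) := by
    obtain ⟨c, e, g1, g2, g3, rfl⟩ := hy
    rcases hv with ⟨c', e', g4, rfl⟩ | ⟨u, hu, g5⟩
    · have h4 := hA.A1 c' c e' e q x x x 0 hq g4 g3 (Or.inr g2) hx le_rfl le_rfl
        (Or.inl (by simp))
      exact A.BN_mono le_rfl (g1.trans ((le_max_right _ _).trans (Nat.le_succ _))) dvd_rfl
        (by simp) h4
    · have h4 := hA.A2 c e v u q x x x 0 hq g5 hu g3 g2 hx le_rfl le_rfl (Or.inl (by simp))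
      exact A.BN_mono le_rfl (g1.trans (Nat.le_succ _)) dvd_rfl (by simp) h4
  rw [h1]
  exact A.BN_mul h3 h2

/-- (B0) conjugation of a box by a small element -/
theorem Ok.conj_BN (hA : A.Ok) {N c0 q x : ℕ} (hq : 0 < q) (hx : A.P0 * q ≤ 2 ^ x) {v y : G}
    (hv : v ∈ A.Sm x) (hy : y ∈ A.BN N c0 q x) :
    v * y * v⁻¹ ∈ A.BN (N * (A.C1 + 1)) c0 q (x + A.C1) := by
  obtain ⟨l, h1, h2, rfl⟩ := hy
  refine A.BN_mono (Nat.mul_le_mul_right _ h1) le_rfl dvd_rfl le_rfl ?_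
  clear h1
  induction l with
  | nil =>
    rw [List.prod_nil, mul_one, mul_inv_cancel]
    exact A.one_mem_BN _ _ _ _
  | cons a l ih =>
    have h3 := ih fun y hy => h2 y (List.mem_cons_of_mem _ hy)
    have h4 := hA.conj_Bx hq hx hv (h2 a List.mem_cons_self)
    have h5 : v * (a :: l).prod * v⁻¹ = (v * a * v⁻¹) * (v * l.prod * v⁻¹) := by
      rw [List.prod_cons]
      group
    rw [h5, List.length_cons]
    have h6 := A.BN_mul h4 h3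
    refine A.BN_mono (le_of_eq ?_) le_rfl dvd_rfl le_rfl h6
    ring

theorem Ok.conj_BN_SmN (hA : A.Ok) {M N c0 q x : ℕ} (hq : 0 < q) (hx : A.P0 * q ≤ 2 ^ x) {v y : G}
    (hv : v ∈ A.SmN M x) (hy : y ∈ A.BN N c0 q x) :
    v * y * v⁻¹ ∈ A.BN (N * (A.C1 + 1) ^ M) c0 q (x + M * A.C1) := by
  obtain ⟨l, h1, h2, rfl⟩ := hv
  refine A.BN_mono (Nat.mul_le_mul_left _ (Nat.pow_le_pow_right (show 0 < A.C1 + 1 from Nat.succ_pos _) h1)) le_rfl
    dvd_rfl (Nat.add_le_add_left (Nat.mul_le_mul_right _ h1) _) ?_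
  clear h1
  induction l with
  | nil =>
    rw [List.prod_nil, one_mul, inv_one, mul_one]
    simpa using hy
  | cons a l ih =>
    have h3 := ih fun y hy => h2 y (List.mem_cons_of_mem _ hy)
    have h4 : a ∈ A.Sm (x + l.length * A.C1) :=
      A.Sm_mono (Nat.le_add_right _ _) (h2 a List.mem_cons_self)
    have h5 := hA.conj_BN hq (hx.trans (Nat.pow_le_pow_right (by norm_num)
      (Nat.le_add_right x (l.length * A.C1)))) h4 h3
    have h6 : (a :: l).prod * y * ((a :: l).prod)⁻¹ = a * (l.prod * y * (l.prod)⁻¹) * a⁻¹ := by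
      rw [List.prod_cons]
      group
    rw [h6, List.length_cons]
    refine A.BN_mono (le_of_eq ?_) le_rfl dvd_rfl (le_of_eq ?_) h5
    · ring
    · ring

end Dat

end Pool.Agent.Lib.Npw
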