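import Pool.Agent.Lib.Npw.ApiA

/-!
# NPW: basic facts on the operators

All proofs are direct. `‖U g‖ ≤ 1`: `star (U g) * U g = U 1 = 1` and the C-star identity.
`Ph_succ`: `A.D - c = (A.D - (c + 1)) + 1` and `A.D - 1 - (A.D - (c + 1)) = c`.
`mem_Bx_Cc`: `m < ll` gives `m ≤ 2^(n w) / (K q)`, hence `K q m ≤ 2^(n w)`.
`avg_shift`: the two averages differ in at most `2 |j|` terms; if `|j| ≥ n` the bound is trivial
(`‖·‖ ≤ 2`).
-/

set_option autoImplicit false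

open Finset

namespace Pool.Agent.Lib.Npw

variable {G H : Type} [Group G] [NormedAddCommGroup H] [InnerProductSpace ℂ H] [CompleteSpace H]

theorem norm_one_le : ‖(1 : H →L[ℂ] H)‖ ≤ 1 := ContinuousLinearMap.norm_id_le

theorem Rep.norm_le (R : Rep G H) (g : G) : ‖R.U g‖ ≤ 1 := by
  have h1 : star (R.U g) * R.U g = 1 := by
    rw [R.star_U, ← map_mul, inv_mul_cancel, map_one]
  have h2 : ‖R.U g‖ * ‖R.U g‖ ≤ 1 := by
    rw [← CStarRing.norm_star_mul_self, h1]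
    exact norm_one_le
  nlinarith [norm_nonneg (R.U g)]

theorem Rep.norm_apply (R : Rep G H) (g : G) (x : H) : ‖R.U g x‖ = ‖x‖ := by
  have key : ∀ (g : G) (x : H), ‖R.U g x‖ ≤ ‖x‖ := by
    intro g x
    refine ((R.U g).le_opNorm x).trans ?_
    exact mul_le_of_le_one_left (norm_nonneg x) (R.norm_le g)
  apply le_antisymm (key g x)
  have h1 : R.U g⁻¹ (R.U g x) = x := by
    have h2 : (R.U g⁻¹ * R.U g) x = x := by
      rw [← map_mul, inv_mul_cancel, map_one]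
      rfl
    exact h2
  calc ‖x‖ = ‖R.U g⁻¹ (R.U g x)‖ := by rw [h1]
    _ ≤ _ := key _ _

theorem Rep.inner_apply (R : Rep G H) (g h : G) (x y : H) :
    inner ℂ (R.U g x) (R.U h y) = inner ℂ (R.U (h⁻¹ * g) x) y := by
  rw [map_mul, ← R.star_U h, ContinuousLinearMap.star_eq_adjoint]
  exact (ContinuousLinearMap.adjoint_inner_left (R.U h) y (R.U g x)).symm

theorem avg_mul (n : ℕ) (f : ℕ → H →L[ℂ] H) (T : H →L[ℂ] H) :
    avg n f * T = avg n fun m => f m * T := by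
  unfold avg
  rw [smul_mul_assoc, Finset.sum_mul]

theorem mul_avg (n : ℕ) (f : ℕ → H →L[ℂ] H) (T : H →L[ℂ] H) :
    T * avg n f = avg n fun m => T * f m := by
  unfold avg
  rw [mul_smul_comm, Finset.mul_sum]

theorem star_avg (n : ℕ) (f : ℕ → H →L[ℂ] H) : star (avg n f) = avg n fun m => star (f m) := by
  unfold avg
  rw [star_smul, star_sum]
  congr 1
  simp

theorem avg_sub (n : ℕ) (f g : ℕ → H →L[ℂ] H) : avg n f - avg n g = avg n fun m => f m - g m := by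
  unfold avg
  rw [← smul_sub, Finset.sum_sub_distrib]

theorem norm_avg_le {n : ℕ} {f : ℕ → H →L[ℂ] H} {B : ℝ} (hB : 0 ≤ B) (h : ∀ m < n, ‖f m‖ ≤ B) :
    ‖avg n f‖ ≤ B := by
  unfold avg
  rw [norm_smul, norm_inv, Complex.norm_natCast]
  rcases Nat.eq_zero_or_pos n with rfl | hn
  · simpa using hB
  have hn' : (0 : ℝ) < n := by exact_mod_cast hn
  have h1 : ‖∑ m ∈ range n, f m‖ ≤ n * B := by
    refine (norm_sum_le _ _).trans ?_
    refine (Finset.sum_le_card_nsmul _ _ B fun m hm => h m (Finset.mem_range.1 hm)).trans ?_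
    rw [Finset.card_range, nsmul_eq_mul]
  calc (n : ℝ)⁻¹ * ‖∑ m ∈ range n, f m‖ ≤ (n : ℝ)⁻¹ * (n * B) :=
        mul_le_mul_of_nonneg_left h1 (by positivity)
    _ = B := by field_simp

theorem norm_avg_sub_le {n : ℕ} {f g : ℕ → H →L[ℂ] H} {B : ℝ} (hB : 0 ≤ B)
    (h : ∀ m < n, ‖f m - g m‖ ≤ B) : ‖avg n f - avg n g‖ ≤ B := by
  rw [avg_sub]
  exact norm_avg_le hB h

theorem avg_const {n : ℕ} (hn : 0 < n) (T : H →L[ℂ] H) : (avg n fun _ => T) = T := by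
  unfold avg
  have hn' : (n : ℂ) ≠ 0 := by exact_mod_cast hn.ne'
  rw [Finset.sum_const, Finset.card_range, ← Nat.cast_smul_eq_nsmul ℂ, smul_smul,
    inv_mul_cancel₀ hn', one_smul]

namespace ApiBAux

lemma shift_nat (T : ℤ → H →L[ℂ] H) (hT : ∀ j, ‖T (j + 1) - T j‖ ≤ 2) (a : ℤ) (k : ℕ) :
    ‖T (a + k) - T a‖ ≤ 2 * k := by
  induction k with
  | zero => simp
  | succ k ih =>
    have h1 : T (a + ((k + 1 : ℕ) : ℤ)) - T a = (T (a + k + 1) - T (a + k)) + (T (a + k) - T a) := by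
      push_cast
      rw [add_assoc]
      abel
    rw [h1]
    refine (norm_add_le _ _).trans ?_
    have h2 := hT (a + k)
    push_cast
    linarith

lemma shift_int (T : ℤ → H →L[ℂ] H) (hT : ∀ j, ‖T (j + 1) - T j‖ ≤ 2) (j : ℤ) :
    ‖T j - T 0‖ ≤ 2 * |(j : ℝ)| := by
  obtain ⟨k, hk | hk⟩ := Int.eq_nat_or_neg j
  · have h := shift_nat T hT 0 k
    rw [zero_add] at h
    rw [hk]
    push_cast
    rw [abs_of_nonneg (Nat.cast_nonneg k)]
    exact h
  · have h := shift_nat T hT j k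
    have h2 : j + k = 0 := by omega
    rw [h2, norm_sub_rev] at h
    rw [hk] at h ⊢
    push_cast
    rw [abs_neg, abs_of_nonneg (Nat.cast_nonneg k)]
    exact h

end ApiBAux

/-- cyclic shift -/
theorem avg_shift (R : Rep G H) (g : G) {n : ℕ} (hn : 0 < n) (j : ℤ) :
    ‖(avg n fun m => R.U (g ^ m)) * R.U (g ^ j) - avg n fun m => R.U (g ^ m)‖ ≤
      2 * |(j : ℝ)| / n := by
  have hn' : (0 : ℝ) < n := by exact_mod_cast hn
  obtain ⟨T, hT⟩ : ∃ T : ℤ → H →L[ℂ] H, T = fun j => ∑ m ∈ range n, R.U (g ^ ((m : ℤ) + j)) :=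
    ⟨_, rfl⟩
  have h1 : ∀ j, ‖T (j + 1) - T j‖ ≤ 2 := by
    intro j
    have h2 : T (j + 1) - T j = R.U (g ^ ((n : ℤ) + j)) - R.U (g ^ ((0 : ℕ) + j)) := by
      rw [hT]
      simp only
      rw [← Finset.sum_sub_distrib,
        ← Finset.sum_range_sub (fun m : ℕ => R.U (g ^ ((m : ℤ) + j))) n]
      apply Finset.sum_congr rfl
      intro m _
      congr 3
      push_cast
      ring
    rw [h2]
    refine (norm_sub_le _ _).trans ?_
    have h3 := R.norm_le (g ^ ((n : ℤ) + j))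
    have h4 := R.norm_le (g ^ ((0 : ℕ) + j))
    linarith
  have h5 := ApiBAux.shift_int T h1 j
  have h6 : (avg n fun m => R.U (g ^ m)) * R.U (g ^ j) - avg n (fun m => R.U (g ^ m)) =
      (n : ℂ)⁻¹ • (T j - T 0) := by
    unfold avg
    rw [smul_mul_assoc, ← smul_sub, Finset.sum_mul, hT]
    simp only
    congr 2
    · apply Finset.sum_congr rfl
      intro m _
      rw [← map_mul, zpow_add, zpow_natCast]
    · apply Finset.sum_congr rfl
      intro m _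
      rw [add_zero, zpow_natCast]
  rw [h6, norm_smul, norm_inv, Complex.norm_natCast, le_div_iff₀ hn']
  calc (n : ℝ)⁻¹ * ‖T j - T 0‖ * n = ‖T j - T 0‖ := by field_simp
    _ ≤ _ := h5

namespace Dat

variable (A : Dat G) (R : Rep G H)

theorem ll_pos (c : Fin A.D) (q n : ℕ) : 0 < A.ll c q n := Nat.succ_pos _

theorem Kq_mul_le {c : Fin A.D} {q n m : ℕ} (hm : m < A.ll c q n) :
    A.K c * q * m ≤ 2 ^ (n * A.w c) := by
  have h1 : m ≤ 2 ^ (n * A.w c) / (A.K c * q) := Nat.lt_succ_iff.1 hm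
  exact (Nat.mul_le_mul_left _ h1).trans (Nat.mul_div_le _ _)

theorem lt_mul_ll {c : Fin A.D} {q : ℕ} (hq : 0 < q) (n : ℕ) :
    2 ^ (n * A.w c) < A.K c * q * A.ll c q n :=
  Nat.lt_mul_div_succ _ (Nat.mul_pos (A.K_pos c) hq)

theorem mem_Bx_Cc {c : Fin A.D} {c0 q n m : ℕ} (hc : c0 ≤ (c : ℕ)) (hm : m < A.ll c q n) :
    A.z c ^ (A.K c * q * m) ∈ A.Bx c0 q n := by
  refine ⟨c, ((A.K c * q * m : ℕ) : ℤ), hc, ?_, ?_, ?_⟩
  · exact Int.natCast_dvd_natCast.2 (Nat.dvd_mul_right _ _)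
  · rw [abs_of_nonneg (Int.natCast_nonneg _)]
    exact_mod_cast A.Kq_mul_le hm
  · rw [zpow_natCast]

theorem Ph_top {c : ℕ} (h : A.D ≤ c) (q n : ℕ) : A.Ph R c q n = 1 := by
  unfold Ph
  rw [Nat.sub_eq_zero_of_le h]
  rfl

theorem Ph_succ {c : ℕ} (h : c < A.D) (q n : ℕ) :
    A.Ph R c q n = A.Ph R (c + 1) q n * A.Cc R ⟨c, h⟩ q n := by
  unfold Ph
  have h1 : A.D - c = (A.D - (c + 1)) + 1 := by omega
  have h2 : A.D - 1 - (A.D - (c + 1)) = c := by omega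
  rw [h1]
  show A.PhR R q n (A.D - (c + 1)) *
    (if h : A.D - 1 - (A.D - (c + 1)) < A.D then A.Cc R ⟨A.D - 1 - (A.D - (c + 1)), h⟩ q n else 1) = _
  rw [dif_pos (by omega)]
  congr 2
  exact Fin.ext h2

theorem norm_Cc_le (c : Fin A.D) (q n : ℕ) : ‖A.Cc R c q n‖ ≤ 1 :=
  norm_avg_le zero_le_one fun _ _ => R.norm_le _

theorem norm_Ph_le (c0 q n : ℕ) : ‖A.Ph R c0 q n‖ ≤ 1 := by
  unfold Ph
  generalize A.D - c0 = j
  induction j with
  | zero => exact norm_one_le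
  | succ j ih =>
    unfold PhR
    refine (norm_mul_le _ _).trans ?_
    apply mul_le_one₀ ih (norm_nonneg _)
    split_ifs
    · exact A.norm_Cc_le R _ q n
    · exact norm_one_le

theorem norm_FF_le (c0 q n : ℕ) : ‖A.FF R c0 q n‖ ≤ q.divisors.card := by
  unfold FF
  refine (norm_sum_le _ _).trans ?_
  refine (Finset.sum_le_card_nsmul _ _ 1 fun d _ => ?_).trans (by simp)
  rw [norm_smul, Complex.norm_intCast]
  apply mul_le_one₀ _ (norm_nonneg _) (A.norm_Ph_le R c0 d n)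
  have h := ArithmeticFunction.abs_moebius_le_one (n := q / d)
  exact_mod_cast h

theorem norm_Pi_le {v : ℕ} (c0 : ℕ) {s : Finset ℕ} (hs : s ⊆ Icc 1 (2 ^ v)) (n : ℕ) :
    ‖A.Pi R c0 s n‖ ≤ 4 ^ v := by
  unfold Pi
  refine (norm_sum_le _ _).trans ?_
  have h1 : ∀ q ∈ s, ‖A.FF R c0 q n‖ ≤ (2 : ℝ) ^ v := by
    intro q hq
    have h2 := Finset.mem_Icc.1 (hs hq)
    refine (A.norm_FF_le R c0 q n).trans ?_
    exact_mod_cast (Nat.card_divisors_le_self q).trans h2.2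
  refine (Finset.sum_le_card_nsmul _ _ _ h1).trans ?_
  rw [nsmul_eq_mul]
  have h3 : s.card ≤ 2 ^ v := by
    refine (Finset.card_le_card hs).trans ?_
    simp
  have h4 : (s.card : ℝ) ≤ 2 ^ v := by exact_mod_cast h3
  calc (s.card : ℝ) * 2 ^ v ≤ 2 ^ v * 2 ^ v := mul_le_mul_of_nonneg_right h4 (by positivity)
    _ = 4 ^ v := by
        rw [← mul_pow]
        norm_num

theorem norm_AA_le (M : ℕ) : ‖A.AA R M‖ ≤ 1 := by
  unfold AA
  rw [norm_smul, norm_inv, norm_pow, Complex.norm_natCast]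
  have h1 : ‖∑ v ∈ Fintype.piFinset (fun _ : Fin A.k => range M), R.U (A.S v)‖ ≤ (M : ℝ) ^ A.k := by
    refine (norm_sum_le _ _).trans ?_
    refine (Finset.sum_le_card_nsmul _ _ 1 fun v _ => R.norm_le _).trans (le_of_eq ?_)
    rw [Fintype.card_piFinset]
    simp
  have h2 : (0 : ℝ) ≤ (M : ℝ) ^ A.k := by positivity
  calc ((M : ℝ) ^ A.k)⁻¹ * _ ≤ ((M : ℝ) ^ A.k)⁻¹ * (M : ℝ) ^ A.k :=
        mul_le_mul_of_nonneg_left h1 (inv_nonneg.2 h2)
    _ ≤ 1 := inv_mul_le_one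

end Dat

end Pool.Agent.Lib.Npw
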