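import Pool.Agent.Lib.Npw.Defs2

/-!
# NPW: `ee` and `nd`

Elementary; compare `Pool/Agent/Lib/Pf720ae/Poly/InvWeyl.lean` (same definitions there, the proofs can be copied).
`geom`: `‖∑_{m<n} e(m x)‖ ≤ 1 / (2 nd x)` (`nd_le_norm`: `4 nd x ≤ ‖ee x - 1‖`, `mul_geom_sum`).
-/

set_option autoImplicit false

open Finset

namespace Pool.Agent.Lib.Npw

namespace CircAux

theorem ee_eq (x : ℝ) : ee x = Complex.exp (Complex.I * ((2 * Real.pi * x : ℝ) : ℂ)) := by
  rw [ee]
  congr 1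
  push_cast
  ring

end CircAux

open CircAux

theorem norm_ee (x : ℝ) : ‖ee x‖ = 1 := by
  rw [ee_eq, Complex.norm_exp_I_mul_ofReal]

theorem ee_zero : ee 0 = 1 := by simp [ee]

theorem ee_add (x y : ℝ) : ee (x + y) = ee x * ee y := by
  rw [ee, ee, ee, ← Complex.exp_add]
  congr 1
  push_cast
  ring

theorem ee_int (z : ℤ) : ee (z : ℝ) = 1 := by
  rw [ee, show (2 * Real.pi * ((z : ℝ) : ℂ) * Complex.I : ℂ) = z * (2 * Real.pi * Complex.I) by
    push_cast; ring]
  exact Complex.exp_int_mul_two_pi_mul_I z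

theorem ee_nat_mul (n : ℕ) (x : ℝ) : ee (n * x) = ee x ^ n := by
  rw [ee, ee, ← Complex.exp_nat_mul]
  congr 1
  push_cast
  ring

theorem conj_ee (x : ℝ) : (starRingEnd ℂ) (ee x) = ee (-x) := by
  rw [ee, ee, ← Complex.exp_conj]
  congr 1
  have h2 : (starRingEnd ℂ) 2 = 2 := map_ofNat _ 2
  simp [h2]

theorem norm_ee_sub_one (x : ℝ) : ‖ee x - 1‖ ≤ 2 * Real.pi * |x| := by
  rw [ee_eq]
  refine Real.norm_exp_I_mul_ofReal_sub_one_le.trans ?_
  rw [Real.norm_eq_abs, abs_mul, abs_of_pos (by positivity : 0 < 2 * Real.pi)]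

theorem exists_ee {z : ℂ} (hz : ‖z‖ = 1) : ∃ x : ℝ, ee x = z := by
  refine ⟨z.arg / (2 * Real.pi), ?_⟩
  rw [ee]
  have h := Complex.norm_mul_exp_arg_mul_I z
  rw [hz, Complex.ofReal_one, one_mul] at h
  rw [← h]
  congr 1
  have hpi : (Real.pi : ℂ) ≠ 0 := Complex.ofReal_ne_zero.2 Real.pi_ne_zero
  have h3 : (Complex.exp (z.arg * Complex.I)).arg = z.arg := by rw [h]
  rw [h3]
  push_cast
  field_simp

theorem nd_nonneg (x : ℝ) : 0 ≤ nd x := abs_nonneg _

theorem nd_le_half (x : ℝ) : nd x ≤ 1 / 2 := abs_sub_round x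

theorem nd_le (x : ℝ) (z : ℤ) : nd x ≤ |x - z| := round_le x z

theorem nd_le_abs (x : ℝ) : nd x ≤ |x| := by
  have := nd_le x 0
  rwa [Int.cast_zero, sub_zero] at this

theorem exists_nd (x : ℝ) : ∃ (z : ℤ) (β : ℝ), x = z + β ∧ |β| = nd x :=
  ⟨round x, x - round x, by ring, rfl⟩

theorem nd_add (x y : ℝ) : nd (x + y) ≤ nd x + nd y := by
  refine (nd_le (x + y) (round x + round y)).trans ?_
  push_cast
  have : x + y - (round x + round y : ℝ) = (x - round x) + (y - round y) := by ring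
  rw [this]
  exact abs_add_le _ _

theorem nd_neg (x : ℝ) : nd (-x) = nd x := by
  have h : ∀ x : ℝ, nd (-x) ≤ nd x := by
    intro x
    refine (nd_le (-x) (-round x)).trans ?_
    push_cast
    rw [show -x - -(round x : ℝ) = -(x - round x) by ring, abs_neg]
    rfl
  refine le_antisymm (h x) ?_
  have := h (-x)
  rwa [neg_neg] at this

theorem nd_nat_mul (m : ℕ) (x : ℝ) : nd (m * x) ≤ m * nd x := by
  refine (nd_le (m * x) (m * round x)).trans ?_
  push_cast
  rw [← mul_sub, abs_mul, Nat.abs_cast]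
  rfl

theorem nd_int (z : ℤ) : nd (z : ℝ) = 0 := by simp [nd]

namespace CircAux

theorem ee_add_int (x : ℝ) (z : ℤ) : ee (x + z) = ee x := by
  rw [ee_add, ee_int, mul_one]

theorem norm_ee_sub_one_eq (x : ℝ) : ‖ee x - 1‖ = 2 * |Real.sin (Real.pi * x)| := by
  rw [ee_eq, Complex.norm_exp_I_mul_ofReal_sub_one, norm_mul, Real.norm_eq_abs, Real.norm_eq_abs,
    abs_of_pos (by norm_num : (0:ℝ) < 2)]
  congr 3
  ring

end CircAux

theorem nd_le_norm (x : ℝ) : 4 * nd x ≤ ‖ee x - 1‖ := by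
  have h1 : ee x = ee (x - round x) := by
    have := ee_add_int (x - round x) (round x)
    rw [sub_add_cancel] at this
    exact this
  rw [h1, norm_ee_sub_one_eq]
  have h2 : |Real.pi * (x - round x)| ≤ Real.pi / 2 := by
    rw [abs_mul, abs_of_pos Real.pi_pos]
    have := nd_le_half x
    unfold nd at this
    nlinarith [Real.pi_pos]
  have h3 := Real.mul_abs_le_abs_sin h2
  rw [abs_mul, abs_of_pos Real.pi_pos] at h3
  have h4 : 2 / Real.pi * (Real.pi * |x - round x|) = 2 * nd x := by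
    unfold nd
    field_simp
  rw [h4] at h3
  linarith

theorem geom (n : ℕ) (x : ℝ) : nd x * ‖∑ m ∈ range n, ee (m * x)‖ ≤ 1 / 2 := by
  have h1 : ∑ m ∈ range n, ee (m * x) = ∑ m ∈ range n, ee x ^ m :=
    sum_congr rfl fun m _ => ee_nat_mul m x
  rw [h1]
  have h2 := mul_geom_sum (ee x) n
  have h3 : ‖ee x - 1‖ * ‖∑ m ∈ range n, ee x ^ m‖ ≤ 2 := by
    rw [← norm_mul, h2]
    refine (norm_sub_le _ _).trans ?_
    rw [norm_pow, norm_ee, norm_one]
    norm_num
  have h4 := nd_le_norm x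
  have h5 := norm_nonneg (∑ m ∈ range n, ee x ^ m)
  nlinarith

theorem geom_trivial (n : ℕ) (x : ℕ → ℝ) : ‖∑ m ∈ range n, ee (x m)‖ ≤ n := by
  refine (norm_sum_le _ _).trans ?_
  simp [norm_ee]

namespace CircAux

theorem sep {α : ℝ} {r : ℚ} {n k : ℕ} (hr : |α - r| ≤ 1 / ((n + 1) * r.den)) (hk : 0 < k)
    (hkn : 2 * k ≤ n + 1) (hkq : k < r.den) : 1 / (2 * (r.den : ℝ)) ≤ nd (k * α) := by
  have hq : (0:ℝ) < r.den := by exact_mod_cast r.den_pos
  unfold nd
  set z := round ((k:ℝ) * α) with hz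
  have h1 : 1 / (r.den : ℝ) ≤ |(k:ℝ) * r - z| := by
    have h2 : (k:ℝ) * r - z = ((k * r.num - z * r.den : ℤ) : ℝ) / r.den := by
      have : (r : ℝ) = r.num / r.den := by
        exact_mod_cast (Rat.num_div_den r).symm
      rw [this]
      push_cast
      field_simp
    rw [h2, abs_div, abs_of_pos hq]
    apply div_le_div_of_nonneg_right _ hq.le
    have h3 : (k * r.num - z * r.den : ℤ) ≠ 0 := by
      intro h0
      have h4 : (r.den : ℤ) ∣ k * r.num := ⟨z, by linarith⟩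
      have h5 : IsCoprime (r.den : ℤ) r.num := by
        have := r.reduced
        rw [Int.isCoprime_iff_gcd_eq_one, Int.gcd_comm]
        simpa [Int.gcd] using this
      have h6 : (r.den : ℤ) ∣ k := h5.dvd_of_dvd_mul_right h4
      have h7 : r.den ∣ k := by exact_mod_cast h6
      exact absurd (Nat.le_of_dvd hk h7) (by omega)
    have h8 : (1:ℤ) ≤ |(k * r.num - z * r.den : ℤ)| := Int.one_le_abs h3
    exact_mod_cast h8
  have h2 : |(k:ℝ) * r - (k:ℝ) * α| ≤ 1 / (2 * (r.den : ℝ)) := by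
    rw [← mul_sub, abs_mul, Nat.abs_cast, abs_sub_comm]
    refine (mul_le_mul_of_nonneg_left hr (Nat.cast_nonneg k)).trans ?_
    rw [mul_one_div, div_le_div_iff₀ (by positivity) (by positivity)]
    have : (2:ℝ) * k ≤ n + 1 := by exact_mod_cast hkn
    nlinarith
  have h3 : |(k:ℝ) * r - z| ≤ |(k:ℝ) * r - (k:ℝ) * α| + |(k:ℝ) * α - z| := by
    have : (k:ℝ) * r - z = ((k:ℝ) * r - (k:ℝ) * α) + ((k:ℝ) * α - z) := by ring
    rw [this]
    exact abs_add_le _ _
  have h4 : 1 / (r.den : ℝ) = 1 / (2 * (r.den : ℝ)) + 1 / (2 * (r.den : ℝ)) := by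
    field_simp
    norm_num
  linarith

theorem vin0 {α : ℝ} {N : ℕ} {A ε : ℝ} (hA : 1 ≤ A) (hε0 : 0 < ε) (hε : 64 * A * ε ≤ 1)
    (hN : 16 * A ≤ N) (H : Finset ℕ) (hH : ∀ h ∈ H, h ≤ N) (hcard : (N : ℝ) ≤ A * H.card)
    (hnd : ∀ h ∈ H, nd (h * α) ≤ ε) :
    ∃ q : ℕ, 0 < q ∧ (q : ℝ) ≤ 16 * A ∧ nd (q * α) ≤ 32 * A * ε / N := by
  have hA0 : 0 < A := by linarith
  have hN0 : (0:ℝ) < N := by linarith
  set n := ⌊(N:ℝ) / (32 * A * ε)⌋₊ with hn
  have hAe : 0 < 32 * A * ε := by positivity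
  have hn1 : 1 ≤ n := by
    apply Nat.le_floor
    rw [Nat.cast_one, le_div_iff₀ hAe]
    nlinarith
  obtain ⟨r, hr, hden⟩ := Real.exists_rat_abs_sub_le_and_den_le α (Nat.lt_of_lt_of_le Nat.zero_lt_one hn1)
  have hq0 : 0 < r.den := r.den_pos
  have hq : (0:ℝ) < r.den := by exact_mod_cast hq0
  have hn2 : (N:ℝ) / (32 * A * ε) < n + 1 := Nat.lt_floor_add_one _
  have hn3 : (n:ℝ) ≤ N / (32 * A * ε) := Nat.floor_le (by positivity)
  refine ⟨r.den, hq0, ?_, ?_⟩
  · by_contra hcon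
    push Not at hcon
    have hdr : (r.den : ℝ) ≤ n := by exact_mod_cast hden
    set L := (r.den + 1) / 2 with hL
    have hL1 : 0 < L := by omega
    have hL2 : (r.den : ℝ) ≤ 2 * L := by
      have : r.den ≤ 2 * L := by omega
      exact_mod_cast this
    let θ : ℕ → ℝ := fun h => (h:ℝ) * α - round ((h:ℝ) * α)
    let φ : ℕ → ℕ × ℤ := fun h => (h / L, ⌊2 * (r.den : ℝ) * θ h⌋)
    have hinj : Set.InjOn φ (H : Set ℕ) := by
      have key : ∀ h h' : ℕ, h < h' → φ h = φ h' → False := by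
        intro h h' hlt heq
        have h1 : h / L = h' / L := congrArg Prod.fst heq
        have h2 : ⌊2 * (r.den : ℝ) * θ h⌋ = ⌊2 * (r.den : ℝ) * θ h'⌋ := congrArg Prod.snd heq
        have h3 : h' - h < L := by
          have e1 := Nat.div_add_mod h L
          have e2 := Nat.div_add_mod h' L
          have e3 := Nat.mod_lt h hL1
          have e4 := Nat.mod_lt h' hL1
          rw [← h1] at e2
          omega
        have h4 := Int.abs_sub_lt_one_of_floor_eq_floor h2
        have h5 : |θ h' - θ h| < 1 / (2 * (r.den : ℝ)) := by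
          rw [lt_div_iff₀ (by positivity)]
          rw [← mul_sub, abs_mul, abs_of_pos (by positivity : 0 < 2 * (r.den : ℝ)), abs_sub_comm] at h4
          linarith
        have h6 := sep (k := h' - h) hr (by omega) (by omega) (by omega)
        have h7 : nd (((h' - h : ℕ) : ℝ) * α) ≤ |θ h' - θ h| := by
          refine (nd_le _ (round ((h':ℝ) * α) - round ((h:ℝ) * α))).trans (le_of_eq ?_)
          simp only [θ]
          rw [Nat.cast_sub hlt.le]
          push_cast
          congr 1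
          ring
        linarith
      intro h _ h' _ heq
      rcases lt_trichotomy h h' with hlt | heq' | hlt
      · exact (key h h' hlt heq).elim
      · exact heq'
      · exact (key h' h hlt heq.symm).elim
    have hmaps : ∀ h ∈ H, φ h ∈ Finset.range (N / L + 1) ×ˢ
        Finset.Icc ⌊-(2 * (r.den : ℝ) * ε)⌋ ⌊2 * (r.den : ℝ) * ε⌋ := by
      intro h hh
      rw [Finset.mem_product, Finset.mem_range, Finset.mem_Icc]
      have h1 := abs_le.1 (hnd h hh)
      refine ⟨Nat.lt_succ_of_le (Nat.div_le_div_right (hH h hh)), ?_, ?_⟩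
      · apply Int.floor_le_floor
        have := mul_le_mul_of_nonneg_left h1.1 (by positivity : 0 ≤ 2 * (r.den : ℝ))
        simp only [θ]
        linarith
      · apply Int.floor_le_floor
        have := mul_le_mul_of_nonneg_left h1.2 (by positivity : 0 ≤ 2 * (r.den : ℝ))
        simp only [θ]
        linarith
    have hle := Finset.card_le_card_of_injOn φ hmaps hinj
    rw [Finset.card_product, Finset.card_range, Int.card_Icc] at hle
    have hle' : (H.card : ℝ) ≤ (2 * N / r.den + 1) * (4 * r.den * ε + 2) := by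
      have h1 : (H.card : ℝ) ≤ ((N / L : ℕ) + 1) *
          ((⌊2 * (r.den : ℝ) * ε⌋ + 1 - ⌊-(2 * (r.den : ℝ) * ε)⌋).toNat : ℝ) := by exact_mod_cast hle
      refine h1.trans ?_
      apply mul_le_mul _ _ (by positivity) (by positivity)
      · have h2 : ((N / L : ℕ) : ℝ) ≤ (N:ℝ) / L := Nat.cast_div_le
        have h3 : (N:ℝ) / L ≤ 2 * N / r.den := by
          rw [div_le_div_iff₀ (by exact_mod_cast hL1) hq]
          nlinarith
        linarith
      · have h2 : (0:ℤ) ≤ ⌊2 * (r.den : ℝ) * ε⌋ + 1 - ⌊-(2 * (r.den : ℝ) * ε)⌋ := by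
          have h3 : ⌊-(2 * (r.den : ℝ) * ε)⌋ ≤ ⌊2 * (r.den : ℝ) * ε⌋ := by
            apply Int.floor_le_floor
            have : 0 ≤ 2 * (r.den : ℝ) * ε := by positivity
            linarith
          omega
        have h3 : ((⌊2 * (r.den : ℝ) * ε⌋ + 1 - ⌊-(2 * (r.den : ℝ) * ε)⌋).toNat : ℝ)
            = (⌊2 * (r.den : ℝ) * ε⌋ : ℝ) + 1 - ⌊-(2 * (r.den : ℝ) * ε)⌋ := by
          have := Int.toNat_of_nonneg h2
          have h4 : (((⌊2 * (r.den : ℝ) * ε⌋ + 1 - ⌊-(2 * (r.den : ℝ) * ε)⌋).toNat : ℤ) : ℝ)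
            = ((⌊2 * (r.den : ℝ) * ε⌋ + 1 - ⌊-(2 * (r.den : ℝ) * ε)⌋ : ℤ) : ℝ) := by rw [this]
          push_cast at h4
          exact h4
        rw [h3]
        have h5 := Int.floor_le (2 * (r.den : ℝ) * ε)
        have h6 := Int.lt_floor_add_one (-(2 * (r.den : ℝ) * ε))
        linarith
    have hexp : (2 * N / r.den + 1) * (4 * r.den * ε + 2)
        = 8 * N * ε + 4 * N / r.den + 4 * (r.den * ε) + 2 := by
      field_simp
      ring
    rw [hexp] at hle'
    have b1 : A * (8 * N * ε) ≤ N / 8 := by nlinarith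
    have b2 : A * (4 * N / r.den) ≤ N / 4 := by
      rw [mul_div_assoc', div_le_div_iff₀ hq (by norm_num)]
      nlinarith
    have b3 : A * (4 * (r.den * ε)) ≤ N / 8 := by
      have h1 : (r.den : ℝ) * ε ≤ N / (32 * A * ε) * ε :=
        mul_le_mul_of_nonneg_right (hdr.trans hn3) hε0.le
      have h2 : (N:ℝ) / (32 * A * ε) * ε = N / (32 * A) := by
        field_simp
      rw [h2] at h1
      have h3 : A * (4 * (N / (32 * A))) = N / 8 := by
        field_simp
        norm_num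
      nlinarith
    have b4 : A * 2 ≤ N / 8 := by linarith
    have h10 := mul_le_mul_of_nonneg_left hle' hA0.le
    have h11 : A * (8 * N * ε + 4 * N / r.den + 4 * (r.den * ε) + 2)
      = A * (8 * N * ε) + A * (4 * N / r.den) + A * (4 * (r.den * ε)) + A * 2 := by ring
    rw [h11] at h10
    linarith
  · refine (nd_le _ r.num).trans ?_
    have h1 : (r.den : ℝ) * α - r.num = r.den * (α - r) := by
      have : (r : ℝ) = r.num / r.den := by
        exact_mod_cast (Rat.num_div_den r).symm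
      rw [this]
      field_simp
    rw [h1, abs_mul, abs_of_pos hq]
    have h2 : (r.den : ℝ) * |α - r| ≤ 1 / (n + 1) := by
      refine (mul_le_mul_of_nonneg_left hr hq.le).trans (le_of_eq ?_)
      field_simp
    refine h2.trans ?_
    rw [div_le_div_iff₀ (by positivity) hN0]
    rw [div_lt_iff₀ hAe] at hn2
    linarith

end CircAux

/-- Vinogradov's lemma -/
theorem vin {α : ℝ} {N : ℕ} {B ε : ℝ} (hB : 1 ≤ B) (hε0 : 0 < ε) (hε : 64 * B * ε ≤ 1)
    (hN : 16 * B ≤ N) (s : Finset ℕ) (hs : ∀ h ∈ s, h ≤ N) (hcard : (N : ℝ) ≤ B * s.card)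
    (hnd : ∀ h ∈ s, nd (h * α) ≤ ε) :
    ∃ q : ℕ, 0 < q ∧ (q : ℝ) ≤ 16 * B ∧ nd (q * α) ≤ 32 * B * ε / N :=
  vin0 hB hε0 hε hN s hs hcard hnd

end Pool.Agent.Lib.Npw
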