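import Pool.Agent.Lib.Npw.Defs2

/-!
# NPW: the Moebius identity

Let `g e = ∑_{d ∣ e} μ(e/d) f d`, so that `f n = ∑_{e ∣ n} g e` (Moebius inversion in an additive group,
`ArithmeticFunction.sum_eq_iff_sum_smul_moebius_eq` or `sum_eq_iff_sum_mul_moebius_eq`). Then `f (gcd d d') = ∑_{e ∣ d, e ∣ d'} g e` and
`∑_{d ∣ q} μ(q/d) f (gcd d d') = ∑_{e ∣ d'} g e ∑_{e ∣ d ∣ q} μ(q/d) = ∑_{e ∣ d'} g e [e = q] = [q ∣ d'] g q`.
-/

set_option autoImplicit false

open Finset

namespace Pool.Agent.Lib.Npw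

namespace MoebAux

theorem sum_anti {M : Type} [AddCommGroup M] [Module ℂ M] (f : ℕ → M) (q : ℕ) :
    ∑ e ∈ q.divisors, ((ArithmeticFunction.moebius (q / e) : ℤ) : ℂ) • f e =
      ∑ x ∈ q.divisorsAntidiagonal, (ArithmeticFunction.moebius x.1) • f x.2 := by
  rw [Nat.sum_divisorsAntidiagonal' (fun i j => (ArithmeticFunction.moebius i) • f j)]
  exact Finset.sum_congr rfl fun e _ => Int.cast_smul_eq_zsmul ℂ _ _

theorem msum {M : Type} [AddCommGroup M] [Module ℂ M] (f : ℕ → M) {d : ℕ} (hd : 0 < d) :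
    ∑ q ∈ d.divisors, ∑ e ∈ q.divisors, ((ArithmeticFunction.moebius (q / e) : ℤ) : ℂ) • f e =
      f d := by
  have h := (ArithmeticFunction.sum_eq_iff_sum_smul_moebius_eq
    (f := fun q => ∑ x ∈ q.divisorsAntidiagonal, (ArithmeticFunction.moebius x.1) • f x.2)
    (g := f)).2 (fun n _ => rfl) d hd
  rw [← h]
  exact Finset.sum_congr rfl fun q _ => sum_anti f q

theorem mrange {q q1 : ℕ} (hq : 0 < q) (hq1 : 0 < q1) :
    ∑ d ∈ q.divisors with q1 ∣ d, ((ArithmeticFunction.moebius (q / d) : ℤ) : ℂ) =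
      if q = q1 then 1 else 0 := by
  by_cases h : q1 ∣ q
  · obtain ⟨r, rfl⟩ := h
    have hr : 0 < r := Nat.pos_of_mul_pos_left hq
    have h1 : ∑ d ∈ (q1 * r).divisors with q1 ∣ d,
        ((ArithmeticFunction.moebius (q1 * r / d) : ℤ) : ℂ) =
        ∑ e ∈ r.divisors, ((ArithmeticFunction.moebius (r / e) : ℤ) : ℂ) := by
      symm
      apply Finset.sum_bij (fun e _ => q1 * e)
      · intro e he
        rw [Nat.mem_divisors] at he
        rw [Finset.mem_filter, Nat.mem_divisors]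
        exact ⟨⟨Nat.mul_dvd_mul_left q1 he.1, hq.ne'⟩, Dvd.intro e rfl⟩
      · intro a _ b _ hab
        exact Nat.eq_of_mul_eq_mul_left hq1 hab
      · intro d hd
        rw [Finset.mem_filter, Nat.mem_divisors] at hd
        obtain ⟨⟨hd1, _⟩, e, rfl⟩ := hd
        refine ⟨e, ?_, rfl⟩
        rw [Nat.mem_divisors]
        exact ⟨Nat.dvd_of_mul_dvd_mul_left hq1 hd1, hr.ne'⟩
      · intro e _
        rw [Nat.mul_div_mul_left _ _ hq1]
    rw [h1, Nat.sum_div_divisors r (fun i => ((ArithmeticFunction.moebius i : ℤ) : ℂ))]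
    have h2 : ∑ i ∈ r.divisors, (ArithmeticFunction.moebius i : ℤ) = if r = 1 then 1 else 0 := by
      have h3 := ArithmeticFunction.coe_mul_zeta_apply (f := ArithmeticFunction.moebius) (x := r)
      rw [← h3, ArithmeticFunction.moebius_mul_coe_zeta, ArithmeticFunction.one_apply]
    have h4 : ∑ i ∈ r.divisors, ((ArithmeticFunction.moebius i : ℤ) : ℂ) =
        ((∑ i ∈ r.divisors, (ArithmeticFunction.moebius i : ℤ) : ℤ) : ℂ) := by
      rw [Int.cast_sum]
    rw [h4, h2]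
    by_cases hr1 : r = 1
    · subst hr1
      simp
    · rw [if_neg hr1, if_neg]
      · simp
      · intro h5
        apply hr1
        have h6 : q1 * r = q1 * 1 := by rw [h5, mul_one]
        exact Nat.eq_of_mul_eq_mul_left hq1 h6
  · rw [if_neg, Finset.sum_eq_zero]
    · intro d hd
      rw [Finset.mem_filter, Nat.mem_divisors] at hd
      exact absurd (hd.2.trans hd.1.1) h
    · rintro rfl
      exact h dvd_rfl

theorem mgcd {M : Type} [AddCommGroup M] [Module ℂ M] (f : ℕ → M) {q d' : ℕ} (hq : 0 < q)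
    (hd' : 0 < d') :
    ∑ d ∈ q.divisors, ((ArithmeticFunction.moebius (q / d) : ℤ) : ℂ) • f (Nat.gcd d d') =
      if q ∣ d' then ∑ d ∈ q.divisors, ((ArithmeticFunction.moebius (q / d) : ℤ) : ℂ) • f d
      else 0 := by
  classical
  set g : ℕ → M := fun q =>
    ∑ e ∈ q.divisors, ((ArithmeticFunction.moebius (q / e) : ℤ) : ℂ) • f e with hg
  have h1 : ∀ d ∈ q.divisors, ((ArithmeticFunction.moebius (q / d) : ℤ) : ℂ) • f (Nat.gcd d d') =
      ∑ e ∈ d'.divisors, (if e ∣ d then ((ArithmeticFunction.moebius (q / d) : ℤ) : ℂ) • g e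
        else 0) := by
    intro d hd
    have hd0 : 0 < d := Nat.pos_of_mem_divisors hd
    have hgp : 0 < Nat.gcd d d' := Nat.gcd_pos_of_pos_left _ hd0
    rw [← msum f hgp, Finset.smul_sum, ← Finset.sum_filter]
    apply Finset.sum_congr
    · ext e
      rw [Nat.mem_divisors, Finset.mem_filter, Nat.mem_divisors, Nat.dvd_gcd_iff]
      constructor
      · rintro ⟨⟨h2, h3⟩, _⟩
        exact ⟨⟨h3, hd'.ne'⟩, h2⟩
      · rintro ⟨⟨h3, _⟩, h2⟩
        exact ⟨⟨h2, h3⟩, hgp.ne'⟩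
    · intro e _
      rfl
  rw [Finset.sum_congr rfl h1, Finset.sum_comm]
  have h2 : ∀ e ∈ d'.divisors, ∑ d ∈ q.divisors,
      (if e ∣ d then ((ArithmeticFunction.moebius (q / d) : ℤ) : ℂ) • g e else 0) =
      if q = e then g e else 0 := by
    intro e he
    have he0 : 0 < e := Nat.pos_of_mem_divisors he
    rw [← Finset.sum_filter, ← Finset.sum_smul, mrange hq he0]
    split_ifs
    · exact one_smul ℂ _
    · exact zero_smul ℂ _
  rw [Finset.sum_congr rfl h2, Finset.sum_ite_eq]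
  have h3 : (q ∈ d'.divisors) ↔ q ∣ d' := by
    rw [Nat.mem_divisors]
    exact ⟨fun h => h.1, fun h => ⟨h, hd'.ne'⟩⟩
  simp only [h3, hg]

end MoebAux

theorem moeb_gcd {M : Type} [AddCommGroup M] [Module ℂ M] (f : ℕ → M) {q d' : ℕ} (hq : 0 < q)
    (hd' : 0 < d') :
    ∑ d ∈ q.divisors, ((ArithmeticFunction.moebius (q / d) : ℤ) : ℂ) • f (Nat.gcd d d') =
      if q ∣ d' then ∑ d ∈ q.divisors, ((ArithmeticFunction.moebius (q / d) : ℤ) : ℂ) • f d
      else 0 := by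
  exact MoebAux.mgcd f hq hd'

/-- `∑_{q ∣ d} ∑_{e ∣ q} μ(q/e) f e = f d` -/
theorem moeb_sum {M : Type} [AddCommGroup M] [Module ℂ M] (f : ℕ → M) {d : ℕ} (hd : 0 < d) :
    ∑ q ∈ d.divisors, ∑ e ∈ q.divisors, ((ArithmeticFunction.moebius (q / e) : ℤ) : ℂ) • f e =
      f d := by
  exact MoebAux.msum f hd

/-- `∑_{q1 ∣ d ∣ q} μ(q/d) = [q = q1]` -/
theorem moeb_range {q q1 : ℕ} (hq : 0 < q) (hq1 : 0 < q1) :
    ∑ d ∈ q.divisors with q1 ∣ d, ((ArithmeticFunction.moebius (q / d) : ℤ) : ℂ) =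
      if q = q1 then 1 else 0 := by
  exact MoebAux.mrange hq hq1

theorem norm_moebius_le (n : ℕ) : ‖((ArithmeticFunction.moebius n : ℤ) : ℂ)‖ ≤ 1 := by
  rw [Complex.norm_intCast]
  exact_mod_cast ArithmeticFunction.abs_moebius_le_one

end Pool.Agent.Lib.Npw
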