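import Pool.Agent.Lib.Npw.Circ
import Pool.Agent.Lib.Npw.Moeb

/-!
# NPW (N1): `|fs| ≤ 2`

Notation as in `FsNear`. `Q ≤ 2^v`, `n ≥ E (v+1)`. Let `Q1 = 2^(n / 2)` (natural division). Dirichlet (`Real.exists_rat_abs_sub_le_and_den_le` or
`Real.exists_int_int_abs_mul_sub_le`): `th = K_c θ = a1/q1 + β`, `q1 ≤ Q1`, lowest terms, `|β| ≤ 1/(q1 Q1)`. Let `L = ll c 1 n`, `Φ = (1/L) ∑_{m<L} e(m β)`, `|Φ| ≤ 1`.
* `q1 ∤ d`, `d ≤ Q`: `nd (d th) ≥ 1/q1 - Q/(q1 Q1) ≥ 1/(2 q1)`, so `|φ_d| ≤ q1/ℓ_d ≤ Q1 P0 Q / 2^n` small.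
* `q1 ∣ d`: `φ_d = (1/ℓ_d) ∑_{m<ℓ_d} e(d m β)`; grouping `m' = d m + j`, `0 ≤ j < d`: `|φ_d - (1/(d ℓ_d)) ∑_{m'<d ℓ_d} e(m' β)| ≤ 2π d |β| ≤ 2π Q/Q1`,
  and `|d ℓ_d - L| ≤ d + 1` gives `|(1/(d ℓ_d)) ∑_{m'<d ℓ_d} - Φ| ≤ 2 (d+1)/L ≤ 4 Q P0 / 2^n`.
So `fs = Φ * ∑_{q≤Q} ∑_{q1∣d∣q} μ(q/d) + error = Φ [q1 ≤ Q] + error`, `|error| ≤ Q^2 * C (Q/Q1 + Q Q1 / 2^n) ≤ 1` for `n ≥ E (v + 1)`.
-/

set_option autoImplicit false

open Finset

namespace Pool.Agent.Lib.Npw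

private theorem fsb_avg (f : ℕ → ℂ) (hf : ∀ m, ‖f m‖ ≤ 1) (N M : ℕ) (hN : 0 < N) (hNM : N ≤ M) :
    ‖(N : ℂ)⁻¹ * ∑ m ∈ range N, f m - (M : ℂ)⁻¹ * ∑ m ∈ range M, f m‖ ≤
      2 * ((M : ℝ) - N) / M := by
  have hM : 0 < M := lt_of_lt_of_le hN hNM
  have hN' : (0 : ℝ) < N := by exact_mod_cast hN
  have hM' : (0 : ℝ) < M := by exact_mod_cast hM
  have hNM' : (N : ℝ) ≤ M := by exact_mod_cast hNM
  have h1 : ∑ m ∈ range M, f m = ∑ m ∈ range N, f m + ∑ m ∈ Ico N M, f m :=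
    (Finset.sum_range_add_sum_Ico f hNM).symm
  have h2 : (N : ℂ)⁻¹ * ∑ m ∈ range N, f m - (M : ℂ)⁻¹ * ∑ m ∈ range M, f m =
      (((N : ℝ)⁻¹ - (M : ℝ)⁻¹ : ℝ) : ℂ) * ∑ m ∈ range N, f m -
        (M : ℂ)⁻¹ * ∑ m ∈ Ico N M, f m := by
    rw [h1]
    push_cast
    ring
  have h3 : ‖∑ m ∈ range N, f m‖ ≤ N := by
    refine (norm_sum_le _ _).trans ?_
    refine (Finset.sum_le_card_nsmul _ _ 1 fun m _ => hf m).trans ?_
    simp
  have h4 : ‖∑ m ∈ Ico N M, f m‖ ≤ (M : ℝ) - N := by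
    refine (norm_sum_le _ _).trans ?_
    refine (Finset.sum_le_card_nsmul _ _ 1 fun m _ => hf m).trans ?_
    rw [Nat.card_Ico, nsmul_eq_mul, mul_one, Nat.cast_sub hNM]
  have h5 : 0 ≤ (N : ℝ)⁻¹ - (M : ℝ)⁻¹ := by
    rw [sub_nonneg]
    exact inv_anti₀ hN' hNM'
  rw [h2]
  refine (norm_sub_le _ _).trans ?_
  rw [norm_mul, norm_mul, Complex.norm_real, Real.norm_of_nonneg h5, norm_inv,
    Complex.norm_natCast]
  calc ((N : ℝ)⁻¹ - (M : ℝ)⁻¹) * ‖∑ m ∈ range N, f m‖ + (M : ℝ)⁻¹ * ‖∑ m ∈ Ico N M, f m‖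
      ≤ ((N : ℝ)⁻¹ - (M : ℝ)⁻¹) * N + (M : ℝ)⁻¹ * ((M : ℝ) - N) := by gcongr
    _ = 2 * ((M : ℝ) - N) / M := by
        field_simp
        ring

private theorem fsb_group (β : ℝ) (d ℓ : ℕ) :
    ∑ m ∈ range (d * ℓ), ee (m * β) =
      (∑ m ∈ range ℓ, ee (m * (d * β))) * ∑ j ∈ range d, ee (j * β) := by
  induction ℓ with
  | zero => simp
  | succ ℓ ih =>
    rw [Nat.mul_succ, Finset.sum_range_add, ih, Finset.sum_range_succ, add_mul]
    congr 1
    rw [Finset.mul_sum]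
    apply Finset.sum_congr rfl
    intro j _
    rw [← ee_add]
    congr 1
    push_cast
    ring

private theorem fsb_small (β : ℝ) (d ℓ : ℕ) (hd : 0 < d) (hℓ : 0 < ℓ) :
    ‖(ℓ : ℂ)⁻¹ * ∑ m ∈ range ℓ, ee (m * (d * β)) -
      ((d * ℓ : ℕ) : ℂ)⁻¹ * ∑ m ∈ range (d * ℓ), ee (m * β)‖ ≤ 2 * Real.pi * d * |β| := by
  have hd' : (0 : ℝ) < d := by exact_mod_cast hd
  have hℓ' : (0 : ℝ) < ℓ := by exact_mod_cast hℓ
  have hdC : (d : ℂ) ≠ 0 := by exact_mod_cast hd.ne'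
  have hℓC : (ℓ : ℂ) ≠ 0 := by exact_mod_cast hℓ.ne'
  have h1 : ‖∑ j ∈ range d, ee (j * β) - (d : ℂ)‖ ≤ d * (2 * Real.pi * (d * |β|)) := by
    have e1 : ∑ j ∈ range d, ee (j * β) - (d : ℂ) = ∑ j ∈ range d, (ee (j * β) - 1) := by
      rw [Finset.sum_sub_distrib]
      simp
    rw [e1]
    refine (norm_sum_le _ _).trans ?_
    refine (Finset.sum_le_card_nsmul _ _ (2 * Real.pi * (d * |β|)) fun j hj => ?_).trans ?_
    · refine (norm_ee_sub_one _).trans ?_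
      rw [abs_mul, Nat.abs_cast]
      have : (j : ℝ) ≤ d := by exact_mod_cast (mem_range.1 hj).le
      have := Real.pi_pos
      gcongr
    · rw [card_range, nsmul_eq_mul]
  have h2 : (ℓ : ℂ)⁻¹ * ∑ m ∈ range ℓ, ee (m * (d * β)) -
      ((d * ℓ : ℕ) : ℂ)⁻¹ * ∑ m ∈ range (d * ℓ), ee (m * β) =
      -((d : ℂ)⁻¹ * (ℓ : ℂ)⁻¹ * (∑ m ∈ range ℓ, ee (m * (d * β))) *
        (∑ j ∈ range d, ee (j * β) - (d : ℂ))) := by
    rw [fsb_group]
    generalize (∑ m ∈ range ℓ, ee (m * (d * β))) = S1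
    generalize (∑ j ∈ range d, ee (j * β)) = S2
    push_cast
    field_simp
    ring
  rw [h2, norm_neg, norm_mul, norm_mul, norm_mul, norm_inv, norm_inv, Complex.norm_natCast,
    Complex.norm_natCast]
  calc (d : ℝ)⁻¹ * (ℓ : ℝ)⁻¹ * ‖∑ m ∈ range ℓ, ee (m * (d * β))‖ *
        ‖∑ j ∈ range d, ee (j * β) - (d : ℂ)‖
      ≤ (d : ℝ)⁻¹ * (ℓ : ℝ)⁻¹ * ℓ * (d * (2 * Real.pi * (d * |β|))) := by
        gcongr
        exact geom_trivial ℓ _
    _ = 2 * Real.pi * d * |β| := by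
        field_simp

private theorem fsb_nd (r : ℚ) (d : ℕ) (th : ℝ) (h : ¬ r.den ∣ d)
    (hβ : (d : ℝ) * |th - r| ≤ 1 / (2 * r.den)) : 1 / (2 * (r.den : ℝ)) ≤ nd (d * th) := by
  have hden : (0 : ℝ) < r.den := by exact_mod_cast r.den_pos
  set z : ℤ := round (d * th) with hz
  have hne : (d : ℤ) * r.num - z * r.den ≠ 0 := by
    intro h0
    apply h
    have h1 : (r.den : ℤ) ∣ (d : ℤ) * r.num := ⟨z, by linarith⟩
    have h2 : IsCoprime (r.den : ℤ) r.num := by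
      rw [Int.isCoprime_iff_nat_coprime]
      simpa using r.reduced.symm
    have h3 := h2.dvd_of_dvd_mul_right h1
    exact_mod_cast h3
  have h1 : (1 : ℝ) ≤ |(((d : ℤ) * r.num - z * r.den : ℤ) : ℝ)| := by
    exact_mod_cast Int.one_le_abs hne
  have h2 : (d : ℝ) * r - z = (((d : ℤ) * r.num - z * r.den : ℤ) : ℝ) / r.den := by
    rw [eq_div_iff hden.ne']
    have e : (r : ℝ) * r.den = r.num := by exact_mod_cast Rat.mul_den_eq_num r
    push_cast
    linear_combination (d : ℝ) * e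
  have h3 : 1 / (r.den : ℝ) ≤ |(d : ℝ) * r - z| := by
    rw [h2, abs_div, abs_of_pos hden]
    exact div_le_div_of_nonneg_right h1 hden.le
  have h4 : |(d : ℝ) * r - z| ≤ |(d : ℝ) * th - z| + (d : ℝ) * |th - r| := by
    have e : (d : ℝ) * r - z = ((d : ℝ) * th - z) - d * (th - r) := by ring
    rw [e]
    refine (abs_sub _ _).trans ?_
    rw [abs_mul, Nat.abs_cast]
  have h5 : nd (d * th) = |(d : ℝ) * th - z| := rfl
  rw [h5]
  have h6 : 1 / (r.den : ℝ) = 1 / (2 * r.den) + 1 / (2 * r.den) := by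
    field_simp
    ring
  linarith

namespace Dat

private theorem fsb_ll {G : Type} [Group G] (A : Dat G) (c : Fin A.D) (d n : ℕ) (hd : 0 < d) :
    2 ^ (n * A.w c) < A.K c * (d * A.ll c d n) ∧
      A.K c * (d * A.ll c d n) ≤ 2 ^ (n * A.w c) + A.K c * d := by
  have hK : 0 < A.K c := by
    unfold K
    exact pow_pos (Nat.factorial_pos _) _
  have hKd : 0 < A.K c * d := Nat.mul_pos hK hd
  unfold ll
  have h1 := Nat.lt_mul_div_succ (2 ^ (n * A.w c)) hKd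
  have h2 := Nat.mul_div_le (2 ^ (n * A.w c)) (A.K c * d)
  constructor
  · calc 2 ^ (n * A.w c) < A.K c * d * (2 ^ (n * A.w c) / (A.K c * d) + 1) := h1
      _ = A.K c * (d * (2 ^ (n * A.w c) / (A.K c * d) + 1)) := by ring
  · calc A.K c * (d * (2 ^ (n * A.w c) / (A.K c * d) + 1)) =
          A.K c * d * (2 ^ (n * A.w c) / (A.K c * d)) + A.K c * d := by ring
      _ ≤ 2 ^ (n * A.w c) + A.K c * d := by omega

private theorem fsb_K_le {G : Type} [Group G] (A : Dat G) (c : Fin A.D) :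
    1 ≤ A.K c ∧ A.K c ≤ A.P0 := by
  unfold K P0
  refine ⟨Nat.one_le_pow _ _ (Nat.factorial_pos _), ?_⟩
  exact Nat.pow_le_pow_right (Nat.factorial_pos _) (Nat.sub_le _ _)

/-- comparison of one average with the reference average -/
private theorem fsb_phi {G : Type} [Group G] (A : Dat G) (c : Fin A.D) (n Q d : ℕ) (th : ℝ)
    (r : ℚ) (Q1 : ℝ) (hQ1 : 0 < Q1) (hd : 1 ≤ d) (hdQ : d ≤ Q) (hr : (r.den : ℝ) ≤ Q1)
    (hth : |th - r| ≤ 1 / (Q1 * r.den)) (hQQ : 2 * (Q : ℝ) ≤ Q1) (hn : Q1 * Q1 ≤ 2 ^ n) :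
    ‖(A.ll c d n : ℂ)⁻¹ * ∑ m ∈ range (A.ll c d n), ee (m * (d * th)) -
      (if r.den ∣ d then (A.ll c 1 n : ℂ)⁻¹ * ∑ m ∈ range (A.ll c 1 n), ee (m * (th - r)) else 0)‖ ≤
      10 * A.P0 * Q / Q1 := by
  obtain ⟨hK1, hKP⟩ := fsb_K_le A c
  obtain ⟨hl1, hl2⟩ := fsb_ll A c d n hd
  obtain ⟨hL1, hL2⟩ := fsb_ll A c 1 n Nat.one_pos
  have hden : (0 : ℝ) < r.den := by exact_mod_cast r.den_pos
  have hden1 : (1 : ℝ) ≤ r.den := by exact_mod_cast r.den_pos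
  have hKr : (0 : ℝ) < A.K c := by exact_mod_cast hK1
  have hPr : (A.K c : ℝ) ≤ A.P0 := by exact_mod_cast hKP
  have hP1 : (1 : ℝ) ≤ A.P0 := by exact_mod_cast hK1.trans hKP
  have hdr : (1 : ℝ) ≤ d := by exact_mod_cast hd
  have hdQr : (d : ℝ) ≤ Q := by exact_mod_cast hdQ
  have hQ0 : (1 : ℝ) ≤ Q := hdr.trans hdQr
  have hl0 : 0 < A.ll c d n := by unfold ll; exact Nat.succ_pos _
  have hL0 : 0 < A.ll c 1 n := by unfold ll; exact Nat.succ_pos _
  have hlr : (0 : ℝ) < A.ll c d n := by exact_mod_cast hl0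
  have hLr : (0 : ℝ) < A.ll c 1 n := by exact_mod_cast hL0
  have hpow : (2 : ℝ) ^ n ≤ 2 ^ (n * A.w c) := by
    apply pow_le_pow_right₀ (by norm_num)
    unfold w
    exact Nat.le_mul_of_pos_right n (Nat.succ_pos _)
  have hl1r : (2 : ℝ) ^ (n * A.w c) < A.K c * (d * A.ll c d n) := by exact_mod_cast hl1
  have hl2r : (A.K c : ℝ) * (d * A.ll c d n) ≤ 2 ^ (n * A.w c) + A.K c * d := by
    exact_mod_cast hl2
  have hL1r : (2 : ℝ) ^ (n * A.w c) < A.K c * A.ll c 1 n := by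
    have : (2 : ℝ) ^ (n * A.w c) < A.K c * (1 * A.ll c 1 n) := by exact_mod_cast hL1
    rwa [one_mul] at this
  have hL2r : (A.K c : ℝ) * A.ll c 1 n ≤ 2 ^ (n * A.w c) + A.K c := by
    have : (A.K c : ℝ) * (1 * A.ll c 1 n) ≤ 2 ^ (n * A.w c) + A.K c * 1 := by exact_mod_cast hL2
    rwa [one_mul, mul_one] at this
  split_ifs with hdiv
  · -- the denominator divides `d`
    obtain ⟨k, hk⟩ := hdiv
    have hee : ∀ m : ℕ, ee (m * (d * th)) = ee (m * (d * (th - r))) := by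
      intro m
      have e1 : (m : ℝ) * (d * th) = m * (d * (th - r)) + ((m * k * r.num : ℤ) : ℝ) := by
        have e : (r : ℝ) * r.den = r.num := by exact_mod_cast Rat.mul_den_eq_num r
        push_cast
        rw [← e, hk]
        push_cast
        ring
      rw [e1, ee_add, ee_int, mul_one]
    simp only [hee]
    set β : ℝ := th - r with hβ
    have h1 := fsb_small β d (A.ll c d n) hd hl0
    have hβ1 : |β| ≤ 1 / Q1 := by
      refine hth.trans ?_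
      apply one_div_le_one_div_of_le hQ1
      nlinarith
    have h2 : ‖((d * A.ll c d n : ℕ) : ℂ)⁻¹ * ∑ m ∈ range (d * A.ll c d n), ee (m * β) -
        (A.ll c 1 n : ℂ)⁻¹ * ∑ m ∈ range (A.ll c 1 n), ee (m * β)‖ ≤ 2 * A.P0 * Q / Q1 := by
      have hf : ∀ m : ℕ, ‖ee (m * β)‖ ≤ 1 := fun m => (norm_ee _).le
      have hQ1n : Q1 ≤ 2 ^ (n * A.w c) := by
        have : Q1 ≤ Q1 * Q1 := by nlinarith
        linarith
      have hpos : (0 : ℝ) < 2 ^ (n * A.w c) := by positivity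
      have key : ∀ N M : ℕ, 0 < N → N ≤ M → (2 : ℝ) ^ (n * A.w c) < A.K c * M →
          (A.K c : ℝ) * (M - N) ≤ A.K c * d →
          2 * ((M : ℝ) - N) / M ≤ 2 * A.P0 * Q / Q1 := by
        intro N M hN hNM k1 k2
        have k3 : (M : ℝ) - N ≤ d := le_of_mul_le_mul_left k2 hKr
        have hM : (0 : ℝ) < M := by
          by_contra hcon
          have : (A.K c : ℝ) * M ≤ 0 := mul_nonpos_of_nonneg_of_nonpos hKr.le (not_lt.1 hcon)
          linarith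
        rw [div_le_div_iff₀ hM hQ1]
        calc 2 * ((M : ℝ) - N) * Q1 ≤ 2 * Q * Q1 := by
              have : (M : ℝ) - N ≤ Q := k3.trans hdQr
              gcongr
          _ ≤ 2 * Q * (A.K c * M) := by
              have : Q1 ≤ A.K c * M := by linarith
              gcongr
          _ ≤ 2 * Q * (A.P0 * M) := by gcongr
          _ = 2 * A.P0 * Q * M := by ring
      rcases le_total (d * A.ll c d n) (A.ll c 1 n) with hle | hle
      · refine (fsb_avg _ hf _ _ (Nat.mul_pos hd hl0) hle).trans ?_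
        apply key _ _ (Nat.mul_pos hd hl0) hle hL1r
        push_cast
        nlinarith
      · rw [norm_sub_rev]
        refine (fsb_avg _ hf _ _ hL0 hle).trans ?_
        apply key _ _ hL0 hle
        · push_cast
          exact hl1r
        · push_cast
          nlinarith
    have h3 : 2 * Real.pi * d * |β| ≤ 8 * A.P0 * Q / Q1 := by
      have hpi : Real.pi ≤ 4 := Real.pi_le_four
      calc 2 * Real.pi * d * |β| ≤ 2 * 4 * Q * (1 / Q1) := by gcongr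
        _ = 8 * 1 * Q / Q1 := by ring
        _ ≤ 8 * A.P0 * Q / Q1 := by gcongr
    have h4 : 10 * (A.P0 : ℝ) * Q / Q1 = 8 * A.P0 * Q / Q1 + 2 * A.P0 * Q / Q1 := by ring
    rw [h4]
    refine le_trans ?_ (add_le_add (h1.trans h3) h2)
    exact norm_sub_le_norm_sub_add_norm_sub _ _ _
  · -- the denominator does not divide `d`
    rw [sub_zero]
    have hβ : (d : ℝ) * |th - r| ≤ 1 / (2 * r.den) := by
      calc (d : ℝ) * |th - r| ≤ Q * (1 / (Q1 * r.den)) := by gcongr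
        _ = Q / Q1 * (1 / r.den) := by
            field_simp
        _ ≤ 1 / 2 * (1 / r.den) := by
            apply mul_le_mul_of_nonneg_right _ (by positivity)
            rw [div_le_iff₀ hQ1]
            linarith
        _ = 1 / (2 * r.den) := by
            field_simp
    have h1 := fsb_nd r d th hdiv hβ
    have h2 := geom (A.ll c d n) (d * th)
    have h3 : ‖∑ m ∈ range (A.ll c d n), ee (m * (d * th))‖ ≤ r.den := by
      have e1 : 1 / (2 * (r.den : ℝ)) * ‖∑ m ∈ range (A.ll c d n), ee (m * (d * th))‖ ≤ 1 / 2 :=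
        (mul_le_mul_of_nonneg_right h1 (norm_nonneg _)).trans h2
      rw [div_mul_eq_mul_div, one_mul, div_le_iff₀ (by positivity)] at e1
      linarith
    rw [norm_mul, norm_inv, Complex.norm_natCast]
    have h4 : (A.ll c d n : ℝ)⁻¹ ≤ A.P0 * Q / (Q1 * Q1) := by
      rw [inv_eq_one_div, div_le_div_iff₀ hlr (by positivity), one_mul]
      calc Q1 * Q1 ≤ A.K c * (d * A.ll c d n) := by linarith
        _ ≤ A.P0 * (Q * A.ll c d n) := by gcongr
        _ = A.P0 * Q * A.ll c d n := by ring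
    calc (A.ll c d n : ℝ)⁻¹ * ‖∑ m ∈ range (A.ll c d n), ee (m * (d * th))‖
        ≤ A.P0 * Q / (Q1 * Q1) * Q1 := by
          gcongr
          exact h3.trans hr
      _ = A.P0 * Q / Q1 := by
          field_simp
      _ ≤ 10 * A.P0 * Q / Q1 := by
          gcongr
          linarith

theorem fs_bound {G : Type} [Group G] (A : Dat G) : ∃ E : ℕ, ∀ (c : Fin A.D) (v Q n : ℕ) (θ : ℝ),
    Q ≤ 2 ^ v → E * (v + 1) ≤ n → ‖A.fs c Q n θ‖ ≤ 2 := by
  refine ⟨2 * (10 * A.P0 + 4), fun c v Q n θ hQ hn => ?_⟩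
  rcases Nat.eq_zero_or_pos Q with rfl | hQ0
  · unfold fs
    simp
  set th : ℝ := A.K c * θ with hth
  obtain ⟨hK1, hKP⟩ := fsb_K_le A c
  have hP1 : 1 ≤ A.P0 := hK1.trans hKP
  have hP1r : (1 : ℝ) ≤ A.P0 := by exact_mod_cast hP1
  set N : ℕ := 2 ^ (n / 2) with hN
  have hN0 : 0 < N := by positivity
  have hN0r : (0 : ℝ) < N := by exact_mod_cast hN0
  obtain ⟨r, hr1, hr2⟩ := Real.exists_rat_abs_sub_le_and_den_le th hN0
  have hden : (0 : ℝ) < r.den := by exact_mod_cast r.den_pos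
  have hr2' : (r.den : ℝ) ≤ N := by exact_mod_cast hr2
  have hr3 : |th - r| ≤ 1 / ((N : ℝ) * r.den) := by
    refine hr1.trans ?_
    apply one_div_le_one_div_of_le (by positivity)
    gcongr
    linarith
  have hQr : (Q : ℝ) ≤ 2 ^ v := by exact_mod_cast hQ
  have hQ1r : (1 : ℝ) ≤ Q := by exact_mod_cast hQ0
  have hNbig : 10 * (A.P0 : ℝ) * (2 ^ v) ^ 3 ≤ N := by
    have e1 : 10 * A.P0 + 3 * v ≤ n / 2 := by
      rw [Nat.le_div_iff_mul_le (by norm_num)]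
      nlinarith
    have e2 : 10 * A.P0 ≤ 2 ^ (10 * A.P0) := Nat.lt_two_pow_self.le
    have e3 : 10 * A.P0 * (2 ^ v) ^ 3 ≤ N := by
      calc 10 * A.P0 * (2 ^ v) ^ 3 ≤ 2 ^ (10 * A.P0) * (2 ^ v) ^ 3 := Nat.mul_le_mul_right _ e2
        _ = 2 ^ (10 * A.P0 + 3 * v) := by rw [← pow_mul, pow_add, mul_comm v 3]
        _ ≤ 2 ^ (n / 2) := Nat.pow_le_pow_right (by norm_num) e1
    exact_mod_cast e3
  have hQ3 : 10 * (A.P0 : ℝ) * (Q : ℝ) ^ 3 ≤ N := by
    refine le_trans ?_ hNbig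
    gcongr
  have hQQ : 2 * (Q : ℝ) ≤ N := by
    have e1 : (Q : ℝ) ≤ Q ^ 3 := by
      calc (Q : ℝ) = Q ^ 1 := (pow_one _).symm
        _ ≤ Q ^ 3 := pow_le_pow_right₀ hQ1r (by norm_num)
    nlinarith
  have hnn : (N : ℝ) * N ≤ 2 ^ n := by
    have e1 : N * N ≤ 2 ^ n := by
      rw [hN, ← pow_add]
      exact Nat.pow_le_pow_right (by norm_num) (by omega)
    exact_mod_cast e1
  set Φ : ℂ := (A.ll c 1 n : ℂ)⁻¹ * ∑ m ∈ range (A.ll c 1 n), ee (m * (th - r)) with hΦ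
  set φ : ℕ → ℂ := fun d => (A.ll c d n : ℂ)⁻¹ *
    ∑ m ∈ range (A.ll c d n), ee (m * (d * th)) with hφ
  have hΦ1 : ‖Φ‖ ≤ 1 := by
    have hL0 : 0 < A.ll c 1 n := by unfold ll; exact Nat.succ_pos _
    have hLr : (0 : ℝ) < A.ll c 1 n := by exact_mod_cast hL0
    rw [hΦ, norm_mul, norm_inv, Complex.norm_natCast, inv_mul_le_iff₀ hLr, mul_one]
    exact geom_trivial _ _
  have hfs : A.fs c Q n θ = ∑ q ∈ Icc 1 Q, ∑ d ∈ q.divisors,
      ((ArithmeticFunction.moebius (q / d) : ℤ) : ℂ) * φ d := by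
    unfold fs
    apply Finset.sum_congr rfl
    intro q _
    apply Finset.sum_congr rfl
    intro d _
    rw [hφ]
    congr 2
    apply Finset.sum_congr rfl
    intro m _
    congr 1
    rw [hth]
    push_cast
    ring
  have hsplit : A.fs c Q n θ = ∑ q ∈ Icc 1 Q, ∑ d ∈ q.divisors,
        ((ArithmeticFunction.moebius (q / d) : ℤ) : ℂ) * (if r.den ∣ d then Φ else 0) +
      ∑ q ∈ Icc 1 Q, ∑ d ∈ q.divisors,
        ((ArithmeticFunction.moebius (q / d) : ℤ) : ℂ) *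
          (φ d - (if r.den ∣ d then Φ else 0)) := by
    rw [hfs, ← Finset.sum_add_distrib]
    apply Finset.sum_congr rfl
    intro q _
    rw [← Finset.sum_add_distrib]
    apply Finset.sum_congr rfl
    intro d _
    ring
  have hmain : ‖∑ q ∈ Icc 1 Q, ∑ d ∈ q.divisors,
        ((ArithmeticFunction.moebius (q / d) : ℤ) : ℂ) * (if r.den ∣ d then Φ else 0)‖ ≤ 1 := by
    have e1 : ∑ q ∈ Icc 1 Q, ∑ d ∈ q.divisors,
        ((ArithmeticFunction.moebius (q / d) : ℤ) : ℂ) * (if r.den ∣ d then Φ else 0) =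
        ∑ q ∈ Icc 1 Q, if q = r.den then Φ else 0 := by
      apply Finset.sum_congr rfl
      intro q hq
      rw [mem_Icc] at hq
      have e2 := moeb_range (q := q) (q1 := r.den) (by omega) r.den_pos
      have e3 : ∑ d ∈ q.divisors,
          ((ArithmeticFunction.moebius (q / d) : ℤ) : ℂ) * (if r.den ∣ d then Φ else 0) =
          (∑ d ∈ q.divisors with r.den ∣ d, ((ArithmeticFunction.moebius (q / d) : ℤ) : ℂ)) *
            Φ := by
        rw [Finset.sum_filter, Finset.sum_mul]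
        apply Finset.sum_congr rfl
        intro d _
        split_ifs <;> simp
      rw [e3, e2]
      split_ifs <;> simp
    rw [e1, Finset.sum_ite_eq']
    split_ifs
    · exact hΦ1
    · simp
  have herr : ‖∑ q ∈ Icc 1 Q, ∑ d ∈ q.divisors,
        ((ArithmeticFunction.moebius (q / d) : ℤ) : ℂ) *
          (φ d - (if r.den ∣ d then Φ else 0))‖ ≤ 1 := by
    have e1 : ∀ q ∈ Icc 1 Q, ‖∑ d ∈ q.divisors,
        ((ArithmeticFunction.moebius (q / d) : ℤ) : ℂ) *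
          (φ d - (if r.den ∣ d then Φ else 0))‖ ≤ Q * (10 * A.P0 * Q / N) := by
      intro q hq
      rw [mem_Icc] at hq
      refine (norm_sum_le _ _).trans ?_
      refine (Finset.sum_le_card_nsmul _ _ (10 * (A.P0 : ℝ) * Q / N) fun d hd => ?_).trans ?_
      · have hd1 := Nat.pos_of_mem_divisors hd
        have hd2 := (Nat.divisor_le hd).trans hq.2
        rw [norm_mul]
        have e2 := fsb_phi A c n Q d th r N hN0r hd1 hd2 hr2' hr3 hQQ hnn
        calc ‖((ArithmeticFunction.moebius (q / d) : ℤ) : ℂ)‖ *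
              ‖φ d - (if r.den ∣ d then Φ else 0)‖ ≤ 1 * (10 * A.P0 * Q / N) := by
              gcongr
              exact norm_moebius_le _
          _ = 10 * A.P0 * Q / N := one_mul _
      · rw [nsmul_eq_mul]
        have e3 : (q.divisors.card : ℝ) ≤ Q := by
          exact_mod_cast (Nat.card_divisors_le_self q).trans hq.2
        gcongr
    refine (norm_sum_le _ _).trans ?_
    refine (Finset.sum_le_card_nsmul _ _ _ e1).trans ?_
    rw [Nat.card_Icc, nsmul_eq_mul, Nat.add_sub_cancel]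
    have e4 : (Q : ℝ) * (Q * (10 * A.P0 * Q / N)) = 10 * A.P0 * Q ^ 3 / N := by ring
    rw [e4, div_le_one hN0r]
    exact hQ3
  rw [hsplit]
  refine (norm_add_le _ _).trans ?_
  linarith

end Dat

end Pool.Agent.Lib.Npw
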