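import Pool.Agent.Lib.Npw.Circ

/-!
# NPW (N3): inverse theorem for multilinear exponential sums

`many j`: if `s ⊆ [0,L)^j`, `|s| ≥ τ L^j`, `nd ((∏ η) θ) ≤ ε` for all `η ∈ s`, `ε ≤ (τ/C)^C` and `L ≥ (C/τ)^C` then there is `1 ≤ q ≤ (C/τ)^C` with
`nd (q θ) ≤ (C/τ)^C ε / L^j`. Induction on `j` (`j = 0`: `s` nonempty, `∏ = 1`, `q = 1`). Step: for at least `(τ/2) L^(j-1)` values of the last `j-1` coordinates
`η'` there are at least `(τ/2) L` values of the first coordinate with `(h, η') ∈ s`; `vin` with `α = (∏ η') θ`, `B = 2/τ` gives `q ≤ 32/τ` with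
`nd (q (∏ η') θ) ≤ (64/τ) ε / L`; pigeonhole: the same `q` for at least `c τ² L^(j-1)` values `η'`; induction hypothesis for `q θ`.
`weyl_inv`: all terms are `≤ L²`, so at least `(τ/2) L^j` of the `η` have `‖∑_x ..‖² ≥ (τ/2) L²`; by `geom` (`x ↦ e(x β)`, `β = lam (∏ η) θ`) for those
`nd (lam (∏ η) θ) ≤ 1/(2 √(τ/2) L) ≤ 1/(τ L)`. If `L ≥ (C'/τ)^C'` apply `many j` to `lam θ` with `ε = 1/(τ L)`: `nd (q lam θ) ≤ (C/τ)^C/L^(j+1)`, and take `q lam`.
If `L < (C'/τ)^C'`: Dirichlet with bound `L^(j+1)`: there is `1 ≤ q ≤ L^(j+1) ≤ (C'/τ)^(C'(j+1))` with `nd (q θ) ≤ 1/L^(j+1)` (`Real.exists_nat_abs_mul_sub_round_le`).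
(`lam ≥ 1` and `τ ≤ 1`, so `1/τ ≤ lam/τ`, `lam ≤ lam/τ`.)
-/

set_option autoImplicit false

open Finset

namespace Pool.Agent.Lib.Npw

namespace WeylInvAux

/-- fibres over the last coordinates -/
noncomputable def fib {j : ℕ} (L : ℕ) (s : Finset (Fin (j + 1) → ℕ)) (η : Fin j → ℕ) : Finset ℕ :=
  (range L).filter fun h => (Fin.cons h η : Fin (j + 1) → ℕ) ∈ s

lemma sum_fib {j : ℕ} (L : ℕ) (s : Finset (Fin (j + 1) → ℕ))
    (hs : s ⊆ Fintype.piFinset (fun _ : Fin (j + 1) => range L)) :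
    s.card ≤ ∑ η ∈ Fintype.piFinset (fun _ : Fin j => range L), (fib L s η).card := by
  classical
  rw [← Finset.card_sigma]
  apply Finset.card_le_card_of_injOn (fun x => (⟨Fin.tail x, x 0⟩ : Σ _ : Fin j → ℕ, ℕ))
  · intro x hx
    have hx' := Finset.mem_coe.1 hx
    have h1 := Fintype.mem_piFinset.1 (hs hx')
    rw [Finset.mem_coe, Finset.mem_sigma]
    refine ⟨Fintype.mem_piFinset.2 fun i => h1 i.succ, ?_⟩
    rw [fib, Finset.mem_filter]
    refine ⟨h1 0, ?_⟩
    simp only [Fin.cons_self_tail]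
    exact hx'
  · intro x _ y _ hxy
    rw [Sigma.mk.injEq] at hxy
    have h2 := eq_of_heq hxy.2
    have h1 := hxy.1
    rw [← Fin.cons_self_tail x, ← Fin.cons_self_tail y, h1, h2]

/-- the pigeonhole principle for averages -/
lemma avg_good {α : Type*} (S : Finset α) (f : α → ℝ) {M τ : ℝ} (hM : 0 < M)
    (hf : ∀ x ∈ S, f x ≤ M) (hτ : 0 ≤ τ)
    (h : τ * (S.card * M) ≤ ∑ x ∈ S, f x) :
    τ / 2 * S.card ≤ ((S.filter fun x => τ / 2 * M ≤ f x).card : ℝ) := by
  classical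
  have h1 : ∑ x ∈ S, f x ≤ ((S.filter fun x => τ / 2 * M ≤ f x).card : ℝ) * M +
      S.card * (τ / 2 * M) := by
    rw [← Finset.sum_filter_add_sum_filter_not S (fun x => τ / 2 * M ≤ f x)]
    apply add_le_add
    · calc ∑ x ∈ S with τ / 2 * M ≤ f x, f x ≤ ∑ x ∈ S with τ / 2 * M ≤ f x, M :=
          Finset.sum_le_sum fun x hx => hf x (Finset.mem_filter.1 hx).1
        _ = _ := by rw [Finset.sum_const, nsmul_eq_mul]
    · calc ∑ x ∈ S with ¬ τ / 2 * M ≤ f x, f x ≤ ∑ x ∈ S with ¬ τ / 2 * M ≤ f x, τ / 2 * M :=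
          Finset.sum_le_sum fun x hx => (not_le.1 (Finset.mem_filter.1 hx).2).le
        _ = ((S.filter fun x => ¬ τ / 2 * M ≤ f x).card : ℝ) * (τ / 2 * M) := by
          rw [Finset.sum_const, nsmul_eq_mul]
        _ ≤ S.card * (τ / 2 * M) := by
          apply mul_le_mul_of_nonneg_right _ (by positivity)
          exact_mod_cast Finset.card_le_card (Finset.filter_subset _ _)
  have h2 : τ / 2 * S.card * M ≤ ((S.filter fun x => τ / 2 * M ≤ f x).card : ℝ) * M := by
    nlinarith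
  exact le_of_mul_le_mul_right h2 hM

/-- many good values -/
lemma many (j : ℕ) : ∃ C : ℕ, 0 < C ∧ ∀ (L : ℕ) (T θ ε : ℝ) (s : Finset (Fin j → ℕ)),
    1 ≤ T → 0 < ε → C * T ^ C * ε ≤ 1 → C * T ^ C ≤ L →
    s ⊆ Fintype.piFinset (fun _ : Fin j => range L) → (L : ℝ) ^ j ≤ T * s.card →
    (∀ η ∈ s, nd ((∏ i, η i : ℕ) * θ) ≤ ε) →
    ∃ q : ℕ, 0 < q ∧ (q : ℝ) ≤ C * T ^ C ∧ nd (q * θ) ≤ C * T ^ C * ε / (L : ℝ) ^ j := by
  classical
  induction j with
  | zero =>
    refine ⟨1, one_pos, fun L T θ ε s hT hε _ _ _ hcard hnd => ⟨1, one_pos, ?_, ?_⟩⟩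
    · push_cast
      rw [pow_one, one_mul]
      exact hT
    · have h1 : s.Nonempty := by
        rw [← Finset.card_pos]
        by_contra h0
        have : s.card = 0 := by omega
        rw [this, pow_zero] at hcard
        norm_num at hcard
      obtain ⟨η, hη⟩ := h1
      have h2 := hnd η hη
      rw [Fin.prod_univ_zero] at h2
      rw [pow_zero, div_one]
      push_cast at h2 ⊢
      refine h2.trans ?_
      rw [pow_one, one_mul]
      nlinarith
  | succ j ih =>
    obtain ⟨C, hC, H⟩ := ih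
    set C' : ℕ := C * 64 ^ (C + 1) + 2 * C + 128 with hC'
    refine ⟨C', by omega, ?_⟩
    intro L T θ ε s hT hε hε1 hL hs hcard hnd
    have hT0 : 0 < T := by linarith
    have hCr : (1 : ℝ) ≤ C := by exact_mod_cast hC
    -- comparison of constants
    have hpow : T ^ (2 * C + 1) ≤ T ^ C' := pow_le_pow_right₀ hT (by omega)
    have hC'r : (C' : ℝ) = C * 64 ^ (C + 1) + 2 * C + 128 := by rw [hC']; push_cast; ring
    have hC'0 : (0 : ℝ) ≤ C' := Nat.cast_nonneg _
    have hb1 : (C : ℝ) * 64 ^ (C + 1) * T ^ (2 * C + 1) ≤ C' * T ^ C' := by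
      apply mul_le_mul _ hpow (by positivity) hC'0
      rw [hC'r]
      linarith
    have hTC : T ≤ T ^ C' := le_self_pow₀ hT (by omega)
    have hb2 : 128 * T ≤ C' * T ^ C' := by
      apply mul_le_mul _ hTC hT0.le hC'0
      rw [hC'r]
      have : (0 : ℝ) ≤ C * 64 ^ (C + 1) := by positivity
      linarith
    have hL0 : (0 : ℝ) < L := by linarith
    have hLn : 0 < L := by exact_mod_cast hL0
    set PI := Fintype.piFinset (fun _ : Fin j => range L) with hPI
    have hPIc : (PI.card : ℝ) = (L : ℝ) ^ j := by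
      rw [hPI, Fintype.card_piFinset]
      simp
    -- good fibres
    set Gd := PI.filter (fun η => 1 / T / 2 * L ≤ ((fib L s η).card : ℝ)) with hGd
    have hfibL : ∀ η, (fib L s η).card ≤ L := fun η => by
      refine (Finset.card_le_card (Finset.filter_subset _ _)).trans ?_
      rw [Finset.card_range]
    have hGdc : 1 / T / 2 * (L : ℝ) ^ j ≤ Gd.card := by
      rw [← hPIc]
      refine avg_good PI (fun η => ((fib L s η).card : ℝ)) hL0
        (fun η _ => by exact_mod_cast hfibL η) (by positivity) ?_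
      have h1 : (s.card : ℝ) ≤ ∑ η ∈ PI, ((fib L s η).card : ℝ) := by
        exact_mod_cast sum_fib L s hs
      refine le_trans ?_ h1
      rw [hPIc, one_div_mul_eq_div, div_le_iff₀ hT0, ← pow_succ, mul_comm]
      exact hcard
    -- Vinogradov's lemma on the fibres
    have hv : ∀ η ∈ Gd, ∃ q : ℕ, 0 < q ∧ (q : ℝ) ≤ 16 * (2 * T) ∧
        nd (q * ((∏ i, η i : ℕ) * θ)) ≤ 32 * (2 * T) * ε / L := by
      intro η hη
      rw [hGd, Finset.mem_filter] at hη
      refine vin (by linarith) hε ?_ ?_ (fib L s η) ?_ ?_ ?_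
      · calc 64 * (2 * T) * ε = 128 * T * ε := by ring
          _ ≤ C' * T ^ C' * ε := mul_le_mul_of_nonneg_right hb2 hε.le
          _ ≤ 1 := hε1
      · linarith
      · intro h hh
        rw [fib, Finset.mem_filter, Finset.mem_range] at hh
        exact hh.1.le
      · have h1 := hη.2
        rw [one_div, div_mul_eq_mul_div, div_le_iff₀ (by norm_num), inv_mul_le_iff₀ hT0] at h1
        linarith
      · intro h hh
        rw [fib, Finset.mem_filter] at hh
        have h1 := hnd _ hh.2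
        rw [Fin.prod_univ_succ] at h1
        simp only [Fin.cons_zero, Fin.cons_succ] at h1
        push_cast at h1 ⊢
        rw [← mul_assoc]
        exact h1
    choose! qq hq0 hq1 hq2 using hv
    -- pigeonhole
    set QQ : Finset ℕ := Finset.Icc 1 ⌊32 * T⌋₊ with hQQ
    have hmaps : ∀ η ∈ Gd, qq η ∈ QQ := by
      intro η hη
      rw [hQQ, Finset.mem_Icc]
      exact ⟨hq0 η hη, Nat.le_floor (by linarith [hq1 η hη])⟩
    have hQQc : (QQ.card : ℝ) ≤ 32 * T := by
      rw [hQQ, Nat.card_Icc, Nat.add_sub_cancel]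
      exact Nat.floor_le (by positivity)
    have hpig : ∃ q ∈ QQ, (Gd.card : ℝ) ≤ 32 * T * (Gd.filter fun η => qq η = q).card := by
      by_contra hcon
      push Not at hcon
      have h1 : Gd.card = ∑ q ∈ QQ, (Gd.filter fun η => qq η = q).card :=
        Finset.card_eq_sum_card_fiberwise hmaps
      have hQne : QQ.Nonempty := by
        rw [hQQ, Finset.nonempty_Icc]
        exact Nat.le_floor (by push_cast; linarith)
      have h2 : ∑ q ∈ QQ, 32 * T * ((Gd.filter fun η => qq η = q).card : ℝ) <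
          ∑ _q ∈ QQ, (Gd.card : ℝ) := Finset.sum_lt_sum_of_nonempty hQne hcon
      rw [← Finset.mul_sum, Finset.sum_const, nsmul_eq_mul] at h2
      have h3 : ∑ q ∈ QQ, ((Gd.filter fun η => qq η = q).card : ℝ) = Gd.card := by
        rw [h1]
        push_cast
        rfl
      rw [h3] at h2
      have h4 : (QQ.card : ℝ) * Gd.card ≤ 32 * T * Gd.card :=
        mul_le_mul_of_nonneg_right hQQc (Nat.cast_nonneg _)
      linarith
    obtain ⟨q, hqQ, hqc⟩ := hpig
    rw [hQQ, Finset.mem_Icc] at hqQ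
    set s' := Gd.filter fun η => qq η = q with hs'
    have hq32 : (q : ℝ) ≤ 32 * T := by
      have : (q : ℝ) ≤ (⌊32 * T⌋₊ : ℝ) := by exact_mod_cast hqQ.2
      exact this.trans (Nat.floor_le (by positivity))
    -- induction hypothesis
    have hT1 : (1 : ℝ) ≤ T ^ 2 := one_le_pow₀ hT
    have hT2 : (1 : ℝ) ≤ 64 * T ^ 2 := by linarith
    have hcc : (C : ℝ) * (64 * T ^ 2) ^ C * (64 * T) = C * 64 ^ (C + 1) * T ^ (2 * C + 1) := by
      rw [mul_pow, ← pow_mul]
      ring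
    have hcb : (C : ℝ) * (64 * T ^ 2) ^ C * (64 * T) ≤ C' * T ^ C' := hcc ▸ hb1
    have hc0 : (0 : ℝ) ≤ C * (64 * T ^ 2) ^ C := by positivity
    have g1 : (C : ℝ) * (64 * T ^ 2) ^ C * (64 * T * ε / L) ≤ 1 := by
      calc (C : ℝ) * (64 * T ^ 2) ^ C * (64 * T * ε / L)
          = (C * (64 * T ^ 2) ^ C * (64 * T)) * ε / L := by ring
        _ ≤ (C' * T ^ C') * ε / L := by
            apply div_le_div_of_nonneg_right _ hL0.le
            exact mul_le_mul_of_nonneg_right hcb hε.le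
        _ ≤ 1 / L := div_le_div_of_nonneg_right hε1 hL0.le
        _ ≤ 1 := by
            rw [div_le_one hL0]
            exact_mod_cast hLn
    have g2 : (C : ℝ) * (64 * T ^ 2) ^ C ≤ L := by
      refine le_trans ?_ hL
      refine le_trans ?_ hcb
      exact le_mul_of_one_le_right hc0 (by linarith)
    have g3 : s' ⊆ Fintype.piFinset (fun _ : Fin j => range L) :=
      (Finset.filter_subset _ _).trans (Finset.filter_subset _ _)
    have g4 : (L : ℝ) ^ j ≤ 64 * T ^ 2 * s'.card := by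
      have h1 : (L : ℝ) ^ j ≤ 2 * T * Gd.card := by
        have h2 := hGdc
        rw [one_div, div_mul_eq_mul_div, div_le_iff₀ (by norm_num), inv_mul_le_iff₀ hT0] at h2
        linarith
      calc (L : ℝ) ^ j ≤ 2 * T * Gd.card := h1
        _ ≤ 2 * T * (32 * T * s'.card) := mul_le_mul_of_nonneg_left hqc (by positivity)
        _ = 64 * T ^ 2 * s'.card := by ring
    have g5 : ∀ η ∈ s', nd ((∏ i, η i : ℕ) * (q * θ)) ≤ 64 * T * ε / L := by
      intro η hη
      rw [hs', Finset.mem_filter] at hη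
      have h1 := hq2 η hη.1
      rw [hη.2] at h1
      have h2 : ((∏ i, η i : ℕ) : ℝ) * (q * θ) = q * ((∏ i, η i : ℕ) * θ) := by ring
      rw [h2]
      refine h1.trans (le_of_eq ?_)
      ring
    obtain ⟨q', hq'0, hq'1, hq'2⟩ := H L (64 * T ^ 2) (q * θ) (64 * T * ε / L) s' hT2
      (by positivity) g1 g2 g3 g4 g5
    refine ⟨q' * q, Nat.mul_pos hq'0 hqQ.1, ?_, ?_⟩
    · push_cast
      calc (q' : ℝ) * q ≤ (C * (64 * T ^ 2) ^ C) * (64 * T) := by
            apply mul_le_mul hq'1 (by linarith) (Nat.cast_nonneg _) hc0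
        _ ≤ C' * T ^ C' := hcb
    · push_cast
      rw [mul_assoc]
      refine hq'2.trans ?_
      rw [pow_succ]
      calc (C : ℝ) * (64 * T ^ 2) ^ C * (64 * T * ε / L) / (L : ℝ) ^ j
          = (C * (64 * T ^ 2) ^ C * (64 * T)) * ε / ((L : ℝ) ^ j * L) := by
            field_simp
        _ ≤ (C' * T ^ C') * ε / ((L : ℝ) ^ j * L) := by
            apply div_le_div_of_nonneg_right _ (by positivity)
            exact mul_le_mul_of_nonneg_right hcb hε.le

end WeylInvAux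

open WeylInvAux

theorem weyl_inv (j : ℕ) : ∃ C : ℕ, ∀ (L lam : ℕ) (τ θ : ℝ) (ℓ : (Fin j → ℕ) → ℕ), 0 < L →
    0 < lam → 0 < τ → τ ≤ 1 → (∀ η, ℓ η ≤ L) →
    τ * (L : ℝ) ^ (j + 2) ≤ ∑ η ∈ Fintype.piFinset (fun _ : Fin j => range L),
      ‖∑ x ∈ range (ℓ η), ee ((lam * (∏ i, η i) * x : ℕ) * θ)‖ ^ 2 →
    ∃ q : ℕ, 0 < q ∧ (q : ℝ) ≤ C * (lam / τ) ^ C ∧
      nd (q * θ) ≤ C * (lam / τ) ^ C / (L : ℝ) ^ (j + 1) := by
  classical
  obtain ⟨C, hC, H⟩ := many j
  set C2 : ℕ := (C * 2 ^ C + 1) ^ (j + 1) + (C + 1) * (j + 1) + 1 with hC2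
  refine ⟨C2, ?_⟩
  intro L lam τ θ ℓ hL hlam hτ hτ1 hℓ hsum
  have hL0 : (0 : ℝ) < L := by exact_mod_cast hL
  have hL1 : (1 : ℝ) ≤ L := by exact_mod_cast hL
  have hl1 : (1 : ℝ) ≤ lam := by exact_mod_cast hlam
  have hCr : (1 : ℝ) ≤ C := by exact_mod_cast hC
  set T : ℝ := 1 / τ with hT
  have hT1 : 1 ≤ T := by rw [hT, le_div_iff₀ hτ]; linarith
  have hT0 : 0 < T := by linarith
  have hR : (lam : ℝ) / τ = lam * T := by rw [hT]; ring
  rw [hR]
  set R : ℝ := lam * T with hRdef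
  have hTR : T ≤ R := by rw [hRdef]; exact le_mul_of_one_le_left hT0.le hl1
  have hlR : (lam : ℝ) ≤ R := by rw [hRdef]; exact le_mul_of_one_le_right (by linarith) hT1
  have hR1 : 1 ≤ R := hT1.trans hTR
  have hR0 : 0 < R := by linarith
  have hC2r : (C2 : ℝ) = (C * 2 ^ C + 1) ^ (j + 1) + (C + 1) * (j + 1) + 1 := by
    rw [hC2]; push_cast; ring
  have hC20 : (0 : ℝ) ≤ C2 := Nat.cast_nonneg _
  have hbase : (1 : ℝ) ≤ C * 2 ^ C + 1 := by
    have : (0 : ℝ) ≤ C * 2 ^ C := by positivity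
    linarith
  have hc1 : (C : ℝ) * 2 ^ C ≤ C2 := by
    rw [hC2r]
    have h1 : (C : ℝ) * 2 ^ C + 1 ≤ (C * 2 ^ C + 1) ^ (j + 1) := le_self_pow₀ hbase (by omega)
    have h2 : (0 : ℝ) ≤ ((C : ℝ) + 1) * (j + 1) := by positivity
    linarith
  have hc2 : ((C : ℝ) * 2 ^ C) ^ (j + 1) ≤ C2 := by
    rw [hC2r]
    have h1 : ((C : ℝ) * 2 ^ C) ^ (j + 1) ≤ (C * 2 ^ C + 1) ^ (j + 1) :=
      pow_le_pow_left₀ (by positivity) (by linarith) _
    have h2 : (0 : ℝ) ≤ ((C : ℝ) + 1) * (j + 1) := by positivity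
    linarith
  have hexp : (C + 1) * (j + 1) ≤ C2 := by rw [hC2]; omega
  have hexp1 : C + 1 ≤ C2 := le_trans (Nat.le_mul_of_pos_right _ (Nat.succ_pos j)) hexp
  have hbA : (C : ℝ) * (2 * T) ^ C * R ≤ C2 * R ^ C2 := by
    calc (C : ℝ) * (2 * T) ^ C * R = (C * 2 ^ C) * (T ^ C * R) := by rw [mul_pow]; ring
      _ ≤ C2 * R ^ C2 := by
          apply mul_le_mul hc1 _ (by positivity) hC20
          calc T ^ C * R ≤ R ^ C * R :=
                mul_le_mul_of_nonneg_right (pow_le_pow_left₀ hT0.le hTR _) hR0.le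
            _ = R ^ (C + 1) := (pow_succ _ _).symm
            _ ≤ R ^ C2 := pow_le_pow_right₀ hR1 hexp1
  rcases lt_or_ge (L : ℝ) ((C : ℝ) * (2 * T) ^ C * T) with hsmall | hbig
  · -- Dirichlet
    have hn : 0 < L ^ (j + 1) := pow_pos hL _
    obtain ⟨q, hq0, hq1, hq2⟩ := Real.exists_nat_abs_mul_sub_round_le θ hn
    refine ⟨q, hq0, ?_, ?_⟩
    · have h1 : (q : ℝ) ≤ (L : ℝ) ^ (j + 1) := by exact_mod_cast hq1
      refine h1.trans ?_
      calc (L : ℝ) ^ (j + 1) ≤ ((C : ℝ) * (2 * T) ^ C * T) ^ (j + 1) :=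
            pow_le_pow_left₀ hL0.le hsmall.le _
        _ = ((C : ℝ) * 2 ^ C) ^ (j + 1) * T ^ ((C + 1) * (j + 1)) := by
            rw [mul_pow (2 : ℝ) T C, pow_mul, ← mul_pow, pow_succ]
            ring
        _ ≤ C2 * R ^ C2 := by
            apply mul_le_mul hc2 _ (by positivity) hC20
            exact (pow_le_pow_left₀ hT0.le hTR _).trans (pow_le_pow_right₀ hR1 hexp)
    · have h1 : nd (q * θ) ≤ 1 / ((L ^ (j + 1) : ℕ) + 1 : ℝ) :=
        (nd_le (q * θ) (round (q * θ))).trans hq2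
      refine h1.trans ?_
      push_cast
      have hC21 : (1 : ℝ) ≤ C2 * R ^ C2 := by
        have h2 : (1 : ℝ) ≤ R ^ C2 := one_le_pow₀ hR1
        have h3 : (1 : ℝ) ≤ C2 := by
          rw [hC2]
          exact_mod_cast Nat.le_add_left 1 _
        nlinarith
      calc (1 : ℝ) / ((L : ℝ) ^ (j + 1) + 1) ≤ 1 / (L : ℝ) ^ (j + 1) := by
            apply one_div_le_one_div_of_le (by positivity)
            linarith
        _ ≤ C2 * R ^ C2 / (L : ℝ) ^ (j + 1) :=
            div_le_div_of_nonneg_right hC21 (by positivity)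
  · -- many good values
    set PI := Fintype.piFinset (fun _ : Fin j => range L) with hPI
    have hPIc : (PI.card : ℝ) = (L : ℝ) ^ j := by
      rw [hPI, Fintype.card_piFinset]
      simp
    set F : (Fin j → ℕ) → ℝ := fun η =>
      ‖∑ x ∈ range (ℓ η), ee ((lam * (∏ i, η i) * x : ℕ) * θ)‖ with hF
    have hFL : ∀ η, F η ≤ L := by
      intro η
      have h1 := geom_trivial (ℓ η) (fun x => ((lam * (∏ i, η i) * x : ℕ) : ℝ) * θ)
      have h2 : (ℓ η : ℝ) ≤ L := by exact_mod_cast hℓ η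
      exact h1.trans h2
    have hF0 : ∀ η, 0 ≤ F η := fun η => norm_nonneg _
    set s := PI.filter (fun η => τ / 2 * (L : ℝ) ^ 2 ≤ F η ^ 2) with hs
    have hsc : τ / 2 * (L : ℝ) ^ j ≤ s.card := by
      rw [← hPIc]
      refine avg_good PI (fun η => F η ^ 2) (by positivity)
        (fun η _ => pow_le_pow_left₀ (hF0 η) (hFL η) 2) hτ.le ?_
      rw [hPIc, ← pow_add]
      exact hsum
    have hnd : ∀ η ∈ s, nd ((∏ i, η i : ℕ) * (lam * θ)) ≤ T / L := by
      intro η hη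
      rw [hs, Finset.mem_filter] at hη
      have h1 : τ / 2 * L ≤ F η := by
        have h2 : (τ / 2 * L) ^ 2 ≤ F η ^ 2 := by
          refine le_trans ?_ hη.2
          rw [mul_pow]
          apply mul_le_mul_of_nonneg_right _ (by positivity)
          nlinarith
        exact (pow_le_pow_iff_left₀ (by positivity) (hF0 η) (by norm_num)).1 h2
      have h3 := geom (ℓ η) ((∏ i, η i : ℕ) * (lam * θ))
      have h4 : ∑ m ∈ range (ℓ η), ee (m * ((∏ i, η i : ℕ) * (lam * θ))) =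
          ∑ x ∈ range (ℓ η), ee ((lam * (∏ i, η i) * x : ℕ) * θ) := by
        refine Finset.sum_congr rfl fun x _ => ?_
        congr 1
        push_cast
        ring
      rw [h4] at h3
      have h5 : nd ((∏ i, η i : ℕ) * (lam * θ)) * (τ / 2 * L) ≤ 1 / 2 :=
        (mul_le_mul_of_nonneg_left h1 (nd_nonneg _)).trans h3
      rw [hT, div_div, le_div_iff₀ (by positivity)]
      linarith
    have h2T : (1 : ℝ) ≤ 2 * T := by linarith
    have g1 : (C : ℝ) * (2 * T) ^ C * (T / L) ≤ 1 := by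
      calc (C : ℝ) * (2 * T) ^ C * (T / L) = (C * (2 * T) ^ C * T) / L := by ring
        _ ≤ 1 := by rw [div_le_one hL0]; exact hbig
    have g2 : (C : ℝ) * (2 * T) ^ C ≤ L := by
      refine le_trans ?_ hbig
      exact le_mul_of_one_le_right (by positivity) hT1
    have g3 : (L : ℝ) ^ j ≤ 2 * T * s.card := by
      have h1 := hsc
      rw [div_mul_eq_mul_div, div_le_iff₀ (by norm_num)] at h1
      have h2 : T * (τ * (L : ℝ) ^ j) = (L : ℝ) ^ j := by
        rw [hT]
        field_simp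
      calc (L : ℝ) ^ j = T * (τ * (L : ℝ) ^ j) := h2.symm
        _ ≤ T * (s.card * 2) := mul_le_mul_of_nonneg_left h1 hT0.le
        _ = 2 * T * s.card := by ring
    obtain ⟨q, hq0, hq1, hq2⟩ := H L (2 * T) (lam * θ) (T / L) s h2T (by positivity) g1 g2
      (Finset.filter_subset _ _) g3 hnd
    refine ⟨q * lam, Nat.mul_pos hq0 hlam, ?_, ?_⟩
    · push_cast
      calc (q : ℝ) * lam ≤ (C * (2 * T) ^ C) * R :=
            mul_le_mul hq1 hlR (by linarith) (by positivity)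
        _ ≤ C2 * R ^ C2 := hbA
    · push_cast
      rw [mul_assoc]
      refine hq2.trans ?_
      rw [pow_succ]
      calc (C : ℝ) * (2 * T) ^ C * (T / L) / (L : ℝ) ^ j
          = (C * (2 * T) ^ C * T) / ((L : ℝ) ^ j * L) := by field_simp
        _ ≤ (C2 * R ^ C2) / ((L : ℝ) ^ j * L) := by
            apply div_le_div_of_nonneg_right _ (by positivity)
            refine le_trans ?_ hbA
            exact mul_le_mul_of_nonneg_left hTR (by positivity)

end Pool.Agent.Lib.Npw
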