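import Pool.Agent.Lib.Npw.FsNear
import Pool.Agent.Lib.Npw.FsBd
import Pool.Agent.Lib.Npw.WeylInv

/-!
# NPW (N3)+(N2)+(N1) combined

Let `j = lv c`, `w = j + 1`, `L = 2^(n - κ u)`, `lam = (P0 q)^w`, `q ≤ 2^(B u)`, `G = ∑_η ‖∑_x ..‖² ≤ L^(j+2)`, `τ = (1/2)^(B u)`, `C` from `weyl_inv j`.
`a'`: choose `a'` with `C (P0^w 2^(w B) 2^B)^C ≤ 2^a'`, so that `C (lam/τ)^C ≤ 2^(a' u)` for all `u ≥ 1` (`(lam/τ) ≤ (P0^w 2^((w+1)B))^u` for `u ≥ 1`).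
If `G ≤ τ L^(j+2)`: `‖1 - fs‖ ≤ 3` (`fs_bound`, `v = a' u`, `n - b' u ≥ E (a' u + 1)`) gives the claim with constant 9.
Otherwise `weyl_inv` gives `q0 ≤ 2^(a' u)` with `nd (q0 θ) ≤ 2^(a' u)/L^w`, so `nd (q0 (K_c θ)) ≤ P0 2^(a' u) / L^w =: δ` and by `fs_near` (scale `n' = n - b' u`)
`‖1 - fs‖ ≤ C' 2^(E a' u) (2^((n - b' u) w) P0 2^(a' u) / 2^((n - κ u) w) + (1/2)^(n - b' u)) ≤ C'' (2^((E+1) a' u + κ w u - b' u) + 2^(E a' u - b' u))`, as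
`n - b' u ≥ b' u`; this is `≤ C (1/2)^(B u)` if `b' ≥ (E + 1) a' + κ w + B`; and `G ≤ L^(j+2)`.
`u = 0`: `Q = 1` and `fs c 1 n` is a single average of numbers of norm 1, so `‖1 - fs‖² ≤ 4`, `G ≤ L^(j+2)`: constant 4. (For `u ≥ 1`, `n - b' u ≥ b' u ≥ E (a' u + 1)` if
`b' ≥ E (a' + 1)`.)
-/

set_option autoImplicit false

open Finset

namespace Pool.Agent.Lib.Npw

namespace CircAAux

theorem nd_nat_mul (K : ℕ) (x : ℝ) : nd (K * x) ≤ K * nd x := by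
  have h := nd_le (K * x) ((K : ℤ) * round x)
  refine h.trans (le_of_eq ?_)
  unfold nd
  push_cast
  rw [← mul_sub, abs_mul, Nat.abs_cast]

theorem nd_comm_mul (q K : ℕ) (θ : ℝ) : nd (q * (K * θ)) ≤ K * nd (q * θ) := by
  have h : (q : ℝ) * (K * θ) = K * (q * θ) := by ring
  rw [h]
  exact nd_nat_mul K _

theorem triv_bd (j L lam : ℕ) (ℓ : (Fin j → ℕ) → ℕ) (θ : ℝ) (hℓ : ∀ η, ℓ η ≤ L) :
    ∑ η ∈ Fintype.piFinset (fun _ : Fin j => range L),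
      ‖∑ x ∈ range (ℓ η), ee ((lam * (∏ i, η i) * x : ℕ) * θ)‖ ^ 2 ≤ (L : ℝ) ^ (j + 2) := by
  have h1 : ∀ η ∈ Fintype.piFinset (fun _ : Fin j => range L),
      ‖∑ x ∈ range (ℓ η), ee ((lam * (∏ i, η i) * x : ℕ) * θ)‖ ^ 2 ≤ (L : ℝ) ^ 2 := by
    intro η _
    have h2 : ‖∑ x ∈ range (ℓ η), ee ((lam * (∏ i, η i) * x : ℕ) * θ)‖ ≤ L := by
      refine (norm_sum_le _ _).trans ?_
      refine (Finset.sum_le_card_nsmul _ _ 1 fun m _ => (norm_ee _).le).trans ?_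
      rw [card_range, nsmul_eq_mul, mul_one]
      exact_mod_cast hℓ η
    exact pow_le_pow_left₀ (norm_nonneg _) h2 2
  refine (Finset.sum_le_card_nsmul _ _ _ h1).trans (le_of_eq ?_)
  rw [nsmul_eq_mul, Fintype.card_piFinset]
  simp only [card_range, Finset.prod_const, card_univ, Fintype.card_fin]
  push_cast
  ring

/-- the bound of the constants: `C0 (lam/τ)^C0 ≤ 2^(a' u)` -/
theorem const_bd (C0 P w B u q : ℕ) (hu : 1 ≤ u) (hq : q ≤ 2 ^ (B * u)) :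
    (C0 : ℝ) * (((P * q) ^ w : ℕ) / (1 / 2 : ℝ) ^ (B * u)) ^ C0 ≤
      2 ^ ((C0 * P ^ (w * C0) + (w + 1) * B * C0) * u) := by
  have e1 : (((P * q) ^ w : ℕ) : ℝ) / (1 / 2 : ℝ) ^ (B * u) ≤
      P ^ w * 2 ^ ((w + 1) * B * u) := by
    have hqr : (q : ℝ) ≤ 2 ^ (B * u) := by exact_mod_cast hq
    have e2 : (((P * q) ^ w : ℕ) : ℝ) / (1 / 2 : ℝ) ^ (B * u) =
        P ^ w * (q ^ w * 2 ^ (B * u)) := by
      rw [one_div, inv_pow, div_inv_eq_mul]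
      push_cast
      ring
    rw [e2]
    have e3 : (2 : ℝ) ^ ((w + 1) * B * u) = (2 ^ (B * u)) ^ w * 2 ^ (B * u) := by
      rw [← pow_mul, ← pow_add]
      congr 1
      ring
    rw [e3]
    gcongr
  have hnn : (0 : ℝ) ≤ (((P * q) ^ w : ℕ) : ℝ) / (1 / 2 : ℝ) ^ (B * u) := by positivity
  calc (C0 : ℝ) * (((P * q) ^ w : ℕ) / (1 / 2 : ℝ) ^ (B * u)) ^ C0
      ≤ C0 * (P ^ w * 2 ^ ((w + 1) * B * u)) ^ C0 := by gcongr
    _ = (C0 * P ^ (w * C0) : ℕ) * 2 ^ ((w + 1) * B * C0 * u) := by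
        rw [mul_pow, ← pow_mul, ← pow_mul]
        push_cast
        have : (w + 1) * B * u * C0 = (w + 1) * B * C0 * u := by ring
        rw [this]
        ring
    _ ≤ 2 ^ (C0 * P ^ (w * C0) * u) * 2 ^ ((w + 1) * B * C0 * u) := by
        have e4 : C0 * P ^ (w * C0) ≤ 2 ^ (C0 * P ^ (w * C0) * u) := by
          calc C0 * P ^ (w * C0) ≤ 2 ^ (C0 * P ^ (w * C0)) := Nat.lt_two_pow_self.le
            _ ≤ 2 ^ (C0 * P ^ (w * C0) * u) :=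
                Nat.pow_le_pow_right (by norm_num) (Nat.le_mul_of_pos_right _ hu)
        have e5 : ((C0 * P ^ (w * C0) : ℕ) : ℝ) ≤ 2 ^ (C0 * P ^ (w * C0) * u) := by
          exact_mod_cast e4
        gcongr
    _ = 2 ^ ((C0 * P ^ (w * C0) + (w + 1) * B * C0) * u) := by
        rw [← pow_add]
        congr 1
        ring

/-- the numerical estimate in the main case -/
theorem near_bd (C2 E2 P w a' κ B b' u n : ℕ) (hw : 1 ≤ w) (hκ : κ ≤ b')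
    (hb : κ + E2 * a' + a' + B ≤ b') (hn : 2 * b' * u ≤ n) :
    (C2 : ℝ) * 2 ^ (E2 * (a' * u)) * (2 ^ ((n - b' * u) * w) *
      (P * (2 ^ (a' * u) / ((2 : ℝ) ^ (n - κ * u)) ^ w)) + (1 / 2) ^ (n - b' * u)) ≤
      C2 * (P + 1) * (1 / 2) ^ (B * u) := by
  have hbu : b' * u ≤ n := by
    have : b' * u ≤ 2 * b' * u := Nat.mul_le_mul_right _ (by omega)
    exact this.trans hn
  have hκu : κ * u ≤ b' * u := Nat.mul_le_mul_right _ hκ
  -- first term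
  have e1 : (2 : ℝ) ^ ((n - b' * u) * w) * (P * (2 ^ (a' * u) / ((2 : ℝ) ^ (n - κ * u)) ^ w)) ≤
      P * (2 ^ (a' * u) * (1 / 2) ^ ((b' - κ) * u)) := by
    have hpos : (0 : ℝ) < ((2 : ℝ) ^ (n - κ * u)) ^ w := by positivity
    have e2 : (2 : ℝ) ^ ((n - b' * u) * w) ≤
        (1 / 2) ^ ((b' - κ) * u) * ((2 : ℝ) ^ (n - κ * u)) ^ w := by
      have e3 : n - κ * u = (n - b' * u) + (b' - κ) * u := by
        rw [Nat.sub_mul]
        omega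
      rw [e3, pow_add, mul_pow, ← pow_mul]
      have e4 : (1 : ℝ) ≤ (1 / 2) ^ ((b' - κ) * u) * (2 ^ ((b' - κ) * u)) ^ w := by
        have e5 : (2 : ℝ) ^ ((b' - κ) * u) ≤ (2 ^ ((b' - κ) * u)) ^ w :=
          le_self_pow₀ (one_le_pow₀ (by norm_num)) (by omega)
        calc (1 : ℝ) = (1 / 2) ^ ((b' - κ) * u) * 2 ^ ((b' - κ) * u) := by
              rw [← mul_pow]; norm_num
          _ ≤ (1 / 2) ^ ((b' - κ) * u) * (2 ^ ((b' - κ) * u)) ^ w := by gcongr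
      calc (2 : ℝ) ^ ((n - b' * u) * w) = 2 ^ ((n - b' * u) * w) * 1 := (mul_one _).symm
        _ ≤ 2 ^ ((n - b' * u) * w) *
            ((1 / 2) ^ ((b' - κ) * u) * (2 ^ ((b' - κ) * u)) ^ w) := by gcongr
        _ = (1 / 2) ^ ((b' - κ) * u) *
            (2 ^ ((n - b' * u) * w) * (2 ^ ((b' - κ) * u)) ^ w) := by ring
    calc (2 : ℝ) ^ ((n - b' * u) * w) * (P * (2 ^ (a' * u) / ((2 : ℝ) ^ (n - κ * u)) ^ w))
        ≤ ((1 / 2) ^ ((b' - κ) * u) * ((2 : ℝ) ^ (n - κ * u)) ^ w) *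
          (P * (2 ^ (a' * u) / ((2 : ℝ) ^ (n - κ * u)) ^ w)) := by gcongr
      _ = P * (2 ^ (a' * u) * (1 / 2) ^ ((b' - κ) * u)) := by
          field_simp
  -- second term
  have e6 : (1 / 2 : ℝ) ^ (n - b' * u) ≤ 2 ^ (a' * u) * (1 / 2) ^ ((b' - κ) * u) := by
    have e7 : (b' - κ) * u ≤ n - b' * u := by
      have h1 : (b' - κ) * u ≤ b' * u := Nat.mul_le_mul_right _ (Nat.sub_le _ _)
      have h2 : 2 * b' * u = b' * u + b' * u := by ring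
      omega
    calc (1 / 2 : ℝ) ^ (n - b' * u) ≤ (1 / 2) ^ ((b' - κ) * u) :=
          pow_le_pow_of_le_one (by norm_num) (by norm_num) e7
      _ = 1 * (1 / 2) ^ ((b' - κ) * u) := (one_mul _).symm
      _ ≤ 2 ^ (a' * u) * (1 / 2) ^ ((b' - κ) * u) := by
          gcongr
          exact one_le_pow₀ (by norm_num)
  have e8 : (2 : ℝ) ^ (E2 * (a' * u)) * (2 ^ (a' * u) * (1 / 2) ^ ((b' - κ) * u)) ≤
      (1 / 2) ^ (B * u) := by
    have e9 : (b' - κ) * u = (E2 * (a' * u) + a' * u) + (b' - κ - E2 * a' - a') * u := by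
      have h3 : b' - κ = (E2 * a' + a') + (b' - κ - E2 * a' - a') := by omega
      calc (b' - κ) * u = ((E2 * a' + a') + (b' - κ - E2 * a' - a')) * u := by rw [← h3]
        _ = (E2 * (a' * u) + a' * u) + (b' - κ - E2 * a' - a') * u := by ring
    rw [e9, pow_add, ← mul_assoc, ← mul_assoc, ← pow_add, ← mul_pow]
    have e10 : (2 : ℝ) * (1 / 2) = 1 := by norm_num
    rw [e10, one_pow, one_mul]
    apply pow_le_pow_of_le_one (by norm_num) (by norm_num)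
    apply Nat.mul_le_mul_right
    omega
  calc (C2 : ℝ) * 2 ^ (E2 * (a' * u)) * (2 ^ ((n - b' * u) * w) *
      (P * (2 ^ (a' * u) / ((2 : ℝ) ^ (n - κ * u)) ^ w)) + (1 / 2) ^ (n - b' * u))
      ≤ C2 * 2 ^ (E2 * (a' * u)) * (P * (2 ^ (a' * u) * (1 / 2) ^ ((b' - κ) * u)) +
          2 ^ (a' * u) * (1 / 2) ^ ((b' - κ) * u)) := by gcongr
    _ = C2 * (P + 1) * (2 ^ (E2 * (a' * u)) * (2 ^ (a' * u) * (1 / 2) ^ ((b' - κ) * u))) := by
        ring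
    _ ≤ C2 * (P + 1) * (1 / 2) ^ (B * u) := by gcongr

theorem fs_one {G : Type} [Group G] (A : Dat G) (c : Fin A.D) (n : ℕ) (θ : ℝ) :
    ‖A.fs c 1 n θ‖ ≤ 1 := by
  unfold Dat.fs
  rw [Icc_self, sum_singleton, Nat.divisors_one, sum_singleton]
  have hL0 : 0 < A.ll c 1 n := by unfold Dat.ll; exact Nat.succ_pos _
  have hLr : (0 : ℝ) < A.ll c 1 n := by exact_mod_cast hL0
  have h1 : ((ArithmeticFunction.moebius (1 / 1) : ℤ) : ℂ) = 1 := by simp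
  rw [h1, one_mul, norm_mul, norm_inv, Complex.norm_natCast, inv_mul_le_iff₀ hLr, mul_one]
  refine (norm_sum_le _ _).trans ?_
  refine (Finset.sum_le_card_nsmul _ _ 1 fun m _ => (norm_ee _).le).trans ?_
  rw [card_range, nsmul_eq_mul, mul_one]

end CircAAux

open CircAAux

namespace Dat

theorem circ {G : Type} [Group G] (A : Dat G) (c : Fin A.D) (B : ℕ) : ∃ a' : ℕ, ∀ κ : ℕ,
    ∃ b0 : ℕ, ∀ b' : ℕ, b0 ≤ b' → ∃ C : ℕ, ∀ (u n q : ℕ) (ℓ : (Fin (A.lv c) → ℕ) → ℕ) (θ : ℝ),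
    2 * b' * u ≤ n → 0 < q → q ≤ 2 ^ (B * u) → (∀ η, ℓ η ≤ 2 ^ (n - κ * u)) →
    (∑ η ∈ Fintype.piFinset (fun _ : Fin (A.lv c) => range (2 ^ (n - κ * u))),
      ‖∑ x ∈ range (ℓ η), ee (((A.P0 * q) ^ (A.lv c + 1) * (∏ i, η i) * x : ℕ) * θ)‖ ^ 2) *
        ‖1 - A.fs c (2 ^ (a' * u)) (n - b' * u) θ‖ ^ 2 ≤
      C * (1 / 2) ^ (B * u) * ((2 : ℝ) ^ (n - κ * u)) ^ (A.lv c + 2) := by
  obtain ⟨C0, hC0⟩ := weyl_inv (A.lv c)
  obtain ⟨E1, hE1⟩ := fs_bound A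
  obtain ⟨C2, E2, hE2⟩ := fs_near A
  have hK1 : 1 ≤ A.K c := by
    unfold K
    exact Nat.one_le_pow _ _ (Nat.factorial_pos _)
  have hKP : A.K c ≤ A.P0 := by
    unfold K P0
    exact Nat.pow_le_pow_right (Nat.factorial_pos _) (Nat.sub_le _ _)
  have hP0 : 0 < A.P0 := lt_of_lt_of_le hK1 hKP
  set a' : ℕ := C0 * A.P0 ^ ((A.lv c + 1) * C0) + ((A.lv c + 1) + 1) * B * C0 with ha'
  refine ⟨a', fun κ => ⟨κ + E2 * a' + a' + B + E1 * (a' + 1), fun b' hb' =>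
    ⟨9 + (C2 * (A.P0 + 1)) ^ 2, fun u n q ℓ θ hn hq0 hq hℓ => ?_⟩⟩⟩
  have hLcast : ((2 ^ (n - κ * u) : ℕ) : ℝ) = (2 : ℝ) ^ (n - κ * u) := by push_cast; rfl
  have htriv := triv_bd (A.lv c) (2 ^ (n - κ * u)) ((A.P0 * q) ^ (A.lv c + 1)) ℓ θ hℓ
  rw [hLcast] at htriv
  have hweyl := hC0 (2 ^ (n - κ * u)) ((A.P0 * q) ^ (A.lv c + 1)) ((1 / 2) ^ (B * u)) θ ℓ
    (by positivity) (by positivity) (by positivity)
    (pow_le_one₀ (by norm_num) (by norm_num)) hℓ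
  rw [hLcast] at hweyl
  set Gs : ℝ := ∑ η ∈ Fintype.piFinset (fun _ : Fin (A.lv c) => range (2 ^ (n - κ * u))),
      ‖∑ x ∈ range (ℓ η), ee (((A.P0 * q) ^ (A.lv c + 1) * (∏ i, η i) * x : ℕ) * θ)‖ ^ 2 with hGs
  have hG0 : 0 ≤ Gs := by
    rw [hGs]
    exact Finset.sum_nonneg fun η _ => by positivity
  set Lr : ℝ := (2 : ℝ) ^ (n - κ * u) with hLr
  have hLr0 : 0 < Lr := by rw [hLr]; positivity
  have hCc : ((9 + (C2 * (A.P0 + 1)) ^ 2 : ℕ) : ℝ) = 9 + ((C2 : ℝ) * (A.P0 + 1)) ^ 2 := by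
    push_cast
    rfl
  rw [hCc]
  rcases Nat.eq_zero_or_pos u with hu | hu
  · -- `u = 0`
    subst hu
    have h1 : ‖1 - A.fs c (2 ^ (a' * 0)) (n - b' * 0) θ‖ ≤ 2 := by
      rw [Nat.mul_zero, pow_zero]
      refine (norm_sub_le _ _).trans ?_
      have := fs_one A c (n - b' * 0) θ
      rw [norm_one]
      linarith
    have h2 : ‖1 - A.fs c (2 ^ (a' * 0)) (n - b' * 0) θ‖ ^ 2 ≤ 4 := by
      have := pow_le_pow_left₀ (norm_nonneg _) h1 2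
      linarith
    calc Gs * ‖1 - A.fs c (2 ^ (a' * 0)) (n - b' * 0) θ‖ ^ 2
        ≤ Lr ^ (A.lv c + 2) * 4 := by gcongr
      _ ≤ Lr ^ (A.lv c + 2) * (9 + ((C2 : ℝ) * (A.P0 + 1)) ^ 2) := by
          have : (0 : ℝ) ≤ ((C2 : ℝ) * (A.P0 + 1)) ^ 2 := by positivity
          gcongr
          linarith
      _ = (9 + ((C2 : ℝ) * (A.P0 + 1)) ^ 2) * (1 / 2) ^ (B * 0) * Lr ^ (A.lv c + 2) := by
          rw [Nat.mul_zero, pow_zero]
          ring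
  · by_cases hcase : Gs ≤ (1 / 2) ^ (B * u) * Lr ^ (A.lv c + 2)
    · have hE : E1 * (a' * u + 1) ≤ n - b' * u := by
        have h1 : E1 * (a' * u + 1) ≤ E1 * (a' + 1) * u := by
          rw [mul_assoc]
          apply Nat.mul_le_mul_left
          nlinarith
        have h2 : E1 * (a' + 1) * u ≤ b' * u := Nat.mul_le_mul_right _ (by omega)
        have h3 : 2 * b' * u = b' * u + b' * u := by ring
        omega
      have h1 := hE1 c (a' * u) (2 ^ (a' * u)) (n - b' * u) θ le_rfl hE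
      have h2 : ‖1 - A.fs c (2 ^ (a' * u)) (n - b' * u) θ‖ ≤ 3 := by
        refine (norm_sub_le _ _).trans ?_
        rw [norm_one]
        linarith
      have h3 : ‖1 - A.fs c (2 ^ (a' * u)) (n - b' * u) θ‖ ^ 2 ≤ 9 := by
        have := pow_le_pow_left₀ (norm_nonneg _) h2 2
        linarith
      calc Gs * ‖1 - A.fs c (2 ^ (a' * u)) (n - b' * u) θ‖ ^ 2
          ≤ ((1 / 2) ^ (B * u) * Lr ^ (A.lv c + 2)) * 9 := by gcongr
        _ ≤ ((1 / 2) ^ (B * u) * Lr ^ (A.lv c + 2)) *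
            (9 + ((C2 : ℝ) * (A.P0 + 1)) ^ 2) := by
            have : (0 : ℝ) ≤ ((C2 : ℝ) * (A.P0 + 1)) ^ 2 := by positivity
            gcongr
            linarith
        _ = (9 + ((C2 : ℝ) * (A.P0 + 1)) ^ 2) * (1 / 2) ^ (B * u) * Lr ^ (A.lv c + 2) := by ring
    · obtain ⟨q0, hq00, hq01, hq02⟩ := hweyl (not_le.1 hcase).le
      have hbd := const_bd C0 A.P0 (A.lv c + 1) B u q hu hq
      rw [← ha'] at hbd
      have hq03 : (q0 : ℝ) ≤ 2 ^ (a' * u) := hq01.trans hbd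
      have hq04 : q0 ≤ 2 ^ (a' * u) := by exact_mod_cast hq03
      have hnd : nd (q0 * (A.K c * θ)) ≤ A.P0 * (2 ^ (a' * u) / Lr ^ (A.lv c + 1)) := by
        refine (nd_comm_mul q0 (A.K c) θ).trans ?_
        have hPr : (A.K c : ℝ) ≤ A.P0 := by exact_mod_cast hKP
        have h1 : nd (q0 * θ) ≤ 2 ^ (a' * u) / Lr ^ (A.lv c + 1) := by
          refine hq02.trans ?_
          gcongr
        have h2 := nd_nonneg (q0 * θ)
        gcongr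
      have h1 := hE2 c (a' * u) (2 ^ (a' * u)) (n - b' * u) q0 _ θ le_rfl hq00 hq04 hnd
      have h2 := near_bd C2 E2 A.P0 (A.w c) a' κ B b' u n (Nat.succ_le_succ (Nat.zero_le _))
        (by omega) (by omega) hn
      have h3 : ‖1 - A.fs c (2 ^ (a' * u)) (n - b' * u) θ‖ ≤
          C2 * (A.P0 + 1) * (1 / 2) ^ (B * u) := by
        rw [norm_sub_rev]
        exact h1.trans h2
      have h4 : ‖1 - A.fs c (2 ^ (a' * u)) (n - b' * u) θ‖ ^ 2 ≤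
          (C2 * (A.P0 + 1)) ^ 2 * (1 / 2) ^ (B * u) := by
        have h5 := pow_le_pow_left₀ (norm_nonneg _) h3 2
        refine h5.trans ?_
        rw [mul_pow]
        have h6 : ((1 / 2 : ℝ) ^ (B * u)) ^ 2 ≤ (1 / 2) ^ (B * u) := by
          rw [sq]
          have h7 : (1 / 2 : ℝ) ^ (B * u) ≤ 1 := pow_le_one₀ (by norm_num) (by norm_num)
          have h8 : (0 : ℝ) ≤ (1 / 2 : ℝ) ^ (B * u) := by positivity
          nlinarith
        gcongr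
      calc Gs * ‖1 - A.fs c (2 ^ (a' * u)) (n - b' * u) θ‖ ^ 2
          ≤ Lr ^ (A.lv c + 2) * ((C2 * (A.P0 + 1)) ^ 2 * (1 / 2) ^ (B * u)) := by gcongr
        _ ≤ Lr ^ (A.lv c + 2) * ((9 + ((C2 : ℝ) * (A.P0 + 1)) ^ 2) * (1 / 2) ^ (B * u)) := by
            gcongr
            linarith
        _ = (9 + ((C2 : ℝ) * (A.P0 + 1)) ^ 2) * (1 / 2) ^ (B * u) * Lr ^ (A.lv c + 2) := by ring

end Dat

end Pool.Agent.Lib.Npw
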