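import Pool.Agent.Lib.Npw.Defs

/-!
# NPW (Part V): the core proposition (definition)
-/

set_option autoImplicit false

open Finset

namespace Pool.Agent.Lib.Npw

variable {G H : Type} [Group G] [NormedAddCommGroup H] [InnerProductSpace ℂ H] [CompleteSpace H]

namespace Dat

/-- the core proposition -/
def CP (A : Dat G) (R : Rep G H) (c0 : ℕ) : Prop :=
  ∃ a b0 : ℕ, ∀ b : ℕ, b0 ≤ b → ∃ C : ℕ, ∀ u n M : ℕ, 2 * b * u ≤ n → 2 ^ n ≤ M →
    M < 2 ^ (n + 1) →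
    ‖A.AA R M * (1 - A.Pi R c0 (Icc 1 (2 ^ (a * u))) (n - b * u))‖ ≤ C * (1 / 2) ^ u

end Dat

end Pool.Agent.Lib.Npw
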