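import Pool.Agent.Lib.Npw.Defs

/-!
# NPW: further definitions

Right and left invariant operators, local operators, the functions on the circle.
-/

set_option autoImplicit false

open Finset

namespace Pool.Agent.Lib.Npw

/-- `e(x) = exp(2 π i x)` -/
noncomputable def ee (x : ℝ) : ℂ := Complex.exp (2 * Real.pi * x * Complex.I)

/-- distance to the nearest integer -/
noncomputable def nd (x : ℝ) : ℝ := |x - round x|

variable {G H : Type} [Group G] [NormedAddCommGroup H] [InnerProductSpace ℂ H] [CompleteSpace H]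

namespace Dat

variable (A : Dat G) (R : Rep G H)

/-- `T` is right invariant under a box up to `δ` -/
def RI (c0 q x : ℕ) (δ : ℝ) (T : H →L[ℂ] H) : Prop := ∀ y ∈ A.Bx c0 q x, ‖T * R.U y - T‖ ≤ δ

/-- `T` is left invariant under a box up to `δ` -/
def LI (c0 q x : ℕ) (δ : ℝ) (T : H →L[ℂ] H) : Prop := ∀ y ∈ A.Bx c0 q x, ‖R.U y * T - T‖ ≤ δ

/-- linear combinations of `U(g)`, `g` a product of at most `N` small elements, with
`∑ |coefficients| ≤ B` -/
def Loc (N x : ℕ) (B : ℝ) (T : H →L[ℂ] H) : Prop :=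
  ∃ (n : ℕ) (a : Fin n → ℂ) (g : Fin n → G), (∀ i, g i ∈ A.SmN N x) ∧ ∑ i, ‖a i‖ ≤ B ∧
    T = ∑ i, a i • R.U (g i)

/-- `∑_{q ≤ Q} ∑_{d ∣ q} μ(q/d) Cc c d n` -/
noncomputable def fo (c : Fin A.D) (Q n : ℕ) : H →L[ℂ] H :=
  ∑ q ∈ Icc 1 Q, ∑ d ∈ q.divisors, ((ArithmeticFunction.moebius (q / d) : ℤ) : ℂ) • A.Cc R c d n

/-- the function on the circle belonging to `fo` -/
noncomputable def fs (c : Fin A.D) (Q n : ℕ) (θ : ℝ) : ℂ :=
  ∑ q ∈ Icc 1 Q, ∑ d ∈ q.divisors, ((ArithmeticFunction.moebius (q / d) : ℤ) : ℂ) *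
    ((A.ll c d n : ℂ)⁻¹ * ∑ m ∈ range (A.ll c d n), ee ((A.K c * d * m : ℕ) * θ))

end Dat

end Pool.Agent.Lib.Npw
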