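import Pool.Agent.Lib.Npw.Circ
import Pool.Agent.Lib.Npw.Moeb

/-!
# NPW (N2): `fs` is near 1 on the tight major arcs

Let `th = K_c θ`, `nd (q0 th) ≤ δ`: `q0 th = a + β'`, `|β'| ≤ δ`; write `a / q0 = a1 / q1` in lowest terms, `q1 ∣ q0`, `th = a1/q1 + β`, `|β| ≤ δ / q0 ≤ δ`.
For `1 ≤ d ≤ Q` let `φ_d = (1/ℓ_d) ∑_{m<ℓ_d} e(d m th)`, `ℓ_d = ll c d n`, so `fs = ∑_{q≤Q} ∑_{d∣q} μ(q/d) φ_d`.
* `q1 ∣ d`: `e(d m th) = e(d m β)`, so `|φ_d - 1| ≤ 2π d ℓ_d |β| ≤ 2π (2^(n w) + Q P0) δ` (`d ℓ_d ≤ 2^(n w) + d`).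
* `q1 ∤ d` and `d |β| ≤ 1/(2 q1)`: `nd (d th) ≥ 1/q1 - d|β| ≥ 1/(2 q1)`, so by `geom` `|φ_d| ≤ q1 / ℓ_d ≤ Q * P0 Q / 2^n` (`lt_mul_ll`).
* `q1 ∤ d` and `d |β| > 1/(2 q1)`: then `δ ≥ 1/(2 Q^2)` and the claim is trivial: `|fs - 1| ≤ Q^2 + 1` and `2^(n w) δ ≥ 2^n / (2 Q^2)`, while if
  `2^n < 4^v`, `2^(E v) (1/2)^n ≥ 2^((E-2) v)`.
Since `∑_{q≤Q} ∑_{q1∣d∣q} μ(q/d) = ∑_{q≤Q} [q = q1] = 1` (`moeb_range`), `|fs - 1| ≤ ∑∑ (errors) ≤ Q^2 * (..)`.
-/

set_option autoImplicit false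

open Finset

namespace Pool.Agent.Lib.Npw

namespace FsNearAux

variable {G : Type} [Group G]

theorem K_pos (A : Dat G) (c : Fin A.D) : 0 < A.K c := pow_pos (Nat.factorial_pos _) _

theorem K_le (A : Dat G) (c : Fin A.D) : A.K c ≤ A.P0 :=
  Nat.pow_le_pow_right (Nat.factorial_pos _) (Nat.sub_le _ _)

theorem P0_pos (A : Dat G) : 0 < A.P0 := pow_pos (Nat.factorial_pos _) _

theorem ll_pos (A : Dat G) (c : Fin A.D) (d n : ℕ) : 0 < A.ll c d n := Nat.succ_pos _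

theorem ll_le (A : Dat G) (c : Fin A.D) {d : ℕ} (n : ℕ) :
    d * A.ll c d n ≤ 2 ^ (n * A.w c) + A.P0 * d := by
  unfold Dat.ll
  have h1 : A.K c * d * (2 ^ (n * A.w c) / (A.K c * d)) ≤ 2 ^ (n * A.w c) := Nat.mul_div_le _ _
  have h2 : d * (2 ^ (n * A.w c) / (A.K c * d)) ≤
      A.K c * d * (2 ^ (n * A.w c) / (A.K c * d)) :=
    Nat.mul_le_mul_right _ (Nat.le_mul_of_pos_left _ (K_pos A c))
  have h3 : d ≤ A.P0 * d := Nat.le_mul_of_pos_left _ (P0_pos A)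
  calc d * (2 ^ (n * A.w c) / (A.K c * d) + 1) = d * (2 ^ (n * A.w c) / (A.K c * d)) + d := by ring
    _ ≤ _ := Nat.add_le_add (h2.trans h1) h3

theorem lt_ll (A : Dat G) (c : Fin A.D) {d : ℕ} (hd : 0 < d) (n : ℕ) :
    2 ^ n ≤ A.P0 * d * A.ll c d n := by
  have h0 : 0 < A.K c * d := Nat.mul_pos (K_pos A c) hd
  have h1 : 2 ^ (n * A.w c) < A.K c * d * (2 ^ (n * A.w c) / (A.K c * d) + 1) :=
    Nat.lt_mul_div_succ _ h0
  have h2 : (2:ℕ) ^ n ≤ 2 ^ (n * A.w c) :=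
    Nat.pow_le_pow_right (by norm_num) (Nat.le_mul_of_pos_right _ (Nat.succ_pos _))
  have h3 : A.K c * d * (2 ^ (n * A.w c) / (A.K c * d) + 1) ≤ A.P0 * d * A.ll c d n := by
    unfold Dat.ll
    exact Nat.mul_le_mul_right _ (Nat.mul_le_mul_right _ (K_le A c))
  omega

/-- the cyclic average on the circle -/
noncomputable def phi (A : Dat G) (c : Fin A.D) (n d : ℕ) (θ : ℝ) : ℂ :=
  (A.ll c d n : ℂ)⁻¹ * ∑ m ∈ range (A.ll c d n), ee ((A.K c * d * m : ℕ) * θ)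

theorem phi_eq (A : Dat G) (c : Fin A.D) (n d : ℕ) (θ : ℝ) : phi A c n d θ =
    (A.ll c d n : ℂ)⁻¹ * ∑ m ∈ range (A.ll c d n), ee (m * (d * (A.K c * θ))) := by
  unfold phi
  congr 1
  apply sum_congr rfl
  intro m _
  congr 1
  push_cast
  ring

theorem norm_phi_le (A : Dat G) (c : Fin A.D) (n d : ℕ) (θ : ℝ) : ‖phi A c n d θ‖ ≤ 1 := by
  have hl : (0:ℝ) < A.ll c d n := by exact_mod_cast ll_pos A c d n
  unfold phi
  rw [norm_mul, norm_inv, Complex.norm_natCast, inv_mul_le_iff₀ hl, mul_one]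
  exact geom_trivial _ _

theorem near_one (A : Dat G) (c : Fin A.D) (n d : ℕ) (θ β : ℝ) (z : ℤ)
    (h : d * (A.K c * θ) = z + d * β) :
    ‖phi A c n d θ - 1‖ ≤ 2 * Real.pi * (d * A.ll c d n) * |β| := by
  have hl : (0:ℝ) < A.ll c d n := by exact_mod_cast ll_pos A c d n
  have hlc : (A.ll c d n : ℂ) ≠ 0 := by
    exact_mod_cast (ll_pos A c d n).ne'
  rw [phi_eq]
  have h1 : ∀ m ∈ range (A.ll c d n), ee (m * (d * (A.K c * θ))) = ee (m * (d * β)) := by
    intro m _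
    rw [h, mul_add, ee_add]
    have : (m : ℝ) * (z : ℝ) = ((m * z : ℤ) : ℝ) := by push_cast; ring
    rw [this, ee_int, one_mul]
  rw [sum_congr rfl h1]
  have h2 : (A.ll c d n : ℂ)⁻¹ * ∑ m ∈ range (A.ll c d n), ee (m * (d * β)) - 1 =
      (A.ll c d n : ℂ)⁻¹ * ∑ m ∈ range (A.ll c d n), (ee (m * (d * β)) - 1) := by
    rw [sum_sub_distrib, mul_sub]
    congr 1
    simp [hlc]
  rw [h2, norm_mul, norm_inv, Complex.norm_natCast, inv_mul_le_iff₀ hl]
  refine (norm_sum_le _ _).trans ?_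
  calc ∑ m ∈ range (A.ll c d n), ‖ee (m * (d * β)) - 1‖ ≤
      ∑ _m ∈ range (A.ll c d n), 2 * Real.pi * (d * A.ll c d n) * |β| := by
        apply sum_le_sum
        intro m hm
        refine (norm_ee_sub_one _).trans ?_
        rw [abs_mul, abs_mul, Nat.abs_cast, Nat.abs_cast]
        have hm' : (m : ℝ) ≤ A.ll c d n := by
          exact_mod_cast (mem_range.1 hm).le
        have h3 : (m : ℝ) * (d * |β|) ≤ A.ll c d n * (d * |β|) :=
          mul_le_mul_of_nonneg_right hm' (by positivity)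
        have h4 : 2 * Real.pi * ((m : ℝ) * (d * |β|)) ≤
            2 * Real.pi * (A.ll c d n * (d * |β|)) :=
          mul_le_mul_of_nonneg_left h3 (by positivity)
        linarith
    _ = _ := by rw [sum_const, card_range, nsmul_eq_mul]

theorem far (A : Dat G) (c : Fin A.D) (n : ℕ) {d Q : ℕ} (hd : 0 < d) (hdQ : d ≤ Q) (θ : ℝ)
    {q1 : ℕ} (hq1 : 0 < q1) (hqQ : q1 ≤ Q) (h : 1 / (2 * (q1 : ℝ)) ≤ nd (d * (A.K c * θ))) :
    ‖phi A c n d θ‖ ≤ (Q : ℝ) ^ 2 * A.P0 * (1 / 2) ^ n := by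
  have hl : (0:ℝ) < A.ll c d n := by exact_mod_cast ll_pos A c d n
  have hq : (0:ℝ) < q1 := by exact_mod_cast hq1
  have hQ : (q1:ℝ) ≤ Q := by exact_mod_cast hqQ
  have hdQ' : (d:ℝ) ≤ Q := by exact_mod_cast hdQ
  have hP : (0:ℝ) < A.P0 := by exact_mod_cast P0_pos A
  rw [phi_eq, norm_mul, norm_inv, Complex.norm_natCast, inv_mul_le_iff₀ hl]
  set S := ‖∑ m ∈ range (A.ll c d n), ee (m * (d * (A.K c * θ)))‖ with hS
  have hg := geom (A.ll c d n) (d * (A.K c * θ))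
  have h1 : 1 / (2 * (q1 : ℝ)) * S ≤ 1 / 2 :=
    (mul_le_mul_of_nonneg_right h (norm_nonneg _)).trans hg
  have h2 : S ≤ q1 := by
    have h3 := mul_le_mul_of_nonneg_left h1 (by positivity : (0:ℝ) ≤ 2 * q1)
    have h4 : 2 * (q1:ℝ) * (1 / (2 * (q1 : ℝ)) * S) = S := by field_simp
    rw [h4] at h3
    linarith
  have h5 : (2:ℝ) ^ n ≤ A.P0 * d * A.ll c d n := by exact_mod_cast lt_ll A c hd n
  have h6 : (1:ℝ) ≤ A.P0 * Q * A.ll c d n * (1 / 2) ^ n := by
    have h7 : (2:ℝ) ^ n * (1 / 2) ^ n = 1 := by rw [← mul_pow]; norm_num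
    calc (1:ℝ) = (2:ℝ) ^ n * (1 / 2) ^ n := h7.symm
      _ ≤ (A.P0 * d * A.ll c d n) * (1 / 2) ^ n := mul_le_mul_of_nonneg_right h5 (by positivity)
      _ ≤ _ := by
          apply mul_le_mul_of_nonneg_right _ (by positivity)
          apply mul_le_mul_of_nonneg_right _ hl.le
          exact mul_le_mul_of_nonneg_left hdQ' hP.le
  calc S ≤ Q := h2.trans hQ
    _ = Q * 1 := (mul_one _).symm
    _ ≤ Q * (A.P0 * Q * A.ll c d n * (1 / 2) ^ n) :=
        mul_le_mul_of_nonneg_left h6 (Nat.cast_nonneg _)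
    _ = _ := by ring

theorem nd_frac {q1 : ℕ} (hq1 : 0 < q1) {b : ℤ} (hb : ¬ (q1 : ℤ) ∣ b) :
    1 / (q1 : ℝ) ≤ nd (b / q1) := by
  have hq : (0:ℝ) < q1 := by exact_mod_cast hq1
  unfold nd
  set z := round ((b:ℝ) / q1) with hz
  have h2 : (b:ℝ) / q1 - z = ((b - z * q1 : ℤ) : ℝ) / q1 := by
    push_cast
    field_simp
  rw [h2, abs_div, abs_of_pos hq]
  apply div_le_div_of_nonneg_right _ hq.le
  have h3 : (b - z * q1 : ℤ) ≠ 0 := by
    intro h0
    exact hb ⟨z, by linarith⟩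
  exact_mod_cast Int.one_le_abs h3

end FsNearAux

namespace Dat

open FsNearAux in
theorem fs_near {G : Type} [Group G] (A : Dat G) : ∃ C E : ℕ, ∀ (c : Fin A.D) (v Q n q0 : ℕ)
    (δ θ : ℝ), Q ≤ 2 ^ v → 1 ≤ q0 → q0 ≤ Q → nd (q0 * (A.K c * θ)) ≤ δ →
    ‖A.fs c Q n θ - 1‖ ≤ C * 2 ^ (E * v) * (2 ^ (n * A.w c) * δ + (1 / 2) ^ n) := by
  refine ⟨8 * A.P0 + 10, 4, ?_⟩
  intro c v Q n q0 δ θ hQv hq0 hq0Q hnd
  have hQ1 : 1 ≤ Q := hq0.trans hq0Q
  have hQr : (1:ℝ) ≤ Q := by exact_mod_cast hQ1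
  have hP : (1:ℝ) ≤ A.P0 := by exact_mod_cast P0_pos A
  have hδ : 0 ≤ δ := (nd_nonneg _).trans hnd
  have hq0r : (1:ℝ) ≤ q0 := by exact_mod_cast hq0
  set M : ℝ := 2 ^ (n * A.w c) with hM
  have hM1 : 1 ≤ M := one_le_pow₀ (by norm_num)
  -- rational approximation
  obtain ⟨a, β', hab, hβ'⟩ := exists_nd (q0 * (A.K c * θ))
  have hβδ : |β'| ≤ δ := by rw [hβ']; exact hnd
  set r : ℚ := (a : ℚ) / (q0 : ℚ) with hr
  set q1 : ℕ := r.den with hq1
  have hq1pos : 0 < q1 := r.den_pos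
  have hq1r : (0:ℝ) < q1 := by exact_mod_cast hq1pos
  have hdvd : q1 ∣ q0 := by
    have h1 : ((r.den : ℤ)) ∣ (q0 : ℤ) := by
      have h0 := Rat.den_dvd a (q0 : ℤ)
      rw [Rat.divInt_eq_div] at h0
      have e : ((a : ℚ) / ((q0 : ℤ) : ℚ)) = r := by
        rw [hr]; push_cast; rfl
      rwa [e] at h0
    exact_mod_cast h1
  have hq1Q : q1 ≤ Q := (Nat.le_of_dvd (by omega) hdvd).trans hq0Q
  have hrr : (r.num : ℝ) / (q1 : ℝ) = (a : ℝ) / (q0 : ℝ) := by
    have h1 : ((r.num : ℚ) / (r.den : ℚ)) = (a : ℚ) / (q0 : ℚ) := by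
      rw [Rat.num_div_den r]
    have h2 : (((r.num : ℚ) / (r.den : ℚ) : ℚ) : ℝ) = (((a : ℚ) / (q0 : ℚ) : ℚ) : ℝ) := by
      rw [h1]
    push_cast at h2
    exact h2
  set β : ℝ := β' / q0 with hβ
  have hth : A.K c * θ = r.num / q1 + β := by
    rw [hrr, hβ, ← add_div, ← hab]
    field_simp
  have hββ : |β| ≤ δ := by
    rw [hβ, abs_div, Nat.abs_cast]
    refine (div_le_self (abs_nonneg _) hq0r).trans hβδ
  -- the error of one average
  set Er : ℝ := (Q:ℝ) ^ 2 * ((8 * A.P0 + 10) * (M * δ + (1 / 2) ^ n)) with hEr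
  have hhalf : (0:ℝ) < (1 / 2) ^ n := by positivity
  have hone : ∀ d : ℕ, 0 < d → d ≤ Q → ‖phi A c n d θ - (if q1 ∣ d then 1 else 0)‖ ≤ Er := by
    intro d hd hdQ
    have hdQ' : (d:ℝ) ≤ Q := by exact_mod_cast hdQ
    split_ifs with hdiv
    · obtain ⟨e, he⟩ := hdiv
      have h1 : (d:ℝ) * (A.K c * θ) = ((e * r.num : ℤ) : ℝ) + d * β := by
        rw [hth, he]
        push_cast
        field_simp
      refine (near_one A c n d θ β _ h1).trans ?_
      have h2 : ((d * A.ll c d n : ℕ) : ℝ) ≤ ((2 ^ (n * A.w c) + A.P0 * d : ℕ) : ℝ) := by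
        exact_mod_cast ll_le A c n
      push_cast at h2
      have h3 : (d:ℝ) * A.ll c d n ≤ M * (1 + A.P0 * Q) := by
        have h4 : (A.P0 : ℝ) * d ≤ A.P0 * Q := mul_le_mul_of_nonneg_left hdQ' (by linarith)
        have h5 : (A.P0 : ℝ) * Q ≤ M * (A.P0 * Q) :=
          le_mul_of_one_le_left (by positivity) hM1
        have h6 : M * (1 + A.P0 * Q) = M + M * (A.P0 * Q) := by ring
        rw [h6]
        rw [← hM] at h2
        linarith
      have hpi : Real.pi ≤ 4 := Real.pi_le_four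
      have h6 : 2 * Real.pi * (d * A.ll c d n) * |β| ≤ 8 * (M * (1 + A.P0 * Q)) * δ := by
        apply mul_le_mul _ hββ (abs_nonneg _) (by positivity)
        apply mul_le_mul _ h3 (by positivity) (by positivity)
        linarith
      refine h6.trans ?_
      have h7 : (1:ℝ) + A.P0 * Q ≤ Q ^ 2 * (1 + A.P0) := by
        have q1' : (1:ℝ) ≤ Q ^ 2 := one_le_pow₀ hQr
        have q2' : (Q:ℝ) ≤ Q ^ 2 := by nlinarith
        have q3' : (A.P0:ℝ) * Q ≤ A.P0 * Q ^ 2 := mul_le_mul_of_nonneg_left q2' (by linarith)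
        linarith
      have h8 : 8 * (M * (1 + A.P0 * Q)) * δ ≤ 8 * (M * (Q ^ 2 * (1 + A.P0))) * δ := by
        apply mul_le_mul_of_nonneg_right _ hδ
        apply mul_le_mul_of_nonneg_left _ (by norm_num)
        exact mul_le_mul_of_nonneg_left h7 (by positivity)
      refine h8.trans ?_
      rw [hEr]
      have h9 : 0 ≤ (Q:ℝ) ^ 2 * ((8 * A.P0 + 10) * (1 / 2) ^ n) := by positivity
      have h10 : 0 ≤ (Q:ℝ) ^ 2 * (2 * (M * δ)) := by positivity
      nlinarith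
    · rw [sub_zero]
      by_cases hb : (d:ℝ) * |β| ≤ 1 / (2 * q1)
      · have hnum : ¬ (q1 : ℤ) ∣ (d : ℤ) * r.num := by
          intro h0
          have h5 : IsCoprime (q1 : ℤ) r.num := by
            have := r.reduced
            rw [Int.isCoprime_iff_gcd_eq_one, Int.gcd_comm]
            simpa [Int.gcd] using this
          have h6 : (q1 : ℤ) ∣ d := h5.dvd_of_dvd_mul_right h0
          exact hdiv (by exact_mod_cast h6)
        have h1 := nd_frac hq1pos hnum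
        have h2 : (d:ℝ) * (A.K c * θ) = (((d : ℤ) * r.num : ℤ) : ℝ) / q1 + d * β := by
          rw [hth]
          push_cast
          ring
        have h3 : nd ((((d : ℤ) * r.num : ℤ) : ℝ) / q1) ≤ nd (d * (A.K c * θ)) + d * |β| := by
          have h4 : (((d : ℤ) * r.num : ℤ) : ℝ) / q1 = d * (A.K c * θ) + (-(d * β)) := by
            rw [h2]; ring
          rw [h4]
          refine (nd_add _ _).trans ?_
          apply add_le_add le_rfl
          refine (nd_le_abs _).trans (le_of_eq ?_)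
          rw [abs_neg, abs_mul, Nat.abs_cast]
        have h4 : 1 / (q1 : ℝ) = 1 / (2 * (q1 : ℝ)) + 1 / (2 * (q1 : ℝ)) := by
          field_simp
          norm_num
        refine (far A c n hd hdQ θ hq1pos hq1Q (by linarith)).trans ?_
        rw [hEr]
        have h9 : 0 ≤ (Q:ℝ) ^ 2 * ((8 * A.P0 + 10) * (M * δ)) := by positivity
        have h10 : 0 ≤ (Q:ℝ) ^ 2 * ((7 * A.P0 + 10) * (1 / 2) ^ n) := by positivity
        nlinarith
      · push Not at hb
        have hd0 : (0:ℝ) < d := by exact_mod_cast hd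
        have h1 : 1 / (2 * (q1:ℝ)) < Q * δ := by
          refine lt_of_lt_of_le hb ?_
          exact mul_le_mul hdQ' hββ (abs_nonneg _) (by linarith)
        have h2 : (1:ℝ) < 2 * q1 * (Q * δ) := by
          rw [div_lt_iff₀ (by positivity)] at h1
          linarith
        have hq1Qr : (q1:ℝ) ≤ Q := by exact_mod_cast hq1Q
        have h3 : 2 * (q1:ℝ) * (Q * δ) ≤ 2 * Q * (Q * δ) := by
          apply mul_le_mul_of_nonneg_right _ (by positivity)
          linarith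
        refine (norm_phi_le A c n d θ).trans ?_
        have h4 : (1:ℝ) ≤ Q ^ 2 * (2 * δ) := by nlinarith
        refine h4.trans ?_
        rw [hEr]
        apply mul_le_mul_of_nonneg_left _ (by positivity)
        have h5 : δ ≤ M * δ := le_mul_of_one_le_left hδ hM1
        have h6 : 0 ≤ (A.P0:ℝ) * (M * δ) := by positivity
        have h7 : 0 ≤ (8 * (A.P0:ℝ) + 10) * (1 / 2) ^ n := by positivity
        nlinarith
  -- the main term
  have hmain : ∑ q ∈ Icc 1 Q, ∑ d ∈ q.divisors, ((ArithmeticFunction.moebius (q / d) : ℤ) : ℂ) *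
      (if q1 ∣ d then 1 else 0) = 1 := by
    have h1 : ∀ q ∈ Icc 1 Q, ∑ d ∈ q.divisors, ((ArithmeticFunction.moebius (q / d) : ℤ) : ℂ) *
        (if q1 ∣ d then 1 else 0) = if q = q1 then 1 else 0 := by
      intro q hq
      rw [← moeb_range (by have := (mem_Icc.1 hq).1; omega) hq1pos, sum_filter]
      apply sum_congr rfl
      intro d _
      split_ifs <;> simp
    rw [sum_congr rfl h1, sum_ite_eq', if_pos (mem_Icc.2 ⟨hq1pos, hq1Q⟩)]
  have hfs : A.fs c Q n θ - 1 = ∑ q ∈ Icc 1 Q, ∑ d ∈ q.divisors,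
      ((ArithmeticFunction.moebius (q / d) : ℤ) : ℂ) *
        (phi A c n d θ - (if q1 ∣ d then 1 else 0)) := by
    have hm : A.fs c Q n θ - 1 = A.fs c Q n θ - ∑ q ∈ Icc 1 Q, ∑ d ∈ q.divisors,
        ((ArithmeticFunction.moebius (q / d) : ℤ) : ℂ) * (if q1 ∣ d then 1 else 0) := by
      rw [hmain]
    rw [hm]
    unfold Dat.fs
    rw [← sum_sub_distrib]
    apply sum_congr rfl
    intro q _
    rw [← sum_sub_distrib]
    apply sum_congr rfl
    intro d _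
    rw [mul_sub]
    rfl
  rw [hfs]
  have hEr0 : 0 ≤ Er := by rw [hEr]; positivity
  have hb1 : ‖∑ q ∈ Icc 1 Q, ∑ d ∈ q.divisors,
      ((ArithmeticFunction.moebius (q / d) : ℤ) : ℂ) *
        (phi A c n d θ - (if q1 ∣ d then 1 else 0))‖ ≤ Q * (Q * Er) := by
    refine (norm_sum_le _ _).trans ?_
    calc ∑ q ∈ Icc 1 Q, ‖∑ d ∈ q.divisors, ((ArithmeticFunction.moebius (q / d) : ℤ) : ℂ) *
        (phi A c n d θ - (if q1 ∣ d then 1 else 0))‖ ≤ ∑ _q ∈ Icc 1 Q, (Q:ℝ) * Er := by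
          apply sum_le_sum
          intro q hq
          have hq' := mem_Icc.1 hq
          refine (norm_sum_le _ _).trans ?_
          calc ∑ d ∈ q.divisors, ‖((ArithmeticFunction.moebius (q / d) : ℤ) : ℂ) *
              (phi A c n d θ - (if q1 ∣ d then 1 else 0))‖ ≤ ∑ _d ∈ q.divisors, Er := by
                apply sum_le_sum
                intro d hd
                rw [norm_mul]
                have hd0 : 0 < d := Nat.pos_of_mem_divisors hd
                have hdq : d ≤ q := Nat.divisor_le hd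
                have h1 := hone d hd0 (hdq.trans hq'.2)
                have h2 := norm_moebius_le (q / d)
                calc _ ≤ 1 * Er := mul_le_mul h2 h1 (norm_nonneg _) zero_le_one
                  _ = Er := one_mul _
            _ = (q.divisors.card : ℝ) * Er := by rw [sum_const, nsmul_eq_mul]
            _ ≤ (Q:ℝ) * Er := by
                apply mul_le_mul_of_nonneg_right _ hEr0
                have h1 : q.divisors.card ≤ q := Nat.card_divisors_le_self q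
                exact_mod_cast h1.trans hq'.2
      _ = Q * (Q * Er) := by
          rw [sum_const, nsmul_eq_mul, Nat.card_Icc]
          congr 1
  refine hb1.trans ?_
  have hQ4 : (Q:ℝ) ^ 4 ≤ 2 ^ (4 * v) := by
    have h1 : (Q:ℝ) ≤ 2 ^ v := by exact_mod_cast hQv
    calc (Q:ℝ) ^ 4 ≤ (2 ^ v) ^ 4 := pow_le_pow_left₀ (by positivity) h1 4
      _ = 2 ^ (4 * v) := by rw [← pow_mul, mul_comm]
  have h2 : (Q:ℝ) * (Q * Er) = Q ^ 4 * ((8 * A.P0 + 10) * (M * δ + (1 / 2) ^ n)) := by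
    rw [hEr]; ring
  rw [h2]
  have h3 : (Q:ℝ) ^ 4 * ((8 * A.P0 + 10) * (M * δ + (1 / 2) ^ n)) ≤
      2 ^ (4 * v) * ((8 * A.P0 + 10) * (M * δ + (1 / 2) ^ n)) :=
    mul_le_mul_of_nonneg_right hQ4 (by positivity)
  refine h3.trans (le_of_eq ?_)
  push_cast
  ring

end Dat

end Pool.Agent.Lib.Npw
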