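import Pool.Agent.Lib.Npw.LocA

/-!
# NPW (B1): right invariance of `Ph`

Downward induction on `c0` (for `c0 ≥ D` the box is empty, `Bx_top`): assume constants `C', E'` for
`c0 + 1`, `c0 < D`. Take `E = A.J * (1 + C1 + E') + 1`, `C = 2 + (C1 + 1) * C'`. For `t = 0` the bound is
trivial (`‖·‖ ≤ 2`). Let `y = z_{c'}^e ∈ Bx c0 q x`, `x + E t ≤ n`, `t ≥ 1`.
* `c' = c0`: write `e = K q j`; `Ph c0 = Ph (c0+1) * Cc c0` (`Ph_succ`) and `avg_shift` for
  `g = z_{c0}^(K q)`: the error is `≤ 2 |j| / ll ≤ 2 * 2^(x w) / 2^(n w) ≤ 2 (1/2)^(n - x)` (`lt_mul_ll`).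
* `c' > c0`: `Cc c0 * U(y)` is the average of `U(u_m) U(y) = U(⁅u_m, y⁆) U(y) U(u_m)`,
  `u_m = z_{c0}^(K q m)`, `|K q m| ≤ 2^(n w)` (`Kq_mul_le`). By (A1) (with `m = n`, sizes `n` and `x`, and `t' = 1 + C1 + E' t`;
  `x + J t' ≤ n`) `⁅u_m, y⁆ ∈ BN C1 (c'+1) q (n + C1 - t') ⊆ BN C1 (c0+1) q x'` with
  `x' = n - 1 - E' t`. By the induction hypothesis `‖Ph (c0+1) U(y') - Ph (c0+1)‖ ≤ C' (1/2)^t` for all
  `y' ∈ Bx (c0+1) q x'` and for `y' = y`. So `‖Ph (c0+1) U(⁅u_m,y⁆ y) - Ph (c0+1)‖ ≤ (C1 + 1) C' (1/2)^t`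
  (`RI.BN`), multiply by `U(u_m)` and average.
The constants are obtained for all `c0 ≤ D` at once (finite induction); for `c0 > D` as for `c0 = D`.
-/

set_option autoImplicit false

open Finset
open scoped commutatorElement

namespace Pool.Agent.Lib.Npw

variable {G H : Type} [Group G] [NormedAddCommGroup H] [InnerProductSpace ℂ H] [CompleteSpace H]

namespace Dat

namespace InvRAux

variable {A : Dat G} {R : Rep G H}

/-- the trivial bound -/
lemma triv_bd (A : Dat G) (R : Rep G H) (c0 q n : ℕ) (y : G) :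
    ‖A.Ph R c0 q n * R.U y - A.Ph R c0 q n‖ ≤ 2 := by
  have h1 := A.norm_Ph_le R c0 q n
  have h2 := R.norm_le y
  calc ‖A.Ph R c0 q n * R.U y - A.Ph R c0 q n‖ ≤ ‖A.Ph R c0 q n * R.U y‖ + ‖A.Ph R c0 q n‖ :=
        norm_sub_le _ _
    _ ≤ ‖A.Ph R c0 q n‖ * ‖R.U y‖ + ‖A.Ph R c0 q n‖ := by
        have := norm_mul_le (A.Ph R c0 q n) (R.U y)
        linarith
    _ ≤ 2 := by
        have h3 := norm_nonneg (A.Ph R c0 q n)
        have h4 := norm_nonneg (R.U y)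
        nlinarith

/-- the same index -/
lemma same_idx (A : Dat G) (R : Rep G H) {c0 q n x t : ℕ} (h : c0 < A.D) (hq : 0 < q)
    (hxt : x + t ≤ n) {e : ℤ} (hdvd : ((A.K ⟨c0, h⟩ * q : ℕ) : ℤ) ∣ e)
    (he : |e| ≤ 2 ^ (x * A.w ⟨c0, h⟩)) :
    ‖A.Ph R c0 q n * R.U (A.z ⟨c0, h⟩ ^ e) - A.Ph R c0 q n‖ ≤ 2 * (1 / 2 : ℝ) ^ t := by
  obtain ⟨j, rfl⟩ := hdvd
  set c : Fin A.D := ⟨c0, h⟩ with hc
  have hw : 1 ≤ A.w c := Nat.succ_le_succ (Nat.zero_le _)
  have hll : 0 < A.ll c q n := A.ll_pos c q n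
  have hlt := A.lt_mul_ll (c := c) hq n
  have hKq : 0 < A.K c * q := Nat.mul_pos (A.K_pos c) hq
  have e1 : A.Cc R c q n = avg (A.ll c q n) fun m => R.U ((A.z c ^ (A.K c * q)) ^ m) := by
    unfold Cc
    congr 1
    funext m
    rw [← pow_mul]
  have e2 : A.z c ^ (((A.K c * q : ℕ) : ℤ) * j) = (A.z c ^ (A.K c * q)) ^ j := by
    rw [zpow_mul, zpow_natCast]
  have h1 := avg_shift R (A.z c ^ (A.K c * q)) hll j
  rw [← e1, ← e2] at h1
  have e3 : A.Ph R c0 q n * R.U (A.z c ^ (((A.K c * q : ℕ) : ℤ) * j)) - A.Ph R c0 q n =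
      A.Ph R (c0 + 1) q n * (A.Cc R c q n * R.U (A.z c ^ (((A.K c * q : ℕ) : ℤ) * j)) - A.Cc R c q n) := by
    rw [A.Ph_succ R h, mul_sub, mul_assoc]
  rw [e3]
  have h2 := A.norm_Ph_le R (c0 + 1) q n
  have h3 : ‖A.Ph R (c0 + 1) q n * (A.Cc R c q n * R.U (A.z c ^ (((A.K c * q : ℕ) : ℤ) * j)) - A.Cc R c q n)‖ ≤
      2 * |(j : ℝ)| / (A.ll c q n : ℕ) := by
    refine (norm_mul_le _ _).trans ?_
    have h4 := norm_nonneg (A.Cc R c q n * R.U (A.z c ^ (((A.K c * q : ℕ) : ℤ) * j)) - A.Cc R c q n)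
    have h5 := norm_nonneg (A.Ph R (c0 + 1) q n)
    nlinarith
  refine h3.trans ?_
  have hllr : (0 : ℝ) < (A.ll c q n : ℕ) := by exact_mod_cast hll
  have hKqr : (0 : ℝ) < ((A.K c * q : ℕ) : ℝ) := by exact_mod_cast hKq
  have h6 : ((A.K c * q : ℕ) : ℝ) * |(j : ℝ)| ≤ 2 ^ (x * A.w c) := by
    have h7 : |((A.K c * q : ℕ) : ℤ) * j| ≤ 2 ^ (x * A.w c) := he
    have h8 : ((|((A.K c * q : ℕ) : ℤ) * j| : ℤ) : ℝ) ≤ ((2 ^ (x * A.w c) : ℤ) : ℝ) := by
      exact_mod_cast h7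
    rw [Int.cast_abs, Int.cast_mul, abs_mul, Int.cast_natCast, Nat.abs_cast] at h8
    push_cast at h8 ⊢
    exact h8
  have h9 : (2 : ℝ) ^ (n * A.w c) ≤ ((A.K c * q : ℕ) : ℝ) * (A.ll c q n : ℕ) := by
    exact_mod_cast hlt.le
  have h10 : (2 : ℝ) ^ (x * A.w c) * 2 ^ t ≤ 2 ^ (n * A.w c) := by
    rw [← pow_add]
    refine pow_le_pow_right₀ (by norm_num) ?_
    calc x * A.w c + t ≤ x * A.w c + t * A.w c := Nat.add_le_add_left (Nat.le_mul_of_pos_right _ hw) _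
      _ = (x + t) * A.w c := by ring
      _ ≤ n * A.w c := Nat.mul_le_mul_right _ hxt
  have h11 : |(j : ℝ)| * 2 ^ t ≤ (A.ll c q n : ℕ) := by
    have h12 : ((A.K c * q : ℕ) : ℝ) * (|(j : ℝ)| * 2 ^ t) ≤ ((A.K c * q : ℕ) : ℝ) * (A.ll c q n : ℕ) := by
      calc ((A.K c * q : ℕ) : ℝ) * (|(j : ℝ)| * 2 ^ t) = (((A.K c * q : ℕ) : ℝ) * |(j : ℝ)|) * 2 ^ t := by ring
        _ ≤ 2 ^ (x * A.w c) * 2 ^ t := mul_le_mul_of_nonneg_right h6 (by positivity)
        _ ≤ 2 ^ (n * A.w c) := h10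
        _ ≤ _ := h9
    exact le_of_mul_le_mul_left h12 hKqr
  rw [div_le_iff₀ hllr, one_div, inv_pow, mul_assoc]
  refine mul_le_mul_of_nonneg_left ?_ (by norm_num)
  rw [inv_mul_eq_div, le_div_iff₀ (by positivity)]
  exact h11

/-- one step of the downward induction -/
lemma step {A : Dat G} (hA : A.Ok) (R : Rep G H) {C' E' : ℕ} {c0 q n x t : ℕ} (h : c0 < A.D)
    (ih : ∀ q n x t : ℕ, 0 < q → A.P0 * q ≤ 2 ^ n → x + E' * t ≤ n →
      A.RI R (c0 + 1) q x (C' * (1 / 2) ^ t) (A.Ph R (c0 + 1) q n))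
    (hq : 0 < q) (hn : A.P0 * q ≤ 2 ^ n)
    (hx : x + (A.J * (1 + A.C1 + E') + 1 + E') * t ≤ n) :
    A.RI R c0 q x (((2 + (A.C1 + 1) * C' : ℕ) : ℝ) * (1 / 2) ^ t) (A.Ph R c0 q n) := by
  intro y hy
  have hcast : ((2 + (A.C1 + 1) * C' : ℕ) : ℝ) = 2 + ((A.C1 : ℝ) + 1) * C' := by push_cast; ring
  rw [hcast]
  have hC'0 : (0 : ℝ) ≤ ((A.C1 : ℝ) + 1) * C' := by positivity
  rcases Nat.eq_zero_or_pos t with ht | ht
  · subst ht
    rw [pow_zero, mul_one]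
    exact (triv_bd A R c0 q n y).trans (by linarith)
  have hp : (0 : ℝ) < (1 / 2 : ℝ) ^ t := by positivity
  have hmul1 : E' * t + t ≤ (A.J * (1 + A.C1 + E') + 1 + E') * t := by
    calc E' * t + t = (E' + 1) * t := by ring
      _ ≤ (A.J * (1 + A.C1 + E') + 1 + E') * t := Nat.mul_le_mul_right _ (by omega)
  have hmul2 : A.J * (1 + A.C1 + E' * t) ≤ (A.J * (1 + A.C1 + E') + 1 + E') * t := by
    calc A.J * (1 + A.C1 + E' * t) ≤ A.J * ((1 + A.C1 + E') * t) := by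
          refine Nat.mul_le_mul_left _ ?_
          have h1 : 1 + A.C1 ≤ (1 + A.C1) * t := Nat.le_mul_of_pos_right _ ht
          calc 1 + A.C1 + E' * t ≤ (1 + A.C1) * t + E' * t := by omega
            _ = (1 + A.C1 + E') * t := by ring
      _ = (A.J * (1 + A.C1 + E')) * t := by ring
      _ ≤ _ := Nat.mul_le_mul_right _ (by omega)
  obtain ⟨c', e, hcc, hdvd, he, rfl⟩ := hy
  rcases Nat.eq_or_lt_of_le hcc with hc | hc
  · -- the same index
    have hc2 : c' = ⟨c0, h⟩ := Fin.ext hc.symm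
    subst hc2
    have h1 := same_idx A R (n := n) (x := x) (t := t) h hq (by omega) hdvd he
    refine h1.trans ?_
    nlinarith
  · -- a larger index
    set c : Fin A.D := ⟨c0, h⟩ with hcdef
    set T' := A.Ph R (c0 + 1) q n with hT'
    set x' := n - 1 - E' * t with hx'
    have hRI := ih q n x' t hq hn (by omega)
    have hyB : A.z c' ^ e ∈ A.Bx (c0 + 1) q x' := by
      refine A.Bx_mono le_rfl dvd_rfl (by omega : x ≤ x') ?_
      exact ⟨c', e, hc, hdvd, he, rfl⟩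
    have hbd : ∀ m < A.ll c q n,
        ‖T' * R.U (A.z c ^ (A.K c * q * m)) * R.U (A.z c' ^ e) - T' * R.U (A.z c ^ (A.K c * q * m))‖ ≤
          ((A.C1 : ℝ) + 1) * C' * (1 / 2) ^ t := by
      intro m hm
      set u := A.z c ^ (A.K c * q * m) with hu
      have hK := A.Kq_mul_le hm
      have hcom : ⁅u, A.z c' ^ e⁆ ∈ A.BN A.C1 (c0 + 1) q x' := by
        have h1 := hA.A1 c c' ((A.K c * q * m : ℕ) : ℤ) e q n x n (1 + A.C1 + E' * t) hq
          (by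
            rw [abs_of_nonneg (by positivity)]
            exact_mod_cast hK) he
          (Or.inl (by
            rw [Nat.cast_mul (A.K c * q) m]
            exact dvd_mul_right _ _)) hn le_rfl (by omega) (Or.inr (by omega))
        rw [zpow_natCast, ← hu] at h1
        refine A.BN_mono le_rfl ?_ dvd_rfl (by omega) h1
        have : (c : ℕ) = c0 := rfl
        omega
      have hmem : ⁅u, A.z c' ^ e⁆ * A.z c' ^ e ∈ A.BN (A.C1 + 1) (c0 + 1) q x' :=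
        A.BN_mul hcom (A.mem_BN_one hyB)
      have h2 := hRI.BN (by positivity) hmem
      have e1 : T' * R.U u * R.U (A.z c' ^ e) - T' * R.U u =
          (T' * R.U (⁅u, A.z c' ^ e⁆ * A.z c' ^ e) - T') * R.U u := by
        rw [sub_mul, mul_assoc, mul_assoc, ← map_mul, ← map_mul]
        congr 3
        rw [commutatorElement_def]
        group
      rw [e1]
      refine (norm_mul_le _ _).trans ?_
      have h3 := R.norm_le u
      have h4 := norm_nonneg (T' * R.U (⁅u, A.z c' ^ e⁆ * A.z c' ^ e) - T')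
      have h5 := norm_nonneg (R.U u)
      have h6 : (((A.C1 + 1 : ℕ) : ℝ)) * (C' * (1 / 2) ^ t) = ((A.C1 : ℝ) + 1) * C' * (1 / 2) ^ t := by
        push_cast
        ring
      rw [h6] at h2
      nlinarith
    have e2 : A.Ph R c0 q n * R.U (A.z c' ^ e) - A.Ph R c0 q n =
        (avg (A.ll c q n) fun m => T' * R.U (A.z c ^ (A.K c * q * m)) * R.U (A.z c' ^ e)) -
          avg (A.ll c q n) fun m => T' * R.U (A.z c ^ (A.K c * q * m)) := by
      rw [A.Ph_succ R h, Cc, mul_avg, avg_mul]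
    rw [e2]
    refine (norm_avg_sub_le (by positivity) hbd).trans ?_
    nlinarith

end InvRAux

open InvRAux

theorem inv_right {A : Dat G} (hA : A.Ok) (R : Rep G H) : ∃ C E : ℕ, ∀ c0 q n x t : ℕ, 0 < q →
    A.P0 * q ≤ 2 ^ n → x + E * t ≤ n → A.RI R c0 q x (C * (1 / 2) ^ t) (A.Ph R c0 q n) := by
  have key : ∀ j : ℕ, ∃ C E : ℕ, ∀ c0 : ℕ, A.D - c0 ≤ j → ∀ q n x t : ℕ, 0 < q →
      A.P0 * q ≤ 2 ^ n → x + E * t ≤ n → A.RI R c0 q x (C * (1 / 2) ^ t) (A.Ph R c0 q n) := by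
    intro j
    induction j with
    | zero =>
      refine ⟨0, 0, fun c0 hc0 q n x t _ _ _ y hy => ?_⟩
      rw [A.Bx_top (by omega)] at hy
      exact absurd hy (Set.notMem_empty _)
    | succ j ih =>
      obtain ⟨C', E', ih⟩ := ih
      refine ⟨2 + (A.C1 + 1) * C', A.J * (1 + A.C1 + E') + 1 + E', ?_⟩
      intro c0 hc0 q n x t hq hn hx
      rcases Nat.lt_or_ge c0 A.D with h | h
      · exact step hA R h (fun q n x t => ih (c0 + 1) (by omega) q n x t) hq hn hx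
      · intro y hy
        rw [A.Bx_top h] at hy
        exact absurd hy (Set.notMem_empty _)
  obtain ⟨C, E, h⟩ := key A.D
  exact ⟨C, E, fun c0 => h c0 (Nat.sub_le _ _)⟩

end Dat

end Pool.Agent.Lib.Npw
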