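import Pool.Agent.Lib.Npw.ApiB
import Pool.Agent.Lib.Npw.Defs2

/-!
# NPW: invariant and local operators

* `RI_BN`: `T U(y_1 ... y_N) - T = (T U(y_1) - T) U(y_2 ... y_N) + (T U(y_2 ... y_N) - T)`.
* `RI.star`: boxes are closed under inverses, `star (T U y - T) = U y⁻¹ star T - star T`.
* `Loc.mul`: index set `Fin n × Fin n'` (use `Fintype.equivFin` or `finProdFinEquiv`).
* `RI.mul_loc`: `T V U(y) - T V = ∑ a_i (T U(g_i y g_i⁻¹) - T) U(g_i)` and
  `Ok.conj_BN_SmN`, `RI_BN`.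
* `loc_Cc`: `mem_Bx_Cc`, `Bx_sub_Sm`. `loc_Ph`: `Ph_succ` and `Loc.mul`, downward induction.
-/

set_option autoImplicit false

open Finset

namespace Pool.Agent.Lib.Npw

variable {G H : Type} [Group G] [NormedAddCommGroup H] [InnerProductSpace ℂ H] [CompleteSpace H]

namespace Dat

variable {A : Dat G} {R : Rep G H}

theorem RI.mono {c0 c0' q q' x x' : ℕ} {δ δ' : ℝ} {T : H →L[ℂ] H} (h : A.RI R c0 q x δ T)
    (hc : c0 ≤ c0') (hq : q ∣ q') (hx : x' ≤ x) (hδ : δ ≤ δ') : A.RI R c0' q' x' δ' T :=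
  fun y hy => (h y (A.Bx_mono hc hq hx hy)).trans hδ

theorem LI.mono {c0 c0' q q' x x' : ℕ} {δ δ' : ℝ} {T : H →L[ℂ] H} (h : A.LI R c0 q x δ T)
    (hc : c0 ≤ c0') (hq : q ∣ q') (hx : x' ≤ x) (hδ : δ ≤ δ') : A.LI R c0' q' x' δ' T :=
  fun y hy => (h y (A.Bx_mono hc hq hx hy)).trans hδ

theorem RI.BN {N c0 q x : ℕ} {δ : ℝ} {T : H →L[ℂ] H} (h : A.RI R c0 q x δ T) (hδ : 0 ≤ δ) {y : G}
    (hy : y ∈ A.BN N c0 q x) : ‖T * R.U y - T‖ ≤ N * δ := by
  obtain ⟨l, hl, hmem, rfl⟩ := hy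
  have key : ∀ l : List G, (∀ y ∈ l, y ∈ A.Bx c0 q x) →
      ‖T * R.U l.prod - T‖ ≤ (l.length : ℝ) * δ := by
    intro l
    induction l with
    | nil => intro _; simp
    | cons y l ih =>
      intro hm
      have h1 : ‖T * R.U y - T‖ ≤ δ := h y (hm y (by simp))
      have h2 : ‖T * R.U l.prod - T‖ ≤ (l.length : ℝ) * δ := ih fun z hz => hm z (by simp [hz])
      have e : T * R.U (y :: l).prod - T = (T * R.U y - T) * R.U l.prod + (T * R.U l.prod - T) := by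
        rw [List.prod_cons, map_mul, sub_mul, mul_assoc]
        abel
      rw [e]
      calc ‖(T * R.U y - T) * R.U l.prod + (T * R.U l.prod - T)‖
          ≤ ‖(T * R.U y - T) * R.U l.prod‖ + ‖T * R.U l.prod - T‖ := norm_add_le _ _
        _ ≤ ‖T * R.U y - T‖ * ‖R.U l.prod‖ + ‖T * R.U l.prod - T‖ := by
            gcongr
            exact norm_mul_le _ _
        _ ≤ δ * 1 + (l.length : ℝ) * δ := by
            gcongr
            exact R.norm_le _
        _ = ((y :: l).length : ℝ) * δ := by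
            rw [List.length_cons]
            push_cast
            ring
  refine (key l hmem).trans ?_
  have : (l.length : ℝ) ≤ (N : ℝ) := by exact_mod_cast hl
  exact mul_le_mul_of_nonneg_right this hδ

theorem LI.BN {N c0 q x : ℕ} {δ : ℝ} {T : H →L[ℂ] H} (h : A.LI R c0 q x δ T) (hδ : 0 ≤ δ) {y : G}
    (hy : y ∈ A.BN N c0 q x) : ‖R.U y * T - T‖ ≤ N * δ := by
  obtain ⟨l, hl, hmem, rfl⟩ := hy
  have key : ∀ l : List G, (∀ y ∈ l, y ∈ A.Bx c0 q x) →
      ‖R.U l.prod * T - T‖ ≤ (l.length : ℝ) * δ := by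
    intro l
    induction l with
    | nil => intro _; simp
    | cons y l ih =>
      intro hm
      have h1 : ‖R.U y * T - T‖ ≤ δ := h y (hm y (by simp))
      have h2 : ‖R.U l.prod * T - T‖ ≤ (l.length : ℝ) * δ := ih fun z hz => hm z (by simp [hz])
      have e : R.U (y :: l).prod * T - T = R.U y * (R.U l.prod * T - T) + (R.U y * T - T) := by
        rw [List.prod_cons, map_mul, mul_sub, mul_assoc]
        abel
      rw [e]
      calc ‖R.U y * (R.U l.prod * T - T) + (R.U y * T - T)‖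
          ≤ ‖R.U y * (R.U l.prod * T - T)‖ + ‖R.U y * T - T‖ := norm_add_le _ _
        _ ≤ ‖R.U y‖ * ‖R.U l.prod * T - T‖ + ‖R.U y * T - T‖ := by
            gcongr
            exact norm_mul_le _ _
        _ ≤ 1 * ((l.length : ℝ) * δ) + δ := by
            gcongr
            exact R.norm_le _
        _ = ((y :: l).length : ℝ) * δ := by
            rw [List.length_cons]
            push_cast
            ring
  refine (key l hmem).trans ?_
  have : (l.length : ℝ) ≤ (N : ℝ) := by exact_mod_cast hl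
  exact mul_le_mul_of_nonneg_right this hδ

theorem RI.star {c0 q x : ℕ} {δ : ℝ} {T : H →L[ℂ] H} (h : A.RI R c0 q x δ T) :
    A.LI R c0 q x δ (star T) := by
  intro y hy
  have h1 := h y⁻¹ (A.Bx_inv hy)
  have e : R.U y * Star.star T - Star.star T = Star.star (T * R.U y⁻¹ - T) := by
    rw [star_sub, star_mul, R.star_U, inv_inv]
  rw [e, norm_star]
  exact h1

theorem LI.star {c0 q x : ℕ} {δ : ℝ} {T : H →L[ℂ] H} (h : A.LI R c0 q x δ T) :
    A.RI R c0 q x δ (star T) := by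
  intro y hy
  have h1 := h y⁻¹ (A.Bx_inv hy)
  have e : Star.star T * R.U y - Star.star T = Star.star (R.U y⁻¹ * T - T) := by
    rw [star_sub, star_mul, R.star_U, inv_inv]
  rw [e, norm_star]
  exact h1

theorem RI.left_mul {c0 q x : ℕ} {δ B : ℝ} {T V : H →L[ℂ] H} (h : A.RI R c0 q x δ T)
    (hV : ‖V‖ ≤ B) : A.RI R c0 q x (B * δ) (V * T) := by
  intro y hy
  have h1 := h y hy
  have e : V * T * R.U y - V * T = V * (T * R.U y - T) := by
    rw [mul_sub, mul_assoc]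
  rw [e]
  calc ‖V * (T * R.U y - T)‖ ≤ ‖V‖ * ‖T * R.U y - T‖ := norm_mul_le _ _
    _ ≤ B * δ := mul_le_mul hV h1 (norm_nonneg _) ((norm_nonneg _).trans hV)

theorem Loc.mono {N N' x x' : ℕ} {B B' : ℝ} {T : H →L[ℂ] H} (h : A.Loc R N x B T) (hN : N ≤ N')
    (hx : x ≤ x') (hB : B ≤ B') : A.Loc R N' x' B' T := by
  obtain ⟨n, a, g, hg, ha, hT⟩ := h
  exact ⟨n, a, g, fun i => A.SmN_mono hN hx (hg i), ha.trans hB, hT⟩

theorem Loc.norm_le {N x : ℕ} {B : ℝ} {T : H →L[ℂ] H} (h : A.Loc R N x B T) : ‖T‖ ≤ B := by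
  obtain ⟨n, a, g, hg, ha, rfl⟩ := h
  refine (norm_sum_le _ _).trans (le_trans ?_ ha)
  refine Finset.sum_le_sum fun i _ => ?_
  calc ‖a i • R.U (g i)‖ ≤ ‖a i‖ * ‖R.U (g i)‖ := norm_smul_le _ _
    _ ≤ ‖a i‖ * 1 := mul_le_mul_of_nonneg_left (R.norm_le _) (norm_nonneg _)
    _ = ‖a i‖ := mul_one _

private theorem loc_of_fintype {ι : Type} [Fintype ι] {N x : ℕ} {B : ℝ} {T : H →L[ℂ] H}
    (a : ι → ℂ) (g : ι → G) (hg : ∀ i, g i ∈ A.SmN N x) (ha : ∑ i, ‖a i‖ ≤ B)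
    (hT : T = ∑ i, a i • R.U (g i)) : A.Loc R N x B T := by
  classical
  refine ⟨Fintype.card ι, fun j => a ((Fintype.equivFin ι).symm j),
    fun j => g ((Fintype.equivFin ι).symm j), fun j => hg _, ?_, ?_⟩
  · rw [Equiv.sum_comp (Fintype.equivFin ι).symm fun i => ‖a i‖]
    exact ha
  · rw [Equiv.sum_comp (Fintype.equivFin ι).symm fun i => a i • R.U (g i)]
    exact hT

theorem Loc.mul {N N' x : ℕ} {B B' : ℝ} {T V : H →L[ℂ] H} (h : A.Loc R N x B T)
    (h' : A.Loc R N' x B' V) (hB' : 0 ≤ B') : A.Loc R (N + N') x (B * B') (T * V) := by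
  obtain ⟨n, a, g, hg, ha, rfl⟩ := h
  obtain ⟨n', a', g', hg', ha', rfl⟩ := h'
  refine loc_of_fintype (ι := Fin n × Fin n') (fun p => a p.1 * a' p.2)
    (fun p => g p.1 * g' p.2) (fun p => A.SmN_mul (hg _) (hg' _)) ?_ ?_
  · have e : ∑ p : Fin n × Fin n', ‖a p.1 * a' p.2‖ = (∑ i, ‖a i‖) * ∑ j, ‖a' j‖ := by
      rw [Fintype.sum_prod_type, Finset.sum_mul_sum]
      refine Finset.sum_congr rfl fun i _ => Finset.sum_congr rfl fun j _ => ?_
      exact norm_mul _ _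
    rw [e]
    exact mul_le_mul ha ha' (Finset.sum_nonneg fun _ _ => norm_nonneg _)
      ((Finset.sum_nonneg fun _ _ => norm_nonneg _).trans ha)
  · rw [Fintype.sum_prod_type, Finset.sum_mul_sum]
    refine Finset.sum_congr rfl fun i _ => Finset.sum_congr rfl fun j _ => ?_
    simp only [map_mul, smul_mul_assoc, mul_smul_comm, smul_smul]
    rw [mul_comm (a' j) (a i)]

theorem Loc.add {N x : ℕ} {B B' : ℝ} {T V : H →L[ℂ] H} (h : A.Loc R N x B T)
    (h' : A.Loc R N x B' V) : A.Loc R N x (B + B') (T + V) := by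
  obtain ⟨n, a, g, hg, ha, rfl⟩ := h
  obtain ⟨n', a', g', hg', ha', rfl⟩ := h'
  refine loc_of_fintype (ι := Fin n ⊕ Fin n') (Sum.elim a a') (Sum.elim g g') ?_ ?_ ?_
  · rintro (i | i)
    · exact hg i
    · exact hg' i
  · rw [Fintype.sum_sum_type]
    exact add_le_add ha ha'
  · rw [Fintype.sum_sum_type]
    rfl

theorem Loc.smul {N x : ℕ} {B : ℝ} {T : H →L[ℂ] H} (h : A.Loc R N x B T) (a : ℂ) :
    A.Loc R N x (‖a‖ * B) (a • T) := by
  obtain ⟨n, b, g, hg, hb, rfl⟩ := h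
  refine ⟨n, fun i => a * b i, g, hg, ?_, ?_⟩
  · have e : ∑ i, ‖a * b i‖ = ‖a‖ * ∑ i, ‖b i‖ := by
      rw [Finset.mul_sum]
      exact Finset.sum_congr rfl fun i _ => norm_mul _ _
    rw [e]
    exact mul_le_mul_of_nonneg_left hb (norm_nonneg _)
  · rw [Finset.smul_sum]
    exact Finset.sum_congr rfl fun i _ => smul_smul _ _ _

theorem Loc.sum {ι : Type} {N x : ℕ} (s : Finset ι) {B : ι → ℝ} {T : ι → H →L[ℂ] H}
    (h : ∀ i ∈ s, A.Loc R N x (B i) (T i)) : A.Loc R N x (∑ i ∈ s, B i) (∑ i ∈ s, T i) := by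
  classical
  induction s using Finset.induction_on with
  | empty => exact ⟨0, fun _ => 0, fun _ => 1, fun i => i.elim0, by simp, by simp⟩
  | insert i s hi ih =>
    rw [Finset.sum_insert hi, Finset.sum_insert hi]
    exact (h i (Finset.mem_insert_self _ _)).add
      (ih fun j hj => h j (Finset.mem_insert_of_mem hj))

theorem Loc.star {N x : ℕ} {B : ℝ} {T : H →L[ℂ] H} (h : A.Loc R N x B T) :
    A.Loc R N x B (star T) := by
  obtain ⟨n, b, g, hg, hb, rfl⟩ := h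
  refine ⟨n, fun i => Star.star (b i), fun i => (g i)⁻¹, fun i => A.SmN_inv (hg i), ?_, ?_⟩
  · have e : ∑ i, ‖Star.star (b i)‖ = ∑ i, ‖b i‖ :=
      Finset.sum_congr rfl fun i _ => norm_star _
    rw [e]
    exact hb
  · rw [star_sum]
    refine Finset.sum_congr rfl fun i _ => ?_
    rw [star_smul, R.star_U]

theorem loc_U {N x : ℕ} {g : G} (h : g ∈ A.SmN N x) : A.Loc R N x 1 (R.U g) :=
  ⟨1, fun _ => 1, fun _ => g, fun _ => h, by simp, by simp⟩

theorem loc_one (N x : ℕ) : A.Loc R N x 1 (1 : H →L[ℂ] H) := by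
  have h := loc_U (R := R) (A.one_mem_SmN N x)
  rwa [map_one] at h

theorem loc_avg {N x n : ℕ} {f : ℕ → H →L[ℂ] H} (hn : 0 < n)
    (h : ∀ m < n, A.Loc R N x 1 (f m)) : A.Loc R N x 1 (avg n f) := by
  have h1 : A.Loc R N x (∑ m ∈ range n, (1 : ℝ)) (∑ m ∈ range n, f m) :=
    Loc.sum (range n) fun m hm => h m (Finset.mem_range.mp hm)
  have h2 := h1.smul ((n : ℂ)⁻¹)
  refine h2.mono le_rfl le_rfl (le_of_eq ?_)
  have hn' : (n : ℝ) ≠ 0 := by exact_mod_cast hn.ne'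
  rw [Finset.sum_const, Finset.card_range, nsmul_eq_mul, mul_one, norm_inv, Complex.norm_natCast]
  exact inv_mul_cancel₀ hn'

theorem loc_Cc (c : Fin A.D) (q n : ℕ) : A.Loc R 1 n 1 (A.Cc R c q n) :=
  loc_avg (A.ll_pos c q n) fun _ hm =>
    loc_U (A.mem_SmN_one (A.Bx_sub_Sm 0 q n (A.mem_Bx_Cc (Nat.zero_le _) hm)))

theorem loc_Ph (c0 q n : ℕ) : A.Loc R A.D n 1 (A.Ph R c0 q n) := by
  have key : ∀ j : ℕ, A.Loc R j n 1 (A.PhR R q n j) := by
    intro j
    induction j with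
    | zero => exact loc_one 0 n
    | succ j ih =>
      have h1 : A.Loc R 1 n 1
          (if h : A.D - 1 - j < A.D then A.Cc R ⟨A.D - 1 - j, h⟩ q n else 1) := by
        split_ifs with h
        · exact loc_Cc _ _ _
        · exact loc_one 1 n
      have h2 := ih.mul h1 zero_le_one
      rw [mul_one] at h2
      exact h2
  exact (key (A.D - c0)).mono (Nat.sub_le _ _) le_rfl le_rfl

private theorem norm_moebius_le (n : ℕ) :
    ‖((ArithmeticFunction.moebius n : ℤ) : ℂ)‖ ≤ 1 := by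
  have h : |ArithmeticFunction.moebius n| ≤ 1 := ArithmeticFunction.abs_moebius_le_one
  rw [Complex.norm_intCast]
  exact_mod_cast h

theorem loc_FF {v q : ℕ} (c0 : ℕ) (hq : q ∈ Icc 1 (2 ^ v)) (n : ℕ) :
    A.Loc R A.D n (2 ^ v) (A.FF R c0 q n) := by
  have h1 : A.Loc R A.D n (∑ d ∈ q.divisors, (1 : ℝ)) (A.FF R c0 q n) := by
    refine Loc.sum q.divisors fun d _ => ?_
    have h2 := (loc_Ph (A := A) (R := R) c0 d n).smul
      ((ArithmeticFunction.moebius (q / d) : ℤ) : ℂ)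
    refine h2.mono le_rfl le_rfl ?_
    rw [mul_one]
    exact norm_moebius_le _
  refine h1.mono le_rfl le_rfl ?_
  rw [Finset.sum_const, nsmul_eq_mul, mul_one]
  have h3 : q.divisors.card ≤ 2 ^ v := (Nat.card_divisors_le_self q).trans (Finset.mem_Icc.mp hq).2
  exact_mod_cast h3

theorem loc_Pi {v : ℕ} (c0 : ℕ) {s : Finset ℕ} (hs : s ⊆ Icc 1 (2 ^ v)) (n : ℕ) :
    A.Loc R A.D n (4 ^ v) (A.Pi R c0 s n) := by
  have h1 : A.Loc R A.D n (∑ q ∈ s, (2 : ℝ) ^ v) (A.Pi R c0 s n) :=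
    Loc.sum s fun q hq => loc_FF c0 (hs hq) n
  refine h1.mono le_rfl le_rfl ?_
  have h2 : s.card ≤ 2 ^ v := by
    have := Finset.card_le_card hs
    rwa [Nat.card_Icc, Nat.add_sub_cancel] at this
  have h3 : (s.card : ℝ) ≤ 2 ^ v := by exact_mod_cast h2
  rw [Finset.sum_const, nsmul_eq_mul]
  calc (s.card : ℝ) * 2 ^ v ≤ 2 ^ v * 2 ^ v := mul_le_mul_of_nonneg_right h3 (by positivity)
    _ = 4 ^ v := by rw [← mul_pow]; norm_num

theorem loc_fo {v Q : ℕ} (c : Fin A.D) (hQ : Q ≤ 2 ^ v) (n : ℕ) :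
    A.Loc R 1 n (4 ^ v) (A.fo R c Q n) := by
  have h1 : A.Loc R 1 n (∑ q ∈ Icc 1 Q, (2 : ℝ) ^ v) (A.fo R c Q n) := by
    refine Loc.sum (Icc 1 Q) fun q hq => ?_
    have h0 : A.Loc R 1 n (∑ d ∈ q.divisors, (1 : ℝ))
        (∑ d ∈ q.divisors, ((ArithmeticFunction.moebius (q / d) : ℤ) : ℂ) • A.Cc R c d n) := by
      refine Loc.sum q.divisors fun d _ => ?_
      have h2 := (loc_Cc (A := A) (R := R) c d n).smul
        ((ArithmeticFunction.moebius (q / d) : ℤ) : ℂ)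
      refine h2.mono le_rfl le_rfl ?_
      rw [mul_one]
      exact norm_moebius_le _
    refine h0.mono le_rfl le_rfl ?_
    rw [Finset.sum_const, nsmul_eq_mul, mul_one]
    have h3 : q.divisors.card ≤ 2 ^ v :=
      (Nat.card_divisors_le_self q).trans ((Finset.mem_Icc.mp hq).2.trans hQ)
    exact_mod_cast h3
  refine h1.mono le_rfl le_rfl ?_
  rw [Finset.sum_const, nsmul_eq_mul, Nat.card_Icc, Nat.add_sub_cancel]
  have h3 : (Q : ℝ) ≤ 2 ^ v := by exact_mod_cast hQ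
  calc (Q : ℝ) * 2 ^ v ≤ 2 ^ v * 2 ^ v := mul_le_mul_of_nonneg_right h3 (by positivity)
    _ = 4 ^ v := by rw [← mul_pow]; norm_num

theorem loc_AA {M n : ℕ} (hM : M ≤ 2 ^ n) : A.Loc R 1 n 1 (A.AA R M) := by
  have h1 : A.Loc R 1 n (∑ v ∈ Fintype.piFinset (fun _ : Fin A.k => range M), (1 : ℝ))
      (∑ v ∈ Fintype.piFinset (fun _ : Fin A.k => range M), R.U (A.S v)) := by
    refine Loc.sum _ fun v hv => ?_
    refine loc_U (A.mem_SmN_one (Or.inr ⟨v, fun l => ?_, Or.inl rfl⟩))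
    have h2 := Fintype.mem_piFinset.mp hv l
    exact (Finset.mem_range.mp h2).le.trans hM
  have h2 := h1.smul (((M : ℂ) ^ A.k)⁻¹)
  refine h2.mono le_rfl le_rfl ?_
  rw [Finset.sum_const, nsmul_eq_mul, mul_one, Fintype.card_piFinset, Finset.prod_const,
    Finset.card_range, Finset.card_univ, Fintype.card_fin, norm_inv, norm_pow,
    Complex.norm_natCast]
  push_cast
  exact inv_mul_le_one

/-- a right invariant operator times a local operator of smaller scale -/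
theorem RI.mul_loc (hA : A.Ok) {N c0 q x x' : ℕ} {δ B : ℝ} {T V : H →L[ℂ] H} (hq : 0 < q)
    (h : A.RI R c0 q x' δ T) (hV : A.Loc R N x B V) (hx : A.P0 * q ≤ 2 ^ x)
    (hxx : x + N * A.C1 ≤ x') :
    A.RI R c0 q x (((A.C1 + 1) ^ N : ℕ) * B * δ) (T * V) := by
  intro y hy
  have hδ : 0 ≤ δ := (norm_nonneg _).trans
    (h y (A.Bx_mono le_rfl (dvd_refl q) ((Nat.le_add_right x (N * A.C1)).trans hxx) hy))
  obtain ⟨n, a, g, hg, ha, rfl⟩ := hV
  have e : T * (∑ i, a i • R.U (g i)) * R.U y - T * (∑ i, a i • R.U (g i)) =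
      ∑ i, a i • ((T * R.U (g i * y * (g i)⁻¹) - T) * R.U (g i)) := by
    rw [Finset.mul_sum, Finset.sum_mul, ← Finset.sum_sub_distrib]
    refine Finset.sum_congr rfl fun i _ => ?_
    have e1 : R.U (g i * y * (g i)⁻¹) * R.U (g i) = R.U (g i) * R.U y := by
      rw [← map_mul, ← map_mul, inv_mul_cancel_right]
    rw [sub_mul, mul_assoc T (R.U (g i * y * (g i)⁻¹)), e1, mul_smul_comm, smul_mul_assoc,
      ← smul_sub, mul_assoc]
  rw [e]
  refine (norm_sum_le _ _).trans ?_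
  have hb : ∀ i, ‖a i • ((T * R.U (g i * y * (g i)⁻¹) - T) * R.U (g i))‖ ≤
      ‖a i‖ * ((((A.C1 + 1) ^ N : ℕ) : ℝ) * δ) := by
    intro i
    have hc := hA.conj_BN_SmN (c0 := c0) hq hx (hg i) (A.mem_BN_one hy)
    have hc' := A.BN_mono le_rfl le_rfl (dvd_refl q) hxx hc
    have h1 := h.BN hδ hc'
    rw [one_mul] at h1
    calc ‖a i • ((T * R.U (g i * y * (g i)⁻¹) - T) * R.U (g i))‖
        ≤ ‖a i‖ * ‖(T * R.U (g i * y * (g i)⁻¹) - T) * R.U (g i)‖ := norm_smul_le _ _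
      _ ≤ ‖a i‖ * (‖T * R.U (g i * y * (g i)⁻¹) - T‖ * ‖R.U (g i)‖) :=
          mul_le_mul_of_nonneg_left (norm_mul_le _ _) (norm_nonneg _)
      _ ≤ ‖a i‖ * ((((A.C1 + 1) ^ N : ℕ) : ℝ) * δ * 1) := by
          refine mul_le_mul_of_nonneg_left ?_ (norm_nonneg _)
          exact mul_le_mul h1 (R.norm_le _) (norm_nonneg _) (by positivity)
      _ = ‖a i‖ * ((((A.C1 + 1) ^ N : ℕ) : ℝ) * δ) := by rw [mul_one]
  refine (Finset.sum_le_sum fun i _ => hb i).trans ?_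
  rw [← Finset.sum_mul]
  calc (∑ i, ‖a i‖) * ((((A.C1 + 1) ^ N : ℕ) : ℝ) * δ) ≤ B * ((((A.C1 + 1) ^ N : ℕ) : ℝ) * δ) :=
        mul_le_mul_of_nonneg_right ha (by positivity)
    _ = (((A.C1 + 1) ^ N : ℕ) : ℝ) * B * δ := by ring

end Dat

end Pool.Agent.Lib.Npw
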