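import Pool.Agent.Lib.Npw.Abs4
import Pool.Agent.Lib.Npw.Moeb

/-!
# NPW (M1)-(M4): products of the operators `Pi`, four forms

All moduli in `[1, 2^v]`, `n' + E (v+t) ≤ n`, `E (v+t+1) ≤ n'`. Expand both factors; `Pi c0 s n * Pi c0 s' n'` is
`∑_{q∈s} ∑_{q'∈s'} ∑_{d∣q} ∑_{d'∣q'} μ μ Ph d n * Ph d' n'`, at most `2^(4v)` terms with coefficients `≤ 1`; replace
`Ph d n * Ph d' n'` by `Ph (gcd d d') n` (`abs4` for the parameter `t + 4v`, error `C (1/2)^(t+4v)` each). By `moeb_gcd` (first for the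
sum over `d ∣ q`, with `f = Ph c0 · n`, then for the sum over `d' ∣ q'` of `μ(q'/d') [q ∣ d'] g q`, `moeb_range`) the sum is
`∑_{q∈s, q'∈s'} [q = q'] FF q n = Pi (s ∩ s') n`. The other three forms are the same with the other parts of `abs4`
(the coefficients are real: `star` of `μ • X` is `μ • star X`).
`ph_pi`: `Ph d n * Pi s n' ≈ ∑_{q∈s} ∑_{d'∣q} μ(q/d') Ph (gcd d d') n = ∑_{q∈s, q∣d} FF q n = ∑_{q∣d} FF q n = Ph d n` if all divisors
of `d` are in `s` (`moeb_gcd`, `moeb_sum`). `pi_ph` the same with the other order (second part of `abs4`).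
-/

set_option autoImplicit false

open Finset

namespace Pool.Agent.Lib.Npw

variable {G H : Type} [Group G] [NormedAddCommGroup H] [InnerProductSpace ℂ H] [CompleteSpace H]

namespace Pi4Aux

variable {M : Type} [NormedAddCommGroup M] [NormedSpace ℂ M]

/-- the Moebius transform -/
noncomputable def GG (X : ℕ → M) (q : ℕ) : M :=
  ∑ d ∈ q.divisors, ((ArithmeticFunction.moebius (q / d) : ℤ) : ℂ) • X d

theorem main_sum (X : ℕ → M) (s s' : Finset ℕ) (hs : ∀ q ∈ s, 0 < q) (hs' : ∀ q ∈ s', 0 < q) :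
    ∑ q ∈ s, ∑ d ∈ q.divisors, ∑ q' ∈ s', ∑ d' ∈ q'.divisors,
      (((ArithmeticFunction.moebius (q / d) : ℤ) : ℂ) *
        ((ArithmeticFunction.moebius (q' / d') : ℤ) : ℂ)) • X (Nat.gcd d d') =
      ∑ q ∈ s ∩ s', GG X q := by
  classical
  have h1 : ∀ q ∈ s, ∑ d ∈ q.divisors, ∑ q' ∈ s', ∑ d' ∈ q'.divisors,
      (((ArithmeticFunction.moebius (q / d) : ℤ) : ℂ) *
        ((ArithmeticFunction.moebius (q' / d') : ℤ) : ℂ)) • X (Nat.gcd d d') =
      if q ∈ s' then GG X q else 0 := by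
    intro q hq
    rw [Finset.sum_comm]
    have h2 : ∀ q' ∈ s', ∑ d ∈ q.divisors, ∑ d' ∈ q'.divisors,
        (((ArithmeticFunction.moebius (q / d) : ℤ) : ℂ) *
          ((ArithmeticFunction.moebius (q' / d') : ℤ) : ℂ)) • X (Nat.gcd d d') =
        if q' = q then GG X q else 0 := by
      intro q' hq'
      rw [Finset.sum_comm]
      have h3 : ∀ d' ∈ q'.divisors, ∑ d ∈ q.divisors,
          (((ArithmeticFunction.moebius (q / d) : ℤ) : ℂ) *
            ((ArithmeticFunction.moebius (q' / d') : ℤ) : ℂ)) • X (Nat.gcd d d') =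
          if q ∣ d' then ((ArithmeticFunction.moebius (q' / d') : ℤ) : ℂ) • GG X q else 0 := by
        intro d' hd'
        have hd0 : 0 < d' := Nat.pos_of_mem_divisors hd'
        have h4 := moeb_gcd X (hs q hq) hd0
        have h5 : ∀ d ∈ q.divisors, (((ArithmeticFunction.moebius (q / d) : ℤ) : ℂ) *
            ((ArithmeticFunction.moebius (q' / d') : ℤ) : ℂ)) • X (Nat.gcd d d') =
            ((ArithmeticFunction.moebius (q' / d') : ℤ) : ℂ) •
              (((ArithmeticFunction.moebius (q / d) : ℤ) : ℂ) • X (Nat.gcd d d')) := by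
          intro d _
          rw [smul_smul, mul_comm]
        rw [Finset.sum_congr rfl h5, ← Finset.smul_sum, h4]
        split_ifs
        · rfl
        · rw [smul_zero]
      rw [Finset.sum_congr rfl h3, ← Finset.sum_filter, ← Finset.sum_smul,
        moeb_range (hs' q' hq') (hs q hq)]
      split_ifs
      · rw [one_smul]
      · rw [zero_smul]
    rw [Finset.sum_congr rfl h2, Finset.sum_ite_eq']
  rw [Finset.sum_congr rfl h1, ← Finset.sum_filter, Finset.filter_mem_eq_inter]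

theorem count {v : ℕ} {s : Finset ℕ} (hs : s ⊆ Icc 1 (2 ^ v)) :
    ∑ q ∈ s, (q.divisors.card : ℝ) ≤ 4 ^ v := by
  have h1 : ∀ q ∈ s, (q.divisors.card : ℝ) ≤ 2 ^ v := by
    intro q hq
    have h2 := (Finset.mem_Icc.1 (hs hq)).2
    exact_mod_cast (Nat.card_divisors_le_self q).trans h2
  refine (Finset.sum_le_sum h1).trans ?_
  rw [Finset.sum_const, nsmul_eq_mul]
  have h3 : (s.card : ℝ) ≤ 2 ^ v := by
    have h4 := Finset.card_le_card hs
    rw [Nat.card_Icc, Nat.add_sub_cancel] at h4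
    exact_mod_cast h4
  calc (s.card : ℝ) * 2 ^ v ≤ 2 ^ v * 2 ^ v := by gcongr
    _ = 4 ^ v := by
      rw [← mul_pow]
      norm_num

theorem core (β : M →ₗ[ℂ] M →ₗ[ℂ] M) (X Z : ℕ → M) {v : ℕ} {s s' : Finset ℕ}
    (hs : s ⊆ Icc 1 (2 ^ v)) (hs' : s' ⊆ Icc 1 (2 ^ v)) {δ : ℝ} (hδ : 0 ≤ δ)
    (h : ∀ d d' : ℕ, 0 < d → 0 < d' → d ≤ 2 ^ v → d' ≤ 2 ^ v →
      ‖β (X d) (Z d') - X (Nat.gcd d d')‖ ≤ δ) :
    ‖β (∑ q ∈ s, GG X q) (∑ q ∈ s', GG Z q) - ∑ q ∈ s ∩ s', GG X q‖ ≤ 16 ^ v * δ := by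
  classical
  have hs0 : ∀ q ∈ s, 0 < q := fun q hq => (Finset.mem_Icc.1 (hs hq)).1
  have hs0' : ∀ q ∈ s', 0 < q := fun q hq => (Finset.mem_Icc.1 (hs' hq)).1
  have h1 : β (∑ q ∈ s, GG X q) (∑ q ∈ s', GG Z q) =
      ∑ q ∈ s, ∑ d ∈ q.divisors, ∑ q' ∈ s', ∑ d' ∈ q'.divisors,
      (((ArithmeticFunction.moebius (q / d) : ℤ) : ℂ) *
        ((ArithmeticFunction.moebius (q' / d') : ℤ) : ℂ)) • β (X d) (Z d') := by
    rw [map_sum β, LinearMap.sum_apply]
    refine Finset.sum_congr rfl fun q _ => ?_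
    have e1 : β (GG X q) = ∑ d ∈ q.divisors,
        ((ArithmeticFunction.moebius (q / d) : ℤ) : ℂ) • β (X d) := by
      unfold GG
      rw [map_sum]
      exact Finset.sum_congr rfl fun d _ => map_smul _ _ _
    rw [e1, LinearMap.sum_apply]
    refine Finset.sum_congr rfl fun d _ => ?_
    rw [LinearMap.smul_apply, map_sum, Finset.smul_sum]
    refine Finset.sum_congr rfl fun q' _ => ?_
    unfold GG
    rw [map_sum, Finset.smul_sum]
    refine Finset.sum_congr rfl fun d' _ => ?_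
    rw [map_smul, smul_smul]
  rw [h1, ← main_sum X s s' hs0 hs0']
  simp only [← Finset.sum_sub_distrib, ← smul_sub]
  calc _ ≤ ∑ q ∈ s, ∑ d ∈ q.divisors, ∑ q' ∈ s', ∑ d' ∈ q'.divisors, δ := by
        refine (norm_sum_le _ _).trans (Finset.sum_le_sum fun q hq => ?_)
        refine (norm_sum_le _ _).trans (Finset.sum_le_sum fun d hd => ?_)
        refine (norm_sum_le _ _).trans (Finset.sum_le_sum fun q' hq' => ?_)
        refine (norm_sum_le _ _).trans (Finset.sum_le_sum fun d' hd' => ?_)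
        rw [norm_smul, norm_mul]
        have e1 := norm_moebius_le (q / d)
        have e2 := norm_moebius_le (q' / d')
        have e3 : d ≤ 2 ^ v := (Nat.divisor_le hd).trans (Finset.mem_Icc.1 (hs hq)).2
        have e4 : d' ≤ 2 ^ v := (Nat.divisor_le hd').trans (Finset.mem_Icc.1 (hs' hq')).2
        have e5 := h d d' (Nat.pos_of_mem_divisors hd) (Nat.pos_of_mem_divisors hd') e3 e4
        have e6 : ‖((ArithmeticFunction.moebius (q / d) : ℤ) : ℂ)‖ *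
            ‖((ArithmeticFunction.moebius (q' / d') : ℤ) : ℂ)‖ ≤ 1 :=
          mul_le_one₀ e1 (norm_nonneg _) e2
        calc _ ≤ 1 * δ := mul_le_mul e6 e5 (norm_nonneg _) zero_le_one
          _ = δ := one_mul δ
    _ = (∑ q ∈ s, (q.divisors.card : ℝ)) * ((∑ q ∈ s', (q.divisors.card : ℝ)) * δ) := by
        simp only [Finset.sum_const, nsmul_eq_mul, ← Finset.sum_mul]
    _ ≤ 4 ^ v * (4 ^ v * δ) := by
        have c1 := count hs
        have c2 := count hs'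
        have c3 : 0 ≤ ∑ q ∈ s', (q.divisors.card : ℝ) :=
          Finset.sum_nonneg fun _ _ => Nat.cast_nonneg _
        gcongr
    _ = 16 ^ v * δ := by
        rw [← mul_assoc, ← mul_pow]
        norm_num

theorem core1 (β : M →ₗ[ℂ] M) (X Z : ℕ → M) {v d : ℕ} {s : Finset ℕ}
    (hs : s ⊆ Icc 1 (2 ^ v)) (hd : 0 < d) (hds : d.divisors ⊆ s) {δ : ℝ} (hδ : 0 ≤ δ)
    (h : ∀ d' : ℕ, 0 < d' → d' ≤ 2 ^ v → ‖β (Z d') - X (Nat.gcd d d')‖ ≤ δ) :
    ‖β (∑ q ∈ s, GG Z q) - X d‖ ≤ 4 ^ v * δ := by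
  classical
  have hs0 : ∀ q ∈ s, 0 < q := fun q hq => (Finset.mem_Icc.1 (hs hq)).1
  have h1 : β (∑ q ∈ s, GG Z q) = ∑ q ∈ s, ∑ d' ∈ q.divisors,
      ((ArithmeticFunction.moebius (q / d') : ℤ) : ℂ) • β (Z d') := by
    unfold GG
    simp only [map_sum, map_smul]
  have h2 : X d = ∑ q ∈ s, ∑ d' ∈ q.divisors,
      ((ArithmeticFunction.moebius (q / d') : ℤ) : ℂ) • X (Nat.gcd d d') := by
    have h3 : ∀ q ∈ s, ∑ d' ∈ q.divisors,
        ((ArithmeticFunction.moebius (q / d') : ℤ) : ℂ) • X (Nat.gcd d d') =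
        if q ∣ d then ∑ e ∈ q.divisors,
          ((ArithmeticFunction.moebius (q / e) : ℤ) : ℂ) • X e else 0 := by
      intro q hq
      rw [← moeb_gcd X (hs0 q hq) hd]
      refine Finset.sum_congr rfl fun d' _ => ?_
      rw [Nat.gcd_comm]
    rw [Finset.sum_congr rfl h3, ← Finset.sum_filter]
    have h4 : s.filter (fun q => q ∣ d) = d.divisors := by
      ext q
      simp only [Finset.mem_filter, Nat.mem_divisors]
      constructor
      · rintro ⟨_, h5⟩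
        exact ⟨h5, hd.ne'⟩
      · rintro ⟨h5, _⟩
        exact ⟨hds (Nat.mem_divisors.2 ⟨h5, hd.ne'⟩), h5⟩
    rw [h4, moeb_sum X hd]
  rw [h1, h2]
  simp only [← Finset.sum_sub_distrib, ← smul_sub]
  calc _ ≤ ∑ q ∈ s, ∑ d' ∈ q.divisors, δ := by
        refine (norm_sum_le _ _).trans (Finset.sum_le_sum fun q hq => ?_)
        refine (norm_sum_le _ _).trans (Finset.sum_le_sum fun d' hd' => ?_)
        rw [norm_smul]
        have e4 : d' ≤ 2 ^ v := (Nat.divisor_le hd').trans (Finset.mem_Icc.1 (hs hq)).2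
        have e5 := h d' (Nat.pos_of_mem_divisors hd') e4
        calc _ ≤ 1 * δ := mul_le_mul (norm_moebius_le _) e5 (norm_nonneg _) zero_le_one
          _ = δ := one_mul δ
    _ = (∑ q ∈ s, (q.divisors.card : ℝ)) * δ := by
        simp only [Finset.sum_const, nsmul_eq_mul, ← Finset.sum_mul]
    _ ≤ 4 ^ v * δ := by
        have c1 := count hs
        gcongr

theorem Pi_eq {G H : Type} [Group G] [NormedAddCommGroup H] [InnerProductSpace ℂ H]
    [CompleteSpace H] (A : Dat G) (R : Rep G H) (c0 : ℕ) (s : Finset ℕ) (n : ℕ) :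
    A.Pi R c0 s n = ∑ q ∈ s, GG (fun d => A.Ph R c0 d n) q := rfl

theorem star_Pi_eq {G H : Type} [Group G] [NormedAddCommGroup H] [InnerProductSpace ℂ H]
    [CompleteSpace H] (A : Dat G) (R : Rep G H) (c0 : ℕ) (s : Finset ℕ) (n : ℕ) :
    star (A.Pi R c0 s n) = ∑ q ∈ s, GG (fun d => star (A.Ph R c0 d n)) q := by
  unfold Dat.Pi Dat.FF GG
  rw [star_sum]
  refine Finset.sum_congr rfl fun q _ => ?_
  rw [star_sum]
  refine Finset.sum_congr rfl fun d _ => ?_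
  rw [star_smul, star_intCast]

end Pi4Aux

namespace Dat

theorem pi4 {A : Dat G} (hA : A.Ok) (R : Rep G H) : ∃ C E : ℕ, ∀ (c0 v n n' t : ℕ)
    (s s' : Finset ℕ), s ⊆ Icc 1 (2 ^ v) → s' ⊆ Icc 1 (2 ^ v) → n' + E * (v + t) ≤ n →
    E * (v + t + 1) ≤ n' →
    ‖A.Pi R c0 s n * A.Pi R c0 s' n' - A.Pi R c0 (s ∩ s') n‖ ≤ C * (1 / 2) ^ t ∧
    ‖A.Pi R c0 s' n' * A.Pi R c0 s n - A.Pi R c0 (s ∩ s') n‖ ≤ C * (1 / 2) ^ t ∧
    ‖A.Pi R c0 s n * star (A.Pi R c0 s' n') - A.Pi R c0 (s ∩ s') n‖ ≤ C * (1 / 2) ^ t ∧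
    ‖star (A.Pi R c0 s' n') * A.Pi R c0 s n - A.Pi R c0 (s ∩ s') n‖ ≤ C * (1 / 2) ^ t := by
  obtain ⟨C, E, h⟩ := abs4 hA R
  refine ⟨C, 5 * E, fun c0 v n n' t s s' hs hs' hn hn' => ?_⟩
  have e1 : n' + E * (v + (t + 4 * v)) ≤ n := by
    refine le_trans ?_ hn
    nlinarith [Nat.zero_le (E * t)]
  have e2 : E * (v + (t + 4 * v) + 1) ≤ n' := by
    refine le_trans ?_ hn'
    nlinarith [Nat.zero_le (E * t), Nat.zero_le E]
  have e3 : (16 : ℝ) ^ v * (C * (1 / 2) ^ (t + 4 * v)) = C * (1 / 2) ^ t := by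
    rw [pow_add, pow_mul]
    have : (16 : ℝ) ^ v * ((1 / 2) ^ 4) ^ v = 1 := by
      rw [← mul_pow]
      norm_num
    calc (16 : ℝ) ^ v * ((C : ℝ) * ((1 / 2) ^ t * ((1 / 2) ^ 4) ^ v))
        = (C : ℝ) * (1 / 2) ^ t * (16 ^ v * ((1 / 2) ^ 4) ^ v) := by ring
      _ = (C : ℝ) * (1 / 2) ^ t := by rw [this, mul_one]
  have h4 := fun d d' hd hd' hdv hdv' =>
    h c0 d d' v n n' (t + 4 * v) hd hd' hdv hdv' e1 e2
  have hC : (0:ℝ) ≤ C * (1 / 2) ^ (t + 4 * v) := by positivity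
  refine ⟨?_, ?_, ?_, ?_⟩
  · have h5 := Pi4Aux.core (LinearMap.mul ℂ (H →L[ℂ] H)) (fun d => A.Ph R c0 d n)
      (fun d => A.Ph R c0 d n') hs hs' hC (fun d d' hd hd' hdv hdv' => by
        rw [LinearMap.mul_apply']
        exact (h4 d d' hd hd' hdv hdv').1)
    rw [LinearMap.mul_apply', e3] at h5
    exact h5
  · have h5 := Pi4Aux.core (LinearMap.mul ℂ (H →L[ℂ] H)).flip (fun d => A.Ph R c0 d n)
      (fun d => A.Ph R c0 d n') hs hs' hC (fun d d' hd hd' hdv hdv' => by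
        rw [LinearMap.flip_apply, LinearMap.mul_apply']
        exact (h4 d d' hd hd' hdv hdv').2.1)
    rw [LinearMap.flip_apply, LinearMap.mul_apply', e3] at h5
    exact h5
  · have h5 := Pi4Aux.core (LinearMap.mul ℂ (H →L[ℂ] H)) (fun d => A.Ph R c0 d n)
      (fun d => star (A.Ph R c0 d n')) hs hs' hC (fun d d' hd hd' hdv hdv' => by
        rw [LinearMap.mul_apply']
        exact (h4 d d' hd hd' hdv hdv').2.2.1)
    rw [LinearMap.mul_apply', e3, ← Pi4Aux.star_Pi_eq] at h5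
    exact h5
  · have h5 := Pi4Aux.core (LinearMap.mul ℂ (H →L[ℂ] H)).flip (fun d => A.Ph R c0 d n)
      (fun d => star (A.Ph R c0 d n')) hs hs' hC (fun d d' hd hd' hdv hdv' => by
        rw [LinearMap.flip_apply, LinearMap.mul_apply']
        exact (h4 d d' hd hd' hdv hdv').2.2.2)
    rw [LinearMap.flip_apply, LinearMap.mul_apply', e3, ← Pi4Aux.star_Pi_eq] at h5
    exact h5

theorem ph_pi {A : Dat G} (hA : A.Ok) (R : Rep G H) : ∃ C E : ℕ, ∀ (c0 v n n' t d : ℕ)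
    (s : Finset ℕ), s ⊆ Icc 1 (2 ^ v) → 0 < d → d ≤ 2 ^ v → d.divisors ⊆ s →
    n' + E * (v + t) ≤ n → E * (v + t + 1) ≤ n' →
    ‖A.Ph R c0 d n * A.Pi R c0 s n' - A.Ph R c0 d n‖ ≤ C * (1 / 2) ^ t ∧
    ‖A.Pi R c0 s n' * A.Ph R c0 d n - A.Ph R c0 d n‖ ≤ C * (1 / 2) ^ t := by
  obtain ⟨C, E, h⟩ := abs4 hA R
  refine ⟨C, 5 * E, fun c0 v n n' t d s hs hd hdv hds hn hn' => ?_⟩
  have e1 : n' + E * (v + (t + 4 * v)) ≤ n := by
    refine le_trans ?_ hn
    nlinarith [Nat.zero_le (E * t)]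
  have e2 : E * (v + (t + 4 * v) + 1) ≤ n' := by
    refine le_trans ?_ hn'
    nlinarith [Nat.zero_le (E * t), Nat.zero_le E]
  have e3 : (4 : ℝ) ^ v * (C * (1 / 2) ^ (t + 4 * v)) ≤ C * (1 / 2) ^ t := by
    rw [pow_add, pow_mul]
    have : (4 : ℝ) ^ v * ((1 / 2) ^ 4) ^ v ≤ 1 := by
      rw [← mul_pow]
      exact pow_le_one₀ (by norm_num) (by norm_num)
    have hC : (0:ℝ) ≤ C * (1 / 2) ^ t := by positivity
    calc (4 : ℝ) ^ v * ((C : ℝ) * ((1 / 2) ^ t * ((1 / 2) ^ 4) ^ v))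
        = (C : ℝ) * (1 / 2) ^ t * (4 ^ v * ((1 / 2) ^ 4) ^ v) := by ring
      _ ≤ (C : ℝ) * (1 / 2) ^ t * 1 := mul_le_mul_of_nonneg_left this hC
      _ = (C : ℝ) * (1 / 2) ^ t := mul_one _
  have h4 := fun d' hd' hdv' => h c0 d d' v n n' (t + 4 * v) hd hd' hdv hdv' e1 e2
  have hC : (0:ℝ) ≤ C * (1 / 2) ^ (t + 4 * v) := by positivity
  refine ⟨?_, ?_⟩
  · have h5 := Pi4Aux.core1 (LinearMap.mul ℂ (H →L[ℂ] H) (A.Ph R c0 d n))
      (fun d => A.Ph R c0 d n) (fun d => A.Ph R c0 d n') hs hd hds hC (fun d' hd' hdv' => by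
        rw [LinearMap.mul_apply']
        exact (h4 d' hd' hdv').1)
    rw [LinearMap.mul_apply'] at h5
    exact h5.trans e3
  · have h5 := Pi4Aux.core1 ((LinearMap.mul ℂ (H →L[ℂ] H)).flip (A.Ph R c0 d n))
      (fun d => A.Ph R c0 d n) (fun d => A.Ph R c0 d n') hs hd hds hC (fun d' hd' hdv' => by
        rw [LinearMap.flip_apply, LinearMap.mul_apply']
        exact (h4 d' hd' hdv').2.1)
    rw [LinearMap.flip_apply, LinearMap.mul_apply'] at h5
    exact h5.trans e3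

end Dat

end Pool.Agent.Lib.Npw
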