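import Pool.Agent.Lib.Npw.ApiB

/-!
# NPW (Part IV, step 3): powers of `T* T`

`X = star T * T` is self-adjoint. `‖T x‖² = ⟪X x, x⟫`; `‖⟪X^r x, x⟫‖² ≤ ‖X^r x‖² ‖x‖² = ⟪X^(2r) x, x⟫ ‖x‖²`. Induction on `ρ`:
`‖T x‖^(2·2^(ρ+1)) = (‖T x‖^(2·2^ρ))² ≤ ‖x‖^(4·2^ρ - 4) ‖⟪X^(2^ρ) x, x⟫‖² ≤ ‖x‖^(4·2^ρ - 2) ‖⟪X^(2^(ρ+1)) x, x⟫‖`.
-/

set_option autoImplicit false

open Finset

namespace Pool.Agent.Lib.Npw

variable {H : Type} [NormedAddCommGroup H] [InnerProductSpace ℂ H] [CompleteSpace H]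

private lemma pi_sq (X : H →L[ℂ] H) (hX : star X = X) (x : H) (r : ℕ) :
    ‖inner ℂ ((X ^ r) x) x‖ ^ 2 ≤ ‖x‖ ^ 2 * ‖inner ℂ ((X ^ (2 * r)) x) x‖ := by
  have h1 : ‖inner ℂ ((X ^ r) x) x‖ ≤ ‖(X ^ r) x‖ * ‖x‖ := norm_inner_le_norm _ _
  have hs : star (X ^ r) = X ^ r := by rw [star_pow, hX]
  have h2 : inner ℂ ((X ^ (2 * r)) x) x = ((‖(X ^ r) x‖ : ℂ)) ^ 2 := by
    have e1 : (X ^ (2 * r)) x = (star (X ^ r)) ((X ^ r) x) := by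
      rw [hs, two_mul, pow_add]
      rfl
    rw [e1, ContinuousLinearMap.star_eq_adjoint, ContinuousLinearMap.adjoint_inner_left,
      inner_self_eq_norm_sq_to_K]
    rfl
  have h3 : ‖inner ℂ ((X ^ (2 * r)) x) x‖ = ‖(X ^ r) x‖ ^ 2 := by
    rw [h2, norm_pow]
    congr 1
    rw [Complex.norm_real, Real.norm_eq_abs, abs_of_nonneg (norm_nonneg _)]
  rw [h3]
  calc ‖inner ℂ ((X ^ r) x) x‖ ^ 2 ≤ (‖(X ^ r) x‖ * ‖x‖) ^ 2 :=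
        pow_le_pow_left₀ (norm_nonneg _) h1 2
    _ = _ := by ring

theorem pow_ineq (T : H →L[ℂ] H) (x : H) (ρ : ℕ) :
    ‖T x‖ ^ (2 * 2 ^ ρ) ≤ ‖x‖ ^ (2 * 2 ^ ρ - 2) * ‖inner ℂ (((star T * T) ^ (2 ^ ρ)) x) x‖ := by
  induction ρ with
  | zero =>
    have e1 : ((star T * T) ^ (2 ^ 0)) x = (star T) (T x) := by
      rw [pow_zero, pow_one]
      rfl
    rw [e1, ContinuousLinearMap.star_eq_adjoint, ContinuousLinearMap.adjoint_inner_left,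
      inner_self_eq_norm_sq_to_K]
    simp
  | succ ρ ih =>
    have hX : star (star T * T) = star T * T := by rw [star_mul, star_star]
    have h1 := pi_sq (star T * T) hX x (2 ^ ρ)
    have h2 : 2 * 2 ^ ρ = 2 ^ (ρ + 1) := by ring
    rw [h2] at h1
    obtain ⟨m, hm⟩ : ∃ m, 2 * 2 ^ ρ = m + 2 := ⟨2 * 2 ^ ρ - 2, by
      have := Nat.one_le_two_pow (n := ρ)
      omega⟩
    have e1 : 2 * 2 ^ (ρ + 1) = (m + 2) + (m + 2) := by rw [← hm]; ring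
    have e2 : 2 * 2 ^ (ρ + 1) - 2 = m + m + 2 := by omega
    have e3 : 2 * 2 ^ ρ - 2 = m := by omega
    rw [e3, hm] at ih
    rw [e2, e1]
    have h0 : 0 ≤ ‖T x‖ ^ (m + 2) := by positivity
    calc ‖T x‖ ^ (m + 2 + (m + 2)) = (‖T x‖ ^ (m + 2)) ^ 2 := by rw [pow_add, sq]
      _ ≤ (‖x‖ ^ m * ‖inner ℂ (((star T * T) ^ (2 ^ ρ)) x) x‖) ^ 2 := pow_le_pow_left₀ h0 ih 2
      _ = ‖x‖ ^ (m + m) * ‖inner ℂ (((star T * T) ^ (2 ^ ρ)) x) x‖ ^ 2 := by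
          rw [mul_pow, pow_add]
          ring
      _ ≤ ‖x‖ ^ (m + m) * (‖x‖ ^ 2 * ‖inner ℂ (((star T * T) ^ (2 ^ (ρ + 1))) x) x‖) :=
          mul_le_mul_of_nonneg_left h1 (by positivity)
      _ = _ := by
          rw [pow_add ‖x‖ (m + m) 2]
          ring

end Pool.Agent.Lib.Npw
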