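import Pool.Agent.Lib.Npw.LocA

/-!
# NPW: residues, one factor

`per c d g` is the average of `U(z_c^(K g j))` over one period `0 ≤ j < d / g`.
`per_one`: let `g = gcd d d'`, `a = d / g`, `z = z_c`, `K = K_c`, `V r = T U(z^(K r))` for `r : ℕ`.
1. If `j < ll c d' n'` then `d' j = r + d s` with `r = (d' j) % d`, and `K d s ≤ K d' j ≤ 2^(n' w)` (`Kq_mul_le`), so
   `z^(K d s) ∈ Bx c0 d n'` and `‖V (d' j) - V r‖ = ‖(T U(z^(K d s)) - T) U(z^(K r))‖ ≤ δ`.
2. So `T * Cc c d' n'` is, up to `δ`, the average over `j < ll c d' n'` of `V ((d' j) % d)`. `j ↦ (d' j) % d` has period `a` and over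
   one period takes each value of `{r < d : g ∣ r} = {g i : i < a}` exactly once (`d' / g` is invertible mod `a`). For a function
   `φ` of period `a` with `‖φ‖ ≤ 1` the average over `j < ℓ` differs from the average over one
   period by at most `2 a / ℓ` (`j < a * (ℓ / a)` gives whole periods; the rest has `< a` terms; trivial if `ℓ < a`).
   Here `ℓ = ll c d' n' ≥ 2^(n' w) / (K d') ≥ 2^n' / (P0 d')` (`lt_mul_ll`), so `2 a / ℓ ≤ 2 P0 d d' (1/2)^n'`.
The starred version is the same with `z⁻¹` (`star (U g) = U g⁻¹`, boxes are closed under inverses).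
-/

set_option autoImplicit false

open Finset

namespace Pool.Agent.Lib.Npw

variable {G H : Type} [Group G] [NormedAddCommGroup H] [InnerProductSpace ℂ H] [CompleteSpace H]

namespace ResOneAux

/-- a periodic function of zero sum over one period: only the remainder counts -/
theorem sum_mod {E : Type} [AddCommMonoid E] (χ : ℕ → E) (a : ℕ) (hper : ∀ j, χ (a + j) = χ j)
    (h0 : ∑ j ∈ range a, χ j = 0) (t r : ℕ) :
    ∑ j ∈ range (a * t + r), χ j = ∑ j ∈ range r, χ j := by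
  induction t with
  | zero => simp
  | succ t ih =>
    have : a * (t + 1) + r = a + (a * t + r) := by ring
    rw [this, Finset.sum_range_add, h0, zero_add]
    simp only [hper]
    exact ih

/-- multiplication by a unit permutes the residues -/
theorem sum_unit {E : Type} [AddCommMonoid E] (Ψ : ℕ → E) (a u : ℕ) (ha : 0 < a)
    (hu : Nat.Coprime a u) : ∑ j ∈ range a, Ψ ((u * j) % a) = ∑ i ∈ range a, Ψ i := by
  have hinj : Set.InjOn (fun j => (u * j) % a) (range a : Finset ℕ) := by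
    intro x hx y hy hxy
    simp only [coe_range, Set.mem_Iio] at hx hy
    have h1 : u * x ≡ u * y [MOD a] := hxy
    have h2 : x ≡ y [MOD a] := Nat.ModEq.cancel_left_of_coprime hu h1
    have h3 : x % a = y % a := h2
    rwa [Nat.mod_eq_of_lt hx, Nat.mod_eq_of_lt hy] at h3
  have himg : (range a).image (fun j => (u * j) % a) = range a := by
    apply Finset.eq_of_subset_of_card_le
    · intro x hx
      obtain ⟨j, _, rfl⟩ := Finset.mem_image.1 hx
      exact Finset.mem_range.2 (Nat.mod_lt _ ha)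
    · rw [Finset.card_image_of_injOn hinj]
  conv_rhs => rw [← himg]
  rw [Finset.sum_image hinj]

/-- averages of a periodic function -/
theorem avg_per (φ : ℕ → H →L[ℂ] H) (a ℓ : ℕ) (ha : 0 < a) (hℓ : 0 < ℓ)
    (hper : ∀ j, φ (a + j) = φ j) (hφ : ∀ j, ‖φ j‖ ≤ 1) :
    ‖avg ℓ φ - avg a φ‖ ≤ 2 * a / ℓ := by
  have hP : ‖avg a φ‖ ≤ 1 := norm_avg_le zero_le_one fun m _ => hφ m
  have haC : (a : ℂ) ≠ 0 := by exact_mod_cast ha.ne'
  have h0 : ∑ j ∈ range a, (φ j - avg a φ) = 0 := by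
    rw [Finset.sum_sub_distrib, Finset.sum_const, card_range, avg, ← Nat.cast_smul_eq_nsmul ℂ,
      smul_smul, mul_inv_cancel₀ haC, one_smul, sub_self]
  have h1 : avg ℓ φ - avg a φ = avg ℓ fun j => φ j - avg a φ := by
    conv_lhs => rw [← avg_const hℓ (avg a φ)]
    rw [avg_sub]
  rw [h1, avg, norm_smul, norm_inv, Complex.norm_natCast]
  have h2 : ∑ j ∈ range ℓ, (φ j - avg a φ) = ∑ j ∈ range (ℓ % a), (φ j - avg a φ) := by
    conv_lhs => rw [← Nat.div_add_mod ℓ a]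
    exact sum_mod (fun j => φ j - avg a φ) a (fun j => by simp only [hper]) h0 (ℓ / a) (ℓ % a)
  have h3 : ‖∑ j ∈ range (ℓ % a), (φ j - avg a φ)‖ ≤ 2 * a := by
    calc ‖∑ j ∈ range (ℓ % a), (φ j - avg a φ)‖
        ≤ ∑ j ∈ range (ℓ % a), ‖φ j - avg a φ‖ := norm_sum_le _ _
      _ ≤ ∑ j ∈ range (ℓ % a), (2 : ℝ) := by
          apply Finset.sum_le_sum
          intro j _
          have := norm_sub_le (φ j) (avg a φ)
          linarith [hφ j]
      _ = (ℓ % a : ℕ) * 2 := by rw [Finset.sum_const, card_range, nsmul_eq_mul]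
      _ ≤ 2 * a := by
          have : ((ℓ % a : ℕ) : ℝ) ≤ a := by exact_mod_cast (Nat.mod_lt ℓ ha).le
          linarith
  rw [h2, div_eq_inv_mul]
  have hℓR : (0 : ℝ) ≤ (ℓ : ℝ)⁻¹ := by positivity
  exact mul_le_mul_of_nonneg_left h3 hℓR

end ResOneAux

namespace Dat

/-- the average over one period -/
noncomputable def per (A : Dat G) (R : Rep G H) (c : Fin A.D) (d g : ℕ) : H →L[ℂ] H :=
  avg (d / g) fun j => R.U (A.z c ^ (A.K c * g * j))

end Dat

namespace ResOneAux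

/-- the common statement for `z` and `z⁻¹` -/
theorem key (A : Dat G) (R : Rep G H) (c : Fin A.D) (c0 d d' n' : ℕ) (δ : ℝ) (T : H →L[ℂ] H)
    (x : G) (hx : ∀ e : ℕ, A.K c * d ∣ e → e ≤ 2 ^ (n' * A.w c) → x ^ e ∈ A.Bx c0 d n')
    (hd : 0 < d) (hd' : 0 < d') (hδ : 0 ≤ δ) (hT : ‖T‖ ≤ 1) (h : A.RI R c0 d n' δ T) :
    ‖T * (avg (A.ll c d' n') fun j => R.U (x ^ (A.K c * d' * j))) -
        T * (avg (d / Nat.gcd d d') fun j => R.U (x ^ (A.K c * Nat.gcd d d' * j)))‖ ≤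
      δ + 2 * A.P0 * d * d' * (1 / 2) ^ n' := by
  set g := Nat.gcd d d' with hg
  set ℓ := A.ll c d' n' with hℓ
  have hg0 : 0 < g := Nat.gcd_pos_of_pos_left _ hd
  obtain ⟨a, ha⟩ : g ∣ d := Nat.gcd_dvd_left d d'
  obtain ⟨u, hu⟩ : g ∣ d' := Nat.gcd_dvd_right d d'
  have hda : d / g = a := by rw [ha]; exact Nat.mul_div_cancel_left a hg0
  have hdu : d' / g = u := by rw [hu]; exact Nat.mul_div_cancel_left u hg0
  have ha0 : 0 < a := by
    rcases Nat.eq_zero_or_pos a with h0 | h0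
    · rw [h0, mul_zero] at ha; omega
    · exact h0
  have hcop : Nat.Coprime a u := by
    rw [← hda, ← hdu]
    exact Nat.coprime_div_gcd_div_gcd hg0
  have hℓ0 : 0 < ℓ := A.ll_pos c d' n'
  -- the periodic function
  set φ : ℕ → H →L[ℂ] H := fun j => T * R.U (x ^ (A.K c * ((d' * j) % d))) with hφ
  have hφΨ : ∀ j, φ j = T * R.U (x ^ (A.K c * g * ((u * j) % a))) := by
    intro j
    have : (d' * j) % d = g * ((u * j) % a) := by
      conv_lhs => rw [hu, ha, mul_assoc]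
      exact Nat.mul_mod_mul_left g (u * j) a
    simp only [hφ, this, mul_assoc]
  have hper : ∀ j, φ (a + j) = φ j := by
    intro j
    rw [hφΨ, hφΨ]
    have : (u * (a + j)) % a = (u * j) % a := by
      rw [mul_add, Nat.add_mod, Nat.mul_mod_left, zero_add, Nat.mod_mod]
    rw [this]
  have hφ1 : ∀ j, ‖φ j‖ ≤ 1 := by
    intro j
    calc ‖φ j‖ ≤ ‖T‖ * ‖R.U (x ^ (A.K c * ((d' * j) % d)))‖ := norm_mul_le _ _
      _ ≤ 1 * 1 := mul_le_mul hT (R.norm_le _) (norm_nonneg _) zero_le_one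
      _ = 1 := one_mul 1
  -- the period average
  have hT2 : T * (avg (d / g) fun j => R.U (x ^ (A.K c * g * j))) = avg a φ := by
    rw [mul_avg, hda]
    simp only [avg]
    congr 1
    rw [← sum_unit (fun i => T * R.U (x ^ (A.K c * g * i))) a u ha0 hcop]
    exact Finset.sum_congr rfl fun j _ => (hφΨ j).symm
  -- the long average
  have hT1 : ‖(avg ℓ fun j => T * R.U (x ^ (A.K c * d' * j))) - avg ℓ φ‖ ≤ δ := by
    apply norm_avg_sub_le hδ
    intro j hj
    have e1 : A.K c * d' * j = A.K c * d * ((d' * j) / d) + A.K c * ((d' * j) % d) := by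
      calc A.K c * d' * j = A.K c * (d' * j) := by ring
        _ = A.K c * (d * ((d' * j) / d) + (d' * j) % d) := by rw [Nat.div_add_mod]
        _ = _ := by ring
    have e2 : A.K c * d * ((d' * j) / d) ≤ 2 ^ (n' * A.w c) := by
      have h1 := A.Kq_mul_le (c := c) (q := d') (n := n') hj
      rw [e1] at h1
      omega
    have e3 := h _ (hx _ (Dvd.intro _ rfl) e2)
    have e4 : T * R.U (x ^ (A.K c * d' * j)) - φ j =
        (T * R.U (x ^ (A.K c * d * ((d' * j) / d))) - T) * R.U (x ^ (A.K c * ((d' * j) % d))) := by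
      have e5 : R.U (x ^ (A.K c * d' * j)) =
          R.U (x ^ (A.K c * d * ((d' * j) / d))) * R.U (x ^ (A.K c * ((d' * j) % d))) := by
        rw [e1, pow_add, map_mul]
      simp only [hφ]
      rw [e5, sub_mul, mul_assoc T]
    rw [e4]
    calc ‖(T * R.U (x ^ (A.K c * d * ((d' * j) / d))) - T) * R.U (x ^ (A.K c * ((d' * j) % d)))‖
        ≤ ‖T * R.U (x ^ (A.K c * d * ((d' * j) / d))) - T‖ *
            ‖R.U (x ^ (A.K c * ((d' * j) % d)))‖ := norm_mul_le _ _
      _ ≤ δ * 1 := mul_le_mul e3 (R.norm_le _) (norm_nonneg _) hδ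
      _ = δ := mul_one δ
  have hT3 := avg_per φ a ℓ ha0 hℓ0 hper hφ1
  have hbd : 2 * (a : ℝ) / ℓ ≤ 2 * A.P0 * d * d' * (1 / 2) ^ n' := by
    have h1 := A.lt_mul_ll (c := c) hd' n'
    have h2 : 2 ^ n' ≤ 2 ^ (n' * A.w c) := by
      apply Nat.pow_le_pow_right (by norm_num)
      exact Nat.le_mul_of_pos_right _ (Nat.succ_pos _)
    have h3 : 2 ^ n' ≤ A.P0 * d' * ℓ := by
      calc 2 ^ n' ≤ A.K c * d' * A.ll c d' n' := h2.trans h1.le
        _ ≤ A.P0 * d' * ℓ := Nat.mul_le_mul_right _ (A.K_mul_le c d')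
    have h4 : (2 : ℝ) ^ n' ≤ A.P0 * d' * ℓ := by exact_mod_cast h3
    have h5 : (a : ℝ) ≤ d := by
      have : a ≤ d := by rw [ha]; exact Nat.le_mul_of_pos_left _ hg0
      exact_mod_cast this
    have hℓR : (0 : ℝ) < ℓ := by exact_mod_cast hℓ0
    rw [div_le_iff₀ hℓR]
    have h6 : (1 : ℝ) ≤ A.P0 * d' * ℓ * (1 / 2) ^ n' := by
      have h7 : (1 : ℝ) = 2 ^ n' * (1 / 2) ^ n' := by rw [← mul_pow]; norm_num
      have h8 : (0 : ℝ) ≤ (1 / 2) ^ n' := by positivity
      exact h7.le.trans (mul_le_mul_of_nonneg_right h4 h8)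
    calc 2 * (a : ℝ) ≤ 2 * d := by linarith
      _ = 2 * d * 1 := by ring
      _ ≤ 2 * d * (A.P0 * d' * ℓ * (1 / 2) ^ n') := mul_le_mul_of_nonneg_left h6 (by positivity)
      _ = 2 * A.P0 * d * d' * (1 / 2) ^ n' * ℓ := by ring
  rw [hT2, mul_avg]
  calc ‖(avg ℓ fun j => T * R.U (x ^ (A.K c * d' * j))) - avg a φ‖
      = ‖((avg ℓ fun j => T * R.U (x ^ (A.K c * d' * j))) - avg ℓ φ) + (avg ℓ φ - avg a φ)‖ := by
        congr 1; abel
    _ ≤ ‖(avg ℓ fun j => T * R.U (x ^ (A.K c * d' * j))) - avg ℓ φ‖ + ‖avg ℓ φ - avg a φ‖ :=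
        norm_add_le _ _
    _ ≤ δ + 2 * A.P0 * d * d' * (1 / 2) ^ n' := add_le_add hT1 (hT3.trans hbd)

end ResOneAux

namespace Dat

theorem per_one (A : Dat G) (R : Rep G H) (c : Fin A.D) (c0 d d' n' : ℕ) (δ : ℝ) (T : H →L[ℂ] H)
    (hc : c0 ≤ (c : ℕ)) (hd : 0 < d) (hd' : 0 < d') (hT : ‖T‖ ≤ 1) (h : A.RI R c0 d n' δ T) :
    ‖T * A.Cc R c d' n' - T * A.per R c d (Nat.gcd d d')‖ ≤
      δ + 2 * A.P0 * d * d' * (1 / 2) ^ n' ∧
    ‖T * star (A.Cc R c d' n') - T * star (A.per R c d (Nat.gcd d d'))‖ ≤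
      δ + 2 * A.P0 * d * d' * (1 / 2) ^ n' := by
  have hx : ∀ e : ℕ, A.K c * d ∣ e → e ≤ 2 ^ (n' * A.w c) → A.z c ^ e ∈ A.Bx c0 d n' := by
    intro e he he'
    refine ⟨c, (e : ℤ), hc, by exact_mod_cast he, ?_, (zpow_natCast _ _).symm⟩
    rw [abs_of_nonneg (Int.natCast_nonneg e)]
    exact_mod_cast he'
  have hδ : 0 ≤ δ := by
    have h1 := h _ (hx 0 (dvd_zero _) (Nat.zero_le _))
    exact (norm_nonneg _).trans h1
  constructor
  · exact ResOneAux.key A R c c0 d d' n' δ T (A.z c) hx hd hd' hδ hT h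
  · have e1 : star (A.Cc R c d' n') =
        avg (A.ll c d' n') fun j => R.U ((A.z c)⁻¹ ^ (A.K c * d' * j)) := by
      simp only [Cc, star_avg, R.star_U, inv_pow]
    have e2 : star (A.per R c d (Nat.gcd d d')) =
        avg (d / Nat.gcd d d') fun j => R.U ((A.z c)⁻¹ ^ (A.K c * Nat.gcd d d' * j)) := by
      simp only [per, star_avg, R.star_U, inv_pow]
    rw [e1, e2]
    refine ResOneAux.key A R c c0 d d' n' δ T (A.z c)⁻¹ ?_ hd hd' hδ hT h
    intro e he he'
    rw [inv_pow]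
    exact A.Bx_inv (hx e he he')

end Dat

end Pool.Agent.Lib.Npw
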