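import Pool.Agent.Lib.Npw.ApiB
import Pool.Agent.Lib.Npw.SvDefs

/-!
# NPW (Part IV, step 4): van der Corput in one coordinate

Write `x = update x' c y`. `‖sv‖ ≤ ∑_{x'} ‖∑_{y<ℓ c} U(F(x',y)) u‖ ‖u‖`, Cauchy-Schwarz over the at most `L^(card κ - 1)` values `x'`, and
`‖∑_{y<ℓ} v_y‖² = re (∑_y ⟪v_y,v_y⟫ + 2 ∑_{h≥1} ∑_{y<ℓ-h} ⟪v_{y+h}, v_y⟫)`; `⟪U(F(x+h)) u, U(F x) u⟫ = ⟪U(F(x)⁻¹ F(x+h)) u, u⟫` (`Rep.inner_apply`) is the term of
`ld (Pi.single c h) F`. Sum over `x'`: `∑_{x'} ∑_{y<ℓ c - h} = sv (ld ..) (update ℓ c (ℓ c - h))`. (`h ≥ ℓ c` gives empty sums.)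
-/

set_option autoImplicit false

open Finset

namespace Pool.Agent.Lib.Npw

variable {G H : Type} [Group G] [NormedAddCommGroup H] [InnerProductSpace ℂ H] [CompleteSpace H]
  {κ : Type} [Fintype κ] [DecidableEq κ]

namespace VdcStepAux

/-- splitting off one coordinate of a box -/
lemma sum_box {M : Type} [AddCommMonoid M] (f : (κ → ℕ) → M) (ℓ : κ → ℕ) (c : κ) (n : ℕ) :
    ∑ x ∈ Fintype.piFinset (fun d => range (Function.update ℓ c n d)), f x =
      ∑ x ∈ Fintype.piFinset (fun d => range (Function.update ℓ c 1 d)),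
        ∑ y ∈ range n, f (Function.update x c y) := by
  rw [← Finset.sum_product']
  refine Finset.sum_bij' (fun x _ => (Function.update x c 0, x c))
    (fun p _ => Function.update p.1 c p.2) ?_ ?_ ?_ ?_ ?_
  · intro x hx
    rw [Fintype.mem_piFinset] at hx
    rw [Finset.mem_product, Fintype.mem_piFinset]
    refine ⟨fun d => ?_, ?_⟩
    · by_cases hd : d = c
      · subst hd
        simp
      · have := hx d
        simp only [Function.update_of_ne hd] at this ⊢
        exact this
    · have := hx c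
      simpa using this
  · intro p hp
    rw [Finset.mem_product, Fintype.mem_piFinset] at hp
    rw [Fintype.mem_piFinset]
    intro d
    by_cases hd : d = c
    · subst hd
      simpa using hp.2
    · have := hp.1 d
      simp only [Function.update_of_ne hd] at this ⊢
      exact this
  · intro x _
    simp
  · intro p hp
    rw [Finset.mem_product, Fintype.mem_piFinset] at hp
    have h0 : p.1 c = 0 := by
      have := hp.1 c
      simpa using this
    ext1
    · simp only [Function.update_idem]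
      rw [← h0, Function.update_eq_self]
    · simp
  · intro x _
    simp

omit [CompleteSpace H] in
lemma norm_sum_sq (v : ℕ → H) (L : ℕ) : ∀ n ≤ L, ‖∑ y ∈ range n, v y‖ ^ 2 =
    RCLike.re (∑ y ∈ range n, inner ℂ (v y) (v y)) +
      2 * ∑ h ∈ Ico 1 L, RCLike.re (∑ y ∈ range (n - h), inner ℂ (v (y + h)) (v y)) := by
  intro n
  induction n with
  | zero => intro _; simp
  | succ n ih =>
    intro hn
    have ih' := ih (by omega)
    rw [sum_range_succ, sum_range_succ, norm_add_sq (𝕜 := ℂ), ih', map_add,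
      inner_self_eq_norm_sq (𝕜 := ℂ) (v n)]
    have h1 : ∑ h ∈ Ico 1 L, RCLike.re (∑ y ∈ range (n + 1 - h), inner ℂ (v (y + h)) (v y)) =
        ∑ h ∈ Ico 1 L, RCLike.re (∑ y ∈ range (n - h), inner ℂ (v (y + h)) (v y)) +
          RCLike.re (inner ℂ (∑ y ∈ range n, v y) (v n)) := by
      have h2 : RCLike.re (inner ℂ (∑ y ∈ range n, v y) (v n)) =
          ∑ h ∈ Ico 1 L, if h ≤ n then RCLike.re (inner ℂ (v n) (v (n - h))) else 0 := by
        rw [sum_inner, map_sum, ← Finset.sum_filter]
        refine Finset.sum_bij' (fun y _ => n - y) (fun h _ => n - h) ?_ ?_ ?_ ?_ ?_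
        · intro y hy
          rw [mem_range] at hy
          rw [mem_filter, mem_Ico]
          omega
        · intro h hh
          rw [mem_filter, mem_Ico] at hh
          rw [mem_range]
          omega
        · intro y hy
          rw [mem_range] at hy
          omega
        · intro h hh
          rw [mem_filter, mem_Ico] at hh
          omega
        · intro y hy
          rw [mem_range] at hy
          have : n - (n - y) = y := by omega
          rw [this]
          exact inner_re_symm (𝕜 := ℂ) _ _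
      rw [h2, ← Finset.sum_add_distrib]
      refine Finset.sum_congr rfl fun h hh => ?_
      rw [mem_Ico] at hh
      by_cases hle : h ≤ n
      · rw [if_pos hle]
        have h3 : n + 1 - h = (n - h) + 1 := by omega
        rw [h3, sum_range_succ, map_add]
        have h4 : n - h + h = n := by omega
        rw [h4]
      · rw [if_neg hle]
        have h3 : n + 1 - h = 0 := by omega
        have h4 : n - h = 0 := by omega
        rw [h3, h4]
        simp
    rw [h1]
    ring

end VdcStepAux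

open VdcStepAux in
theorem vdc_step (R : Rep G H) (F : (κ → ℕ) → G) (ℓ : κ → ℕ) {L : ℕ} (hL : 0 < L)
    (hℓ : ∀ c, ℓ c ≤ L) (u : H) (c : κ) :
    ‖sv R F ℓ u‖ ^ 2 ≤ ‖u‖ ^ 2 * (L : ℝ) ^ (Fintype.card κ - 1) * (2 *
      ∑ h ∈ range L, ‖sv R (ld (Pi.single c h) F) (Function.update ℓ c (ℓ c - h)) u‖) := by
  set P : Finset (κ → ℕ) := Fintype.piFinset (fun d => range (Function.update ℓ c 1 d)) with hP
  set v : (κ → ℕ) → ℕ → H := fun x y => R.U (F (Function.update x c y)) u with hv
  have hcard : (P.card : ℝ) ≤ (L : ℝ) ^ (Fintype.card κ - 1) := by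
    have h1 : P.card ≤ L ^ (Fintype.card κ - 1) := by
      rw [hP, Fintype.card_piFinset]
      simp only [card_range]
      rw [← Finset.mul_prod_erase univ _ (mem_univ c), Function.update_self, one_mul]
      calc ∏ d ∈ univ.erase c, Function.update ℓ c 1 d ≤ ∏ _d ∈ univ.erase c, L := by
            refine Finset.prod_le_prod' fun d hd => ?_
            rw [Function.update_of_ne (Finset.ne_of_mem_erase hd)]
            exact hℓ d
        _ = L ^ (Fintype.card κ - 1) := by
            rw [Finset.prod_const, Finset.card_erase_of_mem (mem_univ c), Finset.card_univ]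
    exact_mod_cast h1
  -- the terms of the differenced sums
  have hD : ∀ h : ℕ, sv R (ld (Pi.single c h) F) (Function.update ℓ c (ℓ c - h)) u =
      ∑ x ∈ P, ∑ y ∈ range (ℓ c - h), inner ℂ (v x (y + h)) (v x y) := by
    intro h
    unfold sv
    rw [sum_box]
    refine Finset.sum_congr rfl fun x _ => Finset.sum_congr rfl fun y _ => ?_
    rw [hv]
    simp only
    rw [Rep.inner_apply]
    unfold ld
    have : Function.update x c y + Pi.single c h = Function.update x c (y + h) := by
      ext d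
      by_cases hd : d = c
      · subst hd; simp
      · simp [Function.update_of_ne hd, Pi.single_eq_of_ne hd]
    rw [this]
  have hS : sv R F ℓ u = inner ℂ (∑ x ∈ P, ∑ y ∈ range (ℓ c), v x y) u := by
    unfold sv
    have := sum_box (fun x => inner ℂ (R.U (F x) u) u) ℓ c (ℓ c)
    rw [Function.update_eq_self] at this
    rw [this, sum_inner]
    refine Finset.sum_congr rfl fun x _ => ?_
    rw [sum_inner]
  have h1 : ‖sv R F ℓ u‖ ≤ (∑ x ∈ P, ‖∑ y ∈ range (ℓ c), v x y‖) * ‖u‖ := by
    rw [hS]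
    refine (norm_inner_le_norm _ _).trans ?_
    gcongr
    exact norm_sum_le _ _
  have h2 : (∑ x ∈ P, ‖∑ y ∈ range (ℓ c), v x y‖) ^ 2 ≤
      P.card * ∑ x ∈ P, ‖∑ y ∈ range (ℓ c), v x y‖ ^ 2 := sq_sum_le_card_mul_sum_sq
  have h3 : ∑ x ∈ P, ‖∑ y ∈ range (ℓ c), v x y‖ ^ 2 ≤ 2 *
      ∑ h ∈ range L, ‖sv R (ld (Pi.single c h) F) (Function.update ℓ c (ℓ c - h)) u‖ := by
    have e1 : ∑ x ∈ P, ‖∑ y ∈ range (ℓ c), v x y‖ ^ 2 =
        RCLike.re (sv R (ld (Pi.single c 0) F) (Function.update ℓ c (ℓ c - 0)) u) +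
        2 * ∑ h ∈ Ico 1 L,
          RCLike.re (sv R (ld (Pi.single c h) F) (Function.update ℓ c (ℓ c - h)) u) := by
      rw [hD 0, map_sum]
      simp only [hD, map_sum (RCLike.re (K := ℂ)) _ P]
      rw [Finset.sum_comm, Finset.mul_sum, ← Finset.sum_add_distrib]
      refine Finset.sum_congr rfl fun x _ => ?_
      rw [norm_sum_sq (v x) L (ℓ c) (hℓ c)]
      simp
    rw [e1, Finset.mul_sum, Finset.mul_sum, Finset.range_eq_Ico,
      ← Finset.add_sum_Ioo_eq_sum_Ico hL]
    have e2 : Ioo 0 L = Ico 1 L := by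
      ext i; rw [mem_Ioo, mem_Ico]; omega
    rw [e2]
    refine add_le_add ?_ (Finset.sum_le_sum fun h _ => ?_)
    · refine (RCLike.re_le_norm _).trans ?_
      have := norm_nonneg (sv R (ld (Pi.single c 0) F) (Function.update ℓ c (ℓ c - 0)) u)
      linarith
    · exact mul_le_mul_of_nonneg_left (RCLike.re_le_norm _) (by norm_num)
  calc ‖sv R F ℓ u‖ ^ 2 ≤ ((∑ x ∈ P, ‖∑ y ∈ range (ℓ c), v x y‖) * ‖u‖) ^ 2 := by
        gcongr
    _ = ‖u‖ ^ 2 * (∑ x ∈ P, ‖∑ y ∈ range (ℓ c), v x y‖) ^ 2 := by ring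
    _ ≤ ‖u‖ ^ 2 * (P.card * ∑ x ∈ P, ‖∑ y ∈ range (ℓ c), v x y‖ ^ 2) := by gcongr
    _ ≤ ‖u‖ ^ 2 * ((L : ℝ) ^ (Fintype.card κ - 1) * (2 *
      ∑ h ∈ range L, ‖sv R (ld (Pi.single c h) F) (Function.update ℓ c (ℓ c - h)) u‖)) := by
        gcongr
    _ = _ := by ring

end Pool.Agent.Lib.Npw
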